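import Pool.Agent.Lib.MP_990519_co.Big.Defs

namespace Pool.Agent.Lib.MP_990519_co.Big

open Finset
open scoped Classical ComplexConjugate

open Polynomial in
theorem c1a_card {c0 c1 c2 c3 c4 : ℂ} (h : ¬ (c0 = 0 ∧ c1 = 0 ∧ c2 = 0)) (T : Finset ℂ)
    (hT : ∀ t ∈ T, c0 + c1 * t + c2 * t ^ 2 + c3 * t ^ 3 + c4 * t ^ 4 = 0) : T.card ≤ 4 := by
  let p : ℂ[X] := C c0 + C c1 * X + C c2 * X ^ 2 + C c3 * X ^ 3 + C c4 * X ^ 4
  have h0 : p ≠ 0 := fun e => h ⟨by simpa [p] using congrArg (coeff · 0) e,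
    by simpa [p, coeff_X] using congrArg (coeff · 1) e,
    by simpa [p, coeff_X] using congrArg (coeff · 2) e⟩
  have h1 : p.natDegree ≤ 4 := by
    simp only [p]
    compute_degree
  refine (card_le_degree_of_subset_roots fun t ht => (mem_roots h0).2 ?_).trans h1
  simpa [p] using hT t ht

theorem int_circ {w w' : Cv} (hw : Valid w) (hw' : Valid w') (hm : w'.2.2 = 0) (hne : w ≠ w')
    (F : Finset ℂ) (hF : ∀ z ∈ F, On w z ∧ On w' z) : F.card ≤ 8 := by
  obtain ⟨o, C, m⟩ := w
  obtain ⟨o', C', m'⟩ := w'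
  obtain rfl : m' = 0 := hm
  have hC : 0 < C := hw
  have hC' : 0 < C' := hw'
  choose! τ h1 h2 using fun z hz => (hF z hz).1
  rw [← card_image_of_injOn (f := τ) fun z hz z' hz' e => by rw [h2 z hz, h2 z' hz', e]]
  refine (c1a_card (c0 := (o - o') * conj m) (c1 := C * (o - o' + conj m))
    (c2 := (o - o') * conj (o - o') + C ^ 2 + m * conj m - C' ^ 2) (c3 := C * (conj (o - o') + m))
    (c4 := m * conj (o - o')) ?_ _ fun t ht => ?_).trans (by norm_num)
  · rintro ⟨e0, e1, e2⟩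
    have e3 : o - o' = -conj m := eq_neg_of_add_eq_zero_left
      ((mul_eq_zero.1 e1).resolve_left (Complex.ofReal_ne_zero.2 hC.ne'))
    rw [e3, neg_mul, neg_eq_zero, mul_self_eq_zero, map_eq_zero] at e0
    subst e0
    rw [map_zero, neg_zero] at e3
    rw [e3, zero_mul, zero_add, add_zero, sub_eq_zero] at e2
    have e4 : C ^ 2 = C' ^ 2 := by exact_mod_cast e2
    exact hne (by rw [sub_eq_zero.1 e3, (sq_eq_sq₀ hC.le hC'.le).1 e4])
  · obtain ⟨z, hz, rfl⟩ := mem_image.1 ht
    obtain ⟨s, h3, h4⟩ := (hF z hz).2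
    have h5 : τ z * conj (τ z) = 1 := by rw [Complex.mul_conj', h1 z hz]; simp
    have h6 : s * conj s = 1 := by rw [Complex.mul_conj', h3]; simp
    have h7 : o - o' + C * τ z + m * τ z ^ 2 = C' * s := by
      have h8 := (h2 z hz).symm.trans h4
      simp only [zc] at h8
      linear_combination h8
    have h8 := congrArg conj h7
    simp only [map_add, map_mul, map_pow, Complex.conj_ofReal] at h8
    generalize τ z = t at h5 h7 h8
    generalize conj t = u at h5 h8
    have h9 : conj (o - o') * t ^ 2 + C * t + conj m = C' * conj s * t ^ 2 := by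
      linear_combination t ^ 2 * h8 - (C * t + conj m * (t * u + 1)) * h5
    linear_combination (conj (o - o') * t ^ 2 + C * t + conj m) * h7 + C' * s * h9 +
      C' ^ 2 * t ^ 2 * h6

end Pool.Agent.Lib.MP_990519_co.Big
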