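import Pool.Agent.Lib.MP_990519_co.Big.Defs

namespace Pool.Agent.Lib.MP_990519_co.Big

open Finset
open scoped Classical ComplexConjugate

open Polynomial in
theorem c1b_poly {q0 q1 q2 q3 q4 q5 q6 q7 q8 : ℂ} {T : Finset ℂ} (hT : 8 < T.card)
    (h : ∀ t ∈ T, q8 * t ^ 8 + q7 * t ^ 7 + q6 * t ^ 6 + q5 * t ^ 5 + q4 * t ^ 4 + q3 * t ^ 3 +
      q2 * t ^ 2 + q1 * t + q0 = 0) : q8 = 0 ∧ q6 = 0 ∧ q5 = 0 ∧ q4 = 0 := by
  have h1 := eq_zero_of_natDegree_lt_card_of_eval_eq_zero' (C q8 * X ^ 8 + C q7 * X ^ 7 +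
    C q6 * X ^ 6 + C q5 * X ^ 5 + C q4 * X ^ 4 + C q3 * X ^ 3 + C q2 * X ^ 2 + C q1 * X + C q0) T
    (fun t ht => by simpa using h t ht) (lt_of_le_of_lt (by compute_degree) hT)
  refine ⟨?_, ?_, ?_, ?_⟩
  · simpa [coeff_X, coeff_C] using congrArg (coeff · 8) h1
  · simpa [coeff_X, coeff_C] using congrArg (coeff · 6) h1
  · simpa [coeff_X, coeff_C] using congrArg (coeff · 5) h1
  · simpa [coeff_X, coeff_C] using congrArg (coeff · 4) h1

theorem c1b_impl {s r c m n v u : ℂ} (h : s * r = 1) (hv : v = c * s + m * s ^ 2 + n)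
    (hu : u = c * r + n * r ^ 2 + m) : (v * u - m * v - n * u) ^ 2 = c ^ 2 * (v * u) := by
  have h1 : v = s * (c + m * s + n * r) := by linear_combination hv - n * h
  have h2 : u = r * (c + m * s + n * r) := by linear_combination hu - m * h
  have h3 : v * u = (c + m * s + n * r) ^ 2 := by
    rw [h1, h2]
    linear_combination (c + m * s + n * r) ^ 2 * h
  rw [h3, h1, h2]
  ring

theorem c1b_alg {a c m n m' n' : ℂ} (e1 : m * a = c * m') (e1' : n * a = c * n')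
    (e2 : 2 * (a + m * n - m' * n') = a + c)
    (e3 : (a + m * n - m' * n') ^ 2 + 2 * (m * n) * a = c * (m' * n' + a + m * n)) : a = c := by
  have h0 : a ^ 2 * (m * n) = c ^ 2 * (m' * n') := by
    linear_combination (n * a) * e1 + (c * m') * e1'
  generalize m * n = b at *
  generalize m' * n' = b' at *
  have h1 : (a - c) * (a - 3 * c + 8 * b) = 0 := by
    linear_combination 4 * e3 - (2 * (a + b - b') + a + c + 2 * c) * e2
  have h2 : (a - c) * (2 * b * (a + c) - c ^ 2) = 0 := by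
    linear_combination 2 * h0 - c ^ 2 * e2
  have h3 : (a - c) ^ 3 = 0 := by linear_combination (a + c) * h1 - 4 * h2
  exact sub_eq_zero.1 (pow_eq_zero_iff three_ne_zero |>.1 h3)

/-- paper 1.1, both curves with `m ≠ 0`.  For `z` on `w' = (o', C', m')` put
`v = z - o' + conj m' = t' * (C' + 2 Re (m' t'))`; then
`(v * conj v - m' * v - conj (m' * v)) ^ 2 = C' ^ 2 * (v * conj v)`.  Substitute `z = zc w t`,
`conj t = t⁻¹`, multiply by `t ^ 4`: degree at most 8.  If the polynomial is zero compare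
coefficients as in the paper: first `o = o'`, then `m C² = C'² m'`, `2 Ξ₀ = C² + C'²`,
`Ξ₀² + 2|m|²C² = C'²(|m'|² + C² + |m|²)` with `Ξ₀ = C² + |m|² - |m'|²`; these give `C = C'`. -/
theorem int_web {w w' : Cv} (hw : Valid w) (hw' : Valid w') (hm : w.2.2 ≠ 0) (hm' : w'.2.2 ≠ 0)
    (hne : w ≠ w') (F : Finset ℂ) (hF : ∀ z ∈ F, On w z ∧ On w' z) : F.card ≤ 8 := by
  obtain ⟨o, c, m⟩ := w
  obtain ⟨o', c', m'⟩ := w'
  change 0 < c at hw
  change 0 < c' at hw'
  change m ≠ 0 at hm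
  by_contra hlt
  choose! τ h1 h2 using fun z hz => (hF z hz).1
  have hcard : (F.image τ).card = F.card :=
    card_image_of_injOn fun z hz z' hz' e => by rw [h2 z hz, h2 z' hz', e]
  obtain ⟨a, ha⟩ : ∃ a, a = o - o' + conj m' := ⟨_, rfl⟩
  obtain ⟨y4, hy4⟩ : ∃ y, y = m * conj a := ⟨_, rfl⟩
  obtain ⟨y3, hy3⟩ : ∃ y, y = c * conj a + m * c := ⟨_, rfl⟩
  obtain ⟨y2, hy2⟩ : ∃ y, y = a * conj a + c ^ 2 + m * conj m := ⟨_, rfl⟩
  obtain ⟨y1, hy1⟩ : ∃ y, y = a * c + c * conj m := ⟨_, rfl⟩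
  obtain ⟨y0, hy0⟩ : ∃ y, y = a * conj m := ⟨_, rfl⟩
  obtain ⟨x4, hx4⟩ : ∃ x, x = y4 - m' * m := ⟨_, rfl⟩
  obtain ⟨x3, hx3⟩ : ∃ x, x = y3 - m' * c := ⟨_, rfl⟩
  obtain ⟨x2, hx2⟩ : ∃ x, x = y2 - m' * a - conj m' * conj a := ⟨_, rfl⟩
  obtain ⟨x1, hx1⟩ : ∃ x, x = y1 - conj m' * c := ⟨_, rfl⟩
  obtain ⟨x0, hx0⟩ : ∃ x, x = y0 - conj m' * conj m := ⟨_, rfl⟩
  obtain ⟨e8, e6, e5, e4⟩ := c1b_poly (T := F.image τ) (q8 := x4 ^ 2) (q7 := 2 * x4 * x3)
    (q6 := 2 * x4 * x2 + x3 ^ 2 - c' ^ 2 * y4) (q5 := 2 * x4 * x1 + 2 * x3 * x2 - c' ^ 2 * y3)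
    (q4 := 2 * x4 * x0 + 2 * x3 * x1 + x2 ^ 2 - c' ^ 2 * y2)
    (q3 := 2 * x3 * x0 + 2 * x2 * x1 - c' ^ 2 * y1) (q2 := 2 * x2 * x0 + x1 ^ 2 - c' ^ 2 * y0)
    (q1 := 2 * x1 * x0) (q0 := x0 ^ 2) (by omega) (by
      intro t ht
      obtain ⟨z, hz, rfl⟩ := mem_image.1 ht
      obtain ⟨s, hs, h3⟩ := (hF z hz).2
      have h4 := (h2 z hz).symm.trans h3
      have h5 := h1 z hz
      generalize τ z = t at h4 h5
      have ht : t * conj t = 1 := by rw [Complex.mul_conj', h5]; simp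
      have hs' : s * conj s = 1 := by rw [Complex.mul_conj', hs]; simp
      simp only [zc] at h4
      have h6 : a + c * t + m * t ^ 2 = c' * s + m' * s ^ 2 + conj m' := by
        linear_combination ha + h4
      have h7 := congrArg conj h6
      simp only [map_add, map_mul, map_pow, Complex.conj_ofReal, Complex.conj_conj] at h7
      have h8 := c1b_impl hs' h6 h7
      have h9 : t ^ 2 * (conj a + c * conj t + conj m * conj t ^ 2) =
          conj a * t ^ 2 + c * t + conj m := by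
        linear_combination (c * t + conj m * (t * conj t + 1)) * ht
      generalize conj a + c * conj t + conj m * conj t ^ 2 = u at h8 h9
      have h10 : y4 * t ^ 4 + y3 * t ^ 3 + y2 * t ^ 2 + y1 * t + y0 =
          t ^ 2 * ((a + c * t + m * t ^ 2) * u) := by
        rw [mul_left_comm, h9, hy4, hy3, hy2, hy1, hy0]
        ring
      have h11 : x4 * t ^ 4 + x3 * t ^ 3 + x2 * t ^ 2 + x1 * t + x0 = t ^ 2 *
          ((a + c * t + m * t ^ 2) * u - m' * (a + c * t + m * t ^ 2) - conj m' * u) := by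
        rw [hx4, hx3, hx2, hx1, hx0]
        linear_combination h10 + conj m' * h9
      have h12 : (x4 * t ^ 4 + x3 * t ^ 3 + x2 * t ^ 2 + x1 * t + x0) ^ 2 =
          c' ^ 2 * t ^ 2 * (y4 * t ^ 4 + y3 * t ^ 3 + y2 * t ^ 2 + y1 * t + y0) := by
        rw [h10, h11, mul_pow, h8]
        ring
      linear_combination h12)
  have hc : (c : ℂ) ≠ 0 := by exact_mod_cast hw.ne'
  have h0 : x4 = 0 := (pow_eq_zero_iff two_ne_zero).1 e8
  have h3 : conj a = m' := mul_left_cancel₀ hm (by linear_combination h0 - hx4 - hy4)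
  have h4 : a = conj m' := by rw [← h3, Complex.conj_conj]
  have h5 : o = o' := by linear_combination h4 - ha
  rw [h3] at hy4 hy3 hy2 hx2
  rw [h4] at hy2 hy1 hx2
  have h6 : x3 = m * c := by linear_combination hx3 + hy3
  have h7 : x2 = c ^ 2 + m * conj m - m' * conj m' := by linear_combination hx2 + hy2
  have h8 : x1 = c * conj m := by linear_combination hx1 + hy1
  rw [h0, h6] at e6 e5 e4
  have e1 : m * c ^ 2 = c' ^ 2 * m' := mul_left_cancel₀ hm (by
    linear_combination e6 + c' ^ 2 * hy4)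
  have e1' := congrArg conj e1
  simp only [map_mul, map_pow, Complex.conj_ofReal] at e1'
  have h9 := c1b_alg e1 e1' (mul_left_cancel₀ (mul_ne_zero hm hc) (by
    linear_combination e5 + c' ^ 2 * hy3 - 2 * m * c * h7 - c * e1)) (by
    rw [h7, h8, hy2] at e4
    linear_combination e4)
  have h10 : c = c' := (pow_left_inj₀ hw.le hw'.le two_ne_zero).1 (by exact_mod_cast h9)
  refine hne (Prod.ext h5 (Prod.ext h10 ?_))
  rw [← h9, mul_comm] at e1
  exact mul_left_cancel₀ (pow_ne_zero 2 hc) e1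

end Pool.Agent.Lib.MP_990519_co.Big
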