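import Pool.Agent.Lib.MP_990519_co.Big.C1a
import Pool.Agent.Lib.MP_990519_co.Big.C1b

namespace Pool.Agent.Lib.MP_990519_co.Big

open Finset
open scoped Classical ComplexConjugate

theorem int8 {w w' : Cv} (hw : Valid w) (hw' : Valid w') (hne : w ≠ w')
    (F : Finset ℂ) (hF : ∀ z ∈ F, On w z ∧ On w' z) : F.card ≤ 8 := by
  by_cases h : w'.2.2 = 0
  · exact int_circ hw hw' h hne F hF
  · by_cases h' : w.2.2 = 0
    · exact int_circ hw' hw h' hne.symm F fun z hz => (hF z hz).symm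
    · exact int_web hw hw' h' h hne F hF

theorem Good.symm {w : Cv} {y a b : ℂ} (h : Good w y a b) : Good w y b a := by
  obtain ⟨ta, tb, h1, h2, h3, h4, h5⟩ := h
  exact ⟨tb, ta, h2, h1, h4, h3, h5.imp_right fun e => by rw [e, mul_right_comm]⟩

theorem Good.on {w : Cv} {y a b : ℂ} (h : Good w y a b) : On w a ∧ On w b := by
  obtain ⟨ta, tb, h1, h2, h3, h4, -⟩ := h
  exact ⟨⟨ta, h1, h3⟩, tb, h2, h4⟩

theorem Popular.mono {S : Finset ℂ} {γ γ' : ℝ} {w : Cv} (h : Popular S γ w) (hγ : γ' ≤ γ) :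
    Popular S γ' w := by
  exact ⟨h.1, (mul_le_mul_of_nonneg_right hγ (Nat.cast_nonneg _)).trans h.2⟩

theorem GGood.mono {S : Finset ℂ} {γ γ' : ℝ} {y a b : ℂ} (h : GGood S γ y a b) (hγ : γ' ≤ γ) :
    GGood S γ' y a b := by
  exact h.imp fun _ h1 => ⟨h1.1.mono hγ, h1.2⟩

theorem GGood.symm {S : Finset ℂ} {γ : ℝ} {y a b : ℂ} (h : GGood S γ y a b) : GGood S γ y b a := by
  exact h.imp fun _ h1 => ⟨h1.1, h1.2.symm⟩

theorem c2_union (S : Finset ℂ) (W : Finset Cv) (h : ∀ w ∈ W, Valid w) :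
    ∑ w ∈ W, (S.filter (On w)).card ≤ (W.biUnion fun w => S.filter (On w)).card + 8 * W.card ^ 2 := by
  induction W using Finset.induction_on with
  | empty => simp
  | insert a W ha ih =>
    have h1 := ih fun w hw => h w (mem_insert_of_mem hw)
    have h2 := card_union_add_card_inter (S.filter (On a)) (W.biUnion fun w => S.filter (On w))
    have h3 : (S.filter (On a) ∩ W.biUnion fun w => S.filter (On w)).card ≤ W.card * 8 := by
      rw [inter_biUnion]
      exact card_biUnion_le_card_mul _ _ 8 fun w hw => int8 (h a (mem_insert_self _ _))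
        (h w (mem_insert_of_mem hw)) (fun e => ha (e ▸ hw)) _ fun z hz =>
          ⟨(mem_filter.1 (mem_inter.1 hz).1).2, (mem_filter.1 (mem_inter.1 hz).2).2⟩
    rw [sum_insert ha, biUnion_insert, card_insert_of_notMem ha]
    nlinarith

theorem pop_card (γ : ℝ) (hγ : 0 < γ) : ∃ n0 : ℕ, ∀ S : Finset ℂ, n0 ≤ S.card →
    ∃ W : Finset Cv, (∀ w, w ∈ W ↔ Popular S γ w) ∧ (W.card : ℝ) ≤ 2 / γ := by
  refine ⟨8 * (⌊2 / γ⌋₊ + 1) ^ 2 + 1, fun S hS => ?_⟩
  have key : ∀ W : Finset Cv, (∀ w ∈ W, Popular S γ w) → W.card ≠ ⌊2 / γ⌋₊ + 1 := fun W hW e => by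
    have h1 := (c2_union S W fun w hw => (hW w hw).1).trans (Nat.add_le_add_right
      (card_le_card (biUnion_subset.2 fun w _ => filter_subset _ _)) _)
    have h2 : (W.card : ℝ) * (γ * S.card) ≤ ∑ w ∈ W, ((S.filter (On w)).card : ℝ) := by
      rw [← nsmul_eq_mul]
      exact card_nsmul_le_sum _ _ _ fun w hw => (hW w hw).2
    have h3 : 2 / γ < W.card := by
      rw [e]
      exact_mod_cast Nat.lt_floor_add_one _
    rw [div_lt_iff₀ hγ] at h3
    rw [← e] at hS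
    have h4 : ∑ w ∈ W, ((S.filter (On w)).card : ℝ) ≤ S.card + 8 * W.card ^ 2 := by
      exact_mod_cast h1
    have h5 : 8 * (W.card : ℝ) ^ 2 + 1 ≤ S.card := by exact_mod_cast hS
    nlinarith [mul_le_mul_of_nonneg_right h3.le (Nat.cast_nonneg (α := ℝ) S.card)]
  have hf : {w | Popular S γ w}.Finite := by
    by_contra h
    obtain ⟨W, h1, h2⟩ := Set.Infinite.exists_subset_card_eq h (⌊2 / γ⌋₊ + 1)
    exact key W h1 h2
  refine ⟨hf.toFinset, fun w => hf.mem_toFinset, le_trans (Nat.cast_le.2 ?_)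
    (Nat.floor_le (by positivity))⟩
  by_contra h
  obtain ⟨W, h1, h2⟩ := exists_subset_card_eq (Nat.succ_le_of_lt (not_le.1 h))
  exact key W (fun w hw => hf.mem_toFinset.1 (h1 hw)) h2

theorem node_eq {w : Cv} (hw : Valid w) {t t' : ℂ} (ht : ‖t‖ = 1) (ht' : ‖t'‖ = 1) (hne : t ≠ t')
    (h : zc w t = zc w t') : zc w t = node w := by
  have hC : (w.2.1 : ℂ) ≠ 0 := Complex.ofReal_ne_zero.2 (ne_of_gt hw)
  have h1 : t * conj t = 1 := by rw [Complex.mul_conj', ht]; simp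
  have h2 : t' * conj t' = 1 := by rw [Complex.mul_conj', ht']; simp
  have h3 : w.2.1 + w.2.2 * (t + t') = 0 := by
    refine mul_left_cancel₀ (sub_ne_zero.2 hne) ?_
    simp only [zc] at h
    linear_combination h
  have h4 := congrArg conj h3
  simp only [map_add, map_mul, map_zero, Complex.conj_ofReal] at h4
  have h5 : w.2.2 * t * t' = conj w.2.2 := by
    refine mul_left_cancel₀ hC ?_
    linear_combination w.2.2 * t * t' * h4 - conj w.2.2 * h3 -
      w.2.2 * conj w.2.2 * t' * h1 - w.2.2 * conj w.2.2 * t * h2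
  simp only [zc, node]
  linear_combination t * h3 - h5

theorem good_two {w : Cv} (hw : Valid w) {y a b b' : ℂ} (hy : y ≠ w.1 ∨ w.2.2 ≠ 0)
    (ha : a ≠ node w) (h1 : Good w y a b) (h2 : Good w y a b') (d1 : dist y a = dist y b)
    (d2 : dist y a = dist y b') (hab : a ≠ b) (hab' : a ≠ b') : b = b' := by
  obtain ⟨s, t, g1, g2, g3, g4, g5⟩ := h1
  obtain ⟨s', t', e1, e2, e3, e4, e5⟩ := h2
  by_cases hm : w.2.2 = 0
  · have hd : ∀ u : ℂ, ‖u‖ = 1 → dist (zc w u) w.1 = w.2.1 := fun u hu => by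
      rw [dist_eq_norm, zc, hm, zero_mul, add_zero, add_sub_cancel_left, norm_mul, hu, mul_one,
        Complex.norm_real, Real.norm_of_nonneg (le_of_lt hw)]
    refine ((EuclideanGeometry.eq_of_dist_eq_of_dist_eq_of_finrank_eq_two
      Complex.finrank_real_complex (hy.resolve_right (not_not.2 hm)) hab (dist_comm _ _)
      ((dist_comm _ _).trans d1.symm) ((dist_comm _ _).trans d2.symm) (g3 ▸ hd s g1) (g4 ▸ hd t g2)
      (e4 ▸ hd t' e2)).resolve_left hab'.symm).symm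
  · obtain rfl : s = s' := by
      by_contra h
      exact ha (g3.trans (node_eq hw g1 e1 h (g3.symm.trans e3)))
    have h0 : s ≠ 0 := fun e => by simp [e] at g1
    rw [g4, e4, mul_left_cancel₀ (mul_ne_zero hm h0)
      (sub_right_injective ((g5.resolve_left hm).symm.trans (e5.resolve_left hm)))]

theorem notC0_card (γ γ' : ℝ) (hγ' : 0 < γ') (hle : γ' ≤ γ) : ∃ K n0 : ℕ, ∀ S : Finset ℂ,
    n0 ≤ S.card → ∀ c : ℂ → Cv, (∀ x ∈ S, InC S γ x → Popular S γ (c x) ∧ On (c x) x) →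
      (S.filter (fun x => InC S γ x ∧ ¬ InC0 S γ γ' c x)).card ≤ K := by
  obtain ⟨n0, h⟩ := pop_card γ' hγ'
  refine ⟨⌊2 / γ'⌋₊ + ⌊2 / γ'⌋₊ * ⌊2 / γ'⌋₊ * 8, n0, fun S hS c hc => ?_⟩
  obtain ⟨W, h1, h2⟩ := h S hS
  have h3 : W.card ≤ ⌊2 / γ'⌋₊ := Nat.le_floor h2
  have h4 : S.filter (fun x => InC S γ x ∧ ¬ InC0 S γ γ' c x) ⊆ W.image node ∪
      W.offDiag.biUnion fun p => S.filter fun x => On p.1 x ∧ On p.2 x := fun x hx => by
    obtain ⟨h5, h6, h7⟩ := mem_filter.1 hx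
    obtain ⟨h8, h9⟩ := hc x h5 h6
    have h10 := (h1 _).2 (h8.mono hle)
    by_cases e : x = node (c x)
    · exact mem_union_left _ (mem_image.2 ⟨_, h10, e.symm⟩)
    · by_contra h11
      refine h7 ⟨h6, e, fun w g1 g2 => ?_⟩
      by_contra g3
      exact h11 (mem_union_right _ (mem_biUnion.2 ⟨(w, c x), mem_offDiag.2 ⟨(h1 _).2 g1, h10, g3⟩,
        mem_filter.2 ⟨h5, g2, h9⟩⟩))
  refine (card_le_card h4).trans ((card_union_le _ _).trans (add_le_add (card_image_le.trans h3)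
    ((card_biUnion_le_card_mul _ _ 8 fun p hp => ?_).trans (Nat.mul_le_mul_right 8 ?_))))
  · obtain ⟨g1, g2, g3⟩ := mem_offDiag.1 hp
    exact int8 ((h1 _).1 g1).1 ((h1 _).1 g2).1 g3 _ fun z hz => (mem_filter.1 hz).2
  · rw [offDiag_card]
    exact (Nat.sub_le _ _).trans (Nat.mul_le_mul h3 h3)

end Pool.Agent.Lib.MP_990519_co.Big
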