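import Pool.Agent.Lib.MP_990519_co.Big.Defs

namespace Pool.Agent.Lib.MP_990519_co.Big

open Finset
open scoped Classical ComplexConjugate

theorem c3_zero {f g : ℝ → ℝ} (hf : ∀ x, HasDerivAt f (g x) x) (hg : Continuous g)
    {a b a' b' : ℝ} (h : a < b) (h' : a' < b') (e : f b ≤ f a) (e' : f a' ≤ f b') :
    ∃ x, g x = 0 ∧ min a a' ≤ x ∧ x ≤ max b b' := by
  have hc : ∀ s, ContinuousOn f s := fun s x _ => (hf x).continuousAt.continuousWithinAt
  obtain ⟨c, h1, h2⟩ := exists_hasDerivAt_eq_slope f g h (hc _) fun x _ => hf x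
  obtain ⟨c', h3, h4⟩ := exists_hasDerivAt_eq_slope f g h' (hc _) fun x _ => hf x
  obtain ⟨x, h5, h6⟩ := intermediate_value_uIcc (a := c) (b := c') hg.continuousOn
    (Set.mem_uIcc_of_le (x := 0) (h2 ▸ div_nonpos_of_nonpos_of_nonneg (sub_nonpos.2 e)
      (sub_nonneg.2 h.le)) (h4 ▸ div_nonneg (sub_nonneg.2 e') (sub_nonneg.2 h'.le)))
  exact ⟨x, h6, (min_le_min h1.1.le h3.1.le).trans h5.1, h5.2.trans (max_le_max h1.2.le h3.2.le)⟩

open Polynomial in
theorem c3_card {c₁ c₂ : ℂ} (h : ¬ (c₁ = 0 ∧ c₂ = 0)) : ∃ R : Finset ℂ, R.card ≤ 4 ∧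
    ∀ t, 2 * c₂ * t ^ 4 + c₁ * t ^ 3 - conj c₁ * t - 2 * conj c₂ = 0 → t ∈ R := by
  let p : ℂ[X] := C (2 * c₂) * X ^ 4 + C c₁ * X ^ 3 - C (conj c₁) * X - C (2 * conj c₂)
  have h0 : p ≠ 0 := fun e => h ⟨by simpa [p, coeff_X, coeff_C, -map_mul] using congrArg (coeff · 3) e,
    by simpa [p, coeff_X, coeff_C, -map_mul] using congrArg (coeff · 4) e⟩
  refine ⟨p.roots.toFinset, (Multiset.toFinset_card_le _).trans (p.card_roots'.trans ?_),
    fun t ht => Multiset.mem_toFinset.2 ((mem_roots h0).2 (by simpa [p] using ht))⟩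
  unfold p
  compute_degree

/-- paper 1.5.  `h θ = dist y (zc w (exp (θ i)))`.  For a bad group let `[a, b]` be its smallest
and largest angle.  `h ^ 2 = c0 + 2 Re (c1 t + c2 t ^ 2)` with `v = y - o`, `c1 = C (m - conj v)`,
`c2 = - m conj v`, `(c1, c2) ≠ 0`.  If the derivative had no zero on `[a, b]` it would have a fixed
sign there (it is continuous), and `h` would be strictly monotone.  The intervals of different
groups are disjoint because `grp` is monotone, the zeros give different roots `t` of the nonzero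
polynomial `2 c2 t ^ 4 + c1 t ^ 3 - conj c1 t - 2 conj c2`. -/
theorem crit {w : Cv} (hw : Valid w) {y : ℂ} (hy : y ≠ w.1 ∨ w.2.2 ≠ 0) (Θ : Finset ℝ)
    (hΘ : ∀ a ∈ Θ, -Real.pi < a ∧ a ≤ Real.pi) (grp : ℝ → ℕ)
    (hg : ∀ a ∈ Θ, ∀ b ∈ Θ, a ≤ b → grp a ≤ grp b) :
    ((Θ.image grp).filter (fun j => ¬ (
      (∀ a ∈ Θ, ∀ b ∈ Θ, grp a = j → grp b = j → a < b →
        dist y (zc w (Complex.exp (a * Complex.I))) <
          dist y (zc w (Complex.exp (b * Complex.I)))) ∨
      (∀ a ∈ Θ, ∀ b ∈ Θ, grp a = j → grp b = j → a < b →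
        dist y (zc w (Complex.exp (b * Complex.I))) <
          dist y (zc w (Complex.exp (a * Complex.I))))))).card ≤ 4 := by
  obtain ⟨o, C, m⟩ := w
  let t : ℝ → ℂ := fun x => Complex.exp (x * Complex.I)
  let z : ℝ → ℂ := fun x => y - zc (o, C, m) (t x)
  let z' : ℝ → ℂ := fun x => -((C * t x + 2 * m * t x ^ 2) * Complex.I)
  have ht : ∀ x : ℝ, HasDerivAt t (t x * Complex.I) x := fun x => by
    simpa using ((hasDerivAt_id x).ofReal_comp.mul_const Complex.I).cexp
  have hz : ∀ x, HasDerivAt z (z' x) x := fun x =>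
    (((((ht x).const_mul (C : ℂ)).const_add o).add (((ht x).pow 2).const_mul m)).const_sub
      y).congr_deriv (by simp only [z']; ring)
  have hc : Continuous fun x => 2 * inner ℝ (z x) (z' x) := by
    simp only [z, z', t, zc]
    fun_prop
  obtain ⟨R, hR, hR'⟩ := c3_card (c₁ := C * (m - conj (y - o))) (c₂ := -m * conj (y - o)) (by
    rintro ⟨h1, h2⟩
    rw [mul_eq_zero, sub_eq_zero, or_iff_right (Complex.ofReal_ne_zero.2 (ne_of_gt hw))] at h1
    rw [← h1, neg_mul, neg_eq_zero, mul_self_eq_zero] at h2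
    exact hy.elim (fun h => h (sub_eq_zero.1 ((map_eq_zero _).1 (h1.symm.trans h2)))) fun h => h h2)
  have key : ∀ j ∈ (Θ.image grp).filter (fun j => ¬ (
      (∀ a ∈ Θ, ∀ b ∈ Θ, grp a = j → grp b = j → a < b → ‖z a‖ < ‖z b‖) ∨
      (∀ a ∈ Θ, ∀ b ∈ Θ, grp a = j → grp b = j → a < b → ‖z b‖ < ‖z a‖))),
      ∃ x, t x ∈ R ∧ ∃ a ∈ Θ, ∃ b ∈ Θ, grp a = j ∧ grp b = j ∧ a ≤ x ∧ x ≤ b := fun j hj => by
    have h1 := (mem_filter.1 hj).2
    push Not at h1
    obtain ⟨⟨a, ha, b, hb, ea, eb, h2, h3⟩, a', ha', b', hb', ea', eb', h4, h5⟩ := h1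
    obtain ⟨x, h6, h7, h8⟩ := c3_zero (fun x => (hz x).norm_sq) hc h2 h4
      (pow_le_pow_left₀ (norm_nonneg _) h3 2) (pow_le_pow_left₀ (norm_nonneg _) h5 2)
    refine ⟨x, hR' _ ?_, min a a', ?_, max b b', ?_, ?_, ?_, h7, h8⟩
    · have h9 : t x * conj (t x) = 1 := by
        rw [Complex.mul_conj', Complex.norm_exp_ofReal_mul_I]
        simp
      have h10 := Complex.add_conj (z' x * conj (z x))
      rw [← Complex.inner, h6] at h10
      simp only [z, z', zc, map_mul, map_sub, map_add, map_neg, map_pow, Complex.conj_conj,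
        Complex.conj_ofReal, Complex.conj_I, map_ofNat, Complex.ofReal_zero] at h10 ⊢
      generalize conj (t x) = s at h9 h10
      generalize t x = u at h9 h10
      have h11 := Complex.I_mul_I
      grind
    all_goals simp only [min_def, max_def]; split_ifs <;> assumption
  choose! θ hθ hθ' using key
  simp only [dist_eq_norm]
  refine (card_le_card_of_injOn (fun j => t (θ j)) (fun j hj => hθ j hj)
    fun j hj j' hj' e => ?_).trans hR
  obtain ⟨a, ha, b, hb, rfl, e1, h1, h2⟩ := hθ' j hj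
  obtain ⟨a', ha', b', hb', rfl, e2, h3, h4⟩ := hθ' j' hj'
  have h5 := Complex.exp_inj_of_neg_pi_lt_of_le_pi (by simpa using (hΘ a ha).1.trans_le h1)
    (by simpa using h2.trans (hΘ b hb).2) (by simpa using (hΘ a' ha').1.trans_le h3)
    (by simpa using h4.trans (hΘ b' hb').2) e
  rw [mul_left_inj' Complex.I_ne_zero, Complex.ofReal_inj] at h5
  exact ((hg a ha b' hb' (by linarith)).trans_eq e2).antisymm
    ((hg a' ha' b hb (by linarith)).trans_eq e1)

end Pool.Agent.Lib.MP_990519_co.Big
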