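import Pool.Agent.Lib.MP_990519_co.Main

namespace Pool.Agent.Lib.MP_990519_co.Big

open Finset
open scoped Classical ComplexConjugate

noncomputable section

/-- strictly convex position -/
def Cvx (S : Finset ℂ) : Prop := ConvexIndependent ℝ (fun p : (S : Set ℂ) => (p : ℂ))

/-- Euclidean scalar product -/
def dot (u v : ℂ) : ℝ := u.re * v.re + u.im * v.im

/-- unit vector -/
def dir (v : ℂ) : ℂ := v / (‖v‖ : ℂ)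

/-- number of distinct distances from `y` -/
def tcount (S : Finset ℂ) (y : ℂ) : ℕ := ((S.erase y).image (dist y)).card

/-- the sum `T` -/
def Tsum (S : Finset ℂ) : ℕ := ∑ y ∈ S, tcount S y

/-- condition (i) of `AtMostTwice` -/
def CondI (S : Finset ℂ) : Prop :=
  ∀ x ∈ S, ∀ a ∈ S, ∀ b ∈ S, ∀ c ∈ S, a ≠ b → a ≠ c → b ≠ c →
    dist x a = dist x b → dist x a = dist x c → ∀ z ∈ S, dist x z ≤ dist x a

/-! ### Curves (paper section 1) -/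

/-- a curve `(o, C, m)` -/
abbrev Cv : Type := ℂ × ℝ × ℂ

def zc (w : Cv) (t : ℂ) : ℂ := w.1 + (w.2.1 : ℂ) * t + w.2.2 * t ^ 2

def Valid (w : Cv) : Prop := 0 < w.2.1

def On (w : Cv) (z : ℂ) : Prop := ∃ t : ℂ, ‖t‖ = 1 ∧ z = zc w t

def Good (w : Cv) (y a b : ℂ) : Prop :=
  ∃ ta tb : ℂ, ‖ta‖ = 1 ∧ ‖tb‖ = 1 ∧ a = zc w ta ∧ b = zc w tb ∧
    (w.2.2 = 0 ∨ y = w.1 - w.2.2 * ta * tb)

def node (w : Cv) : ℂ := w.1 - conj w.2.2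

def Popular (S : Finset ℂ) (γ : ℝ) (w : Cv) : Prop :=
  Valid w ∧ γ * S.card ≤ (S.filter (On w)).card

def GGood (S : Finset ℂ) (γ : ℝ) (y a b : ℂ) : Prop := ∃ w, Popular S γ w ∧ Good w y a b

/-! ### Patterns (sections 2 and 3) -/

abbrev Tri : Type := ℂ × ℂ × ℂ

/-- the coordinates in state `c` -/
def st {ι : Type} [Fintype ι] (χ : ι → Fin 3) (c : Fin 3) : Finset ι :=
  univ.filter (fun i => χ i = c)

def Pattern (k : ℕ) (TT : Finset Tri) : Prop :=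
  ∃ y x z : Finset (Fin k) → ℂ, Function.Injective y ∧ Function.Injective x ∧
    Function.Injective z ∧ ∀ χ : Fin k → Fin 3, (y (st χ 0), x (st χ 1), z (st χ 2)) ∈ TT

/-- two elements that agree in two coordinates are equal -/
def Latin {α β γ : Type} (t : Finset (α × β × γ)) : Prop :=
  ∀ u ∈ t, ∀ v ∈ t, ((u.1 = v.1 ∧ u.2.1 = v.2.1) ∨ (u.1 = v.1 ∧ u.2.2 = v.2.2) ∨
    (u.2.1 = v.2.1 ∧ u.2.2 = v.2.2)) → u = v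

def Anti (T : Finset (Fin 3 → ℤ)) : Prop := ∀ u ∈ T, ∀ v ∈ T, u ≤ v → u = v

def InCube (T : Finset (Fin 3 → ℤ)) (N : ℕ) : Prop :=
  ∃ l : ℤ, ∀ u ∈ T, ∀ c, l ≤ u c ∧ u c < l + N

/-- geometric pattern -/
structure PatD (S : Finset ℂ) {ι : Type} [Fintype ι] (y V P : Finset ι → ℂ) : Prop where
  my : ∀ I, y I ∈ S
  mV : ∀ I, V I ∈ S
  mP : ∀ I, P I ∈ S
  iy : Function.Injective y
  iV : Function.Injective V
  iP : Function.Injective P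
  ne : ∀ I J, V I ≠ P J
  tie : ∀ χ : ι → Fin 3, dist (y (st χ 0)) (V (st χ 1)) = dist (y (st χ 0)) (P (st χ 2))

/-- conclusion of Theorem D -/
def Concl {ι : Type} [Fintype ι] (y V P : Finset ι → ℂ) : Prop :=
  ∃ w : Cv, Valid w ∧ (∃ χ : ι → Fin 3, Good w (y (st χ 0)) (V (st χ 1)) (P (st χ 2))) ∧
    ∃ F : Finset ℂ, 9 ≤ F.card ∧ ∀ z ∈ F, On w z ∧ ∃ J, z = P J

def Rigid (k : ℕ) : Prop :=
  ∀ S : Finset ℂ, Cvx S → ∀ y V P : Finset (Fin k) → ℂ, PatD S y V P → Concl y V P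

/-! ### Boxes (section 4) -/

abbrev Box : Type := Finset ℂ × Finset ℂ × Finset ℂ

def inBox (TT : Finset Tri) (B : Box) : Finset Tri :=
  TT.filter (fun u => u.1 ∈ B.1 ∧ u.2.1 ∈ B.2.1 ∧ u.2.2 ∈ B.2.2)

def GM (B : Box) : ℝ := ((B.1.card : ℝ) * B.2.1.card * B.2.2.card) ^ (2 / 3 : ℝ)

def SubB (B' B : Box) : Prop := B'.1 ⊆ B.1 ∧ B'.2.1 ⊆ B.2.1 ∧ B'.2.2 ⊆ B.2.2

def Cons (G : ℂ → ℂ → ℂ → ℝ) (S kz : ℂ → ℝ) (B' B : Box) : Prop :=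
  SubB B' B ∧
  (∀ y ∈ B.1, y ∉ B'.1 → ∀ y' ∈ B'.1, ∀ x ∈ B'.2.1, ∀ z ∈ B'.2.2,
    (S y' < S y → 0 < G y x z) ∧ (S y < S y' → G y x z < 0)) ∧
  (∀ y ∈ B'.1, ∀ x ∈ B'.2.1, ∀ z ∈ B.2.2, z ∉ B'.2.2 → ∀ z' ∈ B'.2.2,
    (kz z < kz z' → 0 < G y x z) ∧ (kz z' < kz z → G y x z < 0))

def DisjP (B B' : Box) : Prop :=
  (Disjoint B.1 B'.1 ∨ Disjoint B.2.1 B'.2.1) ∧ (Disjoint B.1 B'.1 ∨ Disjoint B.2.2 B'.2.2) ∧
    (Disjoint B.2.1 B'.2.1 ∨ Disjoint B.2.2 B'.2.2)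

/-- hypotheses of the tree lemma -/
structure TS (κ : ℝ) (Y X Z : Finset ℂ) (S : ℂ → ℝ) (f g : ℂ → ℂ → ℝ) (kz : ℂ → ℝ)
    (TT : Finset Tri) : Prop where
  sub : TT ⊆ Y ×ˢ X ×ˢ Z
  iS : Set.InjOn S Y
  ikz : Set.InjOn kz Z
  mono : ∀ y ∈ Y, ∀ z ∈ Z, ∀ z' ∈ Z, kz z < kz z' → g y z < g y z'
  add : ∀ y ∈ Y, ∀ y' ∈ Y, ∀ x ∈ X, ∀ z ∈ Z,
    |(f y' x - g y' z) - (f y x - g y z) - (S y' - S y)| ≤ κ * |S y' - S y|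
  tie : ∀ u ∈ TT, f u.1 u.2.1 = g u.1 u.2.2
  one : ∀ u ∈ TT, ∀ v ∈ TT, u.1 = v.1 → u.2.2 = v.2.2 → u = v

/-- `cl` sends each point of `I` to its class in a partition of `I` -/
def Clus (I : Finset ℂ) (cl : ℂ → Finset ℂ) : Prop :=
  ∀ a ∈ I, a ∈ cl a ∧ cl a ⊆ I ∧ ∀ b ∈ cl a, cl b = cl a

/-- the result of one splitting step of the box `B` -/
structure Spl (G : ℂ → ℂ → ℂ → ℝ) (S kz : ℂ → ℝ) (TT : Finset Tri) (B : Box)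
    (cy cx cz : ℂ → Finset ℂ) (T U : ℂ → ℝ) : Prop where
  hy : Clus B.1 cy
  hx : Clus B.2.1 cx
  hz : Clus B.2.2 cz
  lt : ∀ a ∈ B.1, (cy a).card < B.1.card
  cons : ∀ u ∈ inBox TT B, Cons G S kz (cy u.1, cx u.2.1, cz u.2.2) B
  disj : ∀ u ∈ inBox TT B, ∀ v ∈ inBox TT B,
    ((cy u.1, cx u.2.1, cz u.2.2) : Box) ≠ (cy v.1, cx v.2.1, cz v.2.2) →
      DisjP (cy u.1, cx u.2.1, cz u.2.2) (cy v.1, cx v.2.1, cz v.2.2)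
  kT : ∀ a ∈ B.2.1, ∀ b ∈ B.2.1, T a = T b → cx a = cx b
  kU : ∀ a ∈ B.2.2, ∀ b ∈ B.2.2, U a = U b → cz a = cz b
  anti : ∀ u ∈ inBox TT B, ∀ v ∈ inBox TT B, (cy u.1 = cy v.1 ∨ S u.1 < S v.1) →
    (cx u.2.1 = cx v.2.1 ∨ T u.2.1 < T v.2.1) → (cz u.2.2 = cz v.2.2 ∨ U v.2.2 < U u.2.2) →
      cy u.1 = cy v.1 ∧ cx u.2.1 = cx v.2.1 ∧ cz u.2.2 = cz v.2.2

/-! ### Tie systems (section 5) -/

structure Sys (S Y X Z : Finset ℂ) (ky kz : ℂ → ℝ) (TT : Finset Tri) : Prop where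
  sY : Y ⊆ S
  sX : X ⊆ S
  sZ : Z ⊆ S
  dj : Disjoint X Z
  iy : Set.InjOn ky Y
  iz : Set.InjOn kz Z
  K1 : ∀ y ∈ Y, ∀ y' ∈ Y, ∀ x ∈ X, ∀ z ∈ Z, ky y < ky y' →
    dist y x - dist y z < dist y' x - dist y' z
  K2 : ∀ y ∈ Y, ∀ z ∈ Z, ∀ z' ∈ Z, kz z < kz z' → dist y z < dist y z'
  sub : TT ⊆ Y ×ˢ X ×ˢ Z
  tie : ∀ u ∈ TT, dist u.1 u.2.1 = dist u.1 u.2.2
  one : ∀ u ∈ TT, ∀ v ∈ TT, u.1 = v.1 → u.2.2 = v.2.2 → u = v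

/-- the leg from `w` to `x` is almost normal at `x` -/
def Nor (nr : ℂ → ℂ) (om : ℝ) (x w : ℂ) : Prop := ‖dir (w - x) - nr x‖ ≤ om

/-- extra hypotheses for flat ties -/
structure Flat (S Y X Z : Finset ℂ) (ky : ℂ → ℝ) (nr : ℂ → ℂ) (s om : ℝ) (TT : Finset Tri) :
    Prop where
  hs : s = 1 ∨ s = -1
  unit : ∀ x ∈ X, ‖nr x‖ = 1
  supp : ∀ x ∈ X, ∀ w ∈ S, 0 ≤ dot (nr x) (w - x)
  o1 : ∀ x ∈ X, ∀ y ∈ Y, ∀ z ∈ Z, 0 < s * ori x y z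
  o2 : ∀ x ∈ X, ∀ y ∈ Y, ∀ y' ∈ Y, ∀ z ∈ Z, ky y < ky y' →
    0 < s * ori x y y' ∧ 0 < s * ori y y' z
  nor : ∀ u ∈ TT, Nor nr om u.2.1 u.1 ∧ Nor nr om u.2.1 u.2.2

/-! ### The polygon and its blocks (section 6) -/

structure Enum (S : Finset ℂ) (p : ℤ → ℂ) (ix : ℂ → ℤ) : Prop where
  mem : ∀ i, p i ∈ S
  per : ∀ i : ℤ, p (i + S.card) = p i
  pos : ∀ i j k : ℤ, i < j → j < k → k < i + S.card → 0 < ori (p i) (p j) (p k)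
  ix0 : ∀ x ∈ S, 0 ≤ ix x ∧ ix x < S.card
  pix : ∀ x ∈ S, p (ix x) = x
  ixp : ∀ i : ℤ, 0 ≤ i → i < S.card → ix (p i) = i

def blk (S : Finset ℂ) (ix : ℂ → ℤ) (D : ℕ) (x : ℂ) : ℤ := ix x * D / S.card

def TameUp {φ : Type} (S : Finset ℂ) (fam : ℂ → φ) (key : ℂ → ℝ) (y x : ℂ) : Prop :=
  ∀ a ∈ S, ∀ b ∈ S, fam a = fam x → fam b = fam x → key a < key b → dist y a < dist y b

def TameDn {φ : Type} (S : Finset ℂ) (fam : ℂ → φ) (key : ℂ → ℝ) (y x : ℂ) : Prop :=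
  ∀ a ∈ S, ∀ b ∈ S, fam a = fam x → fam b = fam x → key a < key b → dist y b < dist y a

def Tame {φ : Type} (S : Finset ℂ) (fam : ℂ → φ) (key : ℂ → ℝ) (y x : ℂ) : Prop :=
  TameUp S fam key y x ∨ TameDn S fam key y x

/-- tame for the block family -/
def TameB (S : Finset ℂ) (ix : ℂ → ℤ) (D : ℕ) (y x : ℂ) : Prop :=
  Tame S (blk S ix D) (fun a => (ix a : ℝ)) y x

/-- `y ∈ N_D(x)` -/
def NN (S : Finset ℂ) (ix : ℂ → ℤ) (D : ℕ) (x y : ℂ) : Prop :=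
  blk S ix D y ≠ blk S ix D x ∧ ¬ TameB S ix D y x

/-- inner normal of the edge that starts at `x` -/
def nrm (p : ℤ → ℂ) (ix : ℂ → ℤ) (x : ℂ) : ℂ := Complex.I * dir (p (ix x + 1) - x)

/-- all chords of the block of `x` have directions within distance 1 -/
def Straight (S : Finset ℂ) (ix : ℂ → ℤ) (D : ℕ) (x : ℂ) : Prop :=
  ∀ a ∈ S, ∀ a' ∈ S, ∀ b ∈ S, ∀ b' ∈ S, blk S ix D a = blk S ix D x → blk S ix D a' = blk S ix D x →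
    blk S ix D b = blk S ix D x → blk S ix D b' = blk S ix D x → ix a < ix a' → ix b < ix b' →
      ‖dir (a' - a) - dir (b' - b)‖ ≤ 1

/-- three different blocks -/
def Sep (S : Finset ℂ) (ix : ℂ → ℤ) (D : ℕ) (y x z : ℂ) : Prop :=
  blk S ix D y ≠ blk S ix D x ∧ blk S ix D y ≠ blk S ix D z ∧ blk S ix D x ≠ blk S ix D z

/-- a family that refines the blocks, with a key injective on each fibre -/
structure FamOK {φ : Type} (S : Finset ℂ) (ix : ℂ → ℤ) (D F : ℕ) (fam : ℂ → φ) (key : ℂ → ℝ) :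
    Prop where
  card : (S.image fam).card ≤ F
  ref : ∀ a ∈ S, ∀ b ∈ S, fam a = fam b → blk S ix D a = blk S ix D b
  inj : ∀ a ∈ S, ∀ b ∈ S, fam a = fam b → key a = key b → a = b

/-- ties counted in 6.5 (a) -/
def BadA {φ : Type} (S : Finset ℂ) (ix : ℂ → ℤ) (D : ℕ) (fam : ℂ → φ) (key : ℂ → ℝ) (γ : ℝ)
    (y x z : ℂ) : Prop :=
  Sep S ix D y x z ∧ dist y x = dist y z ∧ Tame S fam key y x ∧ Tame S fam key y z ∧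
    ¬ GGood S γ y x z

/-- legs counted in 6.5 (b) -/
def BadB {φ : Type} (S : Finset ℂ) (p : ℤ → ℂ) (ix : ℂ → ℤ) (D : ℕ) (fam : ℂ → φ) (key : ℂ → ℝ)
    (γ om : ℝ) (y z : ℂ) : Prop :=
  Tame S fam key y z ∧ ∃ x ∈ S, Sep S ix D y x z ∧ dist y x = dist y z ∧
    Nor (nrm p ix) om x y ∧ Nor (nrm p ix) om x z ∧ ¬ GGood S γ y x z

def InC (S : Finset ℂ) (γ : ℝ) (x : ℂ) : Prop := ∃ w, Popular S γ w ∧ On w x

def InC0 (S : Finset ℂ) (γ γ' : ℝ) (c : ℂ → Cv) (x : ℂ) : Prop :=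
  InC S γ x ∧ x ≠ node (c x) ∧ ∀ w, Popular S γ' w → On w x → w = c x

def Mid (S : Finset ℂ) (ix : ℂ → ℤ) (D D' : ℕ) (y x : ℂ) : Prop :=
  NN S ix D x y ∧ ¬ NN S ix D' x y

/-- removed legs of 6.6 -/
def BadLeg {φ : Type} (S : Finset ℂ) (p : ℤ → ℂ) (ix : ℂ → ℤ) (D D' : ℕ) (γ γ' om : ℝ)
    (c : ℂ → Cv) (fam : ℂ → φ) (key : ℂ → ℝ) (y x : ℂ) : Prop :=
  blk S ix D y = blk S ix D x ∨
  (InC S γ x ∧ ¬ InC0 S γ γ' c x) ∨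
  (InC S γ x ∧ x ≠ node (c x) ∧ (((c x).2.2 = 0 ∧ y = (c x).1) ∨ ¬ Tame S fam key y x)) ∨
  Mid S ix D D' y x ∨
  (NN S ix D' x y ∧ ¬ Nor (nrm p ix) om x y) ∨
  (∃ z ∈ S, z ≠ x ∧ blk S ix D z = blk S ix D x ∧ dist y x = dist y z) ∨
  (∃ z ∈ S, NN S ix D' x z ∧ ¬ Nor (nrm p ix) om x z ∧ dist y x = dist y z) ∨
  (∃ z ∈ S, BadA S ix D (blk S ix D) (fun a => (ix a : ℝ)) γ y x z) ∨
  (∃ z ∈ S, BadA S ix D fam key γ' y x z) ∨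
  BadB S p ix D (blk S ix D) (fun a => (ix a : ℝ)) γ om y x ∨
  BadB S p ix D fam key γ' om y x

/-- the leg has a good partner on the same popular curve -/
def Pair (S : Finset ℂ) (γ : ℝ) (c : ℂ → Cv) (y x : ℂ) : Prop :=
  InC S γ x ∧ ∃ x' ∈ S, InC S γ x' ∧ x' ≠ x ∧ c x' = c x ∧ Good (c x) y x x' ∧
    dist y x = dist y x'

def Same (S : Finset ℂ) (ix : ℂ → ℤ) (D0 D' : ℕ) (γ : ℝ) (x z : ℂ) : Prop :=
  ¬ InC S γ x ∧ ¬ InC S γ z ∧ blk S ix D0 x = blk S ix D0 z ∧ Straight S ix D0 x ∧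
    blk S ix D' x ≠ blk S ix D' z

/-- number of pairs in `S × S` with a property -/
def cnt2 (S : Finset ℂ) (Q : ℂ → ℂ → Prop) : ℕ := ((S ×ˢ S).filter (fun u => Q u.1 u.2)).card

/-- number of triples in `S × S × S` with a property -/
def cnt3 (S : Finset ℂ) (Q : ℂ → ℂ → ℂ → Prop) : ℕ :=
  ((S ×ˢ S ×ˢ S).filter (fun u => Q u.1 u.2.1 u.2.2)).card

/-- the leg has a mirror partner on a circle with the assigned centre -/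
def Paired (S : Finset ℂ) (cen : ℂ → ℂ) (y x : ℂ) : Prop :=
  ∃ x' ∈ S, x' ≠ x ∧ cen x' = cen x ∧ ‖x' - cen x‖ = ‖x - cen x‖ ∧ dist y x = dist y x'

end

end Pool.Agent.Lib.MP_990519_co.Big
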