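import Pool.Agent.Lib.MP_990519_co.Big.Defs

namespace Pool.Agent.Lib.MP_990519_co.Big

open Finset
open scoped Classical ComplexConjugate

theorem g1_sq {y x z : ℂ} (h : dist y x = dist y z) :
    (y.re - x.re) ^ 2 + (y.im - x.im) ^ 2 = (y.re - z.re) ^ 2 + (y.im - z.im) ^ 2 := by
  have e : ‖y - x‖ ^ 2 = ‖y - z‖ ^ 2 := by rw [← Complex.dist_eq, ← Complex.dist_eq, h]
  rw [Complex.sq_norm, Complex.sq_norm, Complex.normSq_apply, Complex.normSq_apply] at e
  simp only [Complex.sub_re, Complex.sub_im] at e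
  linarith

theorem g1_pos {v : ℂ} (hv : v ≠ 0) : 0 < v.re ^ 2 + v.im ^ 2 := by
  by_contra hh
  apply hv
  have h1 : v.re = 0 := by nlinarith [sq_nonneg v.re, sq_nonneg v.im]
  have h2 : v.im = 0 := by nlinarith [sq_nonneg v.re, sq_nonneg v.im]
  exact Complex.ext h1 h2

/-- (c3): a pair has at most two apexes. Three apexes lie on the bisector, so `ori = 0`,
against `ori_ne`. -/
theorem apex_le_two {S : Finset ℂ} (h : Cvx S) {x z : ℂ} (hxz : x ≠ z) :
    (S.filter (fun y => dist y x = dist y z)).card ≤ 2 := by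
  by_contra hh
  obtain ⟨a, b, c, ha, hb, hc, hab, hac, hbc⟩ := two_lt_card_iff.1 (not_le.1 hh)
  rw [mem_filter] at ha hb hc
  have e1 := g1_sq ha.2
  have e2 := g1_sq hb.2
  have e3 := g1_sq hc.2
  have hp := g1_pos (sub_ne_zero.2 hxz)
  simp only [Complex.sub_re, Complex.sub_im] at hp
  apply ori_ne h ha.1 hb.1 hc.1 hab.symm hac.symm hbc
  have f1 : (b.re - a.re) * (x.re - z.re) + (b.im - a.im) * (x.im - z.im) = 0 := by linarith
  have f2 : (c.re - a.re) * (x.re - z.re) + (c.im - a.im) * (x.im - z.im) = 0 := by linarith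
  have : ori a b c * ((x.re - z.re) ^ 2 + (x.im - z.im) ^ 2) = 0 := by
    unfold ori
    linear_combination ((c.im - a.im) * (x.re - z.re) - (c.re - a.re) * (x.im - z.im)) * f1 -
      ((b.im - a.im) * (x.re - z.re) - (b.re - a.re) * (x.im - z.im)) * f2
  exact (mul_eq_zero.1 this).resolve_right hp.ne'

theorem g1_ht {S : Finset ℂ} (h : Cvx S) {v a b : ℂ} (hv : v ≠ 0) (ha : a ∈ S) (hb : b ∈ S)
    (hab : a ≠ b) (ha' : a + v ∈ S) (hb' : b + v ∈ S) :
    v.re * a.im - v.im * a.re ≠ v.re * b.im - v.im * b.re := by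
  intro e
  by_cases hb2 : b = a + v
  · refine ori_ne h ha hb hb' hab.symm ?_ (by simpa using hv) ?_
    · intro e2
      rw [hb2, add_assoc] at e2
      have : (2 : ℂ) * v = 0 := by linear_combination e2
      exact hv ((mul_eq_zero.1 this).resolve_left two_ne_zero)
    · rw [hb2]; unfold ori; simp only [Complex.add_re, Complex.add_im]; ring
  · refine ori_ne h ha ha' hb (by simpa using hv) hab.symm (fun e2 => hb2 e2.symm) ?_
    unfold ori; simp only [Complex.add_re, Complex.add_im]; linarith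

theorem g1_mid {S : Finset ℂ} (h : Cvx S) {v a b c : ℂ} (hv : v ≠ 0) (ha : a ∈ S)
    (hb : b ∈ S) (hc : c ∈ S) (ha' : a + v ∈ S) (hb' : b + v ∈ S) (hc' : c + v ∈ S)
    (h1 : v.re * a.im - v.im * a.re < v.re * b.im - v.im * b.re)
    (h2 : v.re * b.im - v.im * b.re < v.re * c.im - v.im * c.re) : False := by
  have hab : a ≠ b := fun e => by rw [e] at h1; exact lt_irrefl _ h1
  have hcb : c ≠ b := fun e => by rw [e] at h2; exact lt_irrefl _ h2
  have hp := g1_pos hv
  set α := (v.re * c.im - v.im * c.re) - (v.re * b.im - v.im * b.re) with hα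
  set γ := (v.re * b.im - v.im * b.re) - (v.re * a.im - v.im * a.re) with hγ
  have α0 : 0 < α := by linarith
  have γ0 : 0 < γ := by linarith
  set ur := (α + γ) * b.re - α * a.re - γ * c.re with hur
  set ui := (α + γ) * b.im - α * a.im - γ * c.im with hui
  have cr : v.re * ui - v.im * ur = 0 := by rw [hur, hui, hα, hγ]; ring
  set σ := (v.re * ur + v.im * ui) / (v.re ^ 2 + v.im ^ 2) with hσ
  have e1 : ur = σ * v.re := by
    rw [hσ]; field_simp; linear_combination (-v.im) * cr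
  have e2 : ui = σ * v.im := by
    rw [hσ]; field_simp; linear_combination v.re * cr
  rcases le_total 0 σ with s0 | s0
  · refine not_mem_hull h hb ha hc hb' hab hcb (by simpa using hv) (α := α) (β := γ) (γ := σ)
      α0.le γ0.le s0 (by linarith) ?_ ?_
    · simp only [Complex.add_re]; linarith
    · simp only [Complex.add_im]; linarith
  · refine not_mem_hull h hb' ha' hc' hb (by simpa using hab) (by simpa using hcb)
      (by simpa using hv) (α := α) (β := γ) (γ := -σ) α0.le γ0.le (by linarith) (by linarith) ?_ ?_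
    · simp only [Complex.add_re]; linarith
    · simp only [Complex.add_im]; linarith

/-- three distinct vertices `a b c` cannot all be shifted by `v ≠ 0` into `S` -/
theorem diff_three {S : Finset ℂ} (h : Cvx S) {v a b c : ℂ} (hv : v ≠ 0) (ha : a ∈ S)
    (hb : b ∈ S) (hc : c ∈ S) (hab : a ≠ b) (hac : a ≠ c) (hbc : b ≠ c) (ha' : a + v ∈ S)
    (hb' : b + v ∈ S) (hc' : c + v ∈ S) : False := by
  have n1 := g1_ht h hv ha hb hab ha' hb'
  have n2 := g1_ht h hv ha hc hac ha' hc'
  have n3 := g1_ht h hv hb hc hbc hb' hc'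
  rcases lt_or_gt_of_ne n1 with l1 | l1 <;> rcases lt_or_gt_of_ne n2 with l2 | l2 <;>
    rcases lt_or_gt_of_ne n3 with l3 | l3
  · exact g1_mid h hv ha hb hc ha' hb' hc' l1 l3
  · exact g1_mid h hv ha hc hb ha' hc' hb' l2 l3
  · linarith
  · exact g1_mid h hv hc ha hb hc' ha' hb' l2 l1
  · exact g1_mid h hv hb ha hc hb' ha' hc' l1 l2
  · linarith
  · exact g1_mid h hv hb hc ha hb' hc' ha' l3 l2
  · exact g1_mid h hv hc hb ha hc' hb' ha' l3 l1

/-- (c2): a nonzero vector is a difference of two vertices at most twice (paper, Notation). -/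
theorem diff_le_two {S : Finset ℂ} (h : Cvx S) {v : ℂ} (hv : v ≠ 0) :
    (S.filter (fun a => a + v ∈ S)).card ≤ 2 := by
  by_contra hh
  obtain ⟨a, b, c, ha, hb, hc, hab, hac, hbc⟩ := two_lt_card_iff.1 (not_le.1 hh)
  rw [mem_filter] at ha hb hc
  exact diff_three h hv ha.1 hb.1 hc.1 hab hac hbc ha.2 hb.2 hc.2

/-- the cyclic enumeration with an index function; from `exists_cyclic` -/
theorem exists_enum {S : Finset ℂ} (h : Cvx S) (h1 : 1 ≤ S.card) :
    ∃ (p : ℤ → ℂ) (ix : ℂ → ℤ), Enum S p ix := by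
  obtain ⟨p, a1, a2, a3, a4, a5⟩ := exists_cyclic h1 rfl h
  have : ∀ x : ℂ, ∃ i : ℤ, x ∈ S → 0 ≤ i ∧ i < S.card ∧ p i = x := by
    intro x
    by_cases hx : x ∈ S
    · obtain ⟨i, b1, b2, b3⟩ := a2 x hx 0
      exact ⟨i, fun _ => ⟨b1, by simpa using b2, b3⟩⟩
    · exact ⟨0, fun e => absurd e hx⟩
  choose ix hix using this
  refine ⟨p, ix, a1, a3, a5, fun x hx => ⟨(hix x hx).1, (hix x hx).2.1⟩,
    fun x hx => (hix x hx).2.2, fun i i0 i1 => ?_⟩
  obtain ⟨b1, b2, b3⟩ := hix (p i) (a1 i)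
  rcases lt_trichotomy (ix (p i)) i with l | l | l
  · exact absurd b3 (a4 _ _ l (by omega))
  · exact l
  · exact absurd b3.symm (a4 _ _ l (by omega))

theorem Enum.ix_inj {S : Finset ℂ} {p : ℤ → ℂ} {ix : ℂ → ℤ} (e : Enum S p ix) {a b : ℂ}
    (ha : a ∈ S) (hb : b ∈ S) (hab : ix a = ix b) : a = b := by
  rw [← e.pix a ha, ← e.pix b hb, hab]

/-- orientation of three vertices in index order -/
theorem Enum.ori_pos {S : Finset ℂ} {p : ℤ → ℂ} {ix : ℂ → ℤ} (e : Enum S p ix) {a b c : ℂ}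
    (ha : a ∈ S) (hb : b ∈ S) (hc : c ∈ S) (hab : ix a < ix b) (hbc : ix b < ix c) :
    0 < ori a b c := by
  have := e.pos (ix a) (ix b) (ix c) hab hbc (by
    have := (e.ix0 a ha).1; have := (e.ix0 c hc).2; omega)
  rwa [e.pix a ha, e.pix b hb, e.pix c hc] at this

/-- both quadrilateral inequalities for four vertices in index order (`kalm`, `kalm2`) -/
theorem Enum.quad {S : Finset ℂ} {p : ℤ → ℂ} {ix : ℂ → ℤ} (e : Enum S p ix) {a b c d : ℂ}
    (ha : a ∈ S) (hb : b ∈ S) (hc : c ∈ S) (hd : d ∈ S) (hab : ix a < ix b) (hbc : ix b < ix c)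
    (hcd : ix c < ix d) :
    dist a b + dist c d < dist a c + dist b d ∧ dist b c + dist a d < dist a c + dist b d := by
  refine ⟨kalm (e.ori_pos ha hb hc hab hbc) (e.ori_pos ha hb hd hab (by omega))
    (e.ori_pos ha hc hd (by omega) hcd) (e.ori_pos hb hc hd hbc hcd), ?_⟩
  have := kalm2 e.pos (ix a) (ix b) (ix c) (ix d) hab hbc hcd (by
    have := (e.ix0 a ha).1; have := (e.ix0 d hd).2; omega)
  rwa [e.pix a ha, e.pix b hb, e.pix c hc, e.pix d hd] at this

/-- the two forms of `T` agree -/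
theorem Tsum_eq (S : Finset ℂ) :
    Tsum S = ∑ x ∈ S, ((fun y : ℂ => dist x y) '' ((S : Set ℂ) \ {x})).ncard := by
  unfold Tsum tcount
  refine sum_congr rfl fun x _ => ?_
  rw [← Set.ncard_coe_finset, coe_image, coe_erase]

end Pool.Agent.Lib.MP_990519_co.Big
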