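import Pool.Agent.Lib.MP_990519_co.Big.G1

namespace Pool.Agent.Lib.MP_990519_co.Big

open Finset
open scoped Classical ComplexConjugate

variable {S : Finset ℂ} {p : ℤ → ℂ} {ix : ℂ → ℤ}

theorem blk_range (e : Enum S p ix) {D : ℕ} (hD : 0 < D) {x : ℂ} (hx : x ∈ S) :
    0 ≤ blk S ix D x ∧ blk S ix D x < D := by
  obtain ⟨h0, h1⟩ := e.ix0 x hx
  have hn : (0 : ℤ) < S.card := by omega
  have hD' : (0 : ℤ) < D := by exact_mod_cast hD
  unfold blk
  refine ⟨Int.ediv_nonneg (by positivity) hn.le, ?_⟩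
  rw [Int.ediv_lt_iff_lt_mul hn]
  nlinarith

theorem blk_mono (D : ℕ) {a b : ℂ} (h : ix a ≤ ix b) : blk S ix D a ≤ blk S ix D b := by
  unfold blk
  rcases Nat.eq_zero_or_pos S.card with h0 | h0
  · simp [h0]
  · exact Int.ediv_le_ediv (by exact_mod_cast h0)
      (mul_le_mul_of_nonneg_right h (Nat.cast_nonneg _))

theorem blk_card (e : Enum S p ix) {D : ℕ} (hD : 0 < D) (j : ℤ) :
    ((S.filter (fun x => blk S ix D x = j)).card : ℝ) ≤ S.card / D + 1 := by
  rcases (S.filter (fun x => blk S ix D x = j)).eq_empty_or_nonempty with h0 | h0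
  · rw [h0]
    simp only [card_empty, Nat.cast_zero]
    positivity
  obtain ⟨a, ha, hmin⟩ := exists_min_image _ ix h0
  obtain ⟨b, hb, hmax⟩ := exists_max_image _ ix h0
  have h1 : (S.filter (fun x => blk S ix D x = j)).card ≤ (Icc (ix a) (ix b)).card := by
    refine card_le_card_of_injOn ix (fun x hx => ?_) (fun x hx y hy h => ?_)
    · exact mem_coe.2 (mem_Icc.2 ⟨hmin x hx, hmax x hx⟩)
    · exact e.ix_inj (mem_filter.1 hx).1 (mem_filter.1 hy).1 h
  have hab := hmin b hb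
  rw [mem_filter] at ha hb
  have hn : (0 : ℤ) < S.card := by have := e.ix0 a ha.1; omega
  have h2 : j * S.card ≤ ix a * D := by
    rw [← ha.2]
    exact Int.ediv_mul_le _ hn.ne'
  have h3 : ix b * D < (j + 1) * S.card := by
    rw [← hb.2]
    exact Int.lt_ediv_add_one_mul_self _ hn
  have h4 : (((S.filter (fun x => blk S ix D x = j)).card : ℕ) : ℤ) ≤ ix b + 1 - ix a := by
    rw [← Int.card_Icc_of_le _ _ (by omega)]
    exact_mod_cast h1
  have hD' : (0 : ℤ) < D := by exact_mod_cast hD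
  have h5 : ((((S.filter (fun x => blk S ix D x = j)).card : ℕ) : ℤ) - 1) * D ≤ S.card := by
    nlinarith
  have h6 : ((((S.filter (fun x => blk S ix D x = j)).card : ℕ) : ℝ) - 1) * D ≤ S.card := by
    exact_mod_cast h5
  rw [← le_div_iff₀ (by exact_mod_cast hD)] at h6
  linarith

theorem blk_image_card (e : Enum S p ix) {D : ℕ} (hD : 0 < D) :
    (S.image (blk S ix D)).card ≤ D := by
  have h : S.image (blk S ix D) ⊆ Ico (0 : ℤ) D := by
    intro j hj
    obtain ⟨x, hx, rfl⟩ := mem_image.1 hj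
    exact mem_Ico.2 (blk_range e hD hx)
  simpa using card_le_card h

/-- `⌊i D / n⌋ = ⌊⌊i D m / n⌋ / m⌋` -/
theorem blk_nest {D D' : ℕ} (hd : D ∣ D') (hD' : 0 < D') {a b : ℂ}
    (h : blk S ix D' a = blk S ix D' b) : blk S ix D a = blk S ix D b := by
  obtain ⟨r, rfl⟩ := hd
  have hr : (0 : ℤ) < r := by exact_mod_cast Nat.pos_of_mul_pos_left hD'
  have key : ∀ i : ℤ, i * D / S.card = i * (D * r : ℕ) / S.card / r := by
    intro i
    rw [Int.ediv_ediv_of_nonneg (Nat.cast_nonneg _)]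
    push_cast
    rw [← mul_assoc, Int.mul_ediv_mul_of_pos_left _ _ hr]
  unfold blk at h ⊢
  rw [key, key, h]

theorem TameB.nest {D D' : ℕ} (hd : D ∣ D') (hD' : 0 < D') {y x : ℂ} (h : TameB S ix D y x) :
    TameB S ix D' y x := by
  rcases h with h | h
  · exact Or.inl fun a ha b hb h1 h2 h3 => h a ha b hb (blk_nest hd hD' h1) (blk_nest hd hD' h2) h3
  · exact Or.inr fun a ha b hb h1 h2 h3 => h a ha b hb (blk_nest hd hD' h1) (blk_nest hd hD' h2) h3

theorem famOK_blk (e : Enum S p ix) {D : ℕ} (hD : 0 < D) :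
    FamOK S ix D D (blk S ix D) (fun a => (ix a : ℝ)) := by
  exact ⟨by
    refine le_of_eq_of_le (congrArg card ?_) (blk_image_card e hD)
    ext j
    simp only [mem_image], fun _ _ _ _ h => h,
    fun a ha b hb _ h => e.ix_inj ha hb (by exact_mod_cast h)⟩

/-- the pairs in one block -/
theorem same_blk_card (e : Enum S p ix) {D : ℕ} (hD : 0 < D) :
    (cnt2 S (fun y x => blk S ix D y = blk S ix D x) : ℝ) ≤ S.card * (S.card / D + 1) := by
  have h1 : cnt2 S (fun y x => blk S ix D y = blk S ix D x) =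
      ∑ x ∈ S, (S.filter (fun y => blk S ix D y = blk S ix D x)).card := by
    unfold cnt2
    simp only [card_filter]
    rw [sum_product_right]
  rw [h1, Nat.cast_sum]
  refine (sum_le_card_nsmul S _ _ (fun x _ => blk_card e hD (blk S ix D x))).trans ?_
  rw [nsmul_eq_mul]

theorem nrm_unit (e : Enum S p ix) (h2 : 2 ≤ S.card) {x : ℂ} (hx : x ∈ S) :
    ‖nrm p ix x‖ = 1 := by
  have hne : p (ix x + 1) - x ≠ 0 := by
    intro h
    obtain ⟨h0, h1⟩ := e.ix0 x hx
    rw [sub_eq_zero] at h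
    rcases lt_or_ge (ix x + 1) S.card with h3 | h3
    · have := e.ixp (ix x + 1) (by omega) h3
      rw [h] at this
      omega
    · have h4 : ix x + 1 = 0 + S.card := by omega
      rw [h4, e.per] at h
      have := e.ixp 0 le_rfl (by omega)
      rw [h] at this
      omega
  unfold nrm dir
  rw [norm_mul, Complex.norm_I, one_mul, norm_div, Complex.norm_real, norm_norm,
    div_self (norm_ne_zero_iff.2 hne)]

/-- `dot (I * d) (w - x)` is the cross product of `d` and `w - x` -/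
theorem nrm_supp (e : Enum S p ix) {x w : ℂ} (hx : x ∈ S) (hw : w ∈ S) :
    0 ≤ dot (nrm p ix x) (w - x) := by
  have h1 : dot (nrm p ix x) (w - x) = ori x (p (ix x + 1)) w / ‖p (ix x + 1) - x‖ := by
    unfold dot nrm dir ori
    simp only [Complex.mul_re, Complex.mul_im, Complex.I_re, Complex.I_im, Complex.div_ofReal_re,
      Complex.div_ofReal_im, Complex.sub_re, Complex.sub_im]
    ring
  rw [h1]
  refine div_nonneg ?_ (norm_nonneg _)
  obtain ⟨a0, a1⟩ := e.ix0 x hx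
  obtain ⟨b0, b1⟩ := e.ix0 w hw
  have z1 : ∀ a b : ℂ, ori a b a = 0 := fun a b => by unfold ori; ring
  have z2 : ∀ a b : ℂ, ori a b b = 0 := fun a b => by unfold ori; ring
  have key : ∀ r : ℤ, p r = w → ix x < r → r < ix x + S.card → 0 ≤ ori x (p (ix x + 1)) w := by
    intro r hr r1 r2
    rcases eq_or_lt_of_le (show ix x + 1 ≤ r by omega) with h | h
    · rw [h, hr, z2]
    · have := e.pos (ix x) (ix x + 1) r (by omega) h r2
      rw [e.pix x hx, hr] at this
      exact this.le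
  rcases lt_trichotomy (ix x) (ix w) with h | h | h
  · exact key (ix w) (e.pix w hw) h (by omega)
  · rw [← e.ix_inj hx hw h, z1]
  · exact key (ix w + S.card) ((e.per _).trans (e.pix w hw)) (by omega) (by omega)

theorem g2_lt (D : ℕ) {a b : ℂ} (h : blk S ix D a < blk S ix D b) : ix a < ix b := by
  by_contra h'
  exact absurd (blk_mono (S := S) D (not_lt.1 h')) (not_le.2 h)

theorem g2_cyc (D : ℕ) {i j l : ℤ} {y x z : ℂ} (e1 : blk S ix D y = i) (e2 : blk S ix D x = j)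
    (e3 : blk S ix D z = l) (h : (j < i ∧ i < l) ∨ (i < l ∧ l < j) ∨ (l < j ∧ j < i)) :
    (ix x < ix y ∧ ix y < ix z) ∨ (ix y < ix z ∧ ix z < ix x) ∨ (ix z < ix x ∧ ix x < ix y) := by
  subst e1 e2 e3
  exact h.imp (fun h => ⟨g2_lt D h.1, g2_lt D h.2⟩) (fun h => h.imp
    (fun h => ⟨g2_lt D h.1, g2_lt D h.2⟩) (fun h => ⟨g2_lt D h.1, g2_lt D h.2⟩))

theorem g2_same (D : ℕ) {i j : ℤ} {y y' x : ℂ} (e1 : blk S ix D y = i) (e2 : blk S ix D y' = i)
    (e3 : blk S ix D x = j) (hij : i ≠ j) : ¬ (ix y < ix x ∧ ix x < ix y') := by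
  rintro ⟨h1, h2⟩
  have a := blk_mono (S := S) D h1.le
  have b := blk_mono (S := S) D h2.le
  omega

theorem g2_ori (e : Enum S p ix) {x y z : ℂ} (hx : x ∈ S) (hy : y ∈ S) (hz : z ∈ S)
    (h : (ix x < ix y ∧ ix y < ix z) ∨ (ix y < ix z ∧ ix z < ix x) ∨
      (ix z < ix x ∧ ix x < ix y)) : 0 < ori x y z := by
  rcases h with h | h | h
  · exact e.ori_pos hx hy hz h.1 h.2
  · rw [ori_cyc]
    exact e.ori_pos hy hz hx h.1 h.2
  · rw [← ori_cyc]
    exact e.ori_pos hz hx hy h.1 h.2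

theorem g2_four (e : Enum S p ix) {x y y' z : ℂ} (hx : x ∈ S) (hy : y ∈ S) (hy' : y' ∈ S)
    (hz : z ∈ S) (h : (ix x < ix y ∧ ix y < ix z) ∨ (ix y < ix z ∧ ix z < ix x) ∨
      (ix z < ix x ∧ ix x < ix y)) (h' : (ix x < ix y' ∧ ix y' < ix z) ∨
      (ix y' < ix z ∧ ix z < ix x) ∨ (ix z < ix x ∧ ix x < ix y'))
    (n1 : ¬ (ix y < ix x ∧ ix x < ix y')) (n2 : ¬ (ix y < ix z ∧ ix z < ix y'))
    (hlt : ix y < ix y') :
    dist y x - dist y z < dist y' x - dist y' z ∧ 0 < ori x y y' ∧ 0 < ori y y' z := by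
  refine ⟨?_, g2_ori e hx hy hy' (by omega), g2_ori e hy hy' hz (by omega)⟩
  rcases h with h | h | h
  · have := (e.quad hx hy hy' hz h.1 hlt (by omega)).1
    rw [dist_comm x y, dist_comm x y'] at this
    linarith
  · have := (e.quad hy hy' hz hx hlt (by omega) h.2).2
    linarith
  · have := (e.quad hz hx hy hy' h.1 h.2 hlt).2
    rw [dist_comm x y, dist_comm z y', dist_comm z y, dist_comm x y'] at this
    linarith

/-- three different blocks: six orders of `i, j, l`; `s = 1` when `(x, y, z)` is in cyclic index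
order, else `s = -1`; use `blk_mono`, `Enum.quad`, `Enum.ori_pos`, `ori_cyc`, `ori_swap` -/
theorem three_blocks (e : Enum S p ix) (D : ℕ) {i j l : ℤ} (hij : i ≠ j) (hil : i ≠ l)
    (hjl : j ≠ l) : ∃ s : ℝ, (s = 1 ∨ s = -1) ∧ ∀ y ∈ S, ∀ x ∈ S, ∀ z ∈ S, blk S ix D y = i →
      blk S ix D x = j → blk S ix D z = l → 0 < s * ori x y z ∧ ∀ y' ∈ S, blk S ix D y' = i →
        s * (ix y : ℝ) < s * (ix y' : ℝ) → dist y x - dist y z < dist y' x - dist y' z ∧
          0 < s * ori x y y' ∧ 0 < s * ori y y' z := by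
  have A : (j < i ∧ i < l) ∨ (i < l ∧ l < j) ∨ (l < j ∧ j < i) → ∀ y ∈ S, ∀ x ∈ S, ∀ z ∈ S,
      blk S ix D y = i → blk S ix D x = j → blk S ix D z = l → 0 < ori x y z ∧ ∀ y' ∈ S,
        blk S ix D y' = i → ix y < ix y' →
          dist y x - dist y z < dist y' x - dist y' z ∧ 0 < ori x y y' ∧ 0 < ori y y' z := by
    intro h y hy x hx z hz e1 e2 e3
    have c := fun y (e1 : blk S ix D y = i) => g2_cyc D e1 e2 e3 h
    exact ⟨g2_ori e hx hy hz (c y e1), fun y' hy' e4 hlt =>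
      g2_four e hx hy hy' hz (c y e1) (c y' e4) (g2_same D e1 e4 e2 hij)
        (g2_same D e1 e4 e3 hil) hlt⟩
  have B : (l < i ∧ i < j) ∨ (i < j ∧ j < l) ∨ (j < l ∧ l < i) → ∀ y ∈ S, ∀ x ∈ S, ∀ z ∈ S,
      blk S ix D y = i → blk S ix D x = j → blk S ix D z = l → 0 < ori z y x ∧ ∀ y' ∈ S,
        blk S ix D y' = i → ix y' < ix y →
          dist y' z - dist y' x < dist y z - dist y x ∧ 0 < ori z y' y ∧ 0 < ori y' y x := by
    intro h y hy x hx z hz e1 e2 e3
    have c := fun y (e1 : blk S ix D y = i) => g2_cyc D e1 e3 e2 h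
    exact ⟨g2_ori e hz hy hx (c y e1), fun y' hy' e4 hlt =>
      g2_four e hz hy' hy hx (c y' e4) (c y e1) (g2_same D e4 e1 e3 hil)
        (g2_same D e4 e1 e2 hij) hlt⟩
  by_cases h : (j < i ∧ i < l) ∨ (i < l ∧ l < j) ∨ (l < j ∧ j < i)
  · refine ⟨1, Or.inl rfl, fun y hy x hx z hz e1 e2 e3 => ?_⟩
    obtain ⟨a1, a2⟩ := A h y hy x hx z hz e1 e2 e3
    simp only [one_mul]
    exact ⟨a1, fun y' hy' e4 hlt => a2 y' hy' e4 (by exact_mod_cast hlt)⟩
  · refine ⟨-1, Or.inr rfl, fun y hy x hx z hz e1 e2 e3 => ?_⟩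
    obtain ⟨a1, a2⟩ := B (by omega) y hy x hx z hz e1 e2 e3
    refine ⟨by unfold ori at a1 ⊢; linarith, fun y' hy' e4 hlt => ?_⟩
    obtain ⟨b1, b2, b3⟩ := a2 y' hy' e4 (by
      have : (ix y' : ℝ) < ix y := by linarith
      exact_mod_cast this)
    exact ⟨by linarith, by unfold ori at b3 ⊢; linarith, by unfold ori at b2 ⊢; linarith⟩

end Pool.Agent.Lib.MP_990519_co.Big
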