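import Pool.Agent.Lib.MP_990519_co.Big.G2

namespace Pool.Agent.Lib.MP_990519_co.Big

open Finset
open scoped Classical ComplexConjugate

variable {S : Finset ℂ} {p : ℤ → ℂ} {ix : ℂ → ℤ}

/-- single crossing: two apexes of the pair `x, z` are separated by it.  If `ix x < ix z` then
exactly one of `y, y'` has its index strictly between (`Enum.quad`). -/
theorem apex_sep (e : Enum S p ix) {x z y y' : ℂ} (hx : x ∈ S) (hz : z ∈ S) (hy : y ∈ S)
    (hy' : y' ∈ S) (hxz : ix x < ix z) (d : dist y x = dist y z) (d' : dist y' x = dist y' z)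
    (h : (ix x < ix y ∧ ix y < ix z) ↔ (ix x < ix y' ∧ ix y' < ix z)) : y = y' := by
  have ne : ∀ w ∈ S, dist w x = dist w z → ix w ≠ ix x ∧ ix w ≠ ix z := by
    intro w hw dw
    constructor
    · intro h0
      rw [e.ix_inj hw hx h0, dist_self, eq_comm, dist_eq_zero] at dw
      rw [dw] at hxz
      omega
    · intro h0
      rw [e.ix_inj hw hz h0, dist_self, dist_eq_zero] at dw
      rw [dw] at hxz
      omega
  have key : ∀ w ∈ S, ∀ w' ∈ S, dist w x = dist w z → dist w' x = dist w' z →
      ((ix x < ix w ∧ ix w < ix z) ↔ (ix x < ix w' ∧ ix w' < ix z)) → ¬ ix w < ix w' := by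
    intro w hw w' hw' dw dw' hh hlt
    have n1 := ne w hw dw
    have n2 := ne w' hw' dw'
    by_cases hb : ix x < ix w ∧ ix w < ix z
    · have := (e.quad hx hw hw' hz hb.1 hlt (hh.1 hb).2).1
      rw [dist_comm x w, dist_comm x w'] at this
      linarith
    · have hb' : ¬ (ix x < ix w' ∧ ix w' < ix z) := fun h0 => hb (hh.2 h0)
      rcases (by omega : ix w' < ix x ∨ (ix w < ix x ∧ ix z < ix w') ∨ ix z < ix w) with c | c | c
      · have := (e.quad hw hw' hx hz hlt c hxz).2
        linarith
      · have := (e.quad hw hx hz hw' c.1 hxz c.2).1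
        rw [dist_comm z w', dist_comm x w'] at this
        linarith
      · have := (e.quad hx hz hw hw' hxz c hlt).2
        rw [dist_comm z w, dist_comm x w', dist_comm x w, dist_comm z w'] at this
        linarith
  have k1 := key y hy y' hy' d d' h
  have k2 := key y' hy' y hy d' d h.symm
  exact e.ix_inj hy hy' (by omega)

/-- two points of one block have at most one apex outside the block -/
theorem outer_uniq (e : Enum S p ix) (D : ℕ) {x z y y' : ℂ} (hx : x ∈ S) (hz : z ∈ S) (hy : y ∈ S)
    (hy' : y' ∈ S) (hxz : x ≠ z) (hb : blk S ix D x = blk S ix D z)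
    (h1 : blk S ix D y ≠ blk S ix D x) (h2 : blk S ix D y' ≠ blk S ix D x)
    (d : dist y x = dist y z) (d' : dist y' x = dist y' z) : y = y' := by
  have out : ∀ {a b w : ℂ}, blk S ix D a = blk S ix D b → blk S ix D w ≠ blk S ix D a →
      ¬ (ix a < ix w ∧ ix w < ix b) := by
    rintro a b w e1 e2 ⟨k1, k2⟩
    have := blk_mono (S := S) D k1.le
    have := blk_mono (S := S) D k2.le
    omega
  rcases lt_trichotomy (ix x) (ix z) with h | h | h
  · exact apex_sep e hx hz hy hy' h d d' (iff_of_false (out hb h1) (out hb h2))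
  · exact absurd (e.ix_inj hx hz h) hxz
  · exact apex_sep e hz hx hy hy' h d.symm d'.symm
      (iff_of_false (out hb.symm (hb ▸ h1)) (out hb.symm (hb ▸ h2)))

theorem g2b_step (e : Enum S p ix) {D : ℕ} {x a b w w' : ℂ} (ha : a ∈ S) (hb : b ∈ S) (hw : w ∈ S)
    (hw' : w' ∈ S) (e1 : blk S ix D a = blk S ix D x) (e2 : blk S ix D b = blk S ix D x)
    (n1 : blk S ix D w ≠ blk S ix D x) (n2 : blk S ix D w' ≠ blk S ix D x) (hab : ix a < ix b)
    (h : (ix x < ix w ∧ ix w < ix w') ∨ (ix w' < ix x ∧ ix x < ix w) ∨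
      (ix w < ix w' ∧ ix w' < ix x)) : dist w b - dist w a < dist w' b - dist w' a := by
  have up : ∀ {v : ℂ}, blk S ix D v ≠ blk S ix D x → ix x < ix v → ix b < ix v := by
    intro v n k
    have := blk_mono (S := S) D k.le
    exact g2_lt (S := S) D (by omega)
  have dn : ∀ {v : ℂ}, blk S ix D v ≠ blk S ix D x → ix v < ix x → ix v < ix a := by
    intro v n k
    have := blk_mono (S := S) D k.le
    exact g2_lt (S := S) D (by omega)
  rcases h with h | h | h
  · have := (e.quad ha hb hw hw' hab (up n1 h.1) h.2).2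
    rw [dist_comm b w, dist_comm a w', dist_comm a w, dist_comm b w'] at this
    linarith
  · have := (e.quad hw' ha hb hw (dn n2 h.1) hab (up n1 h.2)).1
    rw [dist_comm b w, dist_comm a w] at this
    linarith
  · have := (e.quad hw hw' ha hb h.1 (dn n2 h.2) hab).2
    linarith

/-- paper 6.1.  Order the points outside the block `b` of `x` along the arc that starts after
`b`: position `ix w` for `blk w > b`, `ix w + n` for `blk w < b`.  For `a, a'` in `b` with
`ix a < ix a'` the number `dist w a' - dist w a` strictly increases along the arc (`Enum.quad`), so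
`TameUp` passes to later points and `TameDn` to earlier points.  If `z` is in `b` use
`outer_uniq`; else `z` is tame, so it is not between `y` and `y'` on the arc; use `apex_sep`. -/
theorem uniq (e : Enum S p ix) (D : ℕ) {x z y y' : ℂ} (hx : x ∈ S) (hz : z ∈ S) (hy : y ∈ S)
    (hy' : y' ∈ S) (hxz : x ≠ z) (hn : ¬ NN S ix D x z) (h1 : NN S ix D x y)
    (h2 : NN S ix D x y') (d : dist y x = dist y z) (d' : dist y' x = dist y' z) : y = y' := by
  by_cases hb : blk S ix D z = blk S ix D x
  · exact outer_uniq e D hx hz hy hy' hxz hb.symm h1.1 h2.1 d d'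
  have ht : TameB S ix D z x := by
    by_contra h
    exact hn ⟨hb, h⟩
  have nz : ∀ w ∈ S, NN S ix D x w → ix w ≠ ix z ∧ ix w ≠ ix x := by
    intro w hw h
    exact ⟨fun h0 => hn (e.ix_inj hw hz h0 ▸ h), fun h0 => h.1 (by rw [e.ix_inj hw hx h0])⟩
  have mid : ∀ w ∈ S, ∀ w' ∈ S, NN S ix D x w → NN S ix D x w' →
      (ix x < ix w ∧ ix w < ix z) ∨ (ix z < ix x ∧ ix x < ix w) ∨ (ix w < ix z ∧ ix z < ix x) →
      (ix x < ix z ∧ ix z < ix w') ∨ (ix w' < ix x ∧ ix x < ix z) ∨ (ix z < ix w' ∧ ix w' < ix x) →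
      False := by
    intro w hw w' hw' m1 m2 c1 c2
    rcases ht with ht | ht
    · refine m2.2 (Or.inl fun a ha b hb' e1 e2 hab => ?_)
      have := g2b_step e ha hb' hz hw' e1 e2 hb m2.1 (by simpa using hab) c2
      have := ht a ha b hb' e1 e2 hab
      linarith
    · refine m1.2 (Or.inr fun a ha b hb' e1 e2 hab => ?_)
      have := g2b_step e ha hb' hw hz e1 e2 m1.1 hb (by simpa using hab) c1
      have := ht a ha b hb' e1 e2 hab
      linarith
  have m1 := mid y hy y' hy' h1 h2
  have m2 := mid y' hy' y hy h2 h1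
  have n1 := nz y hy h1
  have n2 := nz y' hy' h2
  rcases lt_trichotomy (ix x) (ix z) with h | h | h
  · refine apex_sep e hx hz hy hy' h d d' ⟨fun k => ?_, fun k => ?_⟩
    · by_contra k'
      exact m1 (Or.inl k) (by omega)
    · by_contra k'
      exact m2 (Or.inl k) (by omega)
  · exact absurd (e.ix_inj hx hz h) hxz
  · refine apex_sep e hz hx hy hy' h d.symm d'.symm ⟨fun k => ?_, fun k => ?_⟩
    · by_contra k'
      exact m2 (by omega) (Or.inr (Or.inr k))
    · by_contra k'
      exact m1 (by omega) (Or.inr (Or.inr k))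

theorem g2b_dot {u v : ℂ} {t : ℝ} (hu : u ≠ 0) (hv : v ≠ 0) (h : ‖dir u - dir v‖ ≤ t) :
    (1 - t ^ 2 / 2) * (‖u‖ * ‖v‖) ≤ dot u v := by
  have pu := norm_pos_iff.2 hu
  have pv := norm_pos_iff.2 hv
  have h1 : ‖dir u - dir v‖ ^ 2 ≤ t ^ 2 := pow_le_pow_left₀ (norm_nonneg _) h 2
  have h2 : ‖dir u - dir v‖ ^ 2 = 2 - 2 * (dot u v / (‖u‖ * ‖v‖)) := by
    have a := Complex.sq_norm u
    have b := Complex.sq_norm v
    rw [Complex.normSq_apply] at a b
    rw [Complex.sq_norm, Complex.normSq_apply]
    simp only [dir, dot, Complex.sub_re, Complex.sub_im, Complex.div_ofReal_re,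
      Complex.div_ofReal_im]
    field_simp
    linear_combination (-‖v‖ ^ 2) * a - ‖u‖ ^ 2 * b
  rw [← le_div_iff₀ (by positivity)]
  linarith

theorem g2b_grow {u v : ℂ} (hu : u ≠ 0) (hv : v ≠ 0) (h : ‖dir u - dir v‖ ≤ 1) :
    ‖u‖ < ‖u + v‖ := by
  have h1 := g2b_dot hu hv h
  have pu := norm_pos_iff.2 hu
  have pv := norm_pos_iff.2 hv
  have h2 : ‖u + v‖ ^ 2 = ‖u‖ ^ 2 + ‖v‖ ^ 2 + 2 * dot u v := by
    simp only [Complex.sq_norm, Complex.normSq_apply, dot, Complex.add_re, Complex.add_im]
    ring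
  have h3 := mul_pos pu pv
  exact lt_of_pow_lt_pow_left₀ 2 (norm_nonneg _) (by nlinarith)

/-- paper 6.4 (Same).  If `y` lies before the small block, then for `a, a'` in it with
`ix a < ix a'` the directions of `a - y` and `a' - a` are within 1, their scalar product is
positive, so `dist y a < dist y a'`; after the block the distances decrease. -/
theorem same_disj (e : Enum S p ix) {D0 D' : ℕ} (hd : D0 ∣ D') (hD' : 0 < D') {x y : ℂ}
    (hx : x ∈ S) (hy : y ∈ S) (hs : Straight S ix D0 x) (hb : blk S ix D0 y = blk S ix D0 x) :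
    ¬ NN S ix D' x y := by
  rintro ⟨h1, h2⟩
  have ne : ∀ {a b : ℂ}, ix a < ix b → b - a ≠ 0 := by
    intro a b h h0
    rw [sub_eq_zero.1 h0] at h
    omega
  apply h2
  rcases lt_or_gt_of_ne h1 with h | h
  · refine Or.inl fun a ha b hb' e1 e2 hab => ?_
    have k1 : ix y < ix a := g2_lt (S := S) D' (by omega)
    have k2 : ix a < ix b := by simpa using hab
    have := g2b_grow (ne k1) (ne k2) (hs y hy a ha a ha b hb' hb (blk_nest hd hD' e1)
      (blk_nest hd hD' e1) (blk_nest hd hD' e2) k1 k2)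
    rw [dist_comm y a, dist_comm y b, dist_eq_norm, dist_eq_norm]
    have k3 : b - y = a - y + (b - a) := by ring
    rw [k3]
    exact this
  · refine Or.inr fun a ha b hb' e1 e2 hab => ?_
    have k1 : ix b < ix y := g2_lt (S := S) D' (by omega)
    have k2 : ix a < ix b := by simpa using hab
    have := g2b_grow (ne k1) (ne k2) (hs b hb' y hy a ha b hb' (blk_nest hd hD' e2) hb
      (blk_nest hd hD' e1) (blk_nest hd hD' e2) k1 k2)
    rw [dist_eq_norm, dist_eq_norm]
    have k3 : y - a = y - b + (b - a) := by ring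
    rw [k3]
    exact this

/-- paper 6.4 (G1): all three angles would be below 60 degrees; look at the longest side -/
theorem no_three_nor {nr : ℂ → ℂ} {om : ℝ} (hom : om ≤ 1 / 4) {a b c : ℂ} (hab : a ≠ b)
    (hac : a ≠ c) (hbc : b ≠ c) (h1 : Nor nr om a b) (h2 : Nor nr om a c) (h3 : Nor nr om b a)
    (h4 : Nor nr om b c) (h5 : Nor nr om c a) (h6 : Nor nr om c b) : False := by
  have key : ∀ {a b c : ℂ}, a ≠ b → a ≠ c → Nor nr om a b → Nor nr om a c →
      7 / 8 * (dist a b * dist a c) ≤ dot (b - a) (c - a) := by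
    intro a b c n1 n2 k1 k2
    have h : ‖dir (b - a) - dir (c - a)‖ ≤ 1 / 2 := by
      have := norm_sub_le (dir (b - a) - nr a) (dir (c - a) - nr a)
      rw [sub_sub_sub_cancel_right] at this
      unfold Nor at k1 k2
      linarith
    have := g2b_dot (sub_ne_zero.2 n1.symm) (sub_ne_zero.2 n2.symm) h
    rw [dist_comm a b, dist_comm a c, dist_eq_norm, dist_eq_norm]
    linarith
  have sq : ∀ a b c : ℂ, dot (b - a) (c - a) + dot (a - b) (c - b) = dist a b * dist a b := by
    intro a b c
    rw [dist_eq_norm, Complex.norm_mul_self_eq_normSq, Complex.normSq_apply]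
    simp only [dot, Complex.sub_re, Complex.sub_im]
    ring
  have k1 := key hab hac h1 h2
  have k2 := key hab.symm hbc h3 h4
  have k3 := key hac hab h2 h1
  have k4 := key hac.symm hbc.symm h5 h6
  have k5 := key hbc hab.symm h4 h3
  have k6 := key hbc.symm hac.symm h6 h5
  have s1 := sq a b c
  have s2 := sq a c b
  have s3 := sq b c a
  rw [dist_comm b a] at k2 k5
  rw [dist_comm c a, dist_comm c b] at k4 k6
  have p1 := dist_pos.2 hab
  have p2 := dist_pos.2 hac
  have p3 := dist_pos.2 hbc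
  have t1 : 7 / 8 * (dist a c + dist b c) ≤ dist a b :=
    le_of_mul_le_mul_left (by linarith) p1
  have t2 : 7 / 8 * (dist a b + dist b c) ≤ dist a c :=
    le_of_mul_le_mul_left (by linarith) p2
  have t3 : 7 / 8 * (dist a b + dist a c) ≤ dist b c :=
    le_of_mul_le_mul_left (by linarith) p3
  linarith

end Pool.Agent.Lib.MP_990519_co.Big
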