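import Pool.Agent.Lib.MP_990519_co.Big.G2

namespace Pool.Agent.Lib.MP_990519_co.Big

open Finset
open scoped Classical ComplexConjugate

variable {S : Finset ℂ} {p : ℤ → ℂ} {ix : ℂ → ℤ}

theorem g3_cs (a b : ℂ) : |dot a b| ≤ ‖a‖ * ‖b‖ := by
  have h1 : dot a b = (a * conj b).re := by
    simp only [dot, Complex.mul_re, Complex.conj_re, Complex.conj_im]
    ring
  rw [h1, ← Complex.norm_conj b, ← norm_mul]
  exact Complex.abs_re_le_norm _

theorem g3_sq (a : ℂ) : ‖a‖ ^ 2 = a.re ^ 2 + a.im ^ 2 := by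
  rw [Complex.sq_norm, Complex.normSq_apply]
  ring

theorem g3_dir {v : ℂ} (hv : v ≠ 0) : ‖dir v‖ = 1 := by
  unfold dir
  rw [norm_div, Complex.norm_real, norm_norm, div_self (norm_ne_zero_iff.2 hv)]

theorem g3_dot_dir (u v : ℂ) : dot u (dir v) = dot u v / ‖v‖ := by
  simp only [dot, dir, Complex.div_ofReal_re, Complex.div_ofReal_im]
  ring

theorem g3_pos {u v : ℂ} (h : 0 < dot u (dir v)) : 0 < dot u v := by
  rw [g3_dot_dir] at h
  by_contra h'
  exact absurd h (not_lt.2 (div_nonpos_of_nonpos_of_nonneg (not_lt.1 h') (norm_nonneg _)))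

theorem g3_neg {u v : ℂ} (h : dot u (dir v) < 0) : dot u v < 0 := by
  rw [g3_dot_dir] at h
  by_contra h'
  exact absurd h (not_lt.2 (div_nonneg (not_lt.1 h') (norm_nonneg _)))

theorem g3_sub (u a b : ℂ) : dot u (a - b) = dot u a - dot u b := by
  simp only [dot, Complex.sub_re, Complex.sub_im]
  ring

theorem g3_negl (u a : ℂ) : dot (-u) a = -dot u a := by
  simp only [dot, Complex.neg_re, Complex.neg_im]
  ring

/-- a finite `θ / 2`-net of the unit circle separates: take `e` near `dir (v' - v)` -/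
theorem net (θ : ℝ) (hθ : 0 < θ) : ∃ E : Finset ℂ, ∀ v v' : ℂ, ‖v‖ = 1 → ‖v'‖ = 1 →
    θ < ‖v - v'‖ → ∃ e ∈ E, dot e v < 0 ∧ 0 < dot e v' := by
  obtain ⟨t, -, ht, hc⟩ := finite_cover_balls_of_compact (isCompact_closedBall (0 : ℂ) 2)
    (show 0 < θ ^ 2 / 2 by positivity)
  refine ⟨ht.toFinset, fun v v' hv hv' h => ?_⟩
  have hd : v' - v ∈ Metric.closedBall (0 : ℂ) 2 := by
    rw [mem_closedBall_zero_iff]
    have := norm_sub_le v' v
    linarith
  have := hc hd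
  simp only [Set.mem_iUnion, Metric.mem_ball, exists_prop] at this
  obtain ⟨u, hu, hu2⟩ := this
  refine ⟨u, ht.mem_toFinset.2 hu, ?_⟩
  rw [dist_eq_norm] at hu2
  have c1 := abs_le.1 (g3_cs (v' - v - u) v)
  have c2 := abs_le.1 (g3_cs (v' - v - u) v')
  rw [hv, mul_one] at c1
  rw [hv', mul_one] at c2
  have s1 := g3_sq v
  have s2 := g3_sq v'
  have s3 := g3_sq (v - v')
  have s4 : θ ^ 2 < ‖v - v'‖ ^ 2 := pow_lt_pow_left₀ h hθ.le two_ne_zero
  rw [hv] at s1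
  rw [hv'] at s2
  simp only [dot, Complex.sub_re, Complex.sub_im] at c1 c2 s3 ⊢
  constructor <;> nlinarith [c1.1, c1.2, c2.1, c2.2]

theorem g3_quad (e : Enum S p ix) (u : ℂ) {a b c d : ℤ} (h1 : a < b) (h2 : b < c) (h3 : c < d)
    (h4 : d < a + S.card) (k1 : dot u (p b) < dot u (p a)) (k2 : dot u (p b) < dot u (p c))
    (k3 : dot u (p d) < dot u (p a)) (k4 : dot u (p d) < dot u (p c)) : False := by
  have w1 := e.pos b c d h2 h3 (by omega)
  have w2 := e.pos a c d (by omega) h3 h4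
  have w3 := e.pos a b d h1 (by omega) h4
  have w4 := e.pos a b c h1 h2 (by omega)
  obtain ⟨m, m1, m2, m3, m4⟩ : ∃ m : ℝ, m < dot u (p a) ∧ m < dot u (p c) ∧ dot u (p b) ≤ m ∧
      dot u (p d) ≤ m :=
    ⟨max (dot u (p b)) (dot u (p d)), max_lt k1 k3, max_lt k2 k4, le_max_left _ _,
      le_max_right _ _⟩
  have id : ori (p b) (p c) (p d) * (dot u (p a) - m) + ori (p a) (p b) (p d) * (dot u (p c) - m) +
      ori (p a) (p c) (p d) * (m - dot u (p b)) + ori (p a) (p b) (p c) * (m - dot u (p d)) = 0 := by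
    unfold ori dot
    ring
  have t1 := mul_pos w1 (sub_pos.2 m1)
  have t2 := mul_pos w3 (sub_pos.2 m2)
  have t3 := mul_nonneg w2.le (sub_nonneg.2 m3)
  have t4 := mul_nonneg w4.le (sub_nonneg.2 m4)
  linarith

/-- no sign pattern `+ - + -` of edges in a period.  With `φ i = dot u (p i)` put
`a = argmax` on `[i + 1, j]`, `b = argmin` on `[j + 1, k]`, `c = argmax` on `[k + 1, l]`,
`d = argmin` on `[l + 1, i + n]`; then `φ a, φ c > φ b, φ d`, but the diagonals of the convex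
quadrilateral meet: `(ori b c d) a + (ori a b d) c`-type identity as in the proof of `kalm`. -/
theorem no_pmpm (e : Enum S p ix) (u : ℂ) {i j k l : ℤ} (hij : i < j) (hjk : j < k) (hkl : k < l)
    (hl : l < i + S.card) (h1 : 0 < dot u (p (i + 1) - p i)) (h2 : dot u (p (j + 1) - p j) < 0)
    (h3 : 0 < dot u (p (k + 1) - p k)) (h4 : dot u (p (l + 1) - p l) < 0) : False := by
  rw [g3_sub] at h1 h2 h3 h4
  have mx : ∀ r s : ℤ, r ≤ s → ∃ a, r ≤ a ∧ a ≤ s ∧ dot u (p r) ≤ dot u (p a) ∧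
      dot u (p s) ≤ dot u (p a) := by
    intro r s h
    rcases le_total (dot u (p r)) (dot u (p s)) with k | k
    · exact ⟨s, h, le_rfl, k, le_rfl⟩
    · exact ⟨r, le_rfl, h, le_rfl, k⟩
  have mn : ∀ r s : ℤ, r ≤ s → ∃ a, r ≤ a ∧ a ≤ s ∧ dot u (p a) ≤ dot u (p r) ∧
      dot u (p a) ≤ dot u (p s) := by
    intro r s h
    rcases le_total (dot u (p r)) (dot u (p s)) with k | k
    · exact ⟨r, le_rfl, h, le_rfl, k⟩
    · exact ⟨s, h, le_rfl, k, le_rfl⟩
  obtain ⟨a, a1, a2, a3, a4⟩ := mx (i + 1) j (by omega)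
  obtain ⟨b, b1, b2, b3, b4⟩ := mn (j + 1) k (by omega)
  obtain ⟨c, c1, c2, c3, c4⟩ := mx (k + 1) l (by omega)
  obtain ⟨d, d1, d2, d3, d4⟩ := mn (l + 1) (i + S.card) (by omega)
  rw [e.per] at d4
  exact g3_quad e u (a := a) (b := b) (c := c) (d := d) (by omega) (by omega) (by omega)
    (by omega) (by linarith) (by linarith) (by linarith) (by linarith)

theorem g3_step (f : ℤ → ℝ) {i k : ℤ} (h : i ≤ k) (hf : f i < f (k + 1)) :
    ∃ t, i ≤ t ∧ t ≤ k ∧ f t < f (t + 1) := by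
  by_contra hc
  push Not at hc
  have : ∀ m : ℕ, i + m ≤ k + 1 → f (i + m) ≤ f i := by
    intro m
    induction m with
    | zero => intro _; simp
    | succ m ih =>
      intro hm
      push_cast at hm ⊢
      have h1 := ih (by omega)
      have h2 := hc (i + m) (by omega) (by omega)
      rw [← add_assoc]
      linarith
  have h3 := this (k + 1 - i).toNat (by omega)
  rw [show i + ((k + 1 - i).toNat : ℤ) = k + 1 by omega] at h3
  linarith

/-- a positive chord inside a block has a positive edge that starts in the block -/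
theorem g3_edge (e : Enum S p ix) (D : ℕ) (u : ℂ) {a a' : ℂ} (ha : a ∈ S) (ha' : a' ∈ S)
    (hb : blk S ix D a = blk S ix D a') (h : ix a ≤ ix a') (hp : 0 < dot u (p (ix a' + 1) - a)) :
    ∃ x ∈ S, blk S ix D x = blk S ix D a ∧ 0 < dot u (p (ix x + 1) - p (ix x)) := by
  rw [g3_sub] at hp
  obtain ⟨t, t1, t2, t3⟩ := g3_step (fun t => dot u (p t)) h (by
    simp only [e.pix a ha]
    linarith)
  have h1 := e.ix0 a ha
  have h2 := e.ix0 a' ha'
  have h3 := e.ixp t (by omega) (by omega)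
  refine ⟨p t, e.mem t, ?_, ?_⟩
  · have m1 := blk_mono (S := S) (ix := ix) D (a := a) (b := p t) (by omega)
    have m2 := blk_mono (S := S) (ix := ix) D (a := p t) (b := a') (by omega)
    omega
  · rw [h3, g3_sub]
    linarith

theorem g3_two (e : Enum S p ix) (D : ℕ) (u : ℂ) :
    ((S.image (blk S ix D)).filter (fun j =>
      (∃ x ∈ S, blk S ix D x = j ∧ 0 < dot u (p (ix x + 1) - p (ix x))) ∧
      (∃ x ∈ S, blk S ix D x = j ∧ 0 < dot (-u) (p (ix x + 1) - p (ix x))))).card ≤ 2 := by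
  have key : ∀ (u : ℂ) (x1 x2 x3 x4 : ℂ), x1 ∈ S → x4 ∈ S → ix x1 < ix x2 → ix x2 < ix x3 →
      ix x3 < ix x4 → 0 < dot u (p (ix x1 + 1) - p (ix x1)) →
      0 < dot (-u) (p (ix x2 + 1) - p (ix x2)) → 0 < dot u (p (ix x3 + 1) - p (ix x3)) →
      0 < dot (-u) (p (ix x4 + 1) - p (ix x4)) → False := by
    intro u x1 x2 x3 x4 m1 m4 l1 l2 l3 s1 s2 s3 s4
    rw [g3_negl] at s2 s4
    have := e.ix0 x1 m1
    have := e.ix0 x4 m4
    exact no_pmpm e u l1 l2 l3 (by omega) s1 (by linarith) s3 (by linarith)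
  obtain ⟨P, hP⟩ : ∃ P : ℤ → Prop, ∀ j, P j ↔
      (∃ x ∈ S, blk S ix D x = j ∧ 0 < dot u (p (ix x + 1) - p (ix x))) ∧
      (∃ x ∈ S, blk S ix D x = j ∧ 0 < dot (-u) (p (ix x + 1) - p (ix x))) := ⟨_, fun _ => Iff.rfl⟩
  have three : ∀ a b c : ℤ, P a → P b → P c → a < b → b < c → False := by
    intro a b c ha hb hc h1 h2
    obtain ⟨⟨x1, m1, e1, s1⟩, y1, n1, f1, r1⟩ := (hP a).1 ha
    obtain ⟨⟨x2, m2, e2, s2⟩, y2, n2, f2, r2⟩ := (hP b).1 hb
    obtain ⟨⟨x3, m3, e3, s3⟩, y3, n3, f3, r3⟩ := (hP c).1 hc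
    rcases lt_trichotomy (ix x1) (ix y1) with h | h | h
    · exact key u x1 y1 x2 y3 m1 n3 h (g2_lt (S := S) D (by omega)) (g2_lt (S := S) D (by omega))
        s1 r1 s2 r3
    · rw [← h, g3_negl] at r1
      linarith
    · exact key (-u) y1 x1 y2 x3 n1 m3 h (g2_lt (S := S) D (by omega))
        (g2_lt (S := S) D (by omega)) r1 (by rwa [neg_neg]) r2 (by rwa [neg_neg])
  by_contra hh
  obtain ⟨a, b, c, ha, hb, hc, hab, hac, hbc⟩ := two_lt_card_iff.1 (not_le.1 hh)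
  have pa := (hP a).2 (mem_filter.1 ha).2
  have pb := (hP b).2 (mem_filter.1 hb).2
  have pc := (hP c).2 (mem_filter.1 hc).2
  rcases lt_or_gt_of_ne hab with l1 | l1 <;> rcases lt_or_gt_of_ne hac with l2 | l2 <;>
    rcases lt_or_gt_of_ne hbc with l3 | l3
  · exact three a b c pa pb pc l1 l3
  · exact three a c b pa pc pb l2 l3
  · omega
  · exact three c a b pc pa pb l2 l1
  · exact three b a c pb pa pc l1 l2
  · omega
  · exact three b c a pb pc pa l3 l2
  · exact three c b a pc pb pa l3 l1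

theorem g3_ne (e : Enum S p ix) (D : ℕ) {a a' : ℂ} (ha : a ∈ S) (ha' : a' ∈ S)
    (h0 : blk S ix D a ≠ 0) (h : ix a ≤ ix a') : p (ix a' + 1) - a ≠ 0 := by
  intro h1
  rw [sub_eq_zero] at h1
  have a0 := e.ix0 a ha
  have a1 := e.ix0 a' ha'
  rcases lt_or_ge (ix a' + 1) S.card with h3 | h3
  · have := e.ixp (ix a' + 1) (by omega) h3
    rw [h1] at this
    omega
  · have h4 : ix a' + 1 = 0 + S.card := by omega
    rw [h4, e.per] at h1
    have := e.ixp 0 le_rfl (by omega)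
    rw [h1] at this
    apply h0
    unfold blk
    rw [this]
    simp

/-- paper 6.2, bent blocks.  `J` = block 0 (covers the degenerate chord `p n - p 0 = 0`) and, for
each `u` of the net, the blocks that contain the starting point of an edge with positive and of an
edge with negative `dot u`; at most two per `u` by `no_pmpm` for `u` and `-u`.  A chord is a sum of
edges, so a positive chord has a positive edge. -/
theorem bent (θ : ℝ) (hθ : 0 < θ) : ∃ q : ℕ, ∀ (S : Finset ℂ) (p : ℤ → ℂ) (ix : ℂ → ℤ),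
    Enum S p ix → ∀ D : ℕ, ∃ J : Finset ℤ, J.card ≤ q ∧ ∀ j : ℤ, j ∉ J → ∀ a ∈ S, ∀ a' ∈ S,
      ∀ b ∈ S, ∀ b' ∈ S, blk S ix D a = j → blk S ix D a' = j → blk S ix D b = j →
        blk S ix D b' = j → ix a ≤ ix a' → ix b ≤ ix b' →
          ‖dir (p (ix a' + 1) - a) - dir (p (ix b' + 1) - b)‖ ≤ θ := by
  obtain ⟨E, hE⟩ := net θ hθ
  refine ⟨E.card * 2 + 1, fun S p ix e D => ?_⟩
  refine ⟨insert 0 (E.biUnion fun u => (S.image (blk S ix D)).filter (fun j =>
      (∃ x ∈ S, blk S ix D x = j ∧ 0 < dot u (p (ix x + 1) - p (ix x))) ∧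
      (∃ x ∈ S, blk S ix D x = j ∧ 0 < dot (-u) (p (ix x + 1) - p (ix x))))), ?_, ?_⟩
  · refine (card_insert_le _ _).trans (Nat.add_le_add_right ?_ 1)
    exact card_biUnion_le_card_mul _ _ _ (fun u _ => g3_two e D u)
  · intro j hj a ha a' ha' b hb b' hb' e1 e2 e3 e4 l1 l2
    rw [mem_insert, not_or] at hj
    by_contra hh
    obtain ⟨u, hu, u1, u2⟩ := hE _ _ (g3_dir (g3_ne e D ha ha' (by rw [e1]; exact hj.1) l1))
      (g3_dir (g3_ne e D hb hb' (by rw [e3]; exact hj.1) l2)) (not_le.1 hh)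
    refine hj.2 (mem_biUnion.2 ⟨u, hu, mem_filter.2 ⟨mem_image.2 ⟨a, ha, e1⟩, ?_, ?_⟩⟩)
    · rw [← e3]
      exact g3_edge e D u hb hb' (by rw [e3, e4]) l2 (g3_pos u2)
    · rw [← e1]
      refine g3_edge e D (-u) ha ha' (by rw [e1, e2]) l1 ?_
      rw [g3_negl]
      linarith [g3_neg u1]

/-- points whose block lies in `J` -/
theorem g3_cnt (e : Enum S p ix) {D : ℕ} (hD : 0 < D) (J : Finset ℤ) {q : ℕ} (hJ : J.card ≤ q)
    (A : Finset ℂ) (hA : ∀ x ∈ A, x ∈ S ∧ blk S ix D x ∈ J) :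
    (A.card : ℝ) ≤ q * (S.card / D + 1) := by
  have h1 : A.card ≤ ∑ j ∈ J, (S.filter (fun x => blk S ix D x = j)).card := by
    refine le_trans (card_le_card ?_) card_biUnion_le
    intro x hx
    exact mem_biUnion.2 ⟨_, (hA x hx).2, mem_filter.2 ⟨(hA x hx).1, rfl⟩⟩
  have h2 : ((∑ j ∈ J, (S.filter (fun x => blk S ix D x = j)).card : ℕ) : ℝ) ≤
      J.card * (S.card / D + 1) := by
    rw [Nat.cast_sum, ← nsmul_eq_mul]
    exact sum_le_card_nsmul _ _ _ (fun j _ => blk_card e hD j)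
  have h3 : (J.card : ℝ) ≤ q := by exact_mod_cast hJ
  have h4 : (0 : ℝ) ≤ S.card / D + 1 := by positivity
  calc (A.card : ℝ) ≤ _ := by exact_mod_cast h1
    _ ≤ _ := h2
    _ ≤ _ := mul_le_mul_of_nonneg_right h3 h4

theorem g3_prev (e : Enum S p ix) (D : ℕ) {a a' : ℂ} (ha : a ∈ S) (ha' : a' ∈ S)
    (hb : blk S ix D a = blk S ix D a') (h : ix a < ix a') :
    ∃ x ∈ S, blk S ix D x = blk S ix D a ∧ ix a ≤ ix x ∧ p (ix x + 1) = a' := by
  have a0 := e.ix0 a ha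
  have a1 := e.ix0 a' ha'
  have h3 := e.ixp (ix a' - 1) (by omega) (by omega)
  refine ⟨p (ix a' - 1), e.mem _, ?_, by omega, ?_⟩
  · have m1 := blk_mono (S := S) (ix := ix) D (a := a) (b := p (ix a' - 1)) (by omega)
    have m2 := blk_mono (S := S) (ix := ix) D (a := p (ix a' - 1)) (b := a') (by omega)
    omega
  · rw [h3, sub_add_cancel, e.pix a' ha']

/-- from `bent 1`: a chord `a' - a` is `p (ix a0 + 1) - a` for `a0 = p (ix a' - 1)` -/
theorem straight_count : ∃ q : ℕ, ∀ (S : Finset ℂ) (p : ℤ → ℂ) (ix : ℂ → ℤ), Enum S p ix →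
    ∀ D : ℕ, 0 < D →
      ((S.filter (fun x => ¬ Straight S ix D x)).card : ℝ) ≤ q * (S.card / D + 1) := by
  obtain ⟨q, hq⟩ := bent 1 one_pos
  refine ⟨q, fun S p ix e D hD => ?_⟩
  obtain ⟨J, hJ, h⟩ := hq S p ix e D
  refine g3_cnt e hD J hJ _ fun x hx => ⟨(mem_filter.1 hx).1, ?_⟩
  by_contra hj
  refine (mem_filter.1 hx).2 fun a ha a' ha' b hb b' hb' e1 e2 e3 e4 l1 l2 => ?_
  obtain ⟨a0, m1, f1, k1, r1⟩ := g3_prev e D ha ha' (by rw [e1, e2]) l1
  obtain ⟨b0, m2, f2, k2, r2⟩ := g3_prev e D hb hb' (by rw [e3, e4]) l2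
  have := h _ hj a ha a0 m1 b hb b0 m2 e1 (f1.trans e1) e3 (f2.trans e3) k1 k2
  rwa [r1, r2] at this

end Pool.Agent.Lib.MP_990519_co.Big
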