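import Pool.Agent.Lib.MP_990519_co.Big.G3

namespace Pool.Agent.Lib.MP_990519_co.Big

open Finset
open scoped Classical ComplexConjugate

variable {S : Finset ℂ} {p : ℤ → ℂ} {ix : ℂ → ℤ}

theorem g4_cone {w a b c u : ℂ} (h1 : 0 < ori w a b) (h2 : 0 < ori w b c) (h3 : 0 < ori w a c)
    (ha : 0 < dot u (a - w)) (hc : 0 < dot u (c - w)) : 0 < dot u (b - w) := by
  have id : ori w a c * dot u (b - w) = ori w b c * dot u (a - w) + ori w a b * dot u (c - w) := by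
    simp only [ori, dot, Complex.sub_re, Complex.sub_im]
    ring
  have t1 := mul_pos h2 ha
  have t2 := mul_pos h1 hc
  exact (mul_pos_iff_of_pos_left h3).1 (by linarith)

theorem g4_two (e : Enum S p ix) (D : ℕ) (u : ℂ) {w : ℂ} (hw : w ∈ S) :
    ((S.image (blk S ix D)).filter (fun j => j ≠ blk S ix D w ∧
      (∃ x ∈ S, blk S ix D x = j ∧ 0 < dot u (x - w)) ∧
      (∃ x ∈ S, blk S ix D x = j ∧ dot u (x - w) < 0))).card ≤ 2 := by
  obtain ⟨P, hP⟩ : ∃ P : ℤ → Prop, ∀ j, P j ↔ (∃ x ∈ S, blk S ix D x = j ∧ 0 < dot u (x - w)) ∧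
      (∃ x ∈ S, blk S ix D x = j ∧ dot u (x - w) < 0) := ⟨_, fun _ => Iff.rfl⟩
  obtain ⟨i, hi⟩ : ∃ i, blk S ix D w = i := ⟨_, rfl⟩
  have three : ∀ a b c : ℤ, P a → P b → P c →
      ((i < a ∧ a < b) ∨ (a < b ∧ b < i) ∨ (b < i ∧ i < a)) →
      ((i < b ∧ b < c) ∨ (b < c ∧ c < i) ∨ (c < i ∧ i < b)) →
      ((i < a ∧ a < c) ∨ (a < c ∧ c < i) ∨ (c < i ∧ i < a)) → False := by
    intro a b c ha hb hc h1 h2 h3
    obtain ⟨⟨x1, m1, e1, s1⟩, -⟩ := (hP a).1 ha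
    obtain ⟨-, x2, m2, e2, s2⟩ := (hP b).1 hb
    obtain ⟨⟨x3, m3, e3, s3⟩, -⟩ := (hP c).1 hc
    have := g4_cone (g2_ori e hw m1 m2 (g2_cyc D e1 hi e2 h1))
      (g2_ori e hw m2 m3 (g2_cyc D e2 hi e3 h2)) (g2_ori e hw m1 m3 (g2_cyc D e1 hi e3 h3)) s1 s3
    linarith
  by_contra hh
  obtain ⟨a, b, c, ha, hb, hc, hab, hac, hbc⟩ := two_lt_card_iff.1 (not_le.1 hh)
  have pa := (hP a).2 (mem_filter.1 ha).2.2
  have pb := (hP b).2 (mem_filter.1 hb).2.2
  have pc := (hP c).2 (mem_filter.1 hc).2.2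
  have na := (mem_filter.1 ha).2.1
  have nb := (mem_filter.1 hb).2.1
  have nc := (mem_filter.1 hc).2.1
  rw [hi] at na nb nc
  clear ha hb hc hh hP
  rcases lt_or_gt_of_ne hab with l1 | l1 <;> rcases lt_or_gt_of_ne hac with l2 | l2 <;>
    rcases lt_or_gt_of_ne hbc with l3 | l3 <;> rcases lt_or_gt_of_ne na with l4 | l4 <;>
    rcases lt_or_gt_of_ne nb with l5 | l5 <;> rcases lt_or_gt_of_ne nc with l6 | l6 <;>
    first
    | omega
    | exact three a b c pa pb pc (by omega) (by omega) (by omega)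
    | exact three a c b pa pc pb (by omega) (by omega) (by omega)
    | exact three b a c pb pa pc (by omega) (by omega) (by omega)
    | exact three b c a pb pc pa (by omega) (by omega) (by omega)
    | exact three c a b pc pa pb (by omega) (by omega) (by omega)
    | exact three c b a pc pb pa (by omega) (by omega) (by omega)

/-- paper 6.2, second part.  Order the vertices other than `w` along the arc that starts after
`w`.  For `a, b, c` in this order `ori w a c • (b - w) = ori w b c • (a - w) + ori w a b • (c - w)`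
with positive coefficients, so the signs of `dot u (· - w)` have no pattern `+ - +` or `- + -`;
so for each `u` of the net at most one block other than that of `w` has both signs. -/
theorem view (θ : ℝ) (hθ : 0 < θ) : ∃ q : ℕ, ∀ (S : Finset ℂ) (p : ℤ → ℂ) (ix : ℂ → ℤ),
    Enum S p ix → ∀ D : ℕ, ∀ w ∈ S, ∃ J : Finset ℤ, J.card ≤ q ∧ ∀ a ∈ S, ∀ b ∈ S,
      blk S ix D a = blk S ix D b → blk S ix D a ∉ J → blk S ix D a ≠ blk S ix D w →
        ‖dir (a - w) - dir (b - w)‖ ≤ θ := by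
  obtain ⟨E, hE⟩ := net θ hθ
  refine ⟨E.card * 2, fun S p ix e D w hw => ?_⟩
  refine ⟨E.biUnion fun u => (S.image (blk S ix D)).filter (fun j => j ≠ blk S ix D w ∧
      (∃ x ∈ S, blk S ix D x = j ∧ 0 < dot u (x - w)) ∧
      (∃ x ∈ S, blk S ix D x = j ∧ dot u (x - w) < 0)), ?_, ?_⟩
  · exact card_biUnion_le_card_mul _ _ _ (fun u _ => g4_two e D u hw)
  · intro a ha b hb e1 hj hn
    by_contra hh
    have n1 : a - w ≠ 0 := fun h => hn (by rw [sub_eq_zero.1 h])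
    have n2 : b - w ≠ 0 := fun h => hn (by rw [e1, sub_eq_zero.1 h])
    obtain ⟨u, hu, u1, u2⟩ := hE _ _ (g3_dir n1) (g3_dir n2) (not_le.1 hh)
    exact hj (mem_biUnion.2 ⟨u, hu, mem_filter.2 ⟨mem_image.2 ⟨a, ha, rfl⟩, hn,
      ⟨b, hb, e1.symm, g3_pos u2⟩, a, ha, rfl, g3_neg u1⟩⟩)

/-- a unit vector on the inner side that is almost orthogonal to `τ` is close to `I * τ` -/
theorem nor_of_orth {τ v : ℂ} {θ : ℝ} (hτ : ‖τ‖ = 1) (hv : ‖v‖ = 1) (h1 : |dot τ v| ≤ 2 * θ)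
    (h2 : 0 ≤ dot (Complex.I * τ) v) : ‖v - Complex.I * τ‖ ≤ 3 * θ := by
  have h0 : 0 ≤ θ := by linarith [abs_nonneg (dot τ v)]
  have s1 := g3_sq τ
  have s2 := g3_sq v
  have s3 := g3_sq (v - Complex.I * τ)
  rw [hτ] at s1
  rw [hv] at s2
  have h3 : dot τ v ^ 2 ≤ (2 * θ) ^ 2 := by
    rw [← sq_abs]
    exact pow_le_pow_left₀ (abs_nonneg _) h1 2
  have h4 : dot (Complex.I * τ) v ^ 2 + dot τ v ^ 2 = 1 := by
    simp only [dot, Complex.mul_re, Complex.mul_im, Complex.I_re, Complex.I_im]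
    linear_combination (-(v.re ^ 2 + v.im ^ 2)) * s1 - s2
  have h5 : ‖v - Complex.I * τ‖ ^ 2 = 2 - 2 * dot (Complex.I * τ) v := by
    rw [s3]
    simp only [dot, Complex.mul_re, Complex.mul_im, Complex.I_re, Complex.I_im, Complex.sub_re,
      Complex.sub_im]
    linear_combination -s1 - s2
  obtain ⟨s, hs⟩ : ∃ s, dot (Complex.I * τ) v = s := ⟨_, rfl⟩
  rw [hs] at h2 h4 h5
  have h6 : s ≤ 1 := by nlinarith [sq_nonneg (dot τ v)]
  refine le_of_sq_le_sq ?_ (by positivity)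
  nlinarith [mul_nonneg h2 (sub_nonneg.2 h6), sq_nonneg θ]

theorem g4_le (v : ℂ) : ‖dir v‖ ≤ 1 := by
  by_cases h : v = 0
  · simp [dir, h]
  · exact (g3_dir h).le

theorem g4_dd {a b : ℂ} (h : dot a b ≤ 0) : dot (dir a) (dir b) ≤ 0 := by
  have : dot (dir a) (dir b) = dot a b / ‖a‖ / ‖b‖ := by
    simp only [dot, dir, Complex.div_ofReal_re, Complex.div_ofReal_im]
    ring
  rw [this]
  exact div_nonpos_of_nonpos_of_nonneg (div_nonpos_of_nonpos_of_nonneg h (norm_nonneg _))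
    (norm_nonneg _)

theorem g4_near {τ v a b : ℂ} {θ : ℝ} (hv : ‖v‖ ≤ 1) (ha : ‖a‖ ≤ 1) (h1 : ‖τ - a‖ ≤ θ)
    (h2 : ‖v - b‖ ≤ θ) (h : dot a b ≤ 0) : dot τ v ≤ 2 * θ := by
  have id : dot τ v = dot (τ - a) v + dot a (v - b) + dot a b := by
    simp only [dot, Complex.sub_re, Complex.sub_im]
    ring
  have c1 := (abs_le.1 (g3_cs (τ - a) v)).2
  have c2 := (abs_le.1 (g3_cs a (v - b))).2
  have d1 : ‖τ - a‖ * ‖v‖ ≤ ‖τ - a‖ := mul_le_of_le_one_right (norm_nonneg _) hv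
  have d2 : ‖a‖ * ‖v - b‖ ≤ ‖v - b‖ := mul_le_of_le_one_left (norm_nonneg _) ha
  linarith

theorem g4_dirneg (v : ℂ) : dir (-v) = -dir v := by
  unfold dir
  rw [norm_neg, neg_div]

theorem g4_obt {y a b : ℂ} (h : dist y b ≤ dist y a) : dot (b - a) (a - y) ≤ 0 := by
  have h1 : dist y b ^ 2 ≤ dist y a ^ 2 := pow_le_pow_left₀ dist_nonneg h 2
  rw [dist_eq_norm, dist_eq_norm, g3_sq, g3_sq] at h1
  simp only [dot, Complex.sub_re, Complex.sub_im] at h1 ⊢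
  nlinarith [sq_nonneg (b.re - a.re), sq_nonneg (b.im - a.im)]

theorem g4_nor (e : Enum S p ix) (D : ℕ) {θ : ℝ} {x y : ℂ} (hx : x ∈ S) (hy : y ∈ S)
    (hn : NN S ix D x y)
    (h1 : ∀ a ∈ S, ∀ a' ∈ S, blk S ix D a = blk S ix D x → blk S ix D a' = blk S ix D x →
      ix a ≤ ix a' → ‖dir (p (ix x + 1) - x) - dir (p (ix a' + 1) - a)‖ ≤ θ)
    (h2 : ∀ a ∈ S, blk S ix D a = blk S ix D x → ‖dir (x - y) - dir (a - y)‖ ≤ θ) :
    Nor (nrm p ix) (3 * θ) x y := by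
  have hxy : y ≠ x := fun h => hn.1 (by rw [h])
  have h3 : ∀ a ∈ S, ∀ a' ∈ S, blk S ix D a = blk S ix D x → blk S ix D a' = blk S ix D x →
      ix a < ix a' → ‖dir (p (ix x + 1) - x) - dir (a' - a)‖ ≤ θ := by
    intro a ha a' ha' e1 e2 l
    obtain ⟨a0, m1, f1, k1, r1⟩ := g3_prev e D ha ha' (by rw [e1, e2]) l
    have := h1 a ha a0 m1 e1 (f1.trans e1) k1
    rwa [r1] at this
  obtain ⟨u1, u2⟩ := not_or.1 hn.2
  simp only [TameUp, TameDn, not_forall, not_lt, Int.cast_lt] at u1 u2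
  obtain ⟨a, ha, a', ha', e1, e2, l1, d1⟩ := u1
  obtain ⟨c, hc, c', hc', e3, e4, l2, d2⟩ := u2
  have k1 := g4_near (g4_le _) (g4_le _) (h3 a ha a' ha' e1 e2 l1) (h2 a ha e1)
    (g4_dd (g4_obt d1))
  have k2 : dot (-dir (p (ix x + 1) - x)) (dir (x - y)) ≤ 2 * θ := by
    refine g4_near (g4_le _) (g4_le _) ?_ (h2 c' hc' e4) (g4_dd (g4_obt d2))
    rw [← neg_sub c' c, g4_dirneg, neg_sub_neg, norm_sub_rev]
    exact h3 c hc c' hc' e3 e4 l2
  rw [g3_negl] at k2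
  have hu := nrm_unit e (one_lt_card.2 ⟨y, hy, x, hx, hxy⟩) hx
  have hs := nrm_supp e hx hy
  unfold nrm at hu hs
  rw [norm_mul, Complex.norm_I, one_mul] at hu
  refine nor_of_orth hu (g3_dir (sub_ne_zero.2 hxy)) ?_ ?_
  · have : dot (dir (p (ix x + 1) - x)) (dir (y - x)) =
        -dot (dir (p (ix x + 1) - x)) (dir (x - y)) := by
      rw [← neg_sub x y, g4_dirneg]
      simp only [dot, Complex.neg_re, Complex.neg_im]
      ring
    rw [this, abs_le]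
    constructor <;> linarith
  · rw [g3_dot_dir]
    exact div_nonneg hs (norm_nonneg _)

/-- paper 6.3 with `θ = om / 3`.  If the block of `x` is not in the set of `bent`, not in the set
of `view` for `y`, and `NN S ix D x y`: not `TameUp` gives `a, a'` with `ix a < ix a'` and
`dist y a' ≤ dist y a`, so `dot (a' - a) (a - y) ≤ 0`; not `TameDn` gives `c, c'` with
`0 ≤ dot (c' - c) (c' - y)`; hence `|dot τ (dir (x - y))| ≤ 2 θ` for the edge direction `τ` at `x`.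
The exceptions are at most `(q1 + q2) n (n / D + 1)` pairs (`blk_card`). -/
theorem nor_count (om : ℝ) (hom : 0 < om) : ∃ q : ℕ, ∀ (S : Finset ℂ) (p : ℤ → ℂ) (ix : ℂ → ℤ),
    Enum S p ix → ∀ D : ℕ, 0 < D →
      (cnt2 S (fun y x => NN S ix D x y ∧ ¬ Nor (nrm p ix) om x y) : ℝ) ≤
        q * (S.card * (S.card / D + 1)) := by
  obtain ⟨q1, hq1⟩ := bent (om / 3) (by positivity)
  obtain ⟨q2, hq2⟩ := view (om / 3) (by positivity)
  refine ⟨q1 + q2, fun S p ix e D hD => ?_⟩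
  obtain ⟨Q, hQ⟩ : ∃ Q : ℂ → ℂ → Prop, ∀ y x, Q y x ↔ NN S ix D x y ∧ ¬ Nor (nrm p ix) om x y :=
    ⟨_, fun _ _ => Iff.rfl⟩
  have h0 : (fun y x => NN S ix D x y ∧ ¬ Nor (nrm p ix) om x y) = Q := by
    funext y x
    exact propext (hQ y x).symm
  rw [h0]
  have h1 : cnt2 S Q = ∑ y ∈ S, (S.filter (fun x => Q y x)).card := by
    unfold cnt2
    simp only [card_filter]
    rw [sum_product]
  obtain ⟨J1, c1, b1⟩ := hq1 S p ix e D
  have h2 : ∀ y ∈ S, ((S.filter (fun x => Q y x)).card : ℝ) ≤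
      ((q1 + q2 : ℕ) : ℝ) * (S.card / D + 1) := by
    intro y hy
    obtain ⟨J2, c2, b2⟩ := hq2 S p ix e D y hy
    refine g3_cnt e hD (J1 ∪ J2) ((card_union_le _ _).trans (add_le_add c1 c2)) _
      fun x hx => ⟨(mem_filter.1 hx).1, ?_⟩
    obtain ⟨hx, hq⟩ := mem_filter.1 hx
    obtain ⟨n1, n2⟩ := (hQ y x).1 hq
    by_contra hj
    rw [mem_union, not_or] at hj
    apply n2
    have := g4_nor e D (θ := om / 3) hx hy n1
      (fun a ha a' ha' e1 e2 l => b1 _ hj.1 x hx x hx a ha a' ha' rfl rfl e1 e2 le_rfl l)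
      (fun a ha e1 => b2 x hx a ha e1.symm hj.2 n1.1.symm)
    rwa [show 3 * (om / 3) = om by ring] at this
  rw [h1, Nat.cast_sum]
  refine (sum_le_card_nsmul S _ _ h2).trans (le_of_eq ?_)
  rw [nsmul_eq_mul]
  ring

end Pool.Agent.Lib.MP_990519_co.Big
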