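import Pool.Agent.Lib.MP_990519_co.Big.R2a

namespace Pool.Agent.Lib.MP_990519_co.Big

open Finset
open scoped Classical ComplexConjugate

theorem r2b_dot (u v : ℂ) : |dot u v| ≤ ‖u‖ * ‖v‖ := by
  have h : dot u v = (u * conj v).re := by simp [dot]
  rw [h, ← Complex.norm_conj v, ← norm_mul]
  exact Complex.abs_re_le_norm _

theorem r2b_cone {d e δ : ℂ} {g a b : ℝ} (hg : 0 < g) (ha : 0 ≤ a) (hb : 0 ≤ b)
    (h : g * δ = a * (d / 2 + e) + b * (d / 2 - e)) (he : 6 * ‖e‖ ≤ ‖d‖) :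
    ‖d‖ * ‖δ‖ ≤ 2 * dot d δ := by
  have h0 : (g : ℂ) * δ = ((a + b) / 2 : ℝ) * d + (a - b : ℝ) * e := by
    rw [h]
    push_cast
    ring
  have hab : |a - b| ≤ a + b := abs_le.2 ⟨by linarith, by linarith⟩
  have h1 : g * ‖δ‖ ≤ (a + b) / 2 * ‖d‖ + (a + b) * ‖e‖ := by
    have h2 := norm_add_le (((a + b) / 2 : ℝ) * d) ((a - b : ℝ) * e)
    rw [← h0, norm_mul, norm_mul, norm_mul, Complex.norm_real, Complex.norm_real,
      Complex.norm_real, Real.norm_of_nonneg hg.le, Real.norm_of_nonneg (by positivity),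
      Real.norm_eq_abs] at h2
    have := mul_le_mul_of_nonneg_right hab (norm_nonneg e)
    linarith
  have h3 : g * dot d δ = (a + b) / 2 * ‖d‖ ^ 2 + (a - b) * dot d e := by
    have h4 := congrArg Complex.re h0
    have h5 := congrArg Complex.im h0
    simp only [Complex.add_re, Complex.add_im, Complex.re_ofReal_mul, Complex.im_ofReal_mul]
      at h4 h5
    rw [Complex.sq_norm, Complex.normSq_apply, dot, dot]
    linear_combination d.re * h4 + d.im * h5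
  have h6 : |(a - b) * dot d e| ≤ (a + b) * (‖d‖ * ‖e‖) := by
    rw [abs_mul]
    exact mul_le_mul hab (r2b_dot d e) (abs_nonneg _) (by positivity)
  have h7 := (abs_le.1 h6).1
  have h8 := mul_le_mul_of_nonneg_left h1 (norm_nonneg d)
  have h9 := mul_le_mul_of_nonneg_left he (show 0 ≤ (a + b) * ‖d‖ by positivity)
  refine le_of_mul_le_mul_left ?_ hg
  nlinarith

theorem r2b_near {S Y X Z : Finset ℂ} {ky kz : ℂ → ℝ} {nr : ℂ → ℂ} {s om : ℝ} {TT : Finset Tri}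
    (h : Sys S Y X Z ky kz TT) (hf : Flat S Y X Z ky nr s om TT) (hom0 : 0 ≤ om)
    (hom : om ≤ 1 / 200) {x0 z0 y x z z1 x1 : ℂ} (hu : (y, x, z) ∈ TT) (h0 : (y, x0, z1) ∈ TT)
    (h1 : (y, x1, z0) ∈ TT) : 6 * ‖y - (x0 + z0) / 2‖ ≤ ‖z0 - x0‖ ∧
      ‖x0 - x‖ ≤ 48 * om * ‖z0 - x0‖ ∧ ‖z - z0‖ ≤ 120 * om * ‖z0 - x0‖ := by
  have hne : ∀ u ∈ TT, u.2.1 ≠ u.2.2 := fun u hu e => by
    have := mem_product.1 (mem_product.1 (h.sub hu)).2
    exact disjoint_left.1 h.dj this.1 (e ▸ this.2)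
  have f1 : ∀ u ∈ TT, ‖u.2.2 - (2 * u.1 - u.2.1)‖ ≤ 8 * om * dist u.1 u.2.1 := fun u hu =>
    flat1 (hne u hu) (h.tie u hu) (hf.nor u hu).1 (hf.nor u hu).2
  have a1 := flat2 h hf (by linarith) h0 h1 rfl
  have a2 := flat2 h hf (by linarith) h0 hu rfl
  have a3 := f1 _ hu
  have a4 := f1 _ h1
  have b1 := dist_triangle y x0 x1
  have b2 := dist_triangle y x0 x
  simp only [Complex.dist_eq] at a1 a2 a3 a4 b1 b2
  have hr := norm_nonneg (y - x0)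
  have c0 := mul_le_mul_of_nonneg_right hom hr
  have c1 := mul_le_mul_of_nonneg_left (show ‖y - x1‖ ≤ 5 / 4 * ‖y - x0‖ by linarith) hom0
  have c2 := mul_le_mul_of_nonneg_left (show ‖y - x‖ ≤ 5 / 4 * ‖y - x0‖ by linarith) hom0
  have d1 := norm_add_le (z0 - (2 * y - x1)) (x0 - x1)
  have d2 := norm_sub_le (z0 - x0) (z0 - (2 * y - x1) + (x0 - x1))
  have e2 : z0 - x0 - (z0 - (2 * y - x1) + (x0 - x1)) = 2 * (y - x0) := by ring
  have e3 : z0 - (2 * y - x1) + (x0 - x1) = -2 * (y - (x0 + z0) / 2) := by ring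
  have d3 := norm_sub_le (z - (2 * y - x)) (z0 - (2 * y - x1) + (x0 - x1))
  have d4 := norm_add_le (z - (2 * y - x) - (z0 - (2 * y - x1) + (x0 - x1))) (x0 - x)
  have e4 : z - (2 * y - x) - (z0 - (2 * y - x1) + (x0 - x1)) + (x0 - x) = z - z0 := by ring
  rw [e2, norm_mul, Complex.norm_two] at d2
  rw [e4] at d4
  have d5 : ‖z0 - (2 * y - x1) + (x0 - x1)‖ = 2 * ‖y - (x0 + z0) / 2‖ := by
    rw [e3, norm_mul, norm_neg, Complex.norm_two]
  have c3 := mul_le_mul_of_nonneg_left (show ‖y - x0‖ ≤ ‖z0 - x0‖ by linarith) hom0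
  have c4 := mul_nonneg hom0 hr
  refine ⟨?_, ?_, ?_⟩ <;> linarith

/-- paper 5.4, the clustered box satisfies the hypotheses of the tree lemma.  With
`l = ‖z0 - x0‖`: `‖y - (x0 + z0) / 2‖ ≤ 30 om l`, `‖x - x0‖ ≤ 48 om l`, `‖z - z0‖ ≤ 120 om l` for
every `(y, x, z) ∈ T'` (`flat1`, `flat2`).  For `ky y < ky y'`, `a = y - x0`, `b = z0 - y`,
`δ = y' - y`: `cross a b • δ = cross δ b • a + cross a δ • b` with coefficients of sign `s`
(`o1`, `o2`), so `l ‖δ‖ ≤ 2 dot (z0 - x0) δ`. -/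
theorem flat_TS {S Y X Z : Finset ℂ} {ky kz : ℂ → ℝ} {nr : ℂ → ℂ} {s om : ℝ} {TT : Finset Tri}
    (h : Sys S Y X Z ky kz TT) (hf : Flat S Y X Z ky nr s om TT) (hom0 : 0 ≤ om)
    (hom : om ≤ 1 / 200) {x0 z0 : ℂ} {T' : Finset Tri} (hT : T' ⊆ TT)
    (h0 : ∀ u ∈ T', (∃ z1, (u.1, x0, z1) ∈ TT) ∧ ∃ x1, (u.1, x1, z0) ∈ TT) :
    TS (336 * om) (T'.image (fun u => u.1)) (T'.image (fun u => u.2.1))
      (T'.image (fun u => u.2.2)) (fun y => 2 * dot (z0 - x0) y) (fun y x => dist y x ^ 2)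
      (fun y z => dist y z ^ 2) kz T' := by
  have hY : ∀ y ∈ T'.image (fun u => u.1), y ∈ Y := fun y hy => by
    obtain ⟨u, hu, rfl⟩ := mem_image.1 hy
    exact (mem_product.1 (h.sub (hT hu))).1
  have hZ : ∀ z ∈ T'.image (fun u => u.2.2), z ∈ Z := fun z hz => by
    obtain ⟨u, hu, rfl⟩ := mem_image.1 hz
    exact (mem_product.1 (mem_product.1 (h.sub (hT hu))).2).2
  have hn : ∀ u ∈ T', (x0 ∈ X ∧ z0 ∈ Z) ∧ ∀ x z, (u.1, x, z) ∈ TT →
      6 * ‖u.1 - (x0 + z0) / 2‖ ≤ ‖z0 - x0‖ ∧ ‖x0 - x‖ ≤ 48 * om * ‖z0 - x0‖ ∧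
        ‖z - z0‖ ≤ 120 * om * ‖z0 - x0‖ := fun u hu => by
      obtain ⟨⟨z1, h1⟩, x1, h2⟩ := h0 u hu
      exact ⟨⟨(mem_product.1 (mem_product.1 (h.sub h1)).2).1,
        (mem_product.1 (mem_product.1 (h.sub h2)).2).2⟩,
        fun x z h3 => r2b_near h hf hom0 hom h3 h1 h2⟩
  have k1 : ∀ y ∈ T'.image (fun u => u.1), ∀ y' ∈ Y, ky y < ky y' →
      ‖z0 - x0‖ * ‖y' - y‖ ≤ 2 * dot (z0 - x0) y' - 2 * dot (z0 - x0) y := fun y hy y' hy' hlt => by
    have h1 := hY y hy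
    obtain ⟨u, hu, rfl⟩ := mem_image.1 hy
    obtain ⟨⟨hx, hz⟩, h2⟩ := hn u hu
    obtain ⟨h3, h4⟩ := hf.o2 x0 hx _ h1 y' hy' z0 hz hlt
    have h5 := r2b_cone (δ := y' - u.1) (hf.o1 x0 hx _ h1 z0 hz) h4.le h3.le (by
      apply Complex.ext <;> simp [ori] <;> ring) (h2 _ _ (hT hu)).1
    refine h5.trans (le_of_eq ?_)
    simp only [dot, Complex.sub_re, Complex.sub_im]
    ring
  have k2 : ∀ y ∈ T'.image (fun u => u.1), ∀ y' ∈ T'.image (fun u => u.1),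
      ‖z0 - x0‖ * ‖y' - y‖ ≤ |2 * dot (z0 - x0) y' - 2 * dot (z0 - x0) y| := fun y hy y' hy' => by
    rcases lt_trichotomy (ky y) (ky y') with hlt | e | hlt
    · exact (k1 y hy y' (hY _ hy') hlt).trans (le_abs_self _)
    · simp [h.iy (hY _ hy) (hY _ hy') e]
    · rw [norm_sub_rev y', abs_sub_comm]
      exact (k1 y' hy' y (hY _ hy) hlt).trans (le_abs_self _)
  refine ⟨fun u hu => mem_product.2 ⟨mem_image_of_mem _ hu, mem_product.2
      ⟨mem_image_of_mem (fun u : Tri => u.2.1) hu, mem_image_of_mem (fun u : Tri => u.2.2) hu⟩⟩,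
    fun y hy y' hy' e => ?_, fun z hz z' hz' e => h.iz (hZ z hz) (hZ z' hz') e,
    fun y hy z hz z' hz' hlt => pow_lt_pow_left₀ (h.K2 y (hY y hy) z (hZ z hz) z' (hZ z' hz') hlt)
      dist_nonneg two_ne_zero, fun y hy y' hy' x hx z hz => ?_,
    fun u hu => by rw [h.tie u (hT hu)], fun u hu v hv => h.one u (hT hu) v (hT hv)⟩
  · have h1 := k2 y hy y' hy'
    obtain ⟨u, hu, -⟩ := mem_image.1 hy
    obtain ⟨hx, hz⟩ := (hn u hu).1
    have h2 : 0 < ‖z0 - x0‖ :=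
      norm_sub_pos_iff.2 fun e' => disjoint_left.1 h.dj hx (e' ▸ hz)
    rw [show 2 * dot (z0 - x0) y = 2 * dot (z0 - x0) y' from e, sub_self, abs_zero] at h1
    exact (norm_sub_eq_zero_iff.1 (le_antisymm (nonpos_of_mul_nonpos_right h1 h2)
      (norm_nonneg _))).symm
  · obtain ⟨u, hu, rfl⟩ := mem_image.1 hx
    obtain ⟨v, hv, rfl⟩ := mem_image.1 hz
    have h1 := ((hn u hu).2 _ _ (hT hu)).2.1
    have h2 := ((hn v hv).2 _ _ (hT hv)).2.2
    have h3 := (norm_add_le _ _).trans (add_le_add h2 h1)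
    have h4 := (r2b_dot _ (y' - y)).trans (mul_le_mul_of_nonneg_right h3 (norm_nonneg _))
    have h5 := mul_le_mul_of_nonneg_left (k2 y hy y' hy') hom0
    have h6 : dist y' u.2.1 ^ 2 - dist y' v.2.2 ^ 2 - (dist y u.2.1 ^ 2 - dist y v.2.2 ^ 2) -
        (2 * dot (z0 - x0) y' - 2 * dot (z0 - x0) y) =
        2 * dot (v.2.2 - z0 + (x0 - u.2.1)) (y' - y) := by
      simp only [Complex.dist_eq, Complex.sq_norm, Complex.normSq_apply, dot, Complex.sub_re,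
        Complex.sub_im, Complex.add_re, Complex.add_im]
      ring
    rw [h6, abs_mul, abs_two]
    linarith

end Pool.Agent.Lib.MP_990519_co.Big
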