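import Pool.Agent.Lib.MP_990519_co.Big.T1

namespace Pool.Agent.Lib.MP_990519_co.Big

open Finset
open scoped Classical ComplexConjugate

/-- a scale without magnitudes: the windows `[R / 100 ^ (j + 1), R / 100 ^ j)`, `j = 1, …, N + 1`,
are disjoint, so one of them misses a set of at most `N` numbers -/
theorem exists_scale (N : ℕ) (A : Finset ℝ) (hA : A.card ≤ N) (R : ℝ) (hR : 0 < R) :
    ∃ r : ℝ, R / 100 ^ (N + 2) ≤ r ∧ 100 * r ≤ R ∧ ∀ a ∈ A, a < r ∨ 100 * r ≤ a := by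
  by_contra hh
  have key : ∀ j : ℕ, ∃ a : ℝ, j < N + 1 → a ∈ A ∧ R / 100 ^ (j + 2) ≤ a ∧ a < R / 100 ^ (j + 1) := by
    intro j
    by_cases hj : j < N + 1
    · by_contra h2
      apply hh
      refine ⟨R / 100 ^ (j + 2), ?_, ?_, fun a ha => ?_⟩
      · exact div_le_div_of_nonneg_left hR.le (by positivity)
          (pow_le_pow_right₀ (by norm_num) (by omega))
      · rw [← mul_div_assoc, div_le_iff₀ (by positivity), mul_comm]
        refine mul_le_mul_of_nonneg_left ?_ hR.le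
        calc (100 : ℝ) = 100 ^ 1 := by norm_num
          _ ≤ _ := pow_le_pow_right₀ (by norm_num) (by omega)
      · by_contra h3
        rw [not_or, not_lt, not_le] at h3
        refine h2 ⟨a, fun _ => ⟨ha, h3.1, lt_of_lt_of_le h3.2 (le_of_eq ?_)⟩⟩
        field_simp; ring
    · exact ⟨0, fun h => absurd h hj⟩
  choose g hg using key
  have anti : ∀ i j, i < j → j < N + 1 → g j < g i := by
    intro i j hij hj
    refine lt_of_lt_of_le (hg j hj).2.2 (le_trans ?_ (hg i (by omega)).2.1)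
    exact div_le_div_of_nonneg_left hR.le (by positivity)
      (pow_le_pow_right₀ (by norm_num) (by omega))
  have := card_le_card_of_injOn (s := range (N + 1)) (t := A) g
    (fun j hj => (hg j (by simpa using hj)).1) (by
      intro i hi j hj e
      have hi' : i < N + 1 := by simpa using hi
      have hj' : j < N + 1 := by simpa using hj
      rcases lt_trichotomy i j with l | l | l
      · exact absurd e (anti i j l hj').ne'
      · exact l
      · exact absurd e (anti j i l hi').ne)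
  rw [card_range] at this
  omega

/-- the cluster of `a` -/
noncomputable def t3cl (I : Finset ℂ) (K : ℂ → ℝ) (r : ℝ) (a : ℂ) : Finset ℂ :=
  I.filter (fun b => |K a - K b| < r)

theorem t3_eq {I : Finset ℂ} {K : ℂ → ℝ} {r : ℝ} (hr : 0 < r)
    (h : ∀ a ∈ I, ∀ b ∈ I, |K a - K b| < r ∨ 100 * r ≤ |K a - K b|) {a b : ℂ} (ha : a ∈ I)
    (hb : b ∈ I) (hab : |K a - K b| < r) : t3cl I K r a = t3cl I K r b := by
  ext c
  unfold t3cl
  rw [mem_filter, mem_filter]
  have h1 := abs_lt.1 hab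
  constructor
  · rintro ⟨hc, h2⟩
    refine ⟨hc, (h b hb c hc).resolve_right (not_le.2 (abs_lt.2 ?_))⟩
    have h3 := abs_lt.1 h2
    constructor <;> linarith
  · rintro ⟨hc, h2⟩
    refine ⟨hc, (h a ha c hc).resolve_right (not_le.2 (abs_lt.2 ?_))⟩
    have h3 := abs_lt.1 h2
    constructor <;> linarith

theorem t3_self {I : Finset ℂ} {K : ℂ → ℝ} {r : ℝ} (hr : 0 < r) {a : ℂ} (ha : a ∈ I) :
    a ∈ t3cl I K r a := mem_filter.2 ⟨ha, by simpa using hr⟩

theorem t3_clus {I : Finset ℂ} {K : ℂ → ℝ} {r : ℝ} (hr : 0 < r)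
    (h : ∀ a ∈ I, ∀ b ∈ I, |K a - K b| < r ∨ 100 * r ≤ |K a - K b|) : Clus I (t3cl I K r) :=
  fun a ha => ⟨t3_self hr ha, filter_subset _ _, fun _ hb =>
    (t3_eq hr h ha (mem_filter.1 hb).1 (mem_filter.1 hb).2).symm⟩

theorem t3_near {I : Finset ℂ} {K : ℂ → ℝ} {r : ℝ} (hr : 0 < r) {a b : ℂ} (hb : b ∈ I)
    (e : t3cl I K r a = t3cl I K r b) : |K a - K b| < r :=
  (mem_filter.1 (show b ∈ t3cl I K r a from e ▸ t3_self hr hb)).2

theorem t3_or {I : Finset ℂ} {cl : ℂ → Finset ℂ} (h : Clus I cl) {a b : ℂ} (ha : a ∈ I)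
    (hb : b ∈ I) : cl a = cl b ∨ Disjoint (cl a) (cl b) := by
  by_cases d : Disjoint (cl a) (cl b)
  · exact Or.inr d
  · obtain ⟨c, h1, h2⟩ := not_disjoint_iff.1 d
    exact Or.inl (((h a ha).2.2 c h1).symm.trans ((h b hb).2.2 c h2))

/-- same cluster or larger key: the difference is small or large and positive -/
theorem t3_gap {I : Finset ℂ} {K : ℂ → ℝ} {r : ℝ} (hr : 0 < r)
    (h : ∀ a ∈ I, ∀ b ∈ I, |K a - K b| < r ∨ 100 * r ≤ |K a - K b|) {a b : ℂ} (ha : a ∈ I)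
    (hb : b ∈ I) (hab : t3cl I K r a = t3cl I K r b ∨ K a < K b) :
    -r < K b - K a ∧ (t3cl I K r a = t3cl I K r b ∨ 100 * r ≤ K b - K a) := by
  rcases hab with e | e
  · have := abs_lt.1 (t3_near hr hb e)
    exact ⟨by linarith, Or.inl e⟩
  · refine ⟨by linarith, ?_⟩
    rcases h a ha b hb with l | l
    · exact Or.inl (t3_eq hr h ha hb l)
    · rw [abs_of_neg (by linarith)] at l
      exact Or.inr (by linarith)

/-- paper 4.3, with `r = ρ / 10` from `exists_scale` for the set of all `|S a - S b|`,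
`|T a - T b|`, `|U a - U b|`, `|T x - U z + S y - S y0|` (at most `3 M² + M³` numbers),
`T = f y0`, `U = g y0`, `R = max S - min S` on `B.1`, clusters
`cy a = B.1.filter (fun b => |S a - S b| < r)` and so on, `κ = 1 / (2 * 100 ^ (3 M² + M³ + 2))`. -/
theorem split (M : ℕ) : ∃ κ : ℝ, 0 < κ ∧ κ < 1 ∧ ∀ (Y X Z : Finset ℂ) (S : ℂ → ℝ)
    (f g : ℂ → ℂ → ℝ) (kz : ℂ → ℝ) (TT : Finset Tri), Y.card ≤ M → X.card ≤ M → Z.card ≤ M →
    TS κ Y X Z S f g kz TT → ∀ B : Box, SubB B (Y, X, Z) → 2 ≤ B.1.card →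
      ∃ (cy cx cz : ℂ → Finset ℂ) (T U : ℂ → ℝ),
        Spl (fun y x z => f y x - g y z) S kz TT B cy cx cz T U := by
  refine ⟨1 / (2 * 100 ^ (3 * M ^ 2 + M ^ 3 + 2)), by positivity, ?_, ?_⟩
  · rw [div_lt_one (by positivity)]
    have : (1 : ℝ) ≤ 100 ^ (3 * M ^ 2 + M ^ 3 + 2) := one_le_pow₀ (by norm_num)
    linarith
  intro Y X Z S f g kz TT hY hX hZ h B hB h2
  have hne : B.1.Nonempty := card_pos.1 (by omega)
  obtain ⟨y1, hy1, mx⟩ := exists_max_image B.1 S hne
  obtain ⟨y0, hy0, mi⟩ := exists_min_image B.1 S hne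
  have sY : B.1 ⊆ Y := hB.1
  have sX : B.2.1 ⊆ X := hB.2.1
  have sZ : B.2.2 ⊆ Z := hB.2.2
  have hR : 0 < S y1 - S y0 := by
    obtain ⟨a, ha, b, hb, hab⟩ := one_lt_card.1 h2
    have : S a ≠ S b := fun e => hab (h.iS (sY ha) (sY hb) e)
    have := mx a ha; have := mx b hb; have := mi a ha; have := mi b hb
    rcases lt_or_gt_of_ne ‹S a ≠ S b› with l | l <;> linarith
  set R := S y1 - S y0 with hRd
  set gg : ℂ → ℂ → ℂ → ℝ := fun y x z => f y0 x - g y0 z + (S y - S y0) with hgg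
  have cY := (card_le_card sY).trans hY
  have cX := (card_le_card sX).trans hX
  have cZ := (card_le_card sZ).trans hZ
  obtain ⟨r, r1, r2, r3⟩ := exists_scale (3 * M ^ 2 + M ^ 3)
    ((B.1 ×ˢ B.1).image (fun q => |S q.1 - S q.2|) ∪
      (B.2.1 ×ˢ B.2.1).image (fun q => |f y0 q.1 - f y0 q.2|) ∪
      (B.2.2 ×ˢ B.2.2).image (fun q => |g y0 q.1 - g y0 q.2|) ∪
      (B.1 ×ˢ B.2.1 ×ˢ B.2.2).image (fun q => |gg q.1 q.2.1 q.2.2|)) (by
      refine (card_union_le _ _).trans (Nat.add_le_add ((card_union_le _ _).trans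
        (le_trans (Nat.add_le_add ((card_union_le _ _).trans (Nat.add_le_add card_image_le
          card_image_le)) card_image_le) ?_)) (card_image_le.trans ?_))
      · simp only [card_product]
        have := Nat.mul_le_mul cY cY
        have := Nat.mul_le_mul cX cX
        have := Nat.mul_le_mul cZ cZ
        nlinarith
      · simp only [card_product]
        calc _ ≤ M * (M * M) := Nat.mul_le_mul cY (Nat.mul_le_mul cX cZ)
          _ = _ := by ring) R hR
  have r0 : 0 < r := lt_of_lt_of_le (by positivity) r1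
  have gS : ∀ a ∈ B.1, ∀ b ∈ B.1, |S a - S b| < r ∨ 100 * r ≤ |S a - S b| := fun a ha b hb =>
    r3 _ (mem_union_left _ (mem_union_left _ (mem_union_left _
      (mem_image.2 ⟨(a, b), mem_product.2 ⟨ha, hb⟩, rfl⟩))))
  have gT : ∀ a ∈ B.2.1, ∀ b ∈ B.2.1, |f y0 a - f y0 b| < r ∨ 100 * r ≤ |f y0 a - f y0 b| :=
    fun a ha b hb => r3 _ (mem_union_left _ (mem_union_left _ (mem_union_right _
      (mem_image.2 ⟨(a, b), mem_product.2 ⟨ha, hb⟩, rfl⟩))))
  have gU : ∀ a ∈ B.2.2, ∀ b ∈ B.2.2, |g y0 a - g y0 b| < r ∨ 100 * r ≤ |g y0 a - g y0 b| :=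
    fun a ha b hb => r3 _ (mem_union_left _ (mem_union_right _
      (mem_image.2 ⟨(a, b), mem_product.2 ⟨ha, hb⟩, rfl⟩)))
  have ap : ∀ y ∈ B.1, ∀ x ∈ B.2.1, ∀ z ∈ B.2.2, |(f y x - g y z) - gg y x z| ≤ r / 2 := by
    intro y hy x hx z hz
    have a1 := h.add y0 (sY hy0) y (sY hy) x (sX hx) z (sZ hz)
    have a2 : |S y - S y0| ≤ R := by
      rw [abs_of_nonneg (by linarith [mi y hy])]; linarith [mx y hy]
    have a3 : 1 / (2 * 100 ^ (3 * M ^ 2 + M ^ 3 + 2)) * R =
      R / 100 ^ (3 * M ^ 2 + M ^ 3 + 2) / 2 := by field_simp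
    have a4 := mul_le_mul_of_nonneg_left a2
      (by positivity : (0 : ℝ) ≤ 1 / (2 * 100 ^ (3 * M ^ 2 + M ^ 3 + 2)))
    have e : (f y x - g y z) - gg y x z =
      (f y x - g y z) - (f y0 x - g y0 z) - (S y - S y0) := by simp only [hgg]; ring
    rw [e]; linarith
  have mB : ∀ u ∈ inBox TT B, u ∈ TT ∧ u.1 ∈ B.1 ∧ u.2.1 ∈ B.2.1 ∧ u.2.2 ∈ B.2.2 := by
    intro u hu; unfold inBox at hu; rw [mem_filter] at hu; exact hu
  have tz : ∀ u ∈ inBox TT B, |f y0 u.2.1 - g y0 u.2.2 + (S u.1 - S y0)| ≤ r / 2 := by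
    intro u hu
    obtain ⟨u0, u1, u2, u3⟩ := mB u hu
    have := ap _ u1 _ u2 _ u3
    rwa [h.tie u u0, sub_self, zero_sub, abs_neg] at this
  have c1 := t3_clus r0 gS
  have c2 := t3_clus r0 gT
  have c3 := t3_clus r0 gU
  refine ⟨t3cl B.1 S r, t3cl B.2.1 (f y0) r, t3cl B.2.2 (g y0) r, f y0, g y0, c1, c2, c3,
    ?_, ?_, ?_, ?_, ?_, ?_⟩
  · intro a _
    refine card_lt_card ⟨filter_subset _ _, fun hs => ?_⟩
    have b1 := abs_lt.1 (mem_filter.1 (hs hy1)).2
    have b0 := abs_lt.1 (mem_filter.1 (hs hy0)).2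
    linarith
  · intro u hu
    obtain ⟨u0, u1, u2, u3⟩ := mB u hu
    have t0 := abs_le.1 (tz u hu)
    refine ⟨⟨filter_subset _ _, filter_subset _ _, filter_subset _ _⟩, ?_, ?_⟩
    · intro y hy hn y' hy' x hx z hz
      obtain ⟨b1, b2⟩ := mem_filter.1 hy'
      obtain ⟨b3, b4⟩ := mem_filter.1 hx
      obtain ⟨b5, b6⟩ := mem_filter.1 hz
      have b7 : 100 * r ≤ |S u.1 - S y| :=
        (gS _ u1 y hy).resolve_left (fun l => hn (mem_filter.2 ⟨hy, l⟩))
      have b8 := abs_le.1 (ap y hy x b3 z b5)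
      simp only [hgg] at b8
      have b2' := abs_lt.1 b2
      have b4' := abs_lt.1 b4
      have b6' := abs_lt.1 b6
      rcases le_abs.1 b7 with l | l <;> constructor <;> intro l2 <;> simp only <;> linarith
    · intro y hy x hx z hz hn z' hz'
      obtain ⟨b1, b2⟩ := mem_filter.1 hy
      obtain ⟨b3, b4⟩ := mem_filter.1 hx
      obtain ⟨b5, b6⟩ := mem_filter.1 hz'
      have b7 : 100 * r ≤ |g y0 u.2.2 - g y0 z| :=
        (gU _ u3 z hz).resolve_left (fun l => hn (mem_filter.2 ⟨hz, l⟩))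
      have b8 := abs_le.1 (ap y b1 x b3 z hz)
      simp only [hgg] at b8
      have b2' := abs_lt.1 b2
      have b4' := abs_lt.1 b4
      have b6' := abs_lt.1 b6
      constructor <;> intro l2
      · have := h.mono y0 (sY hy0) z (sZ hz) z' (sZ b5) l2
        rcases le_abs.1 b7 with l | l <;> simp only <;> linarith
      · have := h.mono y0 (sY hy0) z' (sZ b5) z (sZ hz) l2
        rcases le_abs.1 b7 with l | l <;> simp only <;> linarith
  · intro u hu v hv hne'
    obtain ⟨u0, u1, u2, u3⟩ := mB u hu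
    obtain ⟨v0, v1, v2, v3⟩ := mB v hv
    have t0 := abs_le.1 (tz u hu)
    have t1 := abs_le.1 (tz v hv)
    refine ⟨?_, ?_, ?_⟩
    · rcases t3_or c1 u1 v1 with e1 | e1
      · rcases t3_or c2 u2 v2 with e2 | e2
        · have n1 := abs_lt.1 (t3_near r0 v1 e1)
          have n2 := abs_lt.1 (t3_near r0 v2 e2)
          have e3 := t3_eq r0 gU u3 v3 ((gU _ u3 _ v3).resolve_right (not_le.2 (abs_lt.2
            ⟨by linarith, by linarith⟩)))
          exact absurd (by rw [e1, e2, e3]) hne'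
        · exact Or.inr e2
      · exact Or.inl e1
    · rcases t3_or c1 u1 v1 with e1 | e1
      · rcases t3_or c3 u3 v3 with e2 | e2
        · have n1 := abs_lt.1 (t3_near r0 v1 e1)
          have n2 := abs_lt.1 (t3_near r0 v3 e2)
          have e3 := t3_eq r0 gT u2 v2 ((gT _ u2 _ v2).resolve_right (not_le.2 (abs_lt.2
            ⟨by linarith, by linarith⟩)))
          exact absurd (by rw [e1, e2, e3]) hne'
        · exact Or.inr e2
      · exact Or.inl e1
    · rcases t3_or c2 u2 v2 with e1 | e1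
      · rcases t3_or c3 u3 v3 with e2 | e2
        · have n1 := abs_lt.1 (t3_near r0 v2 e1)
          have n2 := abs_lt.1 (t3_near r0 v3 e2)
          have e3 := t3_eq r0 gS u1 v1 ((gS _ u1 _ v1).resolve_right (not_le.2 (abs_lt.2
            ⟨by linarith, by linarith⟩)))
          exact absurd (by rw [e1, e2, e3]) hne'
        · exact Or.inr e2
      · exact Or.inl e1
  · intro a ha b hb e
    exact t3_eq r0 gT ha hb (by rw [e]; simpa using r0)
  · intro a ha b hb e
    exact t3_eq r0 gU ha hb (by rw [e]; simpa using r0)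
  · intro u hu v hv o1 o2 o3
    obtain ⟨u0, u1, u2, u3⟩ := mB u hu
    obtain ⟨v0, v1, v2, v3⟩ := mB v hv
    have t0 := abs_le.1 (tz u hu)
    have t1 := abs_le.1 (tz v hv)
    obtain ⟨a1, a2⟩ := t3_gap r0 gS u1 v1 o1
    obtain ⟨b1, b2⟩ := t3_gap r0 gT u2 v2 o2
    obtain ⟨d1, d2⟩ := t3_gap r0 gU v3 u3 (o3.imp Eq.symm id)
    exact ⟨a2.resolve_right (fun l => by linarith), b2.resolve_right (fun l => by linarith),
      (d2.resolve_right (fun l => by linarith)).symm⟩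

end Pool.Agent.Lib.MP_990519_co.Big
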