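import Pool.Agent.Lib.MP_990519_co.Big.T4a

namespace Pool.Agent.Lib.MP_990519_co.Big

open Finset
open scoped Classical ComplexConjugate

theorem t4_live {TT : Finset Tri} {A : Box} {e : ℝ} (he : 0 < e)
    (h : e * GM A < (inBox TT A).card) : A.1.Nonempty ∧ A.2.1.Nonempty ∧ A.2.2.Nonempty := by
  have h0 : (0 : ℝ) < (inBox TT A).card := lt_of_le_of_lt (mul_nonneg he.le (GM_nonneg A)) h
  obtain ⟨u, hu⟩ := card_pos.1 (by exact_mod_cast h0 : 0 < (inBox TT A).card)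
  unfold inBox at hu
  rw [mem_filter] at hu
  exact ⟨⟨_, hu.2.1⟩, ⟨_, hu.2.2.1⟩, ⟨_, hu.2.2.2⟩⟩

theorem t4_self {TT : Finset Tri} {A : Box} {e : ℝ} (he : 0 < e)
    (h : e * GM A < (inBox TT A).card) : ¬ DisjP A A := by
  obtain ⟨⟨a, ha⟩, ⟨b, hb⟩, _⟩ := t4_live he h
  intro hd
  rcases hd.1 with h1 | h1
  · exact disjoint_left.1 h1 ha ha
  · exact disjoint_left.1 h1 hb hb

theorem t4_refl (A : Box) : SubB A A := ⟨Subset.refl _, Subset.refl _, Subset.refl _⟩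

/-- paper 4.4 (Dec).  `m' = ⌈m / e³⌉₊`, `N0` from `small k m'`, `a0 ≥ max 1 m` with
`m' < e³ a0`.  Strong induction on `B.1.card`; the statement itself is the induction hypothesis.
Children: the image of `inBox TT B` under `u ↦ (cy u.1, cx u.2.1, cz u.2.2)`; each is dead
(`N ≤ e GM`), large live (`a < |I|`, recurse), middle live (goes into `AA`) or small live
(`|I| < m`, inside `Bs` = points whose clusters have size `< m`, `≤ m'`, `≤ m'`).  `holder` for
dead ∪ large and for `{Bs}` ∪ large; the rectangles `Bs.1 × B.2.1` and `K.1 × K.2.1` (`K` large)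
are disjoint (`proj_sum` or directly); `e³ a < |B.2.1|` by `live_ratio`. -/
theorem dec (k m : ℕ) (e : ℝ) (he : 0 < e) (he1 : e ≤ 1) : ∃ N0 a0 : ℕ, ∀ a : ℝ, a0 ≤ a →
    ∀ (G : ℂ → ℂ → ℂ → ℝ) (S kz : ℂ → ℝ) (TT : Finset Tri) (R : Box), Latin TT →
      ¬ Pattern k TT → Set.InjOn S R.1 →
      (∀ B : Box, SubB B R → 2 ≤ B.1.card → ∃ (cy cx cz : ℂ → Finset ℂ) (T U : ℂ → ℝ),
        Spl G S kz TT B cy cx cz T U) →
      ∀ B : Box, SubB B R → e * GM B < (inBox TT B).card → a < B.1.card →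
        ∃ AA : Finset Box, (∀ A ∈ AA, Cons G S kz A B ∧ e * GM A < (inBox TT A).card ∧
            m ≤ A.1.card ∧ (A.1.card : ℝ) ≤ a) ∧
          (∀ A ∈ AA, ∀ A' ∈ AA, A ≠ A' → DisjP A A') ∧
          ((inBox TT B).card : ℝ) ≤ ∑ A ∈ AA, ((inBox TT A).card : ℝ) + 2 * e * GM B +
            N0 / (e ^ 3 * a) * ((B.1.card : ℝ) * B.2.1.card) := by
  obtain ⟨m', hm1, hm2⟩ : ∃ m' : ℕ, m ≤ m' ∧ (m : ℝ) / e ^ 3 ≤ m' :=
    ⟨max m ⌈(m : ℝ) / e ^ 3⌉₊, le_max_left _ _,
      le_trans (Nat.le_ceil _) (by exact_mod_cast le_max_right _ _)⟩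
  obtain ⟨N0, hN0⟩ := small k m' e he he1
  have e3 : 0 < e ^ 3 := by positivity
  refine ⟨N0, ⌈(m' : ℝ) / e ^ 3⌉₊ + m + 1, fun a ha G S kz TT R hL hP iS hs B => ?_⟩
  push_cast at ha
  have c0 : (m' : ℝ) / e ^ 3 ≤ ⌈(m' : ℝ) / e ^ 3⌉₊ := Nat.le_ceil _
  have c1 : (0 : ℝ) ≤ (m' : ℝ) / e ^ 3 := by positivity
  have m0 : (0 : ℝ) ≤ m := by positivity
  have a1 : 1 ≤ a := by linarith
  have am : (m : ℝ) ≤ a := by linarith
  have am' : (m' : ℝ) ≤ e ^ 3 * a := by
    have : (m' : ℝ) / e ^ 3 ≤ a := by linarith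
    rwa [div_le_iff₀ e3, mul_comm] at this
  induction hn : B.1.card using Nat.strong_induction_on generalizing B with
  | _ n IH =>
  subst hn
  intro hB hl hlt
  have h2 : 2 ≤ B.1.card := by
    have : (1 : ℝ) < B.1.card := by linarith
    exact_mod_cast this
  obtain ⟨cy, cx, cz, T, U, sp⟩ := hs B hB h2
  set ee : ℝ := N0 / (e ^ 3 * a) with hee
  have ee0 : 0 ≤ ee := by rw [hee]; positivity
  set ch : Tri → Box := fun u => (cy u.1, cx u.2.1, cz u.2.2) with hch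
  set CH := (inBox TT B).image ch with hCH
  have mB : ∀ u ∈ inBox TT B, u ∈ TT ∧ u.1 ∈ B.1 ∧ u.2.1 ∈ B.2.1 ∧ u.2.2 ∈ B.2.2 := by
    intro u hu; unfold inBox at hu; rw [mem_filter] at hu; exact hu
  have cCons : ∀ K ∈ CH, Cons G S kz K B := by
    intro K hK
    obtain ⟨u, hu, rfl⟩ := mem_image.1 hK
    exact sp.cons u hu
  have cDisj : ∀ K ∈ CH, ∀ K' ∈ CH, K ≠ K' → DisjP K K' := by
    intro K hK K' hK' hne
    obtain ⟨u, hu, rfl⟩ := mem_image.1 hK
    obtain ⟨v, hv, rfl⟩ := mem_image.1 hK'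
    exact sp.disj u hu v hv hne
  have cLt : ∀ K ∈ CH, K.1.card < B.1.card := by
    intro K hK
    obtain ⟨u, hu, rfl⟩ := mem_image.1 hK
    exact sp.lt _ (mB u hu).2.1
  have cCl : ∀ K ∈ CH, (∀ y ∈ K.1, cy y = K.1) ∧ ∀ x ∈ K.2.1, cx x = K.2.1 := by
    intro K hK
    obtain ⟨u, hu, rfl⟩ := mem_image.1 hK
    exact ⟨(sp.hy _ (mB u hu).2.1).2.2, (sp.hx _ (mB u hu).2.2.1).2.2⟩
  set dead := CH.filter (fun K => ((inBox TT K).card : ℝ) ≤ e * GM K) with hdead
  set big := CH.filter (fun K => e * GM K < (inBox TT K).card ∧ a < K.1.card) with hbig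
  set mid := CH.filter (fun K => e * GM K < (inBox TT K).card ∧ m ≤ K.1.card ∧
    (K.1.card : ℝ) ≤ a) with hmid
  set Bs : Box := (B.1.filter (fun y => (cy y).card < m),
    B.2.1.filter (fun x => (cx x).card ≤ m'), B.2.2.filter (fun z => (cz z).card ≤ m')) with hBs
  have sBs : SubB Bs B := ⟨filter_subset _ _, filter_subset _ _, filter_subset _ _⟩
  have IH' : ∀ K : Box, ∃ AA : Finset Box, K ∈ big → (∀ A ∈ AA, Cons G S kz A K ∧
      e * GM A < (inBox TT A).card ∧ m ≤ A.1.card ∧ (A.1.card : ℝ) ≤ a) ∧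
      (∀ A ∈ AA, ∀ A' ∈ AA, A ≠ A' → DisjP A A') ∧
      ((inBox TT K).card : ℝ) ≤ ∑ A ∈ AA, ((inBox TT A).card : ℝ) + 2 * e * GM K +
        ee * ((K.1.card : ℝ) * K.2.1.card) := by
    intro K
    by_cases hK : K ∈ big
    · have hK' := mem_filter.1 hK
      obtain ⟨AA, hA⟩ := IH _ (cLt K hK'.1) K rfl ((cCons K hK'.1).1.trans hB) hK'.2.1 hK'.2.2
      exact ⟨AA, fun _ => hA⟩
    · exact ⟨∅, fun h => absurd h hK⟩
  choose F hF using IH'
  have dFF : ∀ K ∈ big, ∀ K' ∈ big, K ≠ K' → ∀ A ∈ F K, ∀ A' ∈ F K', DisjP A A' := by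
    intro K hK K' hK' hne A hA A' hA'
    exact (cDisj K (mem_filter.1 hK).1 K' (mem_filter.1 hK').1 hne).mono
      ((hF K hK).1 A hA).1.1 ((hF K' hK').1 A' hA').1.1
  have dMF : ∀ A ∈ mid, ∀ K ∈ big, ∀ A' ∈ F K, DisjP A A' := by
    intro A hA K hK A' hA'
    have h1 := mem_filter.1 hA
    have h3 := mem_filter.1 hK
    refine (cDisj A h1.1 K h3.1 ?_).mono (t4_refl A) ((hF K hK).1 A' hA').1.1
    rintro rfl
    linarith [h1.2.2.2, h3.2.2]
  refine ⟨mid ∪ big.biUnion F, ?_, ?_, ?_⟩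
  · intro A hA
    rcases mem_union.1 hA with h | h
    · have h1 := mem_filter.1 h
      exact ⟨cCons A h1.1, h1.2⟩
    · obtain ⟨K, hK, hA'⟩ := mem_biUnion.1 h
      have := (hF K hK).1 A hA'
      exact ⟨this.1.trans (cCons K (mem_filter.1 hK).1), this.2⟩
  · intro A hA A' hA' hne
    rcases mem_union.1 hA with h | h <;> rcases mem_union.1 hA' with h' | h'
    · exact cDisj A (mem_filter.1 h).1 A' (mem_filter.1 h').1 hne
    · obtain ⟨K, hK, hA2⟩ := mem_biUnion.1 h'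
      exact dMF A h K hK A' hA2
    · obtain ⟨K, hK, hA2⟩ := mem_biUnion.1 h
      exact (dMF A' h' K hK A hA2).symm
    · obtain ⟨K, hK, hA2⟩ := mem_biUnion.1 h
      obtain ⟨K', hK', hA3⟩ := mem_biUnion.1 h'
      by_cases hKK : K = K'
      · subst hKK; exact (hF K hK).2.1 A hA2 A' hA3 hne
      · exact dFF K hK K' hK' hKK A hA2 A' hA3
  have sAA : ∑ A ∈ mid ∪ big.biUnion F, ((inBox TT A).card : ℝ) =
      ∑ A ∈ mid, ((inBox TT A).card : ℝ) + ∑ K ∈ big, ∑ A ∈ F K, ((inBox TT A).card : ℝ) := by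
    rw [sum_union, sum_biUnion]
    · intro K hK K' hK' hne
      rw [Function.onFun, disjoint_left]
      intro A hA hA'
      exact t4_self he ((hF K hK).1 A hA).2.1 (dFF K hK K' hK' hne A hA A hA')
    · rw [disjoint_left]
      intro A hA hA'
      obtain ⟨K, hK, hA2⟩ := mem_biUnion.1 hA'
      exact t4_self he (mem_filter.1 hA).2.1 (dMF A hA K hK A hA2)
  have cover : inBox TT B ⊆ dead.biUnion (inBox TT) ∪ big.biUnion (inBox TT) ∪
      mid.biUnion (inBox TT) ∪ inBox TT Bs := by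
    intro u hu
    obtain ⟨u0, u1, u2, u3⟩ := mB u hu
    have hK : ch u ∈ CH := mem_image_of_mem _ hu
    have hin : u ∈ inBox TT (ch u) := by
      unfold inBox; rw [mem_filter]
      exact ⟨u0, (sp.hy _ u1).1, (sp.hx _ u2).1, (sp.hz _ u3).1⟩
    simp only [mem_union, mem_biUnion]
    by_cases d1 : ((inBox TT (ch u)).card : ℝ) ≤ e * GM (ch u)
    · exact Or.inl (Or.inl (Or.inl ⟨_, mem_filter.2 ⟨hK, d1⟩, hin⟩))
    have d1' := not_le.1 d1
    by_cases d2 : a < (ch u).1.card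
    · exact Or.inl (Or.inl (Or.inr ⟨_, mem_filter.2 ⟨hK, d1', d2⟩, hin⟩))
    by_cases d3 : m ≤ (ch u).1.card
    · exact Or.inl (Or.inr ⟨_, mem_filter.2 ⟨hK, d1', d3, not_lt.1 d2⟩, hin⟩)
    right
    have d3' : (cy u.1).card < m := not_le.1 d3
    have d4 : ((cy u.1).card : ℝ) < m := by exact_mod_cast d3'
    obtain ⟨_, ⟨r1, _⟩, r2, _⟩ := live_ratio hL he d1'
    have hm3 : (m : ℝ) ≤ e ^ 3 * m' := by rwa [div_le_iff₀ e3, mul_comm] at hm2
    have r3 : ((cx u.2.1).card : ℝ) < m' := lt_of_mul_lt_mul_left (a := e ^ 3)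
      (lt_of_lt_of_le (lt_trans r1 d4) hm3) e3.le
    have r4 : ((cz u.2.2).card : ℝ) < m' := lt_of_mul_lt_mul_left (a := e ^ 3)
      (lt_of_lt_of_le (lt_trans r2 d4) hm3) e3.le
    unfold inBox; rw [mem_filter]
    exact ⟨u0, mem_filter.2 ⟨u1, d3'⟩, mem_filter.2 ⟨u2, by exact_mod_cast r3.le⟩,
      mem_filter.2 ⟨u3, by exact_mod_cast r4.le⟩⟩
  have cnt : ((inBox TT B).card : ℝ) ≤ ∑ K ∈ dead, ((inBox TT K).card : ℝ) +
      ∑ K ∈ big, ((inBox TT K).card : ℝ) + ∑ K ∈ mid, ((inBox TT K).card : ℝ) +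
        (inBox TT Bs).card := by
    have := (card_le_card cover).trans ((card_union_le _ _).trans (Nat.add_le_add_right
      ((card_union_le _ _).trans (Nat.add_le_add ((card_union_le _ _).trans
        (Nat.add_le_add card_biUnion_le card_biUnion_le)) card_biUnion_le)) _))
    exact_mod_cast this
  have hd1 : ∑ K ∈ dead, ((inBox TT K).card : ℝ) ≤ e * ∑ K ∈ dead, GM K := by
    rw [mul_sum]; exact sum_le_sum fun K hK => (mem_filter.1 hK).2
  have hd2 : ∑ K ∈ big, ((inBox TT K).card : ℝ) ≤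
      ∑ K ∈ big, ∑ A ∈ F K, ((inBox TT A).card : ℝ) + 2 * e * ∑ K ∈ big, GM K +
        ee * ∑ K ∈ big, ((K.1.card : ℝ) * K.2.1.card) := by
    rw [mul_sum, mul_sum, ← sum_add_distrib, ← sum_add_distrib]
    exact sum_le_sum fun K hK => (hF K hK).2.2
  have hH1 : ∑ K ∈ dead, GM K + ∑ K ∈ big, GM K ≤ GM B := by
    rw [← sum_union]
    · have sub : dead ∪ big ⊆ CH := union_subset (filter_subset _ _) (filter_subset _ _)
      exact holder (fun A hA => (cCons A (sub hA)).1)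
        (fun A hA A' hA' => cDisj A (sub hA) A' (sub hA'))
    · rw [disjoint_left]
      intro K hK hK'
      linarith [(mem_filter.1 hK).2, (mem_filter.1 hK').2.1]
  have dj1 : ∀ K ∈ big, Disjoint Bs.1 K.1 := by
    intro K hK
    have h3 := mem_filter.1 hK
    rw [disjoint_left]
    intro y hy hy'
    have := (mem_filter.1 hy).2
    rw [(cCl K h3.1).1 y hy'] at this
    have : (K.1.card : ℝ) < m := by exact_mod_cast this
    linarith [h3.2.2]
  have dj2 : ∀ K ∈ big, Disjoint Bs.2.1 K.2.1 := by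
    intro K hK
    have h3 := mem_filter.1 hK
    rw [disjoint_left]
    intro x hx hx'
    have := (mem_filter.1 hx).2
    rw [(cCl K h3.1).2 x hx'] at this
    have h4 : (K.2.1.card : ℝ) ≤ m' := by exact_mod_cast this
    have h5 := (live_ratio hL he h3.2.1).1.1
    have h6 := mul_lt_mul_of_pos_left h3.2.2 e3
    linarith
  have ins : ∀ C : Box, SubB C B → (∀ K ∈ big, DisjP C K) → C ∉ big ∧
      (∀ A ∈ insert C big, SubB A B) ∧
        ∀ A ∈ insert C big, ∀ A' ∈ insert C big, A ≠ A' → DisjP A A' := by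
    intro C hC hd
    refine ⟨fun h => t4_self he (mem_filter.1 h).2.1 (hd C h), ?_, ?_⟩
    · intro A hA
      rcases mem_insert.1 hA with rfl | h
      · exact hC
      · exact (cCons A (mem_filter.1 h).1).1
    · intro A hA A' hA' hne
      rcases mem_insert.1 hA with h | h <;> rcases mem_insert.1 hA' with h' | h'
      · exact absurd (h.trans h'.symm) hne
      · rw [h]; exact hd A' h'
      · rw [h']; exact (hd A h).symm
      · exact cDisj A (mem_filter.1 h).1 A' (mem_filter.1 h').1 hne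
  have hH2 : GM Bs + ∑ K ∈ big, GM K ≤ GM B := by
    obtain ⟨i1, i2, i3⟩ := ins Bs sBs
      (fun K hK => ⟨Or.inl (dj1 K hK), Or.inl (dj1 K hK), Or.inl (dj2 K hK)⟩)
    have := holder i2 i3
    rwa [sum_insert i1] at this
  have hR : (Bs.1.card : ℝ) * B.2.1.card + ∑ K ∈ big, ((K.1.card : ℝ) * K.2.1.card) ≤
      (B.1.card : ℝ) * B.2.1.card := by
    obtain ⟨i1, i2, i3⟩ := ins (Bs.1, B.2.1, ∅) ⟨sBs.1, Subset.refl _, empty_subset _⟩
      (fun K hK => ⟨Or.inl (dj1 K hK), Or.inl (dj1 K hK), Or.inr (disjoint_empty_left _)⟩)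
    have := (proj_sum i2 i3).1
    rw [sum_insert i1] at this
    exact_mod_cast this
  have hS := hN0 G S kz TT B cy cx cz T U hL hP (iS.mono (by exact_mod_cast hB.1)) sp Bs sBs
    (fun y hy => le_trans (mem_filter.1 hy).2.le hm1) (fun x hx => (mem_filter.1 hx).2)
    (fun z hz => (mem_filter.1 hz).2)
  have hJ : (N0 : ℝ) ≤ ee * B.2.1.card := by
    have h5 := (live_ratio hL he hl).1.1
    have h6 := mul_lt_mul_of_pos_left hlt e3
    have h7 : 0 < e ^ 3 * a := by positivity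
    rw [hee, div_mul_eq_mul_div, le_div_iff₀ h7]
    exact mul_le_mul_of_nonneg_left (by linarith) (by positivity)
  have hJ2 : (N0 : ℝ) * Bs.1.card ≤ ee * ((Bs.1.card : ℝ) * B.2.1.card) := by
    have := mul_le_mul_of_nonneg_right hJ (by positivity : (0 : ℝ) ≤ Bs.1.card)
    linarith
  have f1 := mul_le_mul_of_nonneg_left hH1 he.le
  have f2 := mul_le_mul_of_nonneg_left hH2 he.le
  have f3 := mul_le_mul_of_nonneg_left hR ee0
  rw [sAA]
  linarith

end Pool.Agent.Lib.MP_990519_co.Big
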