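import Pool.Agent.Lib.MP_990519_co.Big.T2
import Pool.Agent.Lib.MP_990519_co.Big.T3
import Pool.Agent.Lib.MP_990519_co.Big.T4

namespace Pool.Agent.Lib.MP_990519_co.Big

open Finset
open scoped Classical ComplexConjugate

/-- paper 4.5: induction on `i` for `σ i = max (c / 2) ((1 - c0 / 4) ^ i)`, `c0 = 1 / 17280000`,
`e = c c0 / 8`, `R0 = (2 / c) ^ 3`, `a = e³ |B.1| / (50 R0)`; for `2 ≤ c` use `inBox_le_GM` -/
theorem levels (k : ℕ) (c : ℝ) (hc : 0 < c) : ∃ m : ℕ,
    ∀ (G : ℂ → ℂ → ℂ → ℝ) (S kz : ℂ → ℝ) (TT : Finset Tri) (R : Box), Latin TT →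
      ¬ Pattern k TT → Set.InjOn S R.1 → Set.InjOn kz R.2.2 →
      (∀ B : Box, SubB B R → 2 ≤ B.1.card → ∃ (cy cx cz : ℂ → Finset ℂ) (T U : ℂ → ℝ),
        Spl G S kz TT B cy cx cz T U) →
      ∀ B : Box, SubB B R → m ≤ B.1.card → ((inBox TT B).card : ℝ) ≤ c / 2 * GM B := by
  rcases le_or_gt 2 c with c2 | c2
  · refine ⟨0, fun G S kz TT R hL _ _ _ _ B _ _ => (inBox_le_GM hL B).trans ?_⟩
    exact le_mul_of_one_le_left (GM_nonneg B) (by linarith)
  have key : ∀ i : ℕ, ∃ m : ℕ,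
      ∀ (G : ℂ → ℂ → ℂ → ℝ) (S kz : ℂ → ℝ) (TT : Finset Tri) (R : Box), Latin TT →
      ¬ Pattern k TT → Set.InjOn S R.1 → Set.InjOn kz R.2.2 →
      (∀ B : Box, SubB B R → 2 ≤ B.1.card → ∃ (cy cx cz : ℂ → Finset ℂ) (T U : ℂ → ℝ),
        Spl G S kz TT B cy cx cz T U) →
      ∀ B : Box, SubB B R → m ≤ B.1.card → ((inBox TT B).card : ℝ) ≤
        max (c / 2) ((1 - 1 / 17280000 / 4) ^ i) * GM B := by
    intro i
    induction i with
    | zero =>
      refine ⟨0, fun G S kz TT R hL _ _ _ _ B _ _ => (inBox_le_GM hL B).trans ?_⟩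
      exact le_mul_of_one_le_left (GM_nonneg B) (by rw [pow_zero]; exact le_max_right _ _)
    | succ i ih =>
      obtain ⟨m, hm⟩ := ih
      set e : ℝ := c / 17280000 / 8 with he
      have e0 : 0 < e := by positivity
      have e1 : e ≤ 1 := by rw [he]; linarith
      set t : ℝ := (c / 2) ^ 3 with ht
      have t0 : 0 < t := by positivity
      have t1 : t ≤ 1 := pow_le_one₀ (by positivity) (by linarith)
      have e3 : 0 < e ^ 3 := by positivity
      have e4 : e ^ 3 ≤ 1 := pow_le_one₀ e0.le e1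
      obtain ⟨N0, a0, hd⟩ := dec k m e e0 e1
      refine ⟨⌈50 * (a0 + N0 / (e ^ 4 * t)) / (e ^ 3 * t)⌉₊ + 1,
        fun G S kz TT R hL hP iS ikz hs B hB hm' => ?_⟩
      set σ := max (c / 2) ((1 - 1 / 17280000 / 4) ^ i) with hσ
      have σ1 : c / 2 ≤ σ := le_max_left _ _
      have g0 := GM_nonneg B
      rcases le_or_gt ((inBox TT B).card : ℝ) (c / 2 * GM B) with l | l
      · exact l.trans (mul_le_mul_of_nonneg_right (le_max_left _ _) g0)
      have n1 : 50 * (a0 + N0 / (e ^ 4 * t)) / (e ^ 3 * t) + 1 ≤ (B.1.card : ℝ) := by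
        have : ((⌈50 * (a0 + N0 / (e ^ 4 * t)) / (e ^ 3 * t)⌉₊ + 1 : ℕ) : ℝ) ≤ B.1.card := by
          exact_mod_cast hm'
        push_cast at this
        linarith [Nat.le_ceil (50 * (a0 + N0 / (e ^ 4 * t)) / (e ^ 3 * t))]
      have p0 : (0 : ℝ) ≤ N0 / (e ^ 4 * t) := by positivity
      have I0 : (0 : ℝ) < B.1.card := lt_of_lt_of_le (by positivity) n1
      set a : ℝ := e ^ 3 * t * B.1.card / 50 with ha
      have a0' : 0 < a := by positivity
      have a1 : a0 + N0 / (e ^ 4 * t) ≤ a := by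
        have : 50 * (a0 + N0 / (e ^ 4 * t)) / (e ^ 3 * t) ≤ (B.1.card : ℝ) := by linarith
        rw [div_le_iff₀ (by positivity)] at this
        rw [ha]; linarith
      have a2 : 50 * a ≤ t * B.1.card := by
        have := mul_le_mul_of_nonneg_right e4 (by positivity : 0 ≤ t * B.1.card)
        rw [ha]; linarith
      have a3 : t * B.1.card ≤ B.1.card := mul_le_of_le_one_left I0.le t1
      obtain ⟨⟨_, r2⟩, ⟨_, r4⟩, _⟩ := live_ratio hL (by positivity : 0 < c / 2) l
      rw [← ht] at r2 r4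
      obtain ⟨AA, b1, b2, b3⟩ := hd a (by linarith) G S kz TT R hL hP iS hs B hB
        (lt_of_le_of_lt (mul_le_mul_of_nonneg_right (by rw [he]; linarith) g0) l) (by linarith)
      have ls := loss (G := G) (iS.mono (by exact_mod_cast hB.1))
        (ikz.mono (by exact_mod_cast hB.2.2)) (fun A hA => t4_live e0 (b1 A hA).2.1)
        (fun A hA => (b1 A hA).1) b2 (fun A hA => by
          have : (50 : ℝ) * A.1.card ≤ B.1.card := by linarith [(b1 A hA).2.2.2]
          exact_mod_cast this) (fun A hA => by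
          have s1 := (live_ratio hL e0 (b1 A hA).2.1).2.2.1
          have s2 : e ^ 3 * (50 * A.2.2.card) ≤ e ^ 3 * (t * B.1.card) := by
            have := (b1 A hA).2.2.2
            rw [ha] at this; linarith
          have s3 := le_of_mul_le_mul_left s2 e3
          have : (50 : ℝ) * A.2.2.card ≤ B.2.2.card := by linarith
          exact_mod_cast this)
      have s1 : ∑ A ∈ AA, ((inBox TT A).card : ℝ) ≤ σ * ((1 - 1 / 17280000) * GM B) := by
        refine le_trans ?_ (mul_le_mul_of_nonneg_left ls (by linarith))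
        rw [mul_sum]
        exact sum_le_sum fun A hA => hm G S kz TT R hL hP iS ikz hs A ((b1 A hA).1.1.trans hB)
          (b1 A hA).2.2.1
      have s2 : t * (B.1.card * B.2.1.card) ≤ GM B := by
        refine le_of_pow_le_pow_left₀ (n := 3) (by norm_num) g0 ?_
        rw [GM_cube]
        have q1 := mul_le_mul r2.le r4.le (by positivity) (by positivity)
        have q2 : t * (t * B.1.card * (t * B.2.1.card)) ≤ (B.2.2.card : ℝ) * B.2.2.card :=
          (mul_le_of_le_one_left (by positivity) t1).trans q1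
        calc _ = ((B.1.card : ℝ) * B.2.1.card) ^ 2 * (t * (t * B.1.card * (t * B.2.1.card))) := by
              ring
          _ ≤ ((B.1.card : ℝ) * B.2.1.card) ^ 2 * ((B.2.2.card : ℝ) * B.2.2.card) := by gcongr
          _ = _ := by ring
      have s3 : (N0 : ℝ) / (e ^ 3 * a) ≤ e * t := by
        have : (N0 : ℝ) / (e ^ 4 * t) ≤ a := by
          have : (0 : ℝ) ≤ a0 := by positivity
          linarith
        rw [div_le_iff₀ (by positivity)] at this ⊢
        linarith
      have s4 : (N0 : ℝ) / (e ^ 3 * a) * (B.1.card * B.2.1.card) ≤ e * GM B := by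
        have := mul_le_mul_of_nonneg_right s3 (by positivity : (0 : ℝ) ≤ B.1.card * B.2.1.card)
        have := mul_le_mul_of_nonneg_left s2 e0.le
        linarith
      have s5 : e * GM B ≤ σ / 17280000 / 4 * GM B :=
        mul_le_mul_of_nonneg_right (by rw [he]; linarith) g0
      have s6 : σ * (1 - 1 / 17280000 / 4) ≤ max (c / 2) ((1 - 1 / 17280000 / 4) ^ (i + 1)) := by
        rcases max_choice (c / 2) ((1 - 1 / 17280000 / 4 : ℝ) ^ i) with h | h
        · rw [hσ, h]; exact le_trans (by linarith) (le_max_left _ _)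
        · rw [hσ, h, ← pow_succ]; exact le_max_right _ _
      have s7 := mul_le_mul_of_nonneg_right s6 g0
      linarith
  obtain ⟨i, hi⟩ := exists_pow_lt_of_lt_one (by positivity : 0 < c / 2)
    (by norm_num : (1 - 1 / 17280000 / 4 : ℝ) < 1)
  obtain ⟨m, hm⟩ := key i
  rw [max_eq_left hi.le] at hm
  exact ⟨m, hm⟩

/-- Lemma T -/
theorem tree (k : ℕ) (c : ℝ) (hc : 0 < c) : ∃ M0 : ℕ, ∀ M : ℕ, M0 ≤ M → ∃ κ : ℝ, 0 < κ ∧
    ∀ (Y X Z : Finset ℂ) (S : ℂ → ℝ) (f g : ℂ → ℂ → ℝ) (kz : ℂ → ℝ) (TT : Finset Tri),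
      Y.card ≤ M → X.card ≤ M → Z.card ≤ M → TS κ Y X Z S f g kz TT →
      c * (M : ℝ) ^ 2 ≤ TT.card → Pattern k TT := by
  obtain ⟨m, hm⟩ := levels k c hc
  refine ⟨⌈m / c⌉₊ + 1, fun M hM => ?_⟩
  obtain ⟨κ, k0, k1, hk⟩ := split M
  refine ⟨κ, k0, fun Y X Z S f g kz TT hY hX hZ h hT => ?_⟩
  by_contra hP
  have hL := h.latin k1
  have e : inBox TT (Y, X, Z) = TT := by
    refine filter_true_of_mem fun u hu => ?_
    have := h.sub hu
    simpa only [mem_product] using this
  have M1 : (m : ℝ) / c + 1 ≤ M := by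
    have : ((⌈m / c⌉₊ + 1 : ℕ) : ℝ) ≤ M := by exact_mod_cast hM
    push_cast at this
    linarith [Nat.le_ceil (m / c)]
  have M0 : (0 : ℝ) < M := lt_of_lt_of_le (by positivity) M1
  have y1 : (Y.card : ℝ) ≤ M := by exact_mod_cast hY
  have x1 : (X.card : ℝ) ≤ M := by exact_mod_cast hX
  have z1 : (Z.card : ℝ) ≤ M := by exact_mod_cast hZ
  have b1 : (TT.card : ℝ) ≤ Y.card * X.card := by
    have := (inBox_le hL (Y, X, Z)).1
    rw [e] at this; exact_mod_cast this
  have b2 : m ≤ Y.card := by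
    have q1 : (m : ℝ) / c ≤ M := by linarith
    rw [div_le_iff₀ hc] at q1
    have q2 : c * M * M ≤ Y.card * M := by
      have := mul_le_mul_of_nonneg_left x1 (by positivity : (0 : ℝ) ≤ Y.card)
      linarith
    have q3 := le_of_mul_le_mul_right q2 M0
    have : (m : ℝ) ≤ Y.card := by linarith
    exact_mod_cast this
  have b3 := hm _ S kz TT (Y, X, Z) hL hP h.iS h.ikz (hk Y X Z S f g kz TT hY hX hZ h) (Y, X, Z)
    (t4_refl _) b2
  rw [e] at b3
  have b4 : GM (Y, X, Z) ≤ (M : ℝ) ^ 2 := by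
    refine le_of_pow_le_pow_left₀ (n := 3) (by norm_num) (by positivity) ?_
    rw [GM_cube]
    calc _ ≤ ((M : ℝ) * M * M) ^ 2 := by simp only; gcongr
      _ = _ := by ring
  have b5 := mul_le_mul_of_nonneg_left b4 (by positivity : 0 ≤ c / 2)
  have : 0 < c * (M : ℝ) ^ 2 := by positivity
  linarith

end Pool.Agent.Lib.MP_990519_co.Big
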