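import Pool.Agent.Lib.MP_990519_co.Big.W2
import Pool.Agent.Lib.MP_990519_co.Big.R2b
import Pool.Agent.Lib.MP_990519_co.Big.T5

namespace Pool.Agent.Lib.MP_990519_co.Big

open Finset
open scoped Classical ComplexConjugate

/-- paper 5.3: `winpop` with `M1` from `pattern_of_anti k c`, keys `ky, kx, -kz` -/
theorem rare {k : ℕ} (hk : Rigid k) (ε : ℝ) (hε : 0 < ε) : ∃ γ : ℝ, 0 < γ ∧ ∃ n0 : ℕ,
    ∀ S : Finset ℂ, Cvx S → n0 ≤ S.card → ∀ (Y X Z : Finset ℂ) (ky kx kz : ℂ → ℝ)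
      (TT : Finset Tri), Sys S Y X Z ky kz TT → Set.InjOn kx X →
      (∀ y ∈ Y, ∀ x ∈ X, ∀ x' ∈ X, kx x < kx x' → dist y x < dist y x') →
      (∀ u ∈ TT, ¬ GGood S γ u.1 u.2.1 u.2.2) → (TT.card : ℝ) < ε * (S.card : ℝ) ^ 2 := by
  obtain ⟨c, hc, hw⟩ := winpop hk ε hε
  obtain ⟨N0, hN⟩ := pattern_of_anti k c hc
  obtain ⟨M, hM, γ, hγ, n0, hw⟩ := hw N0
  refine ⟨γ, hγ, n0, fun S hS hn Y X Z ky kx kz TT h ix K3 hbad => ?_⟩
  by_contra hlt
  obtain ⟨u, hu, hg⟩ := hw S hS hn Y X Z ky kz TT h (not_lt.1 hlt) (by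
    intro I J L hI hJ hL cI cJ cL hd
    have h' := h.restrict hI hJ hL
    refine hN M hM I J L ky kx (fun z => -kz z) _ cI cJ cL h'.sub h'.iy
      (ix.mono (coe_subset.2 hJ)) (fun a ha b hb e => h'.iz ha hb (neg_injective e)) ?_ hd
    intro u hu v hv e1 e2 e3
    obtain ⟨u1, u2, u3⟩ : u.1 ∈ I ∧ u.2.1 ∈ J ∧ u.2.2 ∈ L := by
      simpa only [mem_product] using h'.sub hu
    obtain ⟨v1, v2, v3⟩ : v.1 ∈ I ∧ v.2.1 ∈ J ∧ v.2.2 ∈ L := by
      simpa only [mem_product] using h'.sub hv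
    have tu := h'.tie u hu
    have tv := h'.tie v hv
    have e3' : kz v.2.2 ≤ kz u.2.2 := neg_le_neg_iff.1 e3
    have a1 : u.1 = v.1 ∨ dist u.1 u.2.1 - dist u.1 u.2.2 < dist v.1 u.2.1 - dist v.1 u.2.2 :=
      e1.eq_or_lt.imp (fun e => h'.iy u1 v1 e) fun e => h'.K1 _ u1 _ v1 _ u2 _ u3 e
    have a2 : u.2.1 = v.2.1 ∨ dist v.1 u.2.1 < dist v.1 v.2.1 :=
      e2.eq_or_lt.imp (fun e => ix (hJ u2) (hJ v2) e) fun e =>
        K3 _ (hI v1) _ (hJ u2) _ (hJ v2) e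
    have a3 : v.2.2 = u.2.2 ∨ dist v.1 v.2.2 < dist v.1 u.2.2 :=
      e3'.eq_or_lt.imp (fun e => h'.iz v3 u3 e) fun e => h'.K2 _ v1 _ v3 _ u3 e
    have b1 : dist u.1 u.2.1 - dist u.1 u.2.2 ≤ dist v.1 u.2.1 - dist v.1 u.2.2 :=
      a1.elim (fun e => by rw [e]) le_of_lt
    have b2 : dist v.1 u.2.1 ≤ dist v.1 v.2.1 := a2.elim (fun e => by rw [e]) le_of_lt
    have b3 : dist v.1 v.2.2 ≤ dist v.1 u.2.2 := a3.elim (fun e => by rw [e]) le_of_lt
    exact h'.one u hu v hv (a1.resolve_right fun e => by linarith)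
      (a3.resolve_right fun e => by linarith).symm)
  exact hbad u hu hg

/-- paper 5.4, the pigeonhole: at least `c M / 2` apexes have at least `c M / 2` ties, with
different middle points and different third points (`Sys.chain`, `Sys.one`); some pair `(x0, z0)`
serves `c³ M / 8` of them; `T'` is the set of ties at these apexes -/
theorem flat_pair {S Y X Z : Finset ℂ} {ky kz : ℂ → ℝ} {TT : Finset Tri}
    (h : Sys S Y X Z ky kz TT) {M : ℕ} {c : ℝ} (hc : 0 < c) (hM : 1 ≤ M) (hY : Y.card ≤ M)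
    (hX : X.card ≤ M) (hZ : Z.card ≤ M) (hT : c * (M : ℝ) ^ 2 ≤ TT.card) :
    ∃ (x0 z0 : ℂ) (T' : Finset Tri), T' ⊆ TT ∧ c ^ 4 / 16 * (M : ℝ) ^ 2 ≤ T'.card ∧
      ∀ u ∈ T', (∃ z1, (u.1, x0, z1) ∈ TT) ∧ ∃ x1, (u.1, x1, z0) ∈ TT := by
  have hM' : (0 : ℝ) < M := by exact_mod_cast hM
  have hsub : ∀ u ∈ TT, u.1 ∈ Y ∧ u.2.1 ∈ X ∧ u.2.2 ∈ Z := fun u hu => by
    simpa only [mem_product] using h.sub hu
  set fib : ℂ → Finset Tri := fun y => TT.filter (fun u => u.1 = y) with hfib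
  have hmem : ∀ y u, u ∈ fib y ↔ u ∈ TT ∧ u.1 = y := fun y u => mem_filter
  have cz : ∀ y, ((fib y).image fun u => u.2.2).card = (fib y).card := fun y =>
    card_image_of_injOn fun u hu v hv e => by
      have hu' := (hmem y u).1 hu
      have hv' := (hmem y v).1 hv
      exact h.one u hu'.1 v hv'.1 (hu'.2.trans hv'.2.symm) e
  have cx : ∀ y, ((fib y).image fun u => u.2.1).card = (fib y).card := fun y =>
    card_image_of_injOn fun u hu v hv e => by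
      have hu' := (hmem y u).1 hu
      have hv' := (hmem y v).1 hv
      exact (h.chain hu'.1 hv'.1 e).2.1 (hu'.2.trans hv'.2.symm)
  have sz : ∀ y, ((fib y).image fun u => u.2.2) ⊆ Z := fun y z hz => by
    obtain ⟨u, hu, rfl⟩ := mem_image.1 hz
    exact (hsub u ((hmem y u).1 hu).1).2.2
  have sx : ∀ y, ((fib y).image fun u => u.2.1) ⊆ X := fun y z hz => by
    obtain ⟨u, hu, rfl⟩ := mem_image.1 hz
    exact (hsub u ((hmem y u).1 hu).1).2.1
  have dle : ∀ y, ((fib y).card : ℝ) ≤ M := fun y => by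
    rw [← cz]
    exact_mod_cast (card_le_card (sz y)).trans hZ
  set A := Y.filter (fun y => c * M / 2 ≤ (fib y).card) with hA
  have hAm : ∀ y ∈ A, c * M / 2 ≤ (fib y).card := fun y hy => (mem_filter.1 hy).2
  have h1 : (TT.card : ℝ) = ∑ y ∈ Y, ((fib y).card : ℝ) := by
    rw [card_eq_sum_card_fiberwise (f := fun u : Tri => u.1) (t := Y) fun u hu => (hsub u hu).1]
    push_cast
    rfl
  have h2 : c * M / 2 ≤ A.card := by
    rw [← sum_filter_add_sum_filter_not Y fun y => c * M / 2 ≤ (fib y).card] at h1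
    have h3 : ∑ y ∈ A, ((fib y).card : ℝ) ≤ A.card * M := by
      simpa using sum_le_card_nsmul A (fun y => ((fib y).card : ℝ)) M fun y _ => dle y
    have h4 : ∑ y ∈ Y.filter (fun y => ¬ c * M / 2 ≤ (fib y).card), ((fib y).card : ℝ) ≤
        M * (c * M / 2) := by
      refine (sum_le_card_nsmul _ _ (c * M / 2) fun y hy =>
        (not_le.1 (mem_filter.1 hy).2).le).trans ?_
      rw [nsmul_eq_mul]
      refine mul_le_mul_of_nonneg_right ?_ (by positivity)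
      exact_mod_cast (card_filter_le _ _).trans hY
    have h5 : c * M / 2 * M ≤ A.card * M := by nlinarith
    exact le_of_mul_le_mul_right h5 hM'
  set Q : ℂ → ℂ × ℂ → Prop := fun y p =>
    p.1 ∈ (fib y).image (fun u => u.2.1) ∧ p.2 ∈ (fib y).image (fun u => u.2.2) with hQ
  have h3 : ∑ p ∈ X ×ˢ Z, ((A.filter fun y => Q y p).card : ℝ) =
      ∑ y ∈ A, ((fib y).card : ℝ) ^ 2 := by
    simp only [card_filter, Nat.cast_sum]
    rw [sum_comm]
    refine sum_congr rfl fun y _ => ?_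
    rw [← Nat.cast_sum, ← card_filter]
    have e : (X ×ˢ Z).filter (fun p => Q y p) =
        (fib y).image (fun u => u.2.1) ×ˢ (fib y).image (fun u => u.2.2) := by
      ext p
      simp only [mem_filter, mem_product, hQ]
      exact ⟨fun hp => hp.2, fun hp => ⟨⟨sx y hp.1, sz y hp.2⟩, hp⟩⟩
    rw [e, card_product, cx, cz, hfib]
    push_cast
    simp only [card_filter, Nat.cast_sum]
    ring
  have hne : (X ×ˢ Z).Nonempty := by
    have h4 : (0 : ℝ) < TT.card := lt_of_lt_of_le (by positivity) hT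
    obtain ⟨u, hu⟩ := card_pos.1 (Nat.cast_pos.1 h4)
    exact ⟨u.2, mem_product.2 (hsub u hu).2⟩
  have h4 : ∑ _p ∈ X ×ˢ Z, c ^ 3 * M / 8 ≤
      ∑ p ∈ X ×ˢ Z, ((A.filter fun y => Q y p).card : ℝ) := by
    rw [h3, sum_const, nsmul_eq_mul, card_product, Nat.cast_mul]
    have h5 := card_nsmul_le_sum A (fun y => ((fib y).card : ℝ) ^ 2) ((c * M / 2) ^ 2)
      fun y hy => pow_le_pow_left₀ (by positivity) (hAm y hy) 2
    rw [nsmul_eq_mul] at h5
    have hX' : (X.card : ℝ) ≤ M := by exact_mod_cast hX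
    have hZ' : (Z.card : ℝ) ≤ M := by exact_mod_cast hZ
    calc (X.card : ℝ) * Z.card * (c ^ 3 * M / 8) ≤ M * M * (c ^ 3 * M / 8) := by gcongr
      _ = c * M / 2 * (c * M / 2) ^ 2 := by ring
      _ ≤ A.card * (c * M / 2) ^ 2 := by gcongr
      _ ≤ _ := h5
  obtain ⟨p, -, hp⟩ := exists_le_of_sum_le hne h4
  set A0 := A.filter (fun y => Q y p) with hA0
  refine ⟨p.1, p.2, TT.filter (fun u => u.1 ∈ A0), filter_subset _ _, ?_, fun u hu => ?_⟩
  · have h5 : ((TT.filter (fun u => u.1 ∈ A0)).card : ℝ) = ∑ y ∈ A0, ((fib y).card : ℝ) := by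
      rw [card_eq_sum_card_fiberwise (f := fun u : Tri => u.1) (s := TT.filter (fun u => u.1 ∈ A0))
        (t := A0) fun u hu => (mem_filter.1 hu).2]
      push_cast
      refine sum_congr rfl fun y hy => ?_
      congr 2
      ext u
      simp only [mem_filter, hmem]
      exact ⟨fun e => ⟨e.1.1, e.2⟩, fun e => ⟨⟨e.1, by rw [e.2]; exact hy⟩, e.2⟩⟩
    have h6 := card_nsmul_le_sum A0 (fun y => ((fib y).card : ℝ)) (c * M / 2)
      fun y hy => hAm y (mem_filter.1 hy).1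
    rw [nsmul_eq_mul] at h6
    rw [h5]
    calc c ^ 4 / 16 * (M : ℝ) ^ 2 = c ^ 3 * M / 8 * (c * M / 2) := by ring
      _ ≤ A0.card * (c * M / 2) := by gcongr
      _ ≤ _ := h6
  · obtain ⟨q1, q2⟩ := (mem_filter.1 (mem_filter.1 hu).2).2
    obtain ⟨v, hv, e1⟩ := mem_image.1 q1
    obtain ⟨w, hw, e2⟩ := mem_image.1 q2
    obtain ⟨hv1, hv2⟩ := (hmem _ v).1 hv
    obtain ⟨hw1, hw2⟩ := (hmem _ w).1 hw
    refine ⟨⟨v.2.2, ?_⟩, w.2.1, ?_⟩
    · rw [← hv2, ← e1]; exact hv1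
    · rw [← hw2, ← e2]; exact hw1

theorem TS.mono_kappa {κ κ' : ℝ} {Y X Z : Finset ℂ} {S : ℂ → ℝ} {f g : ℂ → ℂ → ℝ} {kz : ℂ → ℝ}
    {TT : Finset Tri} (h : TS κ Y X Z S f g kz TT) (hle : κ ≤ κ') : TS κ' Y X Z S f g kz TT := by
  exact { h with
    add := fun y hy y' hy' x hx z hz => (h.add y hy y' hy' x hx z hz).trans
      (mul_le_mul_of_nonneg_right hle (abs_nonneg _)) }

/-- paper 5.4: `winpop` with `M1` from `tree k (c ^ 4 / 16)`, `om = min (1 / 200) (κ / 336)`,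
`flat_pair` and `flat_TS` in each dense box -/
theorem rare_flat {k : ℕ} (hk : Rigid k) (ε : ℝ) (hε : 0 < ε) : ∃ γ : ℝ, 0 < γ ∧ ∃ om : ℝ,
    0 < om ∧ ∃ n0 : ℕ, ∀ S : Finset ℂ, Cvx S → n0 ≤ S.card → ∀ (Y X Z : Finset ℂ) (ky kz : ℂ → ℝ)
      (nr : ℂ → ℂ) (s : ℝ) (TT : Finset Tri), Sys S Y X Z ky kz TT →
      Flat S Y X Z ky nr s om TT → (∀ u ∈ TT, ¬ GGood S γ u.1 u.2.1 u.2.2) →
        (TT.card : ℝ) < ε * (S.card : ℝ) ^ 2 := by
  obtain ⟨c, hc, hw⟩ := winpop hk ε hε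
  obtain ⟨M0, hM0⟩ := tree k (c ^ 4 / 16) (by positivity)
  obtain ⟨M, hM, γ, hγ, n0, hw⟩ := hw (max M0 1)
  obtain ⟨κ, hκ, ht⟩ := hM0 M ((le_max_left _ _).trans hM)
  refine ⟨γ, hγ, min (1 / 200) (κ / 336), by positivity, n0,
    fun S hS hn Y X Z ky kz nr s TT h hf hbad => ?_⟩
  by_contra hlt
  obtain ⟨u, hu, hg⟩ := hw S hS hn Y X Z ky kz TT h (not_lt.1 hlt) (by
    intro I J L hI hJ hL cI cJ cL hd
    have h' := h.restrict hI hJ hL
    have hf' := hf.restrict hI hJ hL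
    obtain ⟨x0, z0, T', hT', hcard, h0⟩ :=
      flat_pair h' hc ((le_max_right _ _).trans hM) cI cJ cL hd
    have hsub : ∀ u ∈ T', u.1 ∈ I ∧ u.2.1 ∈ J ∧ u.2.2 ∈ L := fun u hu => by
      simpa only [mem_product] using h'.sub (hT' hu)
    have h1 := (flat_TS h' hf' (by positivity) (min_le_left _ _) hT' h0).mono_kappa (κ' := κ) (by
      linarith [min_le_right (1 / 200 : ℝ) (κ / 336)])
    refine (ht _ _ _ _ _ _ _ _ ?_ ?_ ?_ h1 hcard).mono hT'
    · exact (card_le_card (image_subset_iff.2 fun u hu => (hsub u hu).1)).trans cI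
    · exact (card_le_card (image_subset_iff.2 fun u hu => (hsub u hu).2.1)).trans cJ
    · exact (card_le_card (image_subset_iff.2 fun u hu => (hsub u hu).2.2)).trans cL)
  exact hbad u hu hg

end Pool.Agent.Lib.MP_990519_co.Big
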