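import Pool.Agent.Lib.MP_990519_co.Big.G2
import Pool.Agent.Lib.MP_990519_co.Big.R3

namespace Pool.Agent.Lib.MP_990519_co.Big

open Finset
open scoped Classical ComplexConjugate

theorem BadA.mono {φ : Type} {S : Finset ℂ} {ix : ℂ → ℤ} {D : ℕ} {fam : ℂ → φ} {key : ℂ → ℝ}
    {γ γ' : ℝ} {y x z : ℂ} (h : BadA S ix D fam key γ' y x z) (hle : γ' ≤ γ) :
    BadA S ix D fam key γ y x z := by
  obtain ⟨h1, h2, h3, h4, h5⟩ := h
  refine ⟨h1, h2, h3, h4, fun ⟨w, hw, hg⟩ => h5 ⟨w, ⟨hw.1, le_trans ?_ hw.2⟩, hg⟩⟩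
  exact mul_le_mul_of_nonneg_right hle (Nat.cast_nonneg _)

theorem l1_cover {α ι : Type} (A : Finset α) (I : Finset ι) (P : ι → Finset α)
    (h : ∀ a ∈ A, ∃ i ∈ I, a ∈ P i) (b : ℝ) (hb : ∀ i ∈ I, ((P i).card : ℝ) ≤ b) :
    (A.card : ℝ) ≤ I.card * b := by
  have h1 : A.card ≤ ∑ i ∈ I, (P i).card :=
    le_trans (card_le_card fun a ha => mem_biUnion.2 (h a ha)) card_biUnion_le
  have h2 : ((∑ i ∈ I, (P i).card : ℕ) : ℝ) ≤ I.card * b := by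
    rw [Nat.cast_sum, ← nsmul_eq_mul]
    exact sum_le_card_nsmul _ _ _ hb
  exact le_trans (by exact_mod_cast h1) h2

/-- distances from `y` increase with `s * key` on the fibre `a` -/
def L1Up {φ : Type} (S : Finset ℂ) (fam : ℂ → φ) (key : ℂ → ℝ) (s : ℝ) (y : ℂ) (a : φ) : Prop :=
  ∀ u ∈ S, ∀ v ∈ S, fam u = a → fam v = a → s * key u < s * key v → dist y u < dist y v

theorem l1_sign {φ : Type} {S : Finset ℂ} {fam : ℂ → φ} {key : ℂ → ℝ} {y x : ℂ}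
    (h : Tame S fam key y x) : ∃ s ∈ ({1, -1} : Finset ℝ), L1Up S fam key s y (fam x) := by
  rcases h with h | h
  · exact ⟨1, by simp, fun u hu v hv e1 e2 l => h u hu v hv e1 e2 (by linarith)⟩
  · exact ⟨-1, by simp, fun u hu v hv e1 e2 l => h v hv u hu e2 e1 (by linarith)⟩

theorem l1_ne {s : ℝ} (h : s ∈ ({1, -1} : Finset ℝ)) : s ≠ 0 := by
  rcases mem_insert.1 h with h | h
  · rw [h]
    norm_num
  · rw [mem_singleton.1 h]
    norm_num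

theorem l1_card : ({1, -1} : Finset ℝ).card ≤ 2 := card_le_two

theorem l1_inj {φ : Type} {S : Finset ℂ} {ix : ℂ → ℤ} {D F : ℕ} {fam : ℂ → φ} {key : ℂ → ℝ}
    (h : FamOK S ix D F fam key) {s : ℝ} (hs : s ≠ 0) (a : φ) :
    Set.InjOn (fun x => s * key x) (S.filter (fun x => fam x = a)) := by
  intro u hu v hv e
  have hu' := mem_filter.1 (mem_coe.1 hu)
  have hv' := mem_filter.1 (mem_coe.1 hv)
  exact h.inj u hu'.1 v hv'.1 (hu'.2.trans hv'.2.symm) (mul_left_cancel₀ hs e)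

theorem l1_piece {φ : Type} {S : Finset ℂ} {p : ℤ → ℂ} {ix : ℂ → ℤ} (e : Enum S p ix) {D F : ℕ}
    {fam : ℂ → φ} {key : ℂ → ℝ} (h : FamOK S ix D F fam key) {γ s1 s2 : ℝ} (h1 : s1 ≠ 0)
    (h2 : s2 ≠ 0) (i : ℤ) (a c : φ) (TT : Finset Tri) (hne : TT.Nonempty)
    (hT : ∀ u ∈ TT, u.1 ∈ S ∧ u.2.1 ∈ S ∧ u.2.2 ∈ S ∧ BadA S ix D fam key γ u.1 u.2.1 u.2.2 ∧
      blk S ix D u.1 = i ∧ fam u.2.1 = a ∧ fam u.2.2 = c ∧ L1Up S fam key s1 u.1 a ∧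
        L1Up S fam key s2 u.1 c) :
    ∃ (Y X Z : Finset ℂ) (ky kx kz : ℂ → ℝ), Sys S Y X Z ky kz TT ∧ Set.InjOn kx X ∧
      ∀ y ∈ Y, ∀ x ∈ X, ∀ x' ∈ X, kx x < kx x' → dist y x < dist y x' := by
  obtain ⟨u0, hu0⟩ := hne
  obtain ⟨m1, m2, m3, b0, e1, e2, e3, -, -⟩ := hT u0 hu0
  obtain ⟨s, hs, ht⟩ := three_blocks e D b0.1.1 b0.1.2.1 b0.1.2.2
  have hs0 : s ≠ 0 := by rcases hs with hs | hs <;> rw [hs] <;> norm_num
  have up : ∀ y ∈ S.filter (fun y => blk S ix D y = i ∧ L1Up S fam key s1 y a ∧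
      L1Up S fam key s2 y c), ∀ x ∈ S.filter (fun x => fam x = a),
      ∀ x' ∈ S.filter (fun x => fam x = a), s1 * key x < s1 * key x' → dist y x < dist y x' := by
    intro y hy x hx x' hx' l
    rw [mem_filter] at hy hx hx'
    exact hy.2.2.1 x hx.1 x' hx'.1 hx.2 hx'.2 l
  have sub : ∀ u ∈ TT, u.1 ∈ S.filter (fun y => blk S ix D y = i ∧ L1Up S fam key s1 y a ∧
      L1Up S fam key s2 y c) ∧ u.2.1 ∈ S.filter (fun x => fam x = a) ∧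
      u.2.2 ∈ S.filter (fun x => fam x = c) := by
    intro u hu
    obtain ⟨n1, n2, n3, -, f1, f2, f3, f4, f5⟩ := hT u hu
    exact ⟨mem_filter.2 ⟨n1, f1, f4, f5⟩, mem_filter.2 ⟨n2, f2⟩, mem_filter.2 ⟨n3, f3⟩⟩
  refine ⟨S.filter (fun y => blk S ix D y = i ∧ L1Up S fam key s1 y a ∧ L1Up S fam key s2 y c),
    S.filter (fun x => fam x = a), S.filter (fun x => fam x = c), fun y => s * (ix y : ℝ),
    fun x => s1 * key x, fun x => s2 * key x, ⟨filter_subset _ _, filter_subset _ _,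
      filter_subset _ _, ?_, ?_, l1_inj h h2 c, ?_, ?_, ?_, ?_, ?_⟩, l1_inj h h1 a, up⟩
  · rw [disjoint_left]
    intro x hx hz
    rw [mem_filter] at hx hz
    exact b0.1.2.2 (h.ref _ m2 _ m3 (by rw [e2, e3, ← hx.2, hz.2]))
  · intro u hu v hv k
    exact e.ix_inj (mem_filter.1 (mem_coe.1 hu)).1 (mem_filter.1 (mem_coe.1 hv)).1
      (by exact_mod_cast mul_left_cancel₀ hs0 k)
  · intro y hy y' hy' x hx z hz l
    rw [mem_filter] at hy hy' hx hz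
    exact ((ht y hy.1 x hx.1 z hz.1 (hy.2.1.trans e1.symm)
      (h.ref _ hx.1 _ m2 (hx.2.trans e2.symm)) (h.ref _ hz.1 _ m3 (hz.2.trans e3.symm))).2
        y' hy'.1 (hy'.2.1.trans e1.symm) l).1
  · intro y hy z hz z' hz' l
    rw [mem_filter] at hy hz hz'
    exact hy.2.2.2 z hz.1 z' hz'.1 hz.2 hz'.2 l
  · intro u hu
    obtain ⟨a1, a2, a3⟩ := sub u hu
    exact mem_product.2 ⟨a1, mem_product.2 ⟨a2, a3⟩⟩
  · intro u hu
    exact (hT u hu).2.2.2.1.2.1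
  · intro u hu v hv k1 k2
    obtain ⟨a1, a2, -⟩ := sub u hu
    obtain ⟨-, c2, -⟩ := sub v hv
    have t1 := (hT u hu).2.2.2.1.2.1
    have t2 := (hT v hv).2.2.2.1.2.1
    rw [← k1, ← k2, ← t1] at t2
    have k3 : u.2.1 = v.2.1 := by
      refine l1_inj h h1 a (mem_coe.2 a2) (mem_coe.2 c2) ?_
      rcases lt_trichotomy (s1 * key u.2.1) (s1 * key v.2.1) with l | l | l
      · exact absurd t2 (up _ a1 _ a2 _ c2 l).ne'
      · exact l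
      · exact absurd t2 (up _ a1 _ c2 _ a2 l).ne
    exact Prod.ext k1 (Prod.ext k3 k2)

/-- paper 6.5 (a).  Cover the bad ties by the data (block `i` of `y`, `a = fam x`, `c = fam z`,
two signs): `Y` = points of block `i` that are tame with the given signs on the fibres `a` and `c`,
`X`, `Z` the fibres, `ky = s * ix` from `three_blocks`, `kx = ± key`, `kz = ± key`; apply `rare`
with `ε = η / (4 D F² + 1)` to each of the at most `4 D F²` pieces. -/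
theorem rphi_a {k : ℕ} (hk : Rigid k) (D F : ℕ) (hD : 0 < D) (η : ℝ) (hη : 0 < η) :
    ∃ γ : ℝ, 0 < γ ∧ ∃ n0 : ℕ, ∀ S : Finset ℂ, Cvx S → n0 ≤ S.card →
      ∀ (p : ℤ → ℂ) (ix : ℂ → ℤ), Enum S p ix → ∀ (φ : Type) (fam : ℂ → φ) (key : ℂ → ℝ),
        FamOK S ix D F fam key →
          (cnt3 S (BadA S ix D fam key γ) : ℝ) ≤ η * (S.card : ℝ) ^ 2 := by
  obtain ⟨γ, hγ, n0, H⟩ := rare hk (η / (4 * D * F ^ 2 + 1)) (by positivity)
  refine ⟨γ, hγ, n0, fun S hS hn p ix e φ fam key h => ?_⟩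
  have c1 := l1_cover ((S ×ˢ S ×ˢ S).filter (fun u => BadA S ix D fam key γ u.1 u.2.1 u.2.2))
    ((S.image (blk S ix D)) ×ˢ (S.image fam) ×ˢ (S.image fam) ×ˢ ({1, -1} : Finset ℝ) ×ˢ
      ({1, -1} : Finset ℝ))
    (fun t => (S ×ˢ S ×ˢ S).filter (fun u => BadA S ix D fam key γ u.1 u.2.1 u.2.2 ∧
      blk S ix D u.1 = t.1 ∧ fam u.2.1 = t.2.1 ∧ fam u.2.2 = t.2.2.1 ∧
        L1Up S fam key t.2.2.2.1 u.1 t.2.1 ∧ L1Up S fam key t.2.2.2.2 u.1 t.2.2.1)) ?_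
    (η / (4 * D * F ^ 2 + 1) * (S.card : ℝ) ^ 2) ?_
  · have c2 : ((S.image (blk S ix D)) ×ˢ (S.image fam) ×ˢ (S.image fam) ×ˢ ({1, -1} : Finset ℝ) ×ˢ
        ({1, -1} : Finset ℝ)).card ≤ D * (F * (F * (2 * 2))) := by
      simp only [card_product]
      have a1 := blk_image_card e hD
      have a2 : (S.image fam).card ≤ F := by convert h.card
      exact Nat.mul_le_mul a1 (Nat.mul_le_mul a2 (Nat.mul_le_mul a2
        (Nat.mul_le_mul l1_card l1_card)))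
    have c3 : (((S.image (blk S ix D)) ×ˢ (S.image fam) ×ˢ (S.image fam) ×ˢ ({1, -1} : Finset ℝ) ×ˢ
        ({1, -1} : Finset ℝ)).card : ℝ) ≤ 4 * D * F ^ 2 + 1 := by
      have : (((S.image (blk S ix D)) ×ˢ (S.image fam) ×ˢ (S.image fam) ×ˢ
        ({1, -1} : Finset ℝ) ×ˢ ({1, -1} : Finset ℝ)).card : ℝ) ≤ D * (F * (F * (2 * 2))) := by
        exact_mod_cast c2
      linarith
    have c4 := c1.trans (mul_le_mul_of_nonneg_right c3 (by positivity))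
    rw [← mul_assoc, mul_div_cancel₀ _ (by positivity)] at c4
    unfold cnt3
    convert c4
  · intro u hu
    obtain ⟨m, b⟩ := mem_filter.1 hu
    obtain ⟨m1, m'⟩ := mem_product.1 m
    obtain ⟨m2, m3⟩ := mem_product.1 m'
    obtain ⟨s1, k1, u1⟩ := l1_sign b.2.2.1
    obtain ⟨s2, k2, u2⟩ := l1_sign b.2.2.2.1
    refine ⟨(blk S ix D u.1, fam u.2.1, fam u.2.2, s1, s2), ?_,
      mem_filter.2 ⟨m, b, rfl, rfl, rfl, u1, u2⟩⟩
    exact mem_product.2 ⟨mem_image_of_mem _ m1, mem_product.2 ⟨mem_image_of_mem _ m2,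
      mem_product.2 ⟨mem_image_of_mem _ m3, mem_product.2 ⟨k1, k2⟩⟩⟩⟩
  · intro t ht
    have k := (mem_product.1 (mem_product.1 (mem_product.1 (mem_product.1 ht).2).2).2)
    obtain ⟨TT, hTT⟩ : ∃ TT : Finset Tri, TT = (S ×ˢ S ×ˢ S).filter (fun u =>
      BadA S ix D fam key γ u.1 u.2.1 u.2.2 ∧
      blk S ix D u.1 = t.1 ∧ fam u.2.1 = t.2.1 ∧ fam u.2.2 = t.2.2.1 ∧
        L1Up S fam key t.2.2.2.1 u.1 t.2.1 ∧ L1Up S fam key t.2.2.2.2 u.1 t.2.2.1) := ⟨_, rfl⟩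
    have hT : ∀ u ∈ TT, u.1 ∈ S ∧ u.2.1 ∈ S ∧ u.2.2 ∈ S ∧ BadA S ix D fam key γ u.1 u.2.1 u.2.2 ∧
      blk S ix D u.1 = t.1 ∧ fam u.2.1 = t.2.1 ∧ fam u.2.2 = t.2.2.1 ∧
        L1Up S fam key t.2.2.2.1 u.1 t.2.1 ∧ L1Up S fam key t.2.2.2.2 u.1 t.2.2.1 := by
      intro u hu
      rw [hTT] at hu
      obtain ⟨m, b⟩ := mem_filter.1 hu
      obtain ⟨m1, m'⟩ := mem_product.1 m
      obtain ⟨m2, m3⟩ := mem_product.1 m'
      exact ⟨m1, m2, m3, b⟩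
    rw [← hTT]
    rcases TT.eq_empty_or_nonempty with h0 | h0
    · rw [h0, card_empty, Nat.cast_zero]
      positivity
    obtain ⟨Y, X, Z, ky, kx, kz, a1, a2, a3⟩ := l1_piece e h (l1_ne k.1) (l1_ne k.2) _ _ _ TT h0 hT
    exact (H S hS hn Y X Z ky kx kz TT a1 a2 a3 fun u hu => (hT u hu).2.2.2.1.2.2.2.2).le

end Pool.Agent.Lib.MP_990519_co.Big
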