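import Pool.Agent.Lib.MP_990519_co.Big.G2
import Pool.Agent.Lib.MP_990519_co.Big.R3
import Pool.Agent.Lib.MP_990519_co.Big.L1

namespace Pool.Agent.Lib.MP_990519_co.Big

open Finset
open scoped Classical ComplexConjugate

theorem BadB.mono {φ : Type} {S : Finset ℂ} {p : ℤ → ℂ} {ix : ℂ → ℤ} {D : ℕ} {fam : ℂ → φ}
    {key : ℂ → ℝ} {γ γ' om om' : ℝ} {y z : ℂ} (h : BadB S p ix D fam key γ' om' y z)
    (hle : γ' ≤ γ) (ho : om' ≤ om) : BadB S p ix D fam key γ om y z := by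
  obtain ⟨h1, x, hx, h2, h3, h4, h5, h6⟩ := h
  refine ⟨h1, x, hx, h2, h3, le_trans h4 ho, le_trans h5 ho,
    fun ⟨w, hw, hg⟩ => h6 ⟨w, ⟨hw.1, le_trans ?_ hw.2⟩, hg⟩⟩
  exact mul_le_mul_of_nonneg_right hle (Nat.cast_nonneg _)

theorem l2_piece {φ : Type} {S : Finset ℂ} {p : ℤ → ℂ} {ix : ℂ → ℤ} (e : Enum S p ix) {D F : ℕ}
    {fam : ℂ → φ} {key : ℂ → ℝ} (h : FamOK S ix D F fam key) {om s2 : ℝ} (h2 : s2 ≠ 0)
    (i j : ℤ) (c : φ) (TT : Finset Tri) (hne : TT.Nonempty)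
    (hT : ∀ u ∈ TT, u.1 ∈ S ∧ u.2.1 ∈ S ∧ u.2.2 ∈ S ∧ Sep S ix D u.1 u.2.1 u.2.2 ∧
      dist u.1 u.2.1 = dist u.1 u.2.2 ∧ Nor (nrm p ix) om u.2.1 u.1 ∧
      Nor (nrm p ix) om u.2.1 u.2.2 ∧ blk S ix D u.1 = i ∧ blk S ix D u.2.1 = j ∧ fam u.2.2 = c ∧
        L1Up S fam key s2 u.1 c)
    (hone : ∀ u ∈ TT, ∀ v ∈ TT, u.1 = v.1 → u.2.2 = v.2.2 → u = v) :
    ∃ (Y X Z : Finset ℂ) (ky kz : ℂ → ℝ) (s : ℝ), Sys S Y X Z ky kz TT ∧
      Flat S Y X Z ky (nrm p ix) s om TT := by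
  obtain ⟨u0, hu0⟩ := hne
  obtain ⟨m1, m2, m3, b0, -, -, -, e1, e2, e3, -⟩ := hT u0 hu0
  obtain ⟨s, hs, ht⟩ := three_blocks e D b0.1 b0.2.1 b0.2.2
  have hs0 : s ≠ 0 := by rcases hs with hs | hs <;> rw [hs] <;> norm_num
  have hc2 : 2 ≤ S.card := one_lt_card.2 ⟨_, m1, _, m2, fun k => b0.1 (by rw [k])⟩
  have key3 : ∀ y ∈ S.filter (fun y => blk S ix D y = i ∧ L1Up S fam key s2 y c),
      ∀ x ∈ S.filter (fun x => blk S ix D x = j), ∀ z ∈ S.filter (fun x => fam x = c),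
        0 < s * ori x y z ∧ ∀ y' ∈ S.filter (fun y => blk S ix D y = i ∧ L1Up S fam key s2 y c),
          s * (ix y : ℝ) < s * (ix y' : ℝ) → dist y x - dist y z < dist y' x - dist y' z ∧
            0 < s * ori x y y' ∧ 0 < s * ori y y' z := by
    intro y hy x hx z hz
    rw [mem_filter] at hy hx hz
    have := ht y hy.1 x hx.1 z hz.1 (hy.2.1.trans e1.symm) (hx.2.trans e2.symm)
      (h.ref _ hz.1 _ m3 (hz.2.trans e3.symm))
    exact ⟨this.1, fun y' hy' l =>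
      this.2 y' (mem_filter.1 hy').1 ((mem_filter.1 hy').2.1.trans e1.symm) l⟩
  refine ⟨S.filter (fun y => blk S ix D y = i ∧ L1Up S fam key s2 y c),
    S.filter (fun x => blk S ix D x = j), S.filter (fun x => fam x = c), fun y => s * (ix y : ℝ),
    fun x => s2 * key x, s, ⟨filter_subset _ _, filter_subset _ _,
      filter_subset _ _, ?_, ?_, l1_inj h h2 c, ?_, ?_, ?_, ?_, hone⟩, hs, ?_, ?_, ?_, ?_, ?_⟩
  · rw [disjoint_left]
    intro x hx hz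
    rw [mem_filter] at hx hz
    exact b0.2.2 (by rw [e2, ← hx.2]; exact h.ref _ hx.1 _ m3 (hz.2.trans e3.symm))
  · intro u hu v hv k
    exact e.ix_inj (mem_filter.1 (mem_coe.1 hu)).1 (mem_filter.1 (mem_coe.1 hv)).1
      (by exact_mod_cast mul_left_cancel₀ hs0 k)
  · intro y hy y' hy' x hx z hz l
    exact ((key3 y hy x hx z hz).2 y' hy' l).1
  · intro y hy z hz z' hz' l
    rw [mem_filter] at hy hz hz'
    exact hy.2.2 z hz.1 z' hz'.1 hz.2 hz'.2 l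
  · intro u hu
    obtain ⟨n1, n2, n3, -, -, -, -, f1, f2, f3, f4⟩ := hT u hu
    exact mem_product.2 ⟨mem_filter.2 ⟨n1, f1, f4⟩, mem_product.2
      ⟨mem_filter.2 ⟨n2, f2⟩, mem_filter.2 ⟨n3, f3⟩⟩⟩
  · intro u hu
    exact (hT u hu).2.2.2.2.1
  · intro x hx
    exact nrm_unit e hc2 (mem_filter.1 hx).1
  · intro x hx w hw
    exact nrm_supp e (mem_filter.1 hx).1 hw
  · intro x hx y hy z hz
    exact (key3 y hy x hx z hz).1
  · intro x hx y hy y' hy' z hz l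
    exact ((key3 y hy x hx z hz).2 y' hy' l).2
  · intro u hu
    exact ⟨(hT u hu).2.2.2.2.2.1, (hT u hu).2.2.2.2.2.2.1⟩

/-- paper 6.5 (b).  Choose one `x = ξ y z` for each bad pair `(y, z)`.  Cover by (block of `y`,
block of `x`, `fam z`, sign); `X` is the whole block, `TT` the chosen triples; `Flat` from
`three_blocks`, `nrm_unit`, `nrm_supp`; apply `rare_flat` with `ε = η / (2 D² F + 1)`. -/
theorem rphi_b {k : ℕ} (hk : Rigid k) (D F : ℕ) (hD : 0 < D) (η : ℝ) (hη : 0 < η) :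
    ∃ γ : ℝ, 0 < γ ∧ ∃ om : ℝ, 0 < om ∧ ∃ n0 : ℕ, ∀ S : Finset ℂ, Cvx S → n0 ≤ S.card →
      ∀ (p : ℤ → ℂ) (ix : ℂ → ℤ), Enum S p ix → ∀ (φ : Type) (fam : ℂ → φ) (key : ℂ → ℝ),
        FamOK S ix D F fam key →
          (cnt2 S (BadB S p ix D fam key γ om) : ℝ) ≤ η * (S.card : ℝ) ^ 2 := by
  obtain ⟨γ, hγ, om, hom, n0, H⟩ := rare_flat hk (η / (2 * D ^ 2 * F + 1)) (by positivity)
  refine ⟨γ, hγ, om, hom, n0, fun S hS hn p ix e φ fam key h => ?_⟩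
  have ex : ∀ u : ℂ × ℂ, ∃ x : ℂ, BadB S p ix D fam key γ om u.1 u.2 → x ∈ S ∧
      Sep S ix D u.1 x u.2 ∧ dist u.1 x = dist u.1 u.2 ∧ Nor (nrm p ix) om x u.1 ∧
        Nor (nrm p ix) om x u.2 ∧ ¬ GGood S γ u.1 x u.2 := by
    intro u
    by_cases hb : BadB S p ix D fam key γ om u.1 u.2
    · obtain ⟨x, hx, h1⟩ := hb.2
      exact ⟨x, fun _ => ⟨hx, h1⟩⟩
    · exact ⟨0, fun k => absurd k hb⟩
  choose ξ hξ using ex
  have c1 := l1_cover ((S ×ˢ S).filter (fun u => BadB S p ix D fam key γ om u.1 u.2))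
    ((S.image (blk S ix D)) ×ˢ (S.image (blk S ix D)) ×ˢ (S.image fam) ×ˢ ({1, -1} : Finset ℝ))
    (fun t => (S ×ˢ S).filter (fun u => BadB S p ix D fam key γ om u.1 u.2 ∧
      blk S ix D u.1 = t.1 ∧ blk S ix D (ξ u) = t.2.1 ∧ fam u.2 = t.2.2.1 ∧
        L1Up S fam key t.2.2.2 u.1 t.2.2.1)) ?_
    (η / (2 * D ^ 2 * F + 1) * (S.card : ℝ) ^ 2) ?_
  · have c2 : ((S.image (blk S ix D)) ×ˢ (S.image (blk S ix D)) ×ˢ (S.image fam) ×ˢ
        ({1, -1} : Finset ℝ)).card ≤ D * (D * (F * 2)) := by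
      simp only [card_product]
      have a1 := blk_image_card e hD
      have a2 : (S.image fam).card ≤ F := by convert h.card
      exact Nat.mul_le_mul a1 (Nat.mul_le_mul a1 (Nat.mul_le_mul a2 l1_card))
    have c3 : (((S.image (blk S ix D)) ×ˢ (S.image (blk S ix D)) ×ˢ (S.image fam) ×ˢ
        ({1, -1} : Finset ℝ)).card : ℝ) ≤ 2 * D ^ 2 * F + 1 := by
      have : (((S.image (blk S ix D)) ×ˢ (S.image (blk S ix D)) ×ˢ (S.image fam) ×ˢ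
        ({1, -1} : Finset ℝ)).card : ℝ) ≤ D * (D * (F * 2)) := by
        exact_mod_cast c2
      linarith
    have c4 := c1.trans (mul_le_mul_of_nonneg_right c3 (by positivity))
    rw [← mul_assoc, mul_div_cancel₀ _ (by positivity)] at c4
    unfold cnt2
    convert c4
  · intro u hu
    obtain ⟨m, b⟩ := mem_filter.1 hu
    obtain ⟨m1, m2⟩ := mem_product.1 m
    obtain ⟨s2, k2, u2⟩ := l1_sign b.1
    refine ⟨(blk S ix D u.1, blk S ix D (ξ u), fam u.2, s2), ?_,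
      mem_filter.2 ⟨m, b, rfl, rfl, rfl, u2⟩⟩
    exact mem_product.2 ⟨mem_image_of_mem _ m1, mem_product.2 ⟨mem_image_of_mem _ (hξ u b).1,
      mem_product.2 ⟨mem_image_of_mem _ m2, k2⟩⟩⟩
  · intro t ht
    have k := (mem_product.1 (mem_product.1 (mem_product.1 ht).2).2).2
    obtain ⟨A, hA⟩ : ∃ A : Finset (ℂ × ℂ), A = (S ×ˢ S).filter (fun u =>
      BadB S p ix D fam key γ om u.1 u.2 ∧
      blk S ix D u.1 = t.1 ∧ blk S ix D (ξ u) = t.2.1 ∧ fam u.2 = t.2.2.1 ∧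
        L1Up S fam key t.2.2.2 u.1 t.2.2.1) := ⟨_, rfl⟩
    rw [← hA]
    have hc : (A.image (fun u : ℂ × ℂ => ((u.1, ξ u, u.2) : Tri))).card = A.card := by
      refine card_image_of_injective _ fun u v huv => ?_
      simp only [Prod.mk.injEq] at huv
      exact Prod.ext huv.1 huv.2.2
    rw [← hc]
    obtain ⟨TT, hTT⟩ : ∃ TT : Finset Tri,
      TT = A.image (fun u : ℂ × ℂ => ((u.1, ξ u, u.2) : Tri)) := ⟨_, rfl⟩
    rw [← hTT]
    have hm : ∀ v ∈ TT, ∃ u : ℂ × ℂ, v = (u.1, ξ u, u.2) ∧ u.1 ∈ S ∧ u.2 ∈ S ∧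
        BadB S p ix D fam key γ om u.1 u.2 ∧ blk S ix D u.1 = t.1 ∧ blk S ix D (ξ u) = t.2.1 ∧
          fam u.2 = t.2.2.1 ∧ L1Up S fam key t.2.2.2 u.1 t.2.2.1 := by
      intro v hv
      rw [hTT] at hv
      obtain ⟨u, hu, rfl⟩ := mem_image.1 hv
      rw [hA] at hu
      obtain ⟨m, b⟩ := mem_filter.1 hu
      exact ⟨u, rfl, (mem_product.1 m).1, (mem_product.1 m).2, b⟩
    rcases TT.eq_empty_or_nonempty with h0 | h0
    · rw [h0, card_empty, Nat.cast_zero]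
      positivity
    obtain ⟨Y, X, Z, ky, kz, s, a1, a2⟩ := l2_piece (om := om) e h (l1_ne k) t.1 t.2.1 t.2.2.1 TT h0
      (fun v hv => by
        obtain ⟨u, rfl, m1, m2, b, r⟩ := hm v hv
        obtain ⟨x1, x2, x3, x4, x5, -⟩ := hξ u b
        exact ⟨m1, x1, m2, x2, x3, x4, x5, r⟩)
      (fun v hv v' hv' k1 k2 => by
        obtain ⟨u, rfl, -⟩ := hm v hv
        obtain ⟨u', rfl, -⟩ := hm v' hv'
        rw [show u = u' from Prod.ext k1 k2])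
    refine (H S hS hn Y X Z ky kz _ s TT a1 a2 fun v hv => ?_).le
    obtain ⟨u, rfl, -, -, b, -⟩ := hm v hv
    exact (hξ u b).2.2.2.2.2

end Pool.Agent.Lib.MP_990519_co.Big
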