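import Pool.Agent.Lib.MP_990519_co.Big.P3a

namespace Pool.Agent.Lib.MP_990519_co.Big

open Finset
open scoped Classical ComplexConjugate

theorem Pattern.mono {k : ℕ} {TT TT' : Finset Tri} (h : Pattern k TT) (hs : TT ⊆ TT') :
    Pattern k TT' := by
  obtain ⟨y, x, z, a, b, c, d⟩ := h
  exact ⟨y, x, z, a, b, c, fun χ => hs (d χ)⟩

/-- every subset is the set of coordinates in state `c` of some word -/
theorem exists_st {ι : Type} [Fintype ι] (I : Finset ι) (c : Fin 3) :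
    ∃ χ : ι → Fin 3, st χ c = I := by
  refine ⟨fun i => if i ∈ I then c else c + 1, ?_⟩
  ext i
  have : c + 1 ≠ c := by fin_cases c <;> decide
  by_cases h : i ∈ I <;> simp [st, h, this]

/-- the rank of a point for an injective key -/
theorem exists_rank (Y : Finset ℂ) (ky : ℂ → ℝ) (h : Set.InjOn ky Y) : ∃ r : ℂ → ℕ,
    (∀ a ∈ Y, r a < Y.card) ∧ ∀ a ∈ Y, ∀ b ∈ Y, (r a ≤ r b ↔ ky a ≤ ky b) := by
  have mono : ∀ a ∈ Y, ∀ b, ky a < ky b → (Y.filter (fun c => ky c < ky a)).card <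
      (Y.filter (fun c => ky c < ky b)).card := by
    intro a ha b l
    refine card_lt_card ⟨fun c hc => mem_filter.2 ⟨(mem_filter.1 hc).1,
      (mem_filter.1 hc).2.trans l⟩, fun hs => ?_⟩
    exact lt_irrefl _ (mem_filter.1 (hs (mem_filter.2 ⟨ha, l⟩))).2
  refine ⟨fun a => (Y.filter (fun c => ky c < ky a)).card, fun a ha => ?_, fun a ha b hb => ?_⟩
  · refine card_lt_card ⟨filter_subset _ _, fun hs => ?_⟩
    exact lt_irrefl _ (mem_filter.1 (hs ha)).2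
  · refine ⟨fun l => not_lt.1 fun l2 => absurd (mono b hb a l2) (not_lt.2 l), fun l => ?_⟩
    exact card_le_card fun c hc => mem_filter.2 ⟨(mem_filter.1 hc).1,
      lt_of_lt_of_le (mem_filter.1 hc).2 l⟩

/-- paper 2.3: replace keys by ranks, apply `pat_int`, pull back -/
theorem pattern_of_anti (k : ℕ) (δ : ℝ) (hδ : 0 < δ) : ∃ N0 : ℕ, ∀ N : ℕ, N0 ≤ N →
    ∀ (Y X Z : Finset ℂ) (ky kx kz : ℂ → ℝ) (TT : Finset Tri), Y.card ≤ N → X.card ≤ N →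
      Z.card ≤ N → TT ⊆ Y ×ˢ X ×ˢ Z → Set.InjOn ky Y → Set.InjOn kx X → Set.InjOn kz Z →
      (∀ u ∈ TT, ∀ v ∈ TT, ky u.1 ≤ ky v.1 → kx u.2.1 ≤ kx v.2.1 → kz u.2.2 ≤ kz v.2.2 → u = v) →
      δ * (N : ℝ) ^ 2 ≤ TT.card → Pattern k TT := by
  obtain ⟨N0, h⟩ := pat_int k δ hδ
  refine ⟨N0, fun N hN Y X Z ky kx kz TT hY hX hZ hs iy ix iz ha hT => ?_⟩
  obtain ⟨ry, y1, y2⟩ := exists_rank Y ky iy
  obtain ⟨rx, x1, x2⟩ := exists_rank X kx ix
  obtain ⟨rz, z1, z2⟩ := exists_rank Z kz iz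
  have m : ∀ u ∈ TT, u.1 ∈ Y ∧ u.2.1 ∈ X ∧ u.2.2 ∈ Z := fun u hu => by
    simpa only [mem_product] using hs hu
  set φ : Tri → Fin 3 → ℤ := fun u => ![ry u.1, rx u.2.1, rz u.2.2] with hφ
  have le : ∀ u ∈ TT, ∀ v ∈ TT, φ u ≤ φ v → u = v := by
    intro u hu v hv l
    refine ha u hu v hv ((y2 _ (m u hu).1 _ (m v hv).1).1 ?_)
      ((x2 _ (m u hu).2.1 _ (m v hv).2.1).1 ?_) ((z2 _ (m u hu).2.2 _ (m v hv).2.2).1 ?_)
    · simpa [hφ] using l 0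
    · simpa [hφ] using l 1
    · simpa [hφ] using l 2
  obtain ⟨y, x, z, a, b, c, d⟩ := h N hN (TT.image φ) (by
    intro p hp q hq l
    obtain ⟨u, hu, rfl⟩ := mem_image.1 hp
    obtain ⟨v, hv, rfl⟩ := mem_image.1 hq
    rw [le u hu v hv l]) ⟨0, by
    intro p hp c
    obtain ⟨u, hu, rfl⟩ := mem_image.1 hp
    have := y1 _ (m u hu).1
    have := x1 _ (m u hu).2.1
    have := z1 _ (m u hu).2.2
    fin_cases c <;> simp [hφ] <;> omega⟩ (by
    rw [card_image_of_injOn fun u hu v hv e => le u hu v hv e.le]; exact hT)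
  simp only [mem_image] at d
  choose u hu e using d
  have e0 : ∀ χ, (ry (u χ).1 : ℤ) = y (st χ 0) := fun χ => congrFun (e χ) 0
  have e1 : ∀ χ, (rx (u χ).2.1 : ℤ) = x (st χ 1) := fun χ => congrFun (e χ) 1
  have e2 : ∀ χ, (rz (u χ).2.2 : ℤ) = z (st χ 2) := fun χ => congrFun (e χ) 2
  choose w hw using fun (c : Fin 3) (I : Finset (Fin k)) => exists_st I c
  have key : ∀ (W : Finset ℂ) (kw : ℂ → ℝ) (r : ℂ → ℕ), Set.InjOn kw W →
      (∀ a ∈ W, ∀ b ∈ W, r a ≤ r b ↔ kw a ≤ kw b) → ∀ a ∈ W, ∀ b ∈ W, (r a : ℤ) = r b → a = b := by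
    intro W kw r i h a ha b hb e
    exact i ha hb (le_antisymm ((h a ha b hb).1 (by omega)) ((h b hb a ha).1 (by omega)))
  refine ⟨fun I => (u (w 0 I)).1, fun I => (u (w 1 I)).2.1, fun I => (u (w 2 I)).2.2,
    fun I J q => a ?_, fun I J q => b ?_, fun I J q => c ?_, fun χ => ?_⟩
  · rw [← hw 0 I, ← hw 0 J, ← e0, ← e0]; exact congrArg (fun t => (ry t : ℤ)) q
  · rw [← hw 1 I, ← hw 1 J, ← e1, ← e1]; exact congrArg (fun t => (rx t : ℤ)) q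
  · rw [← hw 2 I, ← hw 2 J, ← e2, ← e2]; exact congrArg (fun t => (rz t : ℤ)) q
  · convert hu χ using 1
    refine Prod.ext (key Y ky ry iy y2 _ (m _ (hu _)).1 _ (m _ (hu _)).1 ?_) (Prod.ext
      (key X kx rx ix x2 _ (m _ (hu _)).2.1 _ (m _ (hu _)).2.1 ?_)
      (key Z kz rz iz z2 _ (m _ (hu _)).2.2 _ (m _ (hu _)).2.2 ?_))
    · rw [e0, e0, hw]
    · rw [e1, e1, hw]
    · rw [e2, e2, hw]

end Pool.Agent.Lib.MP_990519_co.Big
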