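import Pool.Agent.Lib.MP_990519_co.Big.G2
import Pool.Agent.Lib.MP_990519_co.Big.C2
import Pool.Agent.Lib.MP_990519_co.Big.C3
import Pool.Agent.Lib.MP_990519_co.Big.P3

namespace Pool.Agent.Lib.MP_990519_co.Big

open Finset
open scoped Classical ComplexConjugate

theorem l3_cnt (S C : Finset ℂ) (Q : ℂ → ℂ → Prop) (m : ℕ)
    (h : ∀ y, y ∉ C → ∃ B : Finset ℂ, B.card ≤ m ∧ ∀ x ∈ S, Q y x → x ∈ B) :
    cnt2 S Q ≤ C.card * S.card + S.card * m := by
  choose! B hB hQ using h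
  refine (card_le_card (t := C ×ˢ S ∪ (S \ C).biUnion fun y => (B y).image (Prod.mk y))
    fun u hu => ?_).trans ((card_union_le _ _).trans (add_le_add (card_product _ _).le
      ((card_biUnion_le_card_mul _ _ m fun y hy => card_image_le.trans
        (hB y (mem_sdiff.1 hy).2)).trans (Nat.mul_le_mul_right _ (card_le_card sdiff_subset)))))
  obtain ⟨h1, h2⟩ := mem_filter.1 hu
  obtain ⟨h3, h4⟩ := mem_product.1 h1
  by_cases hc : u.1 ∈ C
  · exact mem_union_left _ (mem_product.2 ⟨hc, h4⟩)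
  · exact mem_union_right _ (mem_biUnion.2 ⟨u.1, mem_sdiff.2 ⟨h3, hc⟩,
      mem_image.2 ⟨u.2, hQ _ hc _ h4 h2, rfl⟩⟩)

/-- groups of consecutive values -/
theorem l3_grp (Y : Finset ℂ) (θ : ℂ → ℝ) (hθ : Set.InjOn θ Y) {g : ℕ} (hg : 0 < g) :
    ∃ G : ℝ → ℕ, Monotone G ∧ (∀ a, G a ≤ Y.card / g) ∧
      ∀ j, (Y.filter fun x => G (θ x) = j).card ≤ g := by
  refine ⟨fun a => (Y.filter fun z => θ z < a).card / g, fun a b hab => Nat.div_le_div_right
    (card_le_card (monotone_filter_right _ fun z _ hz => hz.trans_le hab)),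
    fun a => Nat.div_le_div_right (card_filter_le _ _), fun j => ?_⟩
  have key : ∀ a ∈ Y, ∀ b, θ a < θ b →
      (Y.filter fun z => θ z < θ a).card < (Y.filter fun z => θ z < θ b).card := fun a ha b hab =>
    card_lt_card ⟨monotone_filter_right _ fun z _ hz => hz.trans hab,
      fun hs => lt_irrefl _ (mem_filter.1 (hs (mem_filter.2 ⟨ha, hab⟩))).2⟩
  refine (card_le_card_of_injOn (t := Ico (j * g) (j * g + g))
    (fun x => (Y.filter fun z => θ z < θ x).card) (fun x hx => ?_) fun a ha b hb e => ?_).trans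
    (by simp)
  · obtain ⟨-, rfl⟩ := mem_filter.1 hx
    exact mem_coe.2 (mem_Ico.2 ⟨Nat.div_mul_le_self _ _, Nat.lt_div_mul_add hg⟩)
  · have ha := (mem_filter.1 ha).1
    have hb := (mem_filter.1 hb).1
    exact hθ ha hb (le_antisymm (not_lt.1 fun h => (key b hb a h).ne' e)
      (not_lt.1 fun h => (key a ha b h).ne e))

/-- paper 6.6, the second family -/
theorem fams (D : ℕ) (hD : 0 < D) (γ η : ℝ) (hγ : 0 < γ) (hη : 0 < η) : ∃ F n0 : ℕ,
    ∀ S : Finset ℂ, n0 ≤ S.card → ∀ (p : ℤ → ℂ) (ix : ℂ → ℤ), Enum S p ix →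
      ∃ (c : ℂ → Cv) (fam : ℂ → ℤ × Option (Cv × ℕ)) (key : ℂ → ℝ),
        (∀ x ∈ S, InC S γ x → Popular S γ (c x) ∧ On (c x) x) ∧ FamOK S ix D F fam key ∧
        (∀ x ∈ S, ¬ InC S γ x → ∀ y, TameB S ix D y x → Tame S fam key y x) ∧
        (cnt2 S (fun y x => InC S γ x ∧ x ≠ node (c x) ∧
          (((c x).2.2 = 0 ∧ y = (c x).1) ∨ ¬ Tame S fam key y x)) : ℝ) ≤ η * (S.card : ℝ) ^ 2 := by
  obtain ⟨n0, hW⟩ := pop_card γ hγ
  obtain ⟨K, hK⟩ := exists_nat_ge (2 / γ)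
  obtain ⟨M, hM⟩ := exists_nat_ge (8 * (K + 1) / η)
  obtain ⟨n1, hn1⟩ := exists_nat_gt (10 * K / η)
  refine ⟨D * (K * (M + 1) + 1), max n0 n1, fun S hS p ix e => ?_⟩
  obtain ⟨W, hW, hWK⟩ := hW S (le_of_max_le_left hS)
  have hWK : W.card ≤ K := Nat.cast_le.1 (hWK.trans hK)
  have hn : 10 * K < η * S.card := by
    have := hn1.trans_le (Nat.cast_le.2 (le_of_max_le_right hS))
    rwa [div_lt_iff₀' hη] at this
  have hK0 : (0 : ℝ) ≤ K := K.cast_nonneg
  have h0 : 0 < η * S.card / (8 * (K + 1)) := div_pos (by linarith) (by positivity)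
  obtain ⟨g, hg⟩ : ∃ g, g = ⌈η * S.card / (8 * (K + 1))⌉₊ := ⟨_, rfl⟩
  have g0 : 0 < g := hg ▸ Nat.ceil_pos.2 h0
  have g1 : η * S.card ≤ g * (8 * (K + 1)) := (div_le_iff₀ (by positivity)).1 (hg ▸ Nat.le_ceil _)
  have g2 : (g - 1) * (8 * (K + 1)) < η * S.card := (lt_div_iff₀ (by positivity)).1
    (sub_lt_iff_lt_add.2 (hg ▸ Nat.ceil_lt_add_one h0.le))
  have g3 : S.card ≤ g * M := by
    rw [div_le_iff₀ hη] at hM
    have := g1.trans (mul_le_mul_of_nonneg_left hM g.cast_nonneg)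
    exact_mod_cast le_of_mul_le_mul_left (this.trans_eq (show _ = η * (g * M) by ring)) hη
  have h1 : ∀ x, ∃ (w : Cv) (a : ℝ), InC S γ x → Popular S γ w ∧ (-Real.pi < a ∧ a ≤ Real.pi) ∧
      x = zc w (Complex.exp (a * Complex.I)) := fun x => by
    by_cases hx : InC S γ x
    · obtain ⟨w, hw, t, ht, rfl⟩ := hx
      refine ⟨w, t.arg, fun _ => ⟨hw, ⟨t.neg_pi_lt_arg, t.arg_le_pi⟩, congrArg _ ?_⟩⟩
      simpa [ht] using t.norm_mul_exp_arg_mul_I.symm
    · exact ⟨0, 0, fun h => absurd h hx⟩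
  choose c θ hc using h1
  have hi : ∀ a b, InC S γ a → InC S γ b → c a = c b → θ a = θ b → a = b := fun a b ha hb e1 e2 => by
    rw [(hc a ha).2.2, e1, e2, ← (hc b hb).2.2]
  obtain ⟨Y, hY⟩ : ∃ Y : Cv → Finset ℂ, ∀ w x, x ∈ Y w ↔ x ∈ S ∧ InC S γ x ∧ c x = w :=
    ⟨fun w => S.filter fun x => InC S γ x ∧ c x = w, fun _ _ => mem_filter⟩
  choose G G1 G2 G3 using fun w => l3_grp (Y w) θ (fun a ha b hb => hi a b ((hY w a).1 ha).2.1
    ((hY w b).1 hb).2.1 (((hY w a).1 ha).2.2.trans ((hY w b).1 hb).2.2.symm)) g0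
  obtain ⟨fam, hf⟩ : ∃ fam : ℂ → ℤ × Option (Cv × ℕ), ∀ x, fam x =
    (blk S ix D x, if InC S γ x then some (c x, G (c x) (θ x)) else none) := ⟨_, fun _ => rfl⟩
  obtain ⟨key, hk⟩ : ∃ key : ℂ → ℝ, ∀ x, key x = if InC S γ x then θ x else ix x :=
    ⟨_, fun _ => rfl⟩
  have f1 : ∀ a x, fam a = fam x → blk S ix D a = blk S ix D x := fun a x h => by
    rw [hf, hf] at h
    exact congrArg Prod.fst h
  have f2 : ∀ a x, fam a = fam x → ¬ InC S γ x → key a = ix a := fun a x h hx => by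
    rw [hf, hf, if_neg hx] at h
    rw [hk, if_neg fun ha => by simp [ha] at h]
  have f3 : ∀ a x, fam a = fam x → InC S γ x →
      InC S γ a ∧ key a = θ a ∧ c a = c x ∧ G (c x) (θ a) = G (c x) (θ x) := fun a x h hx => by
    rw [hf, hf, if_pos hx] at h
    have ha : InC S γ a := by_contra fun ha => by simp [ha] at h
    simp only [if_pos ha, Prod.mk.injEq, Option.some.injEq] at h
    exact ⟨ha, by rw [hk, if_pos ha], h.2.1, h.2.1 ▸ h.2.2⟩
  refine ⟨c, fam, key, fun x _ hx => ⟨(hc x hx).1, _, Complex.norm_exp_ofReal_mul_I _,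
    (hc x hx).2.2⟩, ⟨?_, fun a _ b _ => f1 a b, fun a ha b hb h h' => ?_⟩,
    fun x _ hx y h => h.imp (fun h a ha b hb e1 e2 e3 => h a ha b hb (f1 _ _ e1) (f1 _ _ e2)
      (by rwa [f2 a x e1 hx, f2 b x e2 hx] at e3)) fun h a ha b hb e1 e2 e3 =>
      h a ha b hb (f1 _ _ e1) (f1 _ _ e2) (by rwa [f2 a x e1 hx, f2 b x e2 hx] at e3), ?_⟩
  · refine (card_le_card (t := S.image (blk S ix D) ×ˢ insertNone (W ×ˢ range (M + 1)))
      fun u hu => ?_).trans ?_
    · obtain ⟨x, hx, rfl⟩ := (@mem_image _ _ (_) _ _ _).1 hu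
      rw [hf]
      refine mem_product.2 ⟨mem_image_of_mem _ hx, mem_insertNone.2 fun u hu => ?_⟩
      by_cases h : InC S γ x
      · obtain rfl : _ = u := by simpa only [if_pos h, Option.mem_def, Option.some.injEq] using hu
        exact mem_product.2 ⟨(hW _).2 (hc x h).1, mem_range.2 (Nat.lt_succ_of_le ((G2 _ _).trans
          (Nat.div_le_of_le_mul ((card_le_card fun z hz => ((hY _ z).1 hz).1).trans g3))))⟩
      · simp [h] at hu
    · rw [card_product, card_insertNone, card_product, card_range]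
      gcongr
      exact blk_image_card e hD
  · by_cases hb' : InC S γ b
    · obtain ⟨h1, h2, h3, -⟩ := f3 a b h hb'
      exact hi a b h1 hb' h3 (h2.symm.trans (h'.trans (f3 b b rfl hb').2.1))
    · rw [f2 a b h hb', f2 b b rfl hb'] at h'
      exact e.ix_inj ha hb (Int.cast_injective h')
  refine (Nat.cast_le.2 (l3_cnt S (W.image Prod.fst) _ (K * (4 * g)) fun y hy => ?_)).trans ?_
  · have hy' : ∀ w ∈ W, y ≠ w.1 := fun w hw e => hy (mem_image.2 ⟨w, hw, e.symm⟩)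
    have h2 : ∀ w ∈ W, ∃ J : Finset ℕ, J.card ≤ 4 ∧
        ∀ x ∈ Y w, ¬ Tame S fam key y x → G w (θ x) ∈ J := fun w hw => by
      refine ⟨_, crit ((hW w).1 hw).1 (Or.inl (hy' w hw)) ((Y w).image θ) (fun a ha => ?_) (G w)
        fun a _ b _ h => G1 w h, fun x hx ht => mem_filter.2
          ⟨mem_image_of_mem _ (mem_image_of_mem _ hx), fun h => ht ?_⟩⟩
      · obtain ⟨x, hx, rfl⟩ := mem_image.1 ha
        exact (hc x ((hY w x).1 hx).2.1).2.1
      obtain ⟨-, h3, rfl⟩ := (hY w x).1 hx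
      have h4 : ∀ a ∈ S, fam a = fam x → θ a ∈ (Y (c x)).image θ ∧ G (c x) (θ a) = G (c x) (θ x) ∧
          key a = θ a ∧ zc (c x) (Complex.exp (θ a * Complex.I)) = a := fun a ha e1 => by
        obtain ⟨b1, b2, b3, b4⟩ := f3 a x e1 h3
        exact ⟨mem_image_of_mem _ ((hY _ a).2 ⟨ha, b1, b3⟩), b4, b2, b3 ▸ (hc a b1).2.2.symm⟩
      refine h.imp (fun h a ha b hb e1 e2 e3 => ?_) fun h a ha b hb e1 e2 e3 => ?_ <;>
      · obtain ⟨a1, a2, a3, a4⟩ := h4 a ha e1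
        obtain ⟨b1, b2, b3, b4⟩ := h4 b hb e2
        have := h _ a1 _ b1 a2 b2 (a3 ▸ b3 ▸ e3)
        rwa [a4, b4] at this
    choose! J J1 J2 using h2
    refine ⟨W.biUnion fun w => (J w).biUnion fun j => (Y w).filter fun x => G w (θ x) = j,
      (card_biUnion_le_card_mul _ _ (4 * g) fun w hw => (card_biUnion_le_card_mul _ _ g
        fun j _ => G3 w j).trans (Nat.mul_le_mul_right _ (J1 w hw))).trans
        (Nat.mul_le_mul_right _ hWK), fun x hx ⟨h3, _, h4⟩ => ?_⟩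
    have h5 := (hW _).2 (hc x h3).1
    have h6 := (hY _ x).2 ⟨hx, h3, rfl⟩
    exact mem_biUnion.2 ⟨_, h5, mem_biUnion.2 ⟨_, J2 _ h5 x h6
      (h4.resolve_left fun h => hy' _ h5 h.2), mem_filter.2 ⟨h6, rfl⟩⟩⟩
  · have h2 : ((W.image Prod.fst).card : ℝ) ≤ K := Nat.cast_le.2 (card_image_le.trans hWK)
    have h3 : (1 : ℝ) ≤ g := Nat.one_le_cast.2 g0
    have h4 : (0 : ℝ) ≤ S.card := S.card.cast_nonneg
    push_cast
    nlinarith [mul_le_mul_of_nonneg_right h2 h4,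
      mul_le_mul_of_nonneg_left (show K + K * (4 * g) ≤ η * S.card by nlinarith) h4]

end Pool.Agent.Lib.MP_990519_co.Big
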