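import Pool.Agent.Lib.MP_990519_co.Big.Defs

namespace Pool.Agent.Lib.MP_990519_co.Big

open Finset
open scoped Classical ComplexConjugate

/-- a symmetric irreflexive relation that meets every triple has at least `i - 2` edges -/
theorem edges_ge (K : Finset ℂ) (H : ℂ → ℂ → Prop) (hs : ∀ a b, H a b → H b a)
    (h3 : ∀ a ∈ K, ∀ b ∈ K, ∀ c ∈ K, a ≠ b → a ≠ c → b ≠ c → H a b ∨ H a c ∨ H b c) :
    2 * K.card ≤ ((K ×ˢ K).filter (fun u => u.1 ≠ u.2 ∧ H u.1 u.2)).card + 4 := by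
  induction K using Finset.strongInduction with
  | H K ih =>
  by_cases hK : K.card ≤ 2
  · omega
  obtain ⟨a, b, c, ha, hb, hc, hab, hac, hbc⟩ := Finset.two_lt_card_iff.1 (by omega : 2 < K.card)
  have key : ∃ x ∈ K, ∃ z ∈ K, x ≠ z ∧ H x z := by
    rcases h3 a ha b hb c hc hab hac hbc with h | h | h
    · exact ⟨a, ha, b, hb, hab, h⟩
    · exact ⟨a, ha, c, hc, hac, h⟩
    · exact ⟨b, hb, c, hc, hbc, h⟩
  obtain ⟨x, hx, z, hz, hxz, hH⟩ := key
  have h1 := ih (K.erase x) (Finset.erase_ssubset hx) (fun a ha b hb c hc =>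
    h3 a (mem_of_mem_erase ha) b (mem_of_mem_erase hb) c (mem_of_mem_erase hc))
  rw [card_erase_of_mem hx] at h1
  have hsub : insert (x, z) (insert (z, x)
      (((K.erase x) ×ˢ (K.erase x)).filter (fun u => u.1 ≠ u.2 ∧ H u.1 u.2))) ⊆
      (K ×ˢ K).filter (fun u => u.1 ≠ u.2 ∧ H u.1 u.2) := by
    intro u hu
    simp only [mem_insert, mem_filter, mem_product, mem_erase] at hu ⊢
    rcases hu with rfl | rfl | hu
    · exact ⟨⟨hx, hz⟩, hxz, hH⟩
    · exact ⟨⟨hz, hx⟩, hxz.symm, hs _ _ hH⟩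
    · exact ⟨⟨hu.1.1.2, hu.1.2.2⟩, hu.2⟩
  have h2 := card_le_card hsub
  rw [card_insert_of_notMem, card_insert_of_notMem] at h2
  · omega
  · simp
  · simp [hxz]

/-- the class inequality -/
theorem l4_class (K : Finset ℂ) (I P : ℂ → Prop) (H : ℂ → ℂ → Prop) (hs : ∀ a b, H a b → H b a)
    (h1 : ∀ x ∈ K, ∀ z ∈ K, x ≠ z → ¬ I x → ¬ I z → P x)
    (h2 : ∀ x ∈ K, ∀ z ∈ K, ∀ v ∈ K, x ≠ z → x ≠ v → ¬ I x → ¬ I z → ¬ I v → z = v)
    (h3 : ∀ x ∈ K, ∀ z ∈ K, I x → ¬ I z → H x z)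
    (h4 : ∀ a ∈ K, ∀ b ∈ K, ∀ c ∈ K, I a → I b → I c → a ≠ b → a ≠ c → b ≠ c →
      H a b ∨ H a c ∨ H b c) :
    4 * K.card ≤ 4 + 2 * (K.filter P).card + 2 * (K.filter I).card +
      ((K ×ˢ K).filter (fun u => u.1 ≠ u.2 ∧ H u.1 u.2)).card := by
  have hsum : (K.filter I).card + (K.filter (fun x => ¬ I x)).card = K.card :=
    Finset.card_filter_add_card_filter_not _
  by_cases h0 : (K.filter (fun x => ¬ I x)).card = 0
  · have hall : ∀ a ∈ K, I a := by
      intro a ha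
      by_contra hn
      have : a ∈ K.filter (fun x => ¬ I x) := mem_filter.2 ⟨ha, hn⟩
      rw [card_eq_zero.1 h0] at this
      simp at this
    have := edges_ge K H hs (fun a ha b hb c hc => h4 a ha b hb c hc (hall a ha) (hall b hb)
      (hall c hc))
    omega
  obtain ⟨z, hz⟩ := card_pos.1 (Nat.pos_of_ne_zero h0)
  obtain ⟨hzK, hzI⟩ := mem_filter.1 hz
  have hE : 2 * (K.filter I).card ≤
      ((K ×ˢ K).filter (fun u => u.1 ≠ u.2 ∧ H u.1 u.2)).card := by
    have hsub : ((K.filter I).image (fun x => (x, z))) ∪ ((K.filter I).image (fun x => (z, x))) ⊆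
        (K ×ˢ K).filter (fun u => u.1 ≠ u.2 ∧ H u.1 u.2) := by
      intro u hu
      simp only [mem_union, mem_image, mem_filter, mem_product] at hu ⊢
      rcases hu with ⟨x, ⟨hx, hI⟩, rfl⟩ | ⟨x, ⟨hx, hI⟩, rfl⟩
      · exact ⟨⟨hx, hzK⟩, fun h => hzI (by simpa [← (show x = z from h)] using hI),
          h3 x hx z hzK hI hzI⟩
      · exact ⟨⟨hzK, hx⟩, fun h => hzI (by simpa [(show z = x from h)] using hI),
          hs _ _ (h3 x hx z hzK hI hzI)⟩
    have h5 := card_le_card hsub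
    rw [card_union_of_disjoint, card_image_of_injective _ (fun a b h => (Prod.ext_iff.1 h).1),
      card_image_of_injective _ (fun a b h => (Prod.ext_iff.1 h).2)] at h5
    · omega
    · rw [disjoint_left]
      intro u hu hv
      simp only [mem_image, mem_filter] at hu hv
      obtain ⟨x, ⟨_, hI⟩, rfl⟩ := hu
      obtain ⟨x', _, h⟩ := hv
      exact hzI (by rw [show z = x from (Prod.ext_iff.1 h).1]; exact hI)
  have ht : (K.filter (fun x => ¬ I x)).card ≤ 2 := by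
    by_contra hh
    obtain ⟨a, b, c, ha, hb, hc, hab, hac, hbc⟩ :=
      Finset.two_lt_card_iff.1 (by omega : 2 < (K.filter (fun x => ¬ I x)).card)
    rw [mem_filter] at ha hb hc
    exact hbc (h2 a ha.1 b hb.1 c hc.1 hab hac ha.2 hb.2 hc.2)
  by_cases h1' : (K.filter (fun x => ¬ I x)).card = 1
  · omega
  have hP : (K.filter (fun x => ¬ I x)).card ≤ (K.filter P).card := by
    apply card_le_card
    intro x hx
    obtain ⟨v, hv, hvx⟩ := exists_mem_ne (by omega : 1 < (K.filter (fun x => ¬ I x)).card) x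
    rw [mem_filter] at hx hv ⊢
    exact ⟨hx.1, h1 x hx.1 v hv.1 hvx.symm hx.2 hv.2⟩
  omega

/-- sum of a class inequality over the fibres of a map -/
theorem l4_fib (R : Finset ℂ) (f : ℂ → ℝ) (I P : ℂ → Prop) (H : ℂ → ℂ → Prop)
    (h : ∀ r, 4 * (R.filter (fun x => f x = r)).card ≤ 4 +
      2 * ((R.filter (fun x => f x = r)).filter P).card +
      2 * ((R.filter (fun x => f x = r)).filter I).card +
      (((R.filter (fun x => f x = r)) ×ˢ (R.filter (fun x => f x = r))).filter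
        (fun u => u.1 ≠ u.2 ∧ H u.1 u.2)).card) :
    4 * R.card ≤ 4 * (R.image f).card + 2 * (R.filter P).card + 2 * (R.filter I).card +
      ((R ×ˢ R).filter (fun u => f u.1 = f u.2 ∧ u.1 ≠ u.2 ∧ H u.1 u.2)).card := by
  have e1 : R.card = ∑ r ∈ R.image f, (R.filter (fun x => f x = r)).card :=
    card_eq_sum_card_fiberwise (fun x hx => mem_image_of_mem f hx)
  have e2 : ∀ Q : ℂ → Prop, (R.filter Q).card =
      ∑ r ∈ R.image f, ((R.filter (fun x => f x = r)).filter Q).card := by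
    intro Q
    rw [card_eq_sum_card_fiberwise (f := f) (t := R.image f)
      (fun x hx => mem_image_of_mem f (mem_filter.1 hx).1)]
    refine sum_congr rfl fun r _ => ?_
    rw [filter_comm]
  have e3 : ((R ×ˢ R).filter (fun u => f u.1 = f u.2 ∧ u.1 ≠ u.2 ∧ H u.1 u.2)).card =
      ∑ r ∈ R.image f, (((R.filter (fun x => f x = r)) ×ˢ (R.filter (fun x => f x = r))).filter
        (fun u => u.1 ≠ u.2 ∧ H u.1 u.2)).card := by
    rw [card_eq_sum_card_fiberwise (f := fun u : ℂ × ℂ => f u.1) (t := R.image f)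
      (fun u hu => mem_image_of_mem f (mem_product.1 (mem_filter.1 hu).1).1)]
    refine sum_congr rfl fun r _ => ?_
    congr 1
    ext u
    simp only [mem_filter, mem_product]
    constructor
    · rintro ⟨⟨⟨a, b⟩, c, d⟩, e⟩
      exact ⟨⟨⟨a, e⟩, b, c ▸ e⟩, d⟩
    · rintro ⟨⟨⟨a, e⟩, b, c⟩, d⟩
      exact ⟨⟨⟨a, b⟩, e.trans c.symm, d⟩, e⟩
  have e4 : 4 * (R.image f).card = ∑ _r ∈ R.image f, 4 := by simp [mul_comm]
  rw [e3, e2 P, e2 I, e4]
  conv_lhs => rw [e1]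
  simp only [mul_sum, ← sum_add_distrib]
  exact sum_le_sum fun r _ => h r

theorem l4_cnt2 (S : Finset ℂ) (Q : ℂ → ℂ → Prop) :
    cnt2 S Q = ∑ y ∈ S, (S.filter (fun x => Q y x)).card := by
  unfold cnt2
  simp only [card_filter]
  rw [sum_product]

theorem l4_cnt2' (S : Finset ℂ) (Q : ℂ → ℂ → Prop) :
    cnt2 S Q = ∑ x ∈ S, (S.filter (fun y => Q y x)).card := by
  unfold cnt2
  simp only [card_filter]
  rw [sum_product_right]

/-- paper 6.6, the count.  A leg `(y, x)` that is not removed is irregular if `U x ∧ N x y`, else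
tame.  Let `H y x z` say: `x ≠ z`, both legs kept, equal length, and
`(U x ∧ N x y ∧ ¬ N x z) ∨ (U z ∧ N z y ∧ ¬ N z x)`.  For a nonempty class `K` of kept legs at `y`
with `i` irregular members: `4 (|K| - 1) ≤ 2 (number of x ∈ K with Pr y x) + 2 i + (number of
ordered H-pairs in K)`.  For fixed `x ≠ z` the number of `y` with `H y x z` is at most
`[U x ∧ ¬ N x z] + [U z ∧ ¬ N z x] - [Sm x z]`.  The irregular legs are at most
`∑ x ∈ U, |N x|`. -/
theorem class_count (S : Finset ℂ) (rem N Pr Sm : ℂ → ℂ → Prop) (U : ℂ → Prop)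
    (h0 : ∀ x ∈ S, ¬ N x x)
    (h1 : ∀ y ∈ S, ∀ x ∈ S, ∀ z ∈ S, x ≠ z → dist y x = dist y z → ¬ rem y x → ¬ rem y z →
      ¬ (U x ∧ N x y) → ¬ (U z ∧ N z y) → Pr y x)
    (h2 : ∀ y ∈ S, ∀ x ∈ S, ∀ z ∈ S, ∀ v ∈ S, x ≠ z → x ≠ v → dist y x = dist y z →
      dist y x = dist y v → ¬ rem y x → ¬ rem y z → ¬ rem y v → ¬ (U x ∧ N x y) →
      ¬ (U z ∧ N z y) → ¬ (U v ∧ N v y) → z = v)
    (h3 : ∀ y ∈ S, ∀ x ∈ S, ∀ z ∈ S, x ≠ z → dist y x = dist y z → ¬ rem y x → ¬ rem y z →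
      U x → N x y → ¬ (U z ∧ N z y) → ¬ N x z)
    (h4 : ∀ y ∈ S, ∀ x ∈ S, ∀ z ∈ S, ∀ v ∈ S, x ≠ z → x ≠ v → z ≠ v → dist y x = dist y z →
      dist y x = dist y v → ¬ rem y x → ¬ rem y z → ¬ rem y v →
      ¬ (N x z ∧ N z x ∧ N x v ∧ N v x ∧ N z v ∧ N v z))
    (h5 : ∀ x ∈ S, ∀ z ∈ S, ∀ y ∈ S, ∀ y' ∈ S, x ≠ z → ¬ N x z → N x y → N x y' →
      dist y x = dist y z → dist y' x = dist y' z → y = y')
    (h6 : ∀ x ∈ S, ∀ z ∈ S, Sm x z → x ≠ z ∧ U x ∧ U z ∧ ¬ N x z ∧ ¬ N z x ∧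
      ∀ y ∈ S, ∀ y' ∈ S, (N x y ∨ N z y) → (N x y' ∨ N z y') → dist y x = dist y z →
        dist y' x = dist y' z → y = y') :
    4 * (S.card * (S.card - 1)) + cnt2 S Sm ≤
      4 * Tsum S + 4 * cnt2 S rem + 2 * cnt2 S Pr + 2 * ((S.filter U).card * (S.card - 1)) := by
  obtain ⟨Ir, hIr⟩ : ∃ Ir : ℂ → ℂ → Prop, ∀ y x, Ir y x ↔ U x ∧ N x y := ⟨_, fun _ _ => Iff.rfl⟩
  obtain ⟨G, hG⟩ : ∃ G : ℂ → ℂ → ℂ → Prop, ∀ y x z, G y x z ↔
      (U x ∧ N x y ∧ ¬ N x z) ∨ (U z ∧ N z y ∧ ¬ N z x) := ⟨_, fun _ _ _ => Iff.rfl⟩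
  obtain ⟨HH, hHH⟩ : ∃ HH : ℂ → ℂ → ℂ → Prop, ∀ y x z, HH y x z ↔
      dist y x = dist y z ∧ x ≠ z ∧ G y x z := ⟨_, fun _ _ _ => Iff.rfl⟩
  obtain ⟨B, hB0⟩ : ∃ B : ℂ → ℂ → Prop, ∀ x z, B x z ↔ U x ∧ z ≠ x ∧ ¬ N x z :=
    ⟨_, fun _ _ => Iff.rfl⟩
  have hA : ∀ y ∈ S, 4 * (S.card - 1) ≤ 4 * tcount S y + 4 * (S.filter (fun x => rem y x)).card +
      2 * (S.filter (fun x => Pr y x)).card + 2 * (S.filter (fun x => Ir y x)).card +
      ((S ×ˢ S).filter (fun u => HH y u.1 u.2)).card := by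
    intro y hy
    obtain ⟨R, hR⟩ : ∃ R, R = (S.erase y).filter (fun x => ¬ rem y x) := ⟨_, rfl⟩
    have hRS : ∀ x ∈ R, x ∈ S ∧ ¬ rem y x := fun x hx => by
      rw [hR] at hx
      exact ⟨mem_of_mem_erase (mem_filter.1 hx).1, (mem_filter.1 hx).2⟩
    have hRS' : R ⊆ S := fun x hx => (hRS x hx).1
    have k1 := l4_fib R (dist y) (Ir y) (Pr y) (G y) (by
        intro r
        have hK : ∀ x ∈ R.filter (fun x => dist y x = r), x ∈ S ∧ ¬ rem y x ∧ dist y x = r :=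
          fun x hx => ⟨(hRS x (mem_filter.1 hx).1).1, (hRS x (mem_filter.1 hx).1).2,
            (mem_filter.1 hx).2⟩
        refine l4_class _ (Ir y) (Pr y) (G y) (fun a b h => (hG _ _ _).2 ((hG _ _ _).1 h).symm)
          ?_ ?_ ?_ ?_
        · intro x hx z hz hxz i1 i2
          obtain ⟨a1, a2, a3⟩ := hK x hx
          obtain ⟨b1, b2, b3⟩ := hK z hz
          rw [hIr] at i1 i2
          exact h1 y hy x a1 z b1 hxz (a3.trans b3.symm) a2 b2 i1 i2
        · intro x hx z hz v hv hxz hxv i1 i2 i3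
          obtain ⟨a1, a2, a3⟩ := hK x hx
          obtain ⟨b1, b2, b3⟩ := hK z hz
          obtain ⟨c1, c2, c3⟩ := hK v hv
          rw [hIr] at i1 i2 i3
          exact h2 y hy x a1 z b1 v c1 hxz hxv (a3.trans b3.symm) (a3.trans c3.symm) a2 b2 c2
            i1 i2 i3
        · intro x hx z hz i1 i2
          obtain ⟨a1, a2, a3⟩ := hK x hx
          obtain ⟨b1, b2, b3⟩ := hK z hz
          rw [hIr] at i1 i2
          exact (hG _ _ _).2 (Or.inl ⟨i1.1, i1.2, h3 y hy x a1 z b1 (fun h => i2 (h ▸ i1))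
            (a3.trans b3.symm) a2 b2 i1.1 i1.2 i2⟩)
        · intro x hx z hz v hv i1 i2 i3 hxz hxv hzv
          obtain ⟨a1, a2, a3⟩ := hK x hx
          obtain ⟨b1, b2, b3⟩ := hK z hz
          obtain ⟨c1, c2, c3⟩ := hK v hv
          rw [hIr] at i1 i2 i3
          have := h4 y hy x a1 z b1 v c1 hxz hxv hzv (a3.trans b3.symm) (a3.trans c3.symm) a2 b2 c2
          by_contra hh
          apply this
          simp only [hG, i1.1, i1.2, i2.1, i2.2, i3.1, i3.2, true_and, not_or, not_not] at hh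
          exact ⟨hh.1.1, hh.1.2, hh.2.1.1, hh.2.1.2, hh.2.2.1, hh.2.2.2⟩)
    have k2 : (R.image (dist y)).card ≤ tcount S y := by
      rw [hR]
      exact card_le_card (image_subset_image (filter_subset _ _))
    have k3 : (R.filter (Pr y)).card ≤ (S.filter (fun x => Pr y x)).card :=
      card_le_card (filter_subset_filter _ hRS')
    have k4 : (R.filter (Ir y)).card ≤ (S.filter (fun x => Ir y x)).card :=
      card_le_card (filter_subset_filter _ hRS')
    have k5 : ((R ×ˢ R).filter (fun u => dist y u.1 = dist y u.2 ∧ u.1 ≠ u.2 ∧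
        G y u.1 u.2)).card ≤ ((S ×ˢ S).filter (fun u => HH y u.1 u.2)).card := by
      apply card_le_card
      intro u hu
      simp only [mem_filter, mem_product] at hu
      exact mem_filter.2 ⟨mem_product.2 ⟨hRS' hu.1.1, hRS' hu.1.2⟩, (hHH _ _ _).2 hu.2⟩
    have k6 : S.card - 1 ≤ R.card + (S.filter (fun x => rem y x)).card := by
      rw [← card_erase_of_mem hy, ← card_filter_add_card_filter_not (s := S.erase y)
        (fun x => rem y x), add_comm, hR]
      exact Nat.add_le_add_left (card_le_card (filter_subset_filter _ (erase_subset _ _))) _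
    omega
  have hB : ∀ x ∈ S, ∀ z ∈ S, (S.filter (fun y => HH y x z)).card + (if Sm x z then 1 else 0) ≤
      (if B x z then 1 else 0) + (if B z x then 1 else 0) := by
    intro x hx z hz
    by_cases hS : Sm x z
    · obtain ⟨a1, a2, a3, a4, a5, a6⟩ := h6 x hx z hz hS
      have : (S.filter (fun y => HH y x z)).card ≤ 1 := by
        rw [card_le_one]
        intro y hy y' hy'
        rw [mem_filter, hHH, hG] at hy hy'
        exact a6 y hy.1 y' hy'.1 (hy.2.2.2.imp (fun h => h.2.1) (fun h => h.2.1))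
          (hy'.2.2.2.imp (fun h => h.2.1) (fun h => h.2.1)) hy.2.1 hy'.2.1
      rw [if_pos hS, if_pos ((hB0 _ _).2 ⟨a2, a1.symm, a4⟩), if_pos ((hB0 _ _).2 ⟨a3, a1, a5⟩)]
      omega
    · rw [if_neg hS, add_zero]
      have one : ∀ x ∈ S, ∀ z ∈ S, (S.filter (fun y => x ≠ z ∧ dist y x = dist y z ∧
          (U x ∧ N x y ∧ ¬ N x z))).card ≤ if B x z then 1 else 0 := by
        intro x hx z hz
        split_ifs with hc
        · rw [card_le_one]
          intro y hy y' hy'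
          rw [mem_filter] at hy hy'
          exact h5 x hx z hz y hy.1 y' hy'.1 hy.2.1 hy.2.2.2.2.2 hy.2.2.2.2.1 hy'.2.2.2.2.1 hy.2.2.1
            hy'.2.2.1
        · rw [Nat.le_zero, card_eq_zero, filter_eq_empty_iff]
          intro y _ hy
          exact hc ((hB0 _ _).2 ⟨hy.2.2.1, hy.1.symm, hy.2.2.2.2⟩)
      refine le_trans ?_ (Nat.add_le_add (one x hx z hz) (one z hz x hx))
      refine le_trans (card_le_card ?_) (card_union_le _ _)
      intro y hy
      simp only [mem_filter, mem_union, hHH, hG] at hy ⊢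
      rcases hy with ⟨b1, b3, b2, b4 | b4⟩
      · exact Or.inl ⟨b1, b2, b3, b4⟩
      · exact Or.inr ⟨b1, b2.symm, b3.symm, b4⟩
  have sA := sum_le_sum hA
  simp only [sum_add_distrib, ← mul_sum, sum_const, smul_eq_mul] at sA
  rw [← l4_cnt2 S rem, ← l4_cnt2 S Pr, ← l4_cnt2 S Ir] at sA
  have sB := sum_le_sum (fun x hx => sum_le_sum (hB x hx))
  simp only [sum_add_distrib] at sB
  have t1 : ∑ x ∈ S, ∑ z ∈ S, (S.filter (fun y => HH y x z)).card =
      ∑ y ∈ S, ((S ×ˢ S).filter (fun u => HH y u.1 u.2)).card := by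
    simp only [card_filter, sum_product]
    refine Eq.trans (sum_congr rfl fun x _ => sum_comm) sum_comm
  have t2 : (∑ x ∈ S, ∑ z ∈ S, if Sm x z then 1 else 0) = cnt2 S Sm := by
    rw [l4_cnt2]; simp only [card_filter]
  have t3 : (∑ x ∈ S, ∑ z ∈ S, if B z x then 1 else 0) =
      ∑ x ∈ S, ∑ z ∈ S, if B x z then 1 else 0 := sum_comm
  have t4 : cnt2 S Ir + (∑ x ∈ S, ∑ z ∈ S, if B x z then 1 else 0) ≤
      (S.filter U).card * (S.card - 1) := by
    rw [l4_cnt2', ← sum_add_distrib, card_filter, sum_mul]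
    refine sum_le_sum fun x hx => ?_
    rw [← card_filter]
    by_cases hU : U x
    · rw [if_pos hU, one_mul, ← card_erase_of_mem hx, ← card_union_of_disjoint]
      · apply card_le_card
        intro y hy
        simp only [mem_union, mem_filter, mem_erase, hIr, hB0] at hy ⊢
        rcases hy with h | h
        · exact ⟨fun e => h0 x hx (e ▸ h.2.2), h.1⟩
        · exact ⟨h.2.2.1, h.1⟩
      · rw [disjoint_filter]
        intro y _ a b
        exact ((hB0 _ _).1 b).2.2 ((hIr _ _).1 a).2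
    · simp [hU, hIr, hB0]
  rw [t1, t2, t3] at sB
  have t5 : Tsum S = ∑ y ∈ S, tcount S y := rfl
  omega

end Pool.Agent.Lib.MP_990519_co.Big
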