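import Pool.Agent.Lib.MP_990519_co.Big.L4
import Pool.Agent.Lib.MP_990519_co.Big.G2b
import Pool.Agent.Lib.MP_990519_co.Big.C2

namespace Pool.Agent.Lib.MP_990519_co.Big

open Finset
open scoped Classical ComplexConjugate

section

variable {S : Finset ℂ} {p : ℤ → ℂ} {ix : ℂ → ℤ} {D D' : ℕ} {γ γ' om : ℝ} {c : ℂ → Cv}
  {φ : Type} {fam : ℂ → φ} {key : ℂ → ℝ}

/-- a kept leg that is not irregular -/
theorem l5a_cases (hU : ∀ x ∈ S, ¬ InC S γ x → ∀ y, TameB S ix D y x → Tame S fam key y x)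
    {y x : ℂ} (hx : x ∈ S) (hb : ¬ BadLeg S p ix D D' γ γ' om c fam key y x)
    (hi : ¬ (¬ InC S γ x ∧ NN S ix D' x y)) :
    Tame S fam key y x ∧ ((¬ InC S γ x ∧ TameB S ix D y x) ∨
      (InC0 S γ γ' c x ∧ (y ≠ (c x).1 ∨ (c x).2.2 ≠ 0))) := by
  simp only [BadLeg, not_or] at hb
  obtain ⟨b1, b2, b3, b4, -⟩ := hb
  by_cases hC : InC S γ x
  · have h0 : InC0 S γ γ' c x := by
      by_contra h
      exact b2 ⟨hC, h⟩
    refine ⟨?_, Or.inr ⟨h0, ?_⟩⟩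
    · by_contra h
      exact b3 ⟨hC, h0.2.1, Or.inr h⟩
    · by_contra h
      rw [not_or, not_not, not_not] at h
      exact b3 ⟨hC, h0.2.1, Or.inl ⟨h.2, h.1⟩⟩
  · have ht : TameB S ix D y x := by
      by_contra h
      exact b4 ⟨⟨b1, h⟩, fun h' => hi ⟨hC, h'⟩⟩
    exact ⟨hU x hx hC y ht, Or.inl ⟨hC, ht⟩⟩

theorem l5a_sep {y x z : ℂ} (hz : z ∈ S) (hxz : x ≠ z) (hd : dist y x = dist y z)
    (hbx : ¬ BadLeg S p ix D D' γ γ' om c fam key y x)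
    (hbz : ¬ BadLeg S p ix D D' γ γ' om c fam key y z) : Sep S ix D y x z := by
  simp only [BadLeg, not_or] at hbx hbz
  exact ⟨hbx.1, hbz.1, fun h => hbx.2.2.2.2.2.1 ⟨z, hz, hxz.symm, h.symm, hd⟩⟩

theorem l5a_inC {y x z : ℂ} (h : GGood S γ y x z) : InC S γ x := by
  obtain ⟨w, hw, hg⟩ := h
  exact ⟨w, hw, hg.on.1⟩

/-- a good tie with a member in `InC0` is good for the curve of that member -/
theorem l5a_good (hc : ∀ x ∈ S, InC S γ x → Popular S γ (c x) ∧ On (c x) x) {y x z : ℂ}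
    (hz : z ∈ S) (h0 : InC0 S γ γ' c z) (h : GGood S γ' y x z) :
    Good (c z) y x z ∧ InC S γ x := by
  obtain ⟨w, hw, hg⟩ := h
  obtain rfl := h0.2.2 w hw hg.on.2
  exact ⟨hg, _, (hc z hz h0.1).1, hg.on.1⟩

theorem l5a_two (hc : ∀ x ∈ S, InC S γ x → Popular S γ (c x) ∧ On (c x) x)
    (hU : ∀ x ∈ S, ¬ InC S γ x → ∀ y, TameB S ix D y x → Tame S fam key y x)
    {y x z : ℂ} (hx : x ∈ S) (hz : z ∈ S) (hxz : x ≠ z) (hd : dist y x = dist y z)
    (hbx : ¬ BadLeg S p ix D D' γ γ' om c fam key y x)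
    (hbz : ¬ BadLeg S p ix D D' γ γ' om c fam key y z)
    (i1 : ¬ (¬ InC S γ x ∧ NN S ix D' x y)) (i2 : ¬ (¬ InC S γ z ∧ NN S ix D' z y)) :
    InC0 S γ γ' c x ∧ InC0 S γ γ' c z ∧ c z = c x ∧ Good (c x) y x z ∧
      (y ≠ (c x).1 ∨ (c x).2.2 ≠ 0) := by
  have hs := l5a_sep hz hxz hd hbx hbz
  obtain ⟨t1, c1⟩ := l5a_cases hU hx hbx i1
  obtain ⟨t2, c2⟩ := l5a_cases hU hz hbz i2
  simp only [BadLeg, not_or] at hbx
  obtain ⟨-, -, -, -, -, -, -, b8, b9, -⟩ := hbx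
  have g9 : GGood S γ' y x z := by
    by_contra h
    exact b9 ⟨z, hz, hs, hd, t1, t2, h⟩
  rcases c1 with c1 | c1
  · exfalso
    rcases c2 with c2 | c2
    · refine c1.1 (l5a_inC (y := y) (z := z) ?_)
      by_contra h
      exact b8 ⟨z, hz, hs, hd, c1.2, c2.2, h⟩
    · exact c1.1 (l5a_good hc hz c2.1 g9).2
  · obtain ⟨g1, g2⟩ := l5a_good hc hx c1.1 g9.symm
    rcases c2 with c2 | c2
    · exact absurd g2 c2.1
    · obtain ⟨w, hw, hg⟩ := g9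
      exact ⟨c1.1, c2.1, (c2.1.2.2 w hw hg.on.2).symm.trans (c1.1.2.2 w hw hg.on.1), g1.symm,
        c1.2⟩

theorem l5a_nor {y x z : ℂ} (hz : z ∈ S) (hd : dist y x = dist y z)
    (hbx : ¬ BadLeg S p ix D D' γ γ' om c fam key y x) (hN : NN S ix D' x z) :
    Nor (nrm p ix) om x z := by
  simp only [BadLeg, not_or] at hbx
  by_contra h
  exact hbx.2.2.2.2.2.2.1 ⟨z, hz, hN, h, hd⟩

theorem l5a_irr (hc : ∀ x ∈ S, InC S γ x → Popular S γ (c x) ∧ On (c x) x)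
    (hU : ∀ x ∈ S, ¬ InC S γ x → ∀ y, TameB S ix D y x → Tame S fam key y x)
    {y x z : ℂ} (hx : x ∈ S) (hz : z ∈ S) (hxz : x ≠ z) (hd : dist y x = dist y z)
    (hbx : ¬ BadLeg S p ix D D' γ γ' om c fam key y x)
    (hbz : ¬ BadLeg S p ix D D' γ γ' om c fam key y z) (u1 : ¬ InC S γ x) (n1 : NN S ix D' x y)
    (i2 : ¬ (¬ InC S γ z ∧ NN S ix D' z y)) : ¬ NN S ix D' x z := by
  intro hN
  have hs := l5a_sep hz hxz hd hbx hbz
  have r2 := l5a_nor hz hd hbx hN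
  obtain ⟨t2, c2⟩ := l5a_cases hU hz hbz i2
  simp only [BadLeg, not_or] at hbx hbz
  have r1 : Nor (nrm p ix) om x y := by
    by_contra h
    exact hbx.2.2.2.2.1 ⟨n1, h⟩
  obtain ⟨-, -, -, -, -, -, -, -, -, b10, b11⟩ := hbz
  rcases c2 with c2 | c2
  · refine u1 (l5a_inC (y := y) (z := z) ?_)
    by_contra h
    exact b10 ⟨c2.2, x, hx, hs, hd, r1, r2, h⟩
  · refine u1 (l5a_good (y := y) hc hz c2.1 ?_).2
    by_contra h
    exact b11 ⟨t2, x, hx, hs, hd, r1, r2, h⟩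

end

/-- paper 6.6: `class_count` with `rem = BadLeg`, `N = NN S ix D'`, `U x = ¬ InC S γ x`.
A kept tame leg `(y, x)` has either `InC0 x`, `y` not the centre, `Tame fam key y x`, or `U x` and
`TameB D y x` (clauses 1, 4), hence also `Tame fam key y x`.  Two tame members: `Sep` by clauses
1, 6; both in `U` is excluded by clause 8; else clause 9 gives a `γ'`-popular `w` with
`Good w y x z`, it equals `c` of the member in `InC0`, so it is `γ`-popular and both are in `InC`.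
`h2` by `good_two`; `h3` by clauses 5, 7 for `(y, x)` and 10, 11 for `(y, z)`; `h4` by clause 7 and
`no_three_nor`; `h5` is `uniq`; `h6` by `same_disj` and `outer_uniq` for `D0`. -/
theorem level_ineq {S : Finset ℂ} {p : ℤ → ℂ} {ix : ℂ → ℤ} (e : Enum S p ix) {D0 D D' : ℕ}
    (hd : D0 ∣ D') (hD' : 0 < D') {γ γ' om : ℝ} (hom : om ≤ 1 / 4) {c : ℂ → Cv} {φ : Type}
    {fam : ℂ → φ} {key : ℂ → ℝ} (hc : ∀ x ∈ S, InC S γ x → Popular S γ (c x) ∧ On (c x) x)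
    (hU : ∀ x ∈ S, ¬ InC S γ x → ∀ y, TameB S ix D y x → Tame S fam key y x) :
    4 * (S.card * (S.card - 1)) + cnt2 S (Same S ix D0 D' γ) ≤
      4 * Tsum S + 4 * cnt2 S (BadLeg S p ix D D' γ γ' om c fam key) +
        2 * cnt2 S (Pair S γ c) + 2 * ((S.filter (fun x => ¬ InC S γ x)).card * (S.card - 1)) := by
  have key := class_count S (BadLeg S p ix D D' γ γ' om c fam key) (NN S ix D') (Pair S γ c)
    (Same S ix D0 D' γ) (fun x => ¬ InC S γ x) (fun x _ h => h.1 rfl) ?_ ?_ ?_ ?_ ?_ ?_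
  · convert key using 6
  · intro y _ x hx z hz hxz hdd b1 b2 i1 i2
    obtain ⟨a1, a2, a3, a4, -⟩ := l5a_two hc hU hx hz hxz hdd b1 b2 i1 i2
    exact ⟨a1.1, z, hz, a2.1, hxz.symm, a3, a4, hdd⟩
  · intro y _ x hx z hz v hv hxz hxv d1 d2 b1 b2 b3 i1 i2 i3
    obtain ⟨a1, -, -, a4, a5⟩ := l5a_two hc hU hx hz hxz d1 b1 b2 i1 i2
    obtain ⟨-, -, -, a6, -⟩ := l5a_two hc hU hx hv hxv d2 b1 b3 i1 i3
    exact good_two (hc x hx a1.1).1.1 a5 a1.2.1 a4 a6 d1 d2 hxz hxv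
  · intro y _ x hx z hz hxz hdd b1 b2 u1 n1 i2
    exact l5a_irr hc hU hx hz hxz hdd b1 b2 u1 n1 i2
  · rintro y _ x hx z hz v hv hxz hxv hzv d1 d2 b1 b2 b3 ⟨n1, n2, n3, n4, n5, n6⟩
    exact no_three_nor hom hxz hxv hzv (l5a_nor hz d1 b1 n1) (l5a_nor hv d2 b1 n3)
      (l5a_nor hx d1.symm b2 n2) (l5a_nor hv (d1.symm.trans d2) b2 n5)
      (l5a_nor hx d2.symm b3 n4) (l5a_nor hz (d2.symm.trans d1) b3 n6)
  · intro x hx z hz y hy y' hy' hxz hn n1 n2 d1 d2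
    exact uniq e D' hx hz hy hy' hxz hn n1 n2 d1 d2
  · rintro x hx z hz ⟨u1, u2, hb, hs, hne⟩
    have hs' : Straight S ix D0 z := by
      unfold Straight at hs ⊢
      rw [← hb]
      exact hs
    have hxz : x ≠ z := fun h => hne (by rw [h])
    have out : ∀ y ∈ S, (NN S ix D' x y ∨ NN S ix D' z y) → blk S ix D0 y ≠ blk S ix D0 x := by
      intro y hy h hb'
      rcases h with h | h
      · exact same_disj e hd hD' hx hy hs hb' h
      · exact same_disj e hd hD' hz hy hs' (hb'.trans hb) h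
    exact ⟨hxz, u1, u2, same_disj e hd hD' hx hz hs hb.symm, same_disj e hd hD' hz hx hs' hb,
      fun y hy y' hy' n1 n2 d1 d2 =>
        outer_uniq e D0 hx hz hy hy' hxz hb (out y hy n1) (out y' hy' n2) d1 d2⟩

end Pool.Agent.Lib.MP_990519_co.Big
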