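import Pool.Agent.Lib.MP_990519_co.Big.G2

namespace Pool.Agent.Lib.MP_990519_co.Big

open Finset
open scoped Classical ComplexConjugate

theorem l5b_le {S : Finset ℂ} {P : ℂ → ℂ → Prop} {T : Finset (ℂ × ℂ)}
    (h : ∀ y ∈ S, ∀ x ∈ S, P y x → (y, x) ∈ T) : cnt2 S P ≤ T.card := by
  refine card_le_card fun u hu => ?_
  obtain ⟨h1, h2⟩ := mem_filter.1 hu
  exact h _ (mem_product.1 h1).1 _ (mem_product.1 h1).2 h2

theorem l5b_mono {S : Finset ℂ} {P Q : ℂ → ℂ → Prop} (h : ∀ y ∈ S, ∀ x ∈ S, P y x → Q y x) :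
    cnt2 S P ≤ cnt2 S Q :=
  l5b_le fun y hy x hx h' => mem_filter.2 ⟨mem_product.2 ⟨hy, hx⟩, h y hy x hx h'⟩

theorem l5b_or (S : Finset ℂ) (P Q : ℂ → ℂ → Prop) :
    cnt2 S (fun y x => P y x ∨ Q y x) ≤ cnt2 S P + cnt2 S Q := by
  refine le_trans (l5b_le fun y hy x hx h2 => ?_) (card_union_le
    ((S ×ˢ S).filter (fun u => P u.1 u.2)) ((S ×ˢ S).filter (fun u => Q u.1 u.2)))
  rcases h2 with h2 | h2
  · exact mem_union_left _ (mem_filter.2 ⟨mem_product.2 ⟨hy, hx⟩, h2⟩)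
  · exact mem_union_right _ (mem_filter.2 ⟨mem_product.2 ⟨hy, hx⟩, h2⟩)

theorem l5b_swap (S : Finset ℂ) (P : ℂ → ℂ → Prop) : cnt2 S (fun y x => P x y) ≤ cnt2 S P := by
  refine le_trans (l5b_le fun y hy x hx h => ?_)
    (card_image_le (s := (S ×ˢ S).filter (fun u => P u.1 u.2)) (f := Prod.swap))
  exact mem_image.2 ⟨(x, y), mem_filter.2 ⟨mem_product.2 ⟨hx, hy⟩, h⟩, rfl⟩

theorem l5b_apex {S : Finset ℂ} (hS : Cvx S) {R : ℂ → ℂ → Prop} (hR : ∀ x z, R x z → x ≠ z) :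
    cnt2 S (fun y x => ∃ z ∈ S, R x z ∧ dist y x = dist y z) ≤ cnt2 S R * 2 := by
  have h0 := card_biUnion_le_card_mul ((S ×ˢ S).filter (fun u => R u.1 u.2))
    (fun u => (S.filter (fun y => dist y u.1 = dist y u.2)).image fun y => (y, u.1)) 2
    fun u hu => card_image_le.trans (apex_le_two hS (hR u.1 u.2 (mem_filter.1 hu).2))
  refine le_trans (l5b_le ?_) h0
  rintro y hy x hx ⟨z, hz, h2, h3⟩
  exact mem_biUnion.2 ⟨(x, z), mem_filter.2 ⟨mem_product.2 ⟨hx, hz⟩, h2⟩,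
    mem_image.2 ⟨y, mem_filter.2 ⟨hy, h3⟩, rfl⟩⟩

theorem l5b_proj (S : Finset ℂ) (Q : ℂ → ℂ → ℂ → Prop) :
    cnt2 S (fun y x => ∃ z ∈ S, Q y x z) ≤ cnt3 S Q := by
  refine le_trans (l5b_le ?_) (card_image_le
    (s := (S ×ˢ S ×ˢ S).filter (fun u => Q u.1 u.2.1 u.2.2)) (f := fun u => (u.1, u.2.1)))
  rintro y hy x hx ⟨z, hz, h2⟩
  exact mem_image.2 ⟨(y, x, z), mem_filter.2 ⟨mem_product.2 ⟨hy, mem_product.2 ⟨hx, hz⟩⟩, h2⟩, rfl⟩

theorem l5b_snd (S : Finset ℂ) (P : ℂ → Prop) [DecidablePred P] :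
    cnt2 S (fun _ x => P x) ≤ S.card * (S.filter P).card := by
  rw [← card_product]
  exact l5b_le fun y hy x hx h => mem_product.2 ⟨hy, mem_filter.2 ⟨hx, h⟩⟩

theorem l5b_or11 (S : Finset ℂ) (P1 P2 P3 P4 P5 P6 P7 P8 P9 P10 P11 : ℂ → ℂ → Prop) :
    cnt2 S (fun y x => P1 y x ∨ P2 y x ∨ P3 y x ∨ P4 y x ∨ P5 y x ∨ P6 y x ∨ P7 y x ∨ P8 y x ∨
      P9 y x ∨ P10 y x ∨ P11 y x) ≤ cnt2 S P1 + (cnt2 S P2 + (cnt2 S P3 + (cnt2 S P4 +
      (cnt2 S P5 + (cnt2 S P6 + (cnt2 S P7 + (cnt2 S P8 + (cnt2 S P9 +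
      (cnt2 S P10 + cnt2 S P11))))))))) := by
  iterate 9 refine (l5b_or S _ _).trans (Nat.add_le_add_left ?_ _)
  exact l5b_or S _ _

/-- union bound over the eleven clauses.  Clause 6: the map `(y, x) ↦ (x, z)` has fibres of size
at most 2 (`apex_le_two`) and lands in the pairs of one block; clause 7 likewise (`NN` gives
`x ≠ z`); clauses 8, 9: project the triples. -/
theorem badleg_le {S : Finset ℂ} (hS : Cvx S) {p : ℤ → ℂ} {ix : ℂ → ℤ} (e : Enum S p ix)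
    {D : ℕ} (hD : 0 < D) (D' : ℕ) (γ γ' om : ℝ) (c : ℂ → Cv) {φ : Type} (fam : ℂ → φ)
    (key : ℂ → ℝ) :
    (cnt2 S (BadLeg S p ix D D' γ γ' om c fam key) : ℝ) ≤
      cnt2 S (Mid S ix D D') + 3 * (S.card * (S.card / D + 1)) +
      S.card * (S.filter (fun x => InC S γ x ∧ ¬ InC0 S γ γ' c x)).card +
      cnt2 S (fun y x => InC S γ x ∧ x ≠ node (c x) ∧
        (((c x).2.2 = 0 ∧ y = (c x).1) ∨ ¬ Tame S fam key y x)) +
      3 * cnt2 S (fun y x => NN S ix D' x y ∧ ¬ Nor (nrm p ix) om x y) +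
      cnt3 S (BadA S ix D (blk S ix D) (fun a => (ix a : ℝ)) γ) +
      cnt3 S (BadA S ix D fam key γ') +
      cnt2 S (BadB S p ix D (blk S ix D) (fun a => (ix a : ℝ)) γ om) +
      cnt2 S (BadB S p ix D fam key γ' om) := by
  have h0 : cnt2 S (BadLeg S p ix D D' γ γ' om c fam key) ≤ _ := l5b_or11 S
    (fun y x => blk S ix D y = blk S ix D x) (fun _ x => InC S γ x ∧ ¬ InC0 S γ γ' c x)
    (fun y x => InC S γ x ∧ x ≠ node (c x) ∧
      (((c x).2.2 = 0 ∧ y = (c x).1) ∨ ¬ Tame S fam key y x))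
    (Mid S ix D D') (fun y x => NN S ix D' x y ∧ ¬ Nor (nrm p ix) om x y)
    (fun y x => ∃ z ∈ S, z ≠ x ∧ blk S ix D z = blk S ix D x ∧ dist y x = dist y z)
    (fun y x => ∃ z ∈ S, NN S ix D' x z ∧ ¬ Nor (nrm p ix) om x z ∧ dist y x = dist y z)
    (fun y x => ∃ z ∈ S, BadA S ix D (blk S ix D) (fun a => (ix a : ℝ)) γ y x z)
    (fun y x => ∃ z ∈ S, BadA S ix D fam key γ' y x z)
    (BadB S p ix D (blk S ix D) (fun a => (ix a : ℝ)) γ om) (BadB S p ix D fam key γ' om)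
  have h1 := same_blk_card e hD
  have h2 := l5b_snd S (fun x => InC S γ x ∧ ¬ InC0 S γ γ' c x)
  have h6 : cnt2 S (fun y x => ∃ z ∈ S, z ≠ x ∧ blk S ix D z = blk S ix D x ∧
      dist y x = dist y z) ≤ cnt2 S (fun y x => blk S ix D y = blk S ix D x) * 2 :=
    ((l5b_mono fun _ _ _ _ ⟨z, hz, a1, a2, a3⟩ => ⟨z, hz, ⟨a1, a2⟩, a3⟩).trans
      (l5b_apex hS (R := fun x z => z ≠ x ∧ blk S ix D z = blk S ix D x)
        fun _ _ h => h.1.symm)).trans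
      (Nat.mul_le_mul_right _ (l5b_mono fun _ _ _ _ h => h.2.symm))
  have h7 : cnt2 S (fun y x => ∃ z ∈ S, NN S ix D' x z ∧ ¬ Nor (nrm p ix) om x z ∧
      dist y x = dist y z) ≤
      cnt2 S (fun y x => NN S ix D' x y ∧ ¬ Nor (nrm p ix) om x y) * 2 :=
    ((l5b_mono fun _ _ _ _ ⟨z, hz, a1, a2, a3⟩ => ⟨z, hz, ⟨a1, a2⟩, a3⟩).trans
      (l5b_apex hS (R := fun x z => NN S ix D' x z ∧ ¬ Nor (nrm p ix) om x z)
        fun _ _ h e' => h.1.1 (by rw [e']))).trans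
      (Nat.mul_le_mul_right _
        (l5b_swap S fun y x => NN S ix D' x y ∧ ¬ Nor (nrm p ix) om x y))
  have h8 := l5b_proj S (BadA S ix D (blk S ix D) (fun a => (ix a : ℝ)) γ)
  have h9 := l5b_proj S (BadA S ix D fam key γ')
  have g0 := (Nat.cast_le (α := ℝ)).2 h0
  have g2 := (Nat.cast_le (α := ℝ)).2 h2
  have g6 := (Nat.cast_le (α := ℝ)).2 h6
  have g7 := (Nat.cast_le (α := ℝ)).2 h7
  have g8 := (Nat.cast_le (α := ℝ)).2 h8
  have g9 := (Nat.cast_le (α := ℝ)).2 h9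
  simp only [Nat.cast_add, Nat.cast_mul, Nat.cast_ofNat] at g0 g2 g6 g7
  linarith

/-- the sets `Mid` of different levels are disjoint (`blk_nest`, `TameB.nest`) -/
theorem mid_pick (S : Finset ℂ) (ix : ℂ → ℤ) (Dj : ℕ → ℕ) (h0 : ∀ j, 0 < Dj j)
    (hd : ∀ j, Dj j ∣ Dj (j + 1)) (m : ℕ) (hm : 0 < m) :
    ∃ j < m, m * cnt2 S (Mid S ix (Dj j) (Dj (j + 1))) ≤ S.card ^ 2 := by
  have hT : ∀ {y x : ℂ} {i j : ℕ}, i ≤ j → TameB S ix (Dj i) y x → TameB S ix (Dj j) y x := by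
    intro y x i j hij h
    induction j, hij using Nat.le_induction with
    | base => exact h
    | succ j _ ih => exact ih.nest (hd j) (h0 _)
  have hlt : ∀ {y x : ℂ} {i j : ℕ}, i < j → Mid S ix (Dj i) (Dj (i + 1)) y x →
      ¬ Mid S ix (Dj j) (Dj (j + 1)) y x := by
    intro y x i j hij h h'
    refine h'.1.2 (hT hij ?_)
    by_contra hn
    exact h.2 ⟨fun e => h.1.1 (blk_nest (hd i) (h0 _) e), hn⟩
  have hs : ∑ j ∈ range m, cnt2 S (Mid S ix (Dj j) (Dj (j + 1))) ≤ S.card ^ 2 := by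
    unfold cnt2
    rw [← card_biUnion, sq, ← card_product]
    · exact card_le_card (biUnion_subset.2 fun j _ => filter_subset _ _)
    · intro i _ j _ hij
      refine disjoint_left.2 fun u hu hu' => ?_
      rcases lt_or_gt_of_ne hij with h | h
      · exact hlt h (mem_filter.1 hu).2 (mem_filter.1 hu').2
      · exact hlt h (mem_filter.1 hu').2 (mem_filter.1 hu).2
  obtain ⟨j, hj, h⟩ := exists_le_of_sum_le (s := range m) (nonempty_range_iff.2 hm.ne')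
    (f := fun j => m * cnt2 S (Mid S ix (Dj j) (Dj (j + 1)))) (g := fun _ => S.card ^ 2) (by
      rw [← mul_sum, sum_const, card_range, smul_eq_mul]
      exact Nat.mul_le_mul_left _ hs)
  exact ⟨j, mem_range.1 hj, h⟩

end Pool.Agent.Lib.MP_990519_co.Big
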