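import Pool.Agent.Lib.MP_990519_co.Big.L1
import Pool.Agent.Lib.MP_990519_co.Big.L2
import Pool.Agent.Lib.MP_990519_co.Big.L3
import Pool.Agent.Lib.MP_990519_co.Big.L5a
import Pool.Agent.Lib.MP_990519_co.Big.L5b
import Pool.Agent.Lib.MP_990519_co.Big.G4

namespace Pool.Agent.Lib.MP_990519_co.Big

open Finset
open scoped Classical ComplexConjugate

theorem l5_mono2 (S : Finset ℂ) {Q Q' : ℂ → ℂ → Prop} (h : ∀ y x, Q y x → Q' y x) :
    (cnt2 S Q : ℝ) ≤ cnt2 S Q' := by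
  unfold cnt2
  exact_mod_cast card_le_card (monotone_filter_right _ (fun u _ hu => h _ _ hu))

theorem l5_mono3 (S : Finset ℂ) {Q Q' : ℂ → ℂ → ℂ → Prop} (h : ∀ y x z, Q y x z → Q' y x z) :
    (cnt3 S Q : ℝ) ≤ cnt3 S Q' := by
  unfold cnt3
  exact_mod_cast card_le_card (monotone_filter_right _ (fun u _ hu => h _ _ _ hu))

theorem l5_a1 {n η D : ℝ} (hη : 0 < η) (hD : 1 / η ≤ D) (hn : 1 ≤ n * η) (_hn0 : 0 ≤ n) :
    n * (n / D + 1) ≤ 2 * (η * n ^ 2) := by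
  have h3 : 0 < D := lt_of_lt_of_le (by positivity) hD
  have h1 : n / D ≤ η * n := by
    rw [div_le_iff₀ hη] at hD
    rw [div_le_iff₀ h3]
    nlinarith
  nlinarith

theorem l5_a2 {n η D q : ℝ} (hη : 0 < η) (hD : 1 / η ≤ D) (hq : 0 ≤ q) (hn : q ≤ n * η)
    (hn0 : 0 ≤ n) : q * (n * (n / (D * (q + 1)) + 1)) ≤ 2 * (η * n ^ 2) := by
  have h3 : 0 < D := lt_of_lt_of_le (by positivity) hD
  have h1 : q * (n / (D * (q + 1))) ≤ η * n := by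
    rw [div_le_iff₀ hη] at hD
    rw [← mul_div_assoc, div_le_iff₀ (by positivity)]
    have h4 : n * (q + 1) * 1 ≤ n * (q + 1) * (D * η) :=
      mul_le_mul_of_nonneg_left hD (by positivity)
    nlinarith
  nlinarith

/-- paper 6.6.  `γ = min` of the constants of `rphi_a`, `rphi_b` for `(D, D, η)`; `F` from
`fams D γ η`; `γ' ≤ γ` from `rphi_a`, `rphi_b` for `(D, F, η)`; `om = min (om1, om2, 1 / 4)`;
`q` from `nor_count om`; `D' = D * (q + 1)`; `K` from `notC0_card`; then `level_ineq`,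
`badleg_le`. -/
theorem level {k : ℕ} (hk : Rigid k) (η : ℝ) (hη : 0 < η) (D : ℕ) (hD : 1 / η ≤ D) :
    ∃ γ : ℝ, 0 < γ ∧ ∃ D' : ℕ, 0 < D' ∧ D ∣ D' ∧ ∃ n0 : ℕ, ∀ S : Finset ℂ, Cvx S →
      n0 ≤ S.card → ∀ (p : ℤ → ℂ) (ix : ℂ → ℤ), Enum S p ix → ∃ c : ℂ → Cv,
        (∀ x ∈ S, InC S γ x → Popular S γ (c x) ∧ On (c x) x) ∧ ∀ D0 : ℕ, D0 ∣ D →
          4 * ((S.card : ℝ) * (S.card - 1)) + cnt2 S (Same S ix D0 D' γ) ≤
            4 * Tsum S + 4 * (cnt2 S (Mid S ix D D') + 30 * η * (S.card : ℝ) ^ 2) +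
              2 * cnt2 S (Pair S γ c) +
              2 * ((S.filter (fun x => ¬ InC S γ x)).card * ((S.card : ℝ) - 1)) := by
  have hD0 : 0 < D := by
    have : (0 : ℝ) < D := lt_of_lt_of_le (by positivity) hD
    exact_mod_cast this
  obtain ⟨g1, hg1, n1, H1⟩ := rphi_a hk D D hD0 η hη
  obtain ⟨g2, hg2, o2, ho2, n2, H2⟩ := rphi_b hk D D hD0 η hη
  have hγ : 0 < min g1 g2 := lt_min hg1 hg2
  obtain ⟨F, n3, H3⟩ := fams D hD0 (min g1 g2) η hγ hη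
  obtain ⟨g4, hg4, n4, H4⟩ := rphi_a hk D F hD0 η hη
  obtain ⟨g5, hg5, o5, ho5, n5, H5⟩ := rphi_b hk D F hD0 η hη
  obtain ⟨γ', hγ', l1, l2, l3⟩ : ∃ γ' : ℝ, 0 < γ' ∧ γ' ≤ min g1 g2 ∧ γ' ≤ g4 ∧ γ' ≤ g5 :=
    ⟨min (min g1 g2) (min g4 g5), lt_min hγ (lt_min hg4 hg5), min_le_left _ _,
      (min_le_right _ _).trans (min_le_left _ _), (min_le_right _ _).trans (min_le_right _ _)⟩
  obtain ⟨om, hom, m1, m2, m3⟩ : ∃ om : ℝ, 0 < om ∧ om ≤ 1 / 4 ∧ om ≤ o2 ∧ om ≤ o5 :=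
    ⟨min (1 / 4) (min o2 o5), lt_min (by norm_num) (lt_min ho2 ho5), min_le_left _ _,
      (min_le_right _ _).trans (min_le_left _ _), (min_le_right _ _).trans (min_le_right _ _)⟩
  obtain ⟨q, H6⟩ := nor_count om hom
  obtain ⟨K, n7, H7⟩ := notC0_card (min g1 g2) γ' hγ' l1
  refine ⟨min g1 g2, hγ, D * (q + 1), by positivity, dvd_mul_right _ _,
    n1 + n2 + n3 + n4 + n5 + n7 + ⌈(1 + q + K) / η⌉₊ + 1, fun S hS hn p ix e => ?_⟩
  obtain ⟨c, fam, key, hc, hf, hU, hcnt⟩ := H3 S (by omega) p ix e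
  refine ⟨c, hc, fun D0 hd0 => ?_⟩
  have hl := level_ineq e (D := D) (γ' := γ') (hd0.trans (dvd_mul_right D (q + 1)))
    (by positivity) m1 hc hU
  have hb := badleg_le hS e hD0 (D * (q + 1)) (min g1 g2) γ' om c fam key
  have c1 : (cnt3 S (BadA S ix D (blk S ix D) (fun a => (ix a : ℝ)) (min g1 g2)) : ℝ) ≤
      η * (S.card : ℝ) ^ 2 :=
    (l5_mono3 S (fun _ _ _ h => h.mono (min_le_left _ _))).trans
      (H1 S hS (by omega) p ix e _ _ _ (famOK_blk e hD0))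
  have c2 : (cnt3 S (BadA S ix D fam key γ') : ℝ) ≤ η * (S.card : ℝ) ^ 2 :=
    (l5_mono3 S (fun _ _ _ h => h.mono l2)).trans (H4 S hS (by omega) p ix e _ _ _ hf)
  have c3 : (cnt2 S (BadB S p ix D (blk S ix D) (fun a => (ix a : ℝ)) (min g1 g2) om) : ℝ) ≤
      η * (S.card : ℝ) ^ 2 :=
    (l5_mono2 S (fun _ _ h => h.mono (min_le_right _ _) m2)).trans
      (H2 S hS (by omega) p ix e _ _ _ (famOK_blk e hD0))
  have c4 : (cnt2 S (BadB S p ix D fam key γ' om) : ℝ) ≤ η * (S.card : ℝ) ^ 2 :=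
    (l5_mono2 S (fun _ _ h => h.mono l3 m3)).trans (H5 S hS (by omega) p ix e _ _ _ hf)
  have c5 := H6 S p ix e (D * (q + 1)) (by positivity)
  have c6 : (((S.filter (fun x => InC S (min g1 g2) x ∧ ¬ InC0 S (min g1 g2) γ' c x)).card : ℕ) :
      ℝ) ≤ K := by exact_mod_cast H7 S (by omega) c hc
  have a1 : (1 + q + K) / η ≤ S.card := Nat.ceil_le.1 (by omega)
  rw [div_le_iff₀ hη] at a1
  have hq0 : (0 : ℝ) ≤ q := Nat.cast_nonneg _
  have hK0 : (0 : ℝ) ≤ K := Nat.cast_nonneg _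
  have hn0 : (0 : ℝ) ≤ S.card := Nat.cast_nonneg _
  have d1 := l5_a1 hη hD (by linarith) hn0
  have d2 := l5_a2 hη hD hq0 (by linarith) hn0
  have d3 : (S.card : ℝ) * (S.filter (fun x => InC S (min g1 g2) x ∧
      ¬ InC0 S (min g1 g2) γ' c x)).card ≤ η * (S.card : ℝ) ^ 2 :=
    calc _ ≤ (S.card : ℝ) * (S.card * η) := mul_le_mul_of_nonneg_left (by linarith) hn0
      _ = _ := by ring
  have hl' := (Nat.cast_le (α := ℝ)).2 hl
  have h1 : 1 ≤ S.card := by omega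
  push_cast [Nat.cast_sub h1] at hl' c5
  have d4 : 0 ≤ η * (S.card : ℝ) ^ 2 := by positivity
  have d5 : 30 * η * (S.card : ℝ) ^ 2 = 30 * (η * (S.card : ℝ) ^ 2) := by ring
  rw [d5]
  linarith

end Pool.Agent.Lib.MP_990519_co.Big
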