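import Pool.Agent.Lib.MP_990519_co.Big.G3
import Pool.Agent.Lib.MP_990519_co.Big.C2

namespace Pool.Agent.Lib.MP_990519_co.Big

open Finset
open scoped Classical ComplexConjugate

theorem l6a_cs (U : Finset ℂ) (f : ℂ → ℤ) (I : Finset ℤ) (h : ∀ x ∈ U, f x ∈ I) :
    U.card ^ 2 ≤ I.card * ((U ×ˢ U).filter (fun u => f u.1 = f u.2)).card := by
  have h1 : U.card = ∑ j ∈ I, (U.filter (fun x => f x = j)).card :=
    card_eq_sum_card_fiberwise fun x hx => h x hx
  have h2 : ((U ×ˢ U).filter (fun u => f u.1 = f u.2)).card =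
      ∑ j ∈ I, (U.filter (fun x => f x = j)).card ^ 2 := by
    rw [card_eq_sum_card_fiberwise (f := fun u : ℂ × ℂ => f u.1) (t := I)
      fun u hu => h _ (mem_product.1 (mem_filter.1 hu).1).1]
    refine sum_congr rfl fun j _ => ?_
    rw [sq, ← card_product]
    refine congrArg card (Finset.ext fun u => ?_)
    simp only [mem_filter, mem_product]
    constructor
    · rintro ⟨⟨⟨a, b⟩, c⟩, d⟩
      exact ⟨⟨a, d⟩, b, c ▸ d⟩
    · rintro ⟨⟨a, b⟩, c, d⟩
      exact ⟨⟨⟨a, c⟩, b.trans d.symm⟩, b⟩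
  rw [h2, h1]
  exact sq_sum_le_card_mul_sum_sq

/-- paper 6.7, lower bound for `Same`.  `U'` = points of `U` with `Straight`; the ordered pairs of
`U'` in one `D0`-block number at least `|U'|² / D0` (Cauchy-Schwarz over `blk_image_card`), those
in one `D'`-block at most `n (n / D' + 1)` (`same_blk_card`); `q` from `straight_count`. -/
theorem same_lower : ∃ q : ℕ, ∀ (S : Finset ℂ) (p : ℤ → ℂ) (ix : ℂ → ℤ), Enum S p ix →
    ∀ D0 D' : ℕ, 0 < D0 → 0 < D' → ∀ γ t : ℝ, 0 ≤ t →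
      (D0 : ℝ) * (cnt2 S (Same S ix D0 D' γ) + S.card * (S.card / D' + 1)) ≤ t ^ 2 →
        ((S.filter (fun x => ¬ InC S γ x)).card : ℝ) ≤ q * (S.card / D0 + 1) + t := by
  obtain ⟨q, hq⟩ := straight_count
  refine ⟨q, fun S p ix e D0 D' h0 h' γ t ht h => ?_⟩
  set U := S.filter (fun x => ¬ InC S γ x ∧ Straight S ix D0 x) with hU
  have a1 : (S.filter (fun x => ¬ InC S γ x)).card ≤
      (S.filter (fun x => ¬ Straight S ix D0 x)).card + U.card := by
    refine (card_le_card fun x hx => ?_).trans (card_union_le _ _)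
    rw [mem_filter] at hx
    rw [mem_union, mem_filter, hU, mem_filter]
    by_cases hs : Straight S ix D0 x
    · exact Or.inr ⟨hx.1, hx.2, hs⟩
    · exact Or.inl ⟨hx.1, hs⟩
  have a2 := l6a_cs U (blk S ix D0) (S.image (blk S ix D0))
    fun x hx => mem_image_of_mem _ (mem_filter.1 hx).1
  have a3 : ((U ×ˢ U).filter (fun u => blk S ix D0 u.1 = blk S ix D0 u.2)).card ≤
      cnt2 S (Same S ix D0 D' γ) + cnt2 S (fun y x => blk S ix D' y = blk S ix D' x) := by
    refine (card_le_card fun u hu => ?_).trans (card_union_le _ _)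
    simp only [hU, mem_filter, mem_product] at hu
    simp only [mem_union, mem_filter, mem_product]
    by_cases hb : blk S ix D' u.1 = blk S ix D' u.2
    · exact Or.inr ⟨⟨hu.1.1.1, hu.1.2.1⟩, hb⟩
    · exact Or.inl ⟨⟨hu.1.1.1, hu.1.2.1⟩, hu.1.1.2.1, hu.1.2.2.1, hu.2, hu.1.1.2.2, hb⟩
  have a4 : U.card ^ 2 ≤ D0 * (cnt2 S (Same S ix D0 D' γ) +
      cnt2 S (fun y x => blk S ix D' y = blk S ix D' x)) :=
    a2.trans (Nat.mul_le_mul (blk_image_card e h0) a3)
  have a5 : (U.card : ℝ) ^ 2 ≤ t ^ 2 := by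
    refine le_trans ?_ h
    have b1 : (U.card : ℝ) ^ 2 ≤ D0 * (cnt2 S (Same S ix D0 D' γ) +
      cnt2 S (fun y x => blk S ix D' y = blk S ix D' x)) := by exact_mod_cast a4
    exact b1.trans (mul_le_mul_of_nonneg_left
      (add_le_add le_rfl (same_blk_card e h')) (Nat.cast_nonneg _))
  have a6 : (U.card : ℝ) ≤ t := (pow_le_pow_iff_left₀ (Nat.cast_nonneg _) ht two_ne_zero).1 a5
  have a7 : ((S.filter (fun x => ¬ InC S γ x)).card : ℝ) ≤
      (S.filter (fun x => ¬ Straight S ix D0 x)).card + U.card := by exact_mod_cast a1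
  linarith [hq S p ix e D0 h0]

/-- a paired leg has its member in `InC` and is not on the diagonal -/
theorem pair_le (S : Finset ℂ) (γ : ℝ) (c : ℂ → Cv) :
    cnt2 S (Pair S γ c) ≤ (S.filter (InC S γ)).card * (S.card - 1) := by
  rw [mul_comm]
  refine card_le_mul_card_image_of_maps_to (f := Prod.snd) (fun u hu => ?_) _ fun x hx => ?_
  · rw [mem_filter, mem_product] at hu
    exact mem_filter.2 ⟨hu.1.2, hu.2.1⟩
  · rw [← card_erase_of_mem (mem_filter.1 hx).1]
    refine card_le_card_of_injOn Prod.fst (fun u hu => ?_) fun u hu v hv e => ?_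
    · simp only [coe_filter, mem_filter, mem_product, Set.mem_ofPred_eq] at hu
      obtain ⟨⟨⟨h1, -⟩, -, x', -, -, h2, -, -, h3⟩, h4⟩ := hu
      refine mem_coe.2 (mem_erase.2 ⟨fun h5 => h2 ?_, h1⟩)
      rw [h5, h4, dist_self] at h3
      rw [h4]
      exact (dist_eq_zero.1 h3.symm).symm
    · simp only [coe_filter, Set.mem_ofPred_eq] at hu hv
      exact Prod.ext e (hu.2.trans hv.2.symm)

theorem l6a_circ {w : Cv} (hw : Valid w) (hm : w.2.2 = 0) {z : ℂ} (h : On w z) :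
    ‖z - w.1‖ = w.2.1 := by
  obtain ⟨t, h1, rfl⟩ := h
  rw [zc, hm, zero_mul, add_zero, add_sub_cancel_left, norm_mul, h1, mul_one, Complex.norm_real,
    Real.norm_of_nonneg hw.le]

theorem l6a_apex {w : Cv} (hm : w.2.2 ≠ 0) {y a b : ℂ} (h : Good w y a b) :
    On (w.1, ‖w.2.2‖, 0) y := by
  obtain ⟨ta, tb, h1, h2, -, -, h3⟩ := h
  have h4 : (‖w.2.2‖ : ℂ) ≠ 0 := by exact_mod_cast norm_ne_zero_iff.2 hm
  refine ⟨-(w.2.2 * ta * tb) / ‖w.2.2‖, ?_, ?_⟩
  · rw [norm_div, norm_neg, norm_mul, norm_mul, h1, h2, Complex.norm_real, norm_norm, mul_one,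
      mul_one, div_self (norm_ne_zero_iff.2 hm)]
  · rw [h3.resolve_left hm, zc]
    field_simp
    ring

theorem l6a_web (S : Finset ℂ) (γ : ℝ) (c : ℂ → Cv) (W : Finset Cv)
    (hW : ∀ w, Popular S γ w → w ∈ W)
    (hc : ∀ x ∈ S, InC S γ x → Popular S γ (c x) ∧ On (c x) x) (t : ℝ) (ht : 0 ≤ t)
    (h : (cnt2 S (fun y x => ¬ Pair S γ c y x) : ℝ) ≤ t ^ 2) :
    ((S.filter (fun x => InC S γ x ∧ (c x).2.2 ≠ 0)).card : ℝ) ≤ t + 8 * W.card := by
  set L := S.filter (fun x => InC S γ x ∧ (c x).2.2 ≠ 0) with hL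
  rcases L.eq_empty_or_nonempty with h0 | h0
  · rw [h0, card_empty, Nat.cast_zero]
    positivity
  obtain ⟨x0, hx0, hmin⟩ :=
    exists_min_image L (fun x => (S.filter (fun y => ¬ Pair S γ c y x)).card) h0
  have a1 : L.card * (S.filter (fun y => ¬ Pair S γ c y x0)).card ≤
      cnt2 S (fun y x => ¬ Pair S γ c y x) := by
    have b1 : cnt2 S (fun y x => ¬ Pair S γ c y x) =
        ∑ x ∈ S, (S.filter (fun y => ¬ Pair S γ c y x)).card := by
      rw [cnt2, card_filter, sum_product_right]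
      refine sum_congr rfl fun x _ => ?_
      rw [card_filter]
      exact sum_congr rfl fun y _ => by by_cases hp : Pair S γ c y x <;> simp [hp]
    rw [b1]
    exact (card_nsmul_le_sum L _ _ hmin).trans (sum_le_sum_of_subset (filter_subset _ _))
  have m0 := (mem_filter.1 hx0).2.2
  have a2 : (L.filter (fun y => Pair S γ c y x0)).card ≤ 8 * W.card := by
    refine card_le_mul_card_image_of_maps_to (f := c) (fun y hy => ?_) _ fun w _ => ?_
    · have b1 := mem_filter.1 (mem_filter.1 hy).1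
      exact hW _ (hc y b1.1 b1.2.1).1
    · rcases ((L.filter (fun y => Pair S γ c y x0)).filter
        (fun y => c y = w)).eq_empty_or_nonempty with b0 | ⟨y0, b0⟩
      · rw [b0]
        simp
      have b1 := mem_filter.1 b0
      have b2 := mem_filter.1 (mem_filter.1 b1.1).1
      refine int8 (w := w) (w' := ((c x0).1, ‖(c x0).2.2‖, 0)) (b1.2 ▸ (hc y0 b2.1 b2.2.1).1.1)
        (norm_pos_iff.2 m0) (fun e => b2.2.2 (by rw [b1.2, e])) _ fun z hz => ?_
      have c1 := mem_filter.1 hz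
      have c2 := mem_filter.1 c1.1
      have c3 := mem_filter.1 c2.1
      obtain ⟨-, x', -, -, -, -, c4, -⟩ := c2.2
      exact ⟨c1.2 ▸ (hc z c3.1 c3.2.1).2, l6a_apex m0 c4⟩
  have a3 : L.card ≤ (S.filter (fun y => ¬ Pair S γ c y x0)).card +
      (L.filter (fun y => Pair S γ c y x0)).card := by
    refine (card_le_card fun y hy => ?_).trans (card_union_le _ _)
    rw [mem_union, mem_filter, mem_filter]
    by_cases hp : Pair S γ c y x0
    · exact Or.inr ⟨hy, hp⟩
    · exact Or.inl ⟨(mem_filter.1 hy).1, hp⟩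
  have a4 : (L.card : ℝ) * (S.filter (fun y => ¬ Pair S γ c y x0)).card ≤ t ^ 2 :=
    le_trans (by exact_mod_cast a1) h
  have a5 : (L.card : ℝ) ≤ (S.filter (fun y => ¬ Pair S γ c y x0)).card + 8 * W.card := by
    exact_mod_cast a3.trans (Nat.add_le_add_left a2 _)
  by_contra hn
  rw [not_le] at hn
  have a6 : (0 : ℝ) ≤ W.card := Nat.cast_nonneg _
  nlinarith

/-- paper 6.7, webs.  Let `Λ` be the number of `x ∈ S` with `InC S γ x`, `(c x).2.2 ≠ 0`.  One of
them, `x0`, has at most `t² / Λ` apexes `y` with `¬ Pair y x0`; the others lie on the circle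
`(o, ‖m‖, 0)` of `c x0 = (o, C, m)`, which carries at most `8 K` of the `Λ` points (`int8`).  So
`Λ ≤ t² / Λ + 8 K`, `Λ ≤ t + 8 K`.  `cen x = (c x).1` if `InC S γ x` and `(c x).2.2 = 0`, else `x`. -/
theorem web_count (S : Finset ℂ) (γ : ℝ) (c : ℂ → Cv) (W : Finset Cv)
    (hW : ∀ w, Popular S γ w → w ∈ W)
    (hc : ∀ x ∈ S, InC S γ x → Popular S γ (c x) ∧ On (c x) x) (t : ℝ) (ht : 0 ≤ t)
    (h : (cnt2 S (fun y x => ¬ Pair S γ c y x) : ℝ) ≤ t ^ 2) : ∃ cen : ℂ → ℂ,
      (cnt2 S (fun y x => ¬ Paired S cen y x) : ℝ) ≤ t ^ 2 + S.card * (t + 8 * W.card) := by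
  have a0 := l6a_web S γ c W hW hc t ht h
  set L := S.filter (fun x => InC S γ x ∧ (c x).2.2 ≠ 0) with hL
  set cen : ℂ → ℂ := fun x => if InC S γ x ∧ (c x).2.2 = 0 then (c x).1 else x with hcen
  refine ⟨cen, ?_⟩
  have a1 : cnt2 S (fun y x => ¬ Paired S cen y x) ≤
      cnt2 S (fun y x => ¬ Pair S γ c y x) + S.card * L.card := by
    rw [← card_product]
    refine (card_le_card fun u hu => ?_).trans (card_union_le _ _)
    simp only [mem_filter, mem_product] at hu
    simp only [mem_union, mem_filter, mem_product, hL]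
    by_cases hp : Pair S γ c u.1 u.2
    · refine Or.inr ⟨hu.1.1, hu.1.2, hp.1, fun hm => hu.2 ?_⟩
      obtain ⟨h1, x', h2, h3, h4, h5, h6, h7⟩ := hp
      have e1 : cen u.2 = (c u.2).1 := if_pos ⟨h1, hm⟩
      have e2 : cen x' = (c u.2).1 := by
        rw [← h5]
        exact if_pos ⟨h3, h5 ▸ hm⟩
      have hv := (hc _ hu.1.2 h1).1.1
      exact ⟨x', h2, h4, e2.trans e1.symm,
        by rw [e1, l6a_circ hv hm h6.on.2, l6a_circ hv hm h6.on.1], h7⟩
    · exact Or.inl ⟨hu.1, hp⟩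
  have a2 : (cnt2 S (fun y x => ¬ Paired S cen y x) : ℝ) ≤
      cnt2 S (fun y x => ¬ Pair S γ c y x) + S.card * L.card := by exact_mod_cast a1
  have a3 := mul_le_mul_of_nonneg_left a0 (Nat.cast_nonneg (α := ℝ) S.card)
  linarith

end Pool.Agent.Lib.MP_990519_co.Big
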