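import Pool.Agent.Lib.MP_990519_co.Big.L5
import Pool.Agent.Lib.MP_990519_co.Big.L6a

namespace Pool.Agent.Lib.MP_990519_co.Big

open Finset
open scoped Classical ComplexConjugate

theorem l6_compl (S : Finset ℂ) (Q : ℂ → ℂ → Prop) :
    cnt2 S Q + cnt2 S (fun y x => ¬ Q y x) = S.card ^ 2 := by
  unfold cnt2
  have := card_filter_add_card_filter_not (s := S ×ˢ S) (fun u => Q u.1 u.2)
  rw [card_product, ← sq] at this
  convert this using 4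

/-- a chain of block numbers -/
theorem l6_chain (P : ℕ → Prop) (R : ℕ → ℕ → Prop) (a : ℕ) (ha : P a)
    (h : ∀ D, P D → ∃ D', P D' ∧ R D D') :
    ∃ Dj : ℕ → ℕ, (∀ j, P (Dj j)) ∧ ∀ j, R (Dj j) (Dj (j + 1)) := by
  choose! f hf using h
  have hP : ∀ j, P (f^[j] a) := by
    intro j
    induction j with
    | zero => exact ha
    | succ j ih => rw [Function.iterate_succ_apply']; exact (hf _ ih).1
  refine ⟨fun j => f^[j] a, hP, fun j => ?_⟩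
  simp only [Function.iterate_succ_apply']
  exact (hf _ (hP j)).2

/-- the arithmetic of 6.7 -/
theorem l6_arith {n T Sm rem Pr C U : ℝ} (hT : 2 * T ≤ n * (n - 1))
    (h : 4 * (n * (n - 1)) + Sm ≤ 4 * T + 4 * rem + 2 * Pr + 2 * (U * (n - 1)))
    (hP : Pr ≤ C * (n - 1)) (hCU : C + U = n) (hS : 0 ≤ Sm) (hU : 0 ≤ U) :
    Sm ≤ 4 * rem ∧ n ^ 2 - Pr ≤ n + 2 * rem + U * n := by
  have e : C * (n - 1) + U * (n - 1) = n * (n - 1) := by rw [← hCU]; ring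
  constructor
  · linarith
  · nlinarith

theorem l6_a1 {n η m M : ℝ} (hη : 0 < η) (hm : 1 ≤ η * m) (h : m * M ≤ n ^ 2) (h0 : 0 ≤ M) :
    M ≤ η * n ^ 2 := by
  nlinarith

theorem l6_a2 {n η β D0 D' M Sm : ℝ} (hη : 0 < η) (hn : 1 ≤ n * η) (_hn0 : 0 ≤ n) (hD : 1 / η ≤ D')
    (hD0 : 0 ≤ D0) (h : D0 * (244 * η) = β ^ 2) (hM : M ≤ η * n ^ 2)
    (hS : Sm ≤ 4 * (M + 30 * η * n ^ 2)) : D0 * (Sm + n * (n / D' + 1)) ≤ (β * n) ^ 2 := by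
  have h3 : 0 < D' := lt_of_lt_of_le (by positivity) hD
  have h1 : n / D' ≤ η * n := by
    rw [div_le_iff₀ hη] at hD
    rw [div_le_iff₀ h3]
    nlinarith
  have h4 : n * (n / D' + 1) ≤ 2 * η * n ^ 2 := by nlinarith
  have h5 : Sm + n * (n / D' + 1) ≤ 244 * η * n ^ 2 := by
    have : 0 ≤ η * n ^ 2 := by positivity
    linarith
  calc _ ≤ D0 * (244 * η * n ^ 2) := mul_le_mul_of_nonneg_left h5 hD0
    _ = (D0 * (244 * η)) * n ^ 2 := by ring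
    _ = _ := by rw [h]; ring

theorem l6_a3 {n η β τ q D0 M U Pr Un : ℝ} (hn0 : 0 ≤ n) (hq : 0 ≤ q)
    (hqn : q + 1 ≤ n * β) (hqD : q / D0 ≤ β) (hηβ : 62 * η ≤ β) (hβ : 5 * β = τ ^ 2)
    (hM : M ≤ η * n ^ 2) (hU : U ≤ q * (n / D0 + 1) + β * n) (hc : Pr + Un = n ^ 2)
    (h : n ^ 2 - Pr ≤ n + 2 * (M + 30 * η * n ^ 2) + U * n) : Un ≤ (τ * n) ^ 2 := by
  have hU' : U ≤ 3 * β * n := by
    have h1 : q * (n / D0 + 1) = q / D0 * n + q := by ring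
    have h2 : q / D0 * n ≤ β * n := mul_le_mul_of_nonneg_right hqD hn0
    linarith
  have h1 : n ≤ β * n ^ 2 := by nlinarith
  have h2 : U * n ≤ 3 * β * n * n := mul_le_mul_of_nonneg_right hU' hn0
  have h3 : 62 * η * n ^ 2 ≤ β * n ^ 2 := mul_le_mul_of_nonneg_right hηβ (by positivity)
  have h4 : (τ * n) ^ 2 = 5 * β * n ^ 2 := by rw [hβ]; ring
  nlinarith

theorem l6_a4 {n γ τ δ W : ℝ} (hn0 : 0 ≤ n) (hγ : 0 < γ) (hτ0 : 0 < τ) (hτ1 : τ ≤ 1)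
    (hδ : 3 * τ ≤ δ) (hW : W ≤ 2 / γ) (h : 16 ≤ n * (γ * τ)) :
    (τ * n) ^ 2 + n * (τ * n + 8 * W) ≤ δ * n ^ 2 := by
  have h1 : 8 * W ≤ τ * n := by
    rw [le_div_iff₀ hγ] at hW
    nlinarith
  have h2 : τ ^ 2 * n ^ 2 ≤ τ * n ^ 2 := mul_le_mul_of_nonneg_right (by nlinarith) (by positivity)
  have h3 : 3 * τ * n ^ 2 ≤ δ * n ^ 2 := mul_le_mul_of_nonneg_right hδ (by positivity)
  nlinarith

theorem l6_a5 {η β D0 : ℝ} (hη : 0 < η) (hβ0 : 0 < β) (hβ : β ≤ 1) (hD : 1 ≤ D0)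
    (h : D0 * (244 * η) = β ^ 2) : 62 * η ≤ β := by
  nlinarith

/-- paper 6.7.  Let `β > 0` be small in terms of `δ`.  Choose `D0` with `q / D0 ≤ β` (`q` of
`same_lower`), then `m` and `η` with `D0 (4 / m + 122 η) ≤ β²`, `D 0` a positive multiple of `D0`
with `1 / η ≤ D 0`, `D (j + 1) = D'` of `level` for `D j` (recursive choice), `n0` the maximum over
`j < m`; `mid_pick`.  With `rem = Mid + 30 η n²`: `4 Tsum ≤ 2 n (n - 1)` and `pair_le` give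
`Same ≤ 4 rem`, so `|U| ≤ (2 β + o(1)) n`; `n² - Pair ≤ n + |U| n + 2 rem`; `web_count`. -/
theorem stab {k : ℕ} (hk : Rigid k) (δ : ℝ) (hδ : 0 < δ) : ∃ n0 : ℕ, ∀ S : Finset ℂ, Cvx S →
    n0 ≤ S.card → Tsum S ≤ S.card.choose 2 → ∃ cen : ℂ → ℂ,
      (cnt2 S (fun y x => ¬ Paired S cen y x) : ℝ) ≤ δ * (S.card : ℝ) ^ 2 := by
  obtain ⟨q, hq⟩ := same_lower
  obtain ⟨τ, hτ0, hτ1, hτδ⟩ : ∃ τ : ℝ, 0 < τ ∧ τ ≤ 1 ∧ 3 * τ ≤ δ :=
    ⟨min (δ / 3) 1, by positivity, min_le_right _ _, by linarith [min_le_left (δ / 3) 1]⟩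
  obtain ⟨β, hβ0, hβ⟩ : ∃ β : ℝ, 0 < β ∧ 5 * β = τ ^ 2 := ⟨τ ^ 2 / 5, by positivity, by ring⟩
  have hβ1 : β ≤ 1 := by nlinarith
  obtain ⟨D0, hD0, hqD⟩ : ∃ D0 : ℕ, 0 < D0 ∧ (q : ℝ) / D0 ≤ β := by
    refine ⟨⌈q / β⌉₊ + 1, by omega, ?_⟩
    rw [div_le_iff₀ (by positivity), mul_comm, ← div_le_iff₀ hβ0]
    push_cast
    linarith [Nat.le_ceil ((q : ℝ) / β)]
  have hD0r : (1 : ℝ) ≤ D0 := by exact_mod_cast hD0
  obtain ⟨η, hη0, hη⟩ : ∃ η : ℝ, 0 < η ∧ D0 * (244 * η) = β ^ 2 :=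
    ⟨β ^ 2 / (244 * D0), by positivity, by field_simp⟩
  obtain ⟨m, hm0, hm⟩ : ∃ m : ℕ, 0 < m ∧ 1 ≤ η * m := by
    refine ⟨⌈1 / η⌉₊ + 1, by omega, ?_⟩
    rw [mul_comm, ← div_le_iff₀ hη0]
    push_cast
    linarith [Nat.le_ceil (1 / η)]
  have hmr : (1 : ℝ) ≤ m := by exact_mod_cast hm0
  obtain ⟨Dj, hP, hR⟩ := l6_chain (fun D => 1 / η ≤ D ∧ 0 < D ∧ D0 ∣ D)
    (fun D D' => D ∣ D' ∧ ∃ γ : ℝ, 0 < γ ∧ ∃ n0 : ℕ, ∀ S : Finset ℂ, Cvx S →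
      n0 ≤ S.card → ∀ (p : ℤ → ℂ) (ix : ℂ → ℤ), Enum S p ix → ∃ c : ℂ → Cv,
        (∀ x ∈ S, InC S γ x → Popular S γ (c x) ∧ On (c x) x) ∧ ∀ D0 : ℕ, D0 ∣ D →
          4 * ((S.card : ℝ) * (S.card - 1)) + cnt2 S (Same S ix D0 D' γ) ≤
            4 * Tsum S + 4 * (cnt2 S (Mid S ix D D') + 30 * η * (S.card : ℝ) ^ 2) +
              2 * cnt2 S (Pair S γ c) +
              2 * ((S.filter (fun x => ¬ InC S γ x)).card * ((S.card : ℝ) - 1)))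
    (D0 * m) ⟨by
      rw [div_le_iff₀ hη0]
      push_cast
      nlinarith, by positivity, dvd_mul_right _ _⟩ (by
      rintro D ⟨h1, h2, h3⟩
      obtain ⟨γ, hγ, D', h4, h5, h6⟩ := level hk η hη0 D h1
      exact ⟨D', ⟨h1.trans (by exact_mod_cast Nat.le_of_dvd h4 h5), h4, h3.trans h5⟩, h5, γ, hγ,
        h6⟩)
  choose hdv γ hγ n1 hn1 using hR
  choose n2 hn2 using fun j => pop_card (γ j) (hγ j)
  refine ⟨∑ j ∈ range m, (n1 j + n2 j + ⌈16 / (γ j * τ)⌉₊) + ⌈1 / η⌉₊ + ⌈(q + 1) / β⌉₊ + 1,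
    fun S hS hn hT => ?_⟩
  obtain ⟨p, ix, e⟩ := exists_enum hS (by omega)
  obtain ⟨j, hj, hmid⟩ := mid_pick S ix Dj (fun j => (hP j).2.1) hdv m hm0
  have hsum : n1 j + n2 j + ⌈16 / (γ j * τ)⌉₊ ≤
      ∑ j ∈ range m, (n1 j + n2 j + ⌈16 / (γ j * τ)⌉₊) :=
    single_le_sum (f := fun j => n1 j + n2 j + ⌈16 / (γ j * τ)⌉₊) (fun _ _ => Nat.zero_le _)
      (mem_range.2 hj)
  obtain ⟨c, hc, hl⟩ := hn1 j S hS (by omega) p ix e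
  obtain ⟨W, hW, hWc⟩ := hn2 j S (by omega)
  have hl' := hl D0 (hP j).2.2
  have hn0 : (0 : ℝ) < S.card := by exact_mod_cast (by omega : 0 < S.card)
  have a1 : 16 / (γ j * τ) ≤ S.card := Nat.ceil_le.1 (by omega)
  have a2 : 1 / η ≤ S.card := Nat.ceil_le.1 (by omega)
  have a3 : (q + 1) / β ≤ S.card := Nat.ceil_le.1 (by omega)
  have hγj := hγ j
  rw [div_le_iff₀ (by positivity)] at a1 a2 a3
  have hT' : 2 * (Tsum S : ℝ) ≤ S.card * (S.card - 1) := by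
    have h1 : (Tsum S : ℝ) ≤ (S.card.choose 2 : ℕ) := by exact_mod_cast hT
    rw [Nat.cast_choose_two] at h1
    linarith
  have hPr : (cnt2 S (Pair S (γ j) c) : ℝ) ≤ (S.filter (InC S (γ j))).card * (S.card - 1) := by
    have h1 : (cnt2 S (Pair S (γ j) c) : ℝ) ≤
        ((S.filter (InC S (γ j))).card * (S.card - 1) : ℕ) := by
      exact_mod_cast pair_le S (γ j) c
    rwa [Nat.cast_mul, Nat.cast_sub (by omega), Nat.cast_one] at h1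
  have hCU : ((S.filter (InC S (γ j))).card : ℝ) +
      (S.filter (fun x => ¬ InC S (γ j) x)).card = S.card := by
    exact_mod_cast card_filter_add_card_filter_not (s := S) (InC S (γ j))
  obtain ⟨b1, b2⟩ := l6_arith hT' hl' hPr hCU (Nat.cast_nonneg _) (Nat.cast_nonneg _)
  have hmid' : (cnt2 S (Mid S ix (Dj j) (Dj (j + 1))) : ℝ) ≤ η * (S.card : ℝ) ^ 2 :=
    l6_a1 hη0 hm (by exact_mod_cast hmid) (Nat.cast_nonneg _)
  have hU := hq S p ix e D0 (Dj (j + 1)) hD0 (hP _).2.1 (γ j) (β * S.card) (by positivity)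
    (l6_a2 hη0 a2 (Nat.cast_nonneg _) (hP (j + 1)).1 (Nat.cast_nonneg _) hη hmid' b1)
  have hcomp : (cnt2 S (Pair S (γ j) c) : ℝ) + cnt2 S (fun y x => ¬ Pair S (γ j) c y x) =
      (S.card : ℝ) ^ 2 := by exact_mod_cast l6_compl S (Pair S (γ j) c)
  obtain ⟨cen, hcen⟩ := web_count S (γ j) c W (fun w hw => (hW w).2 hw) hc (τ * S.card)
    (by positivity) (l6_a3 (Nat.cast_nonneg _) (Nat.cast_nonneg _) a3 hqD
      (l6_a5 hη0 hβ0 hβ1 hD0r hη) hβ hmid' hU hcomp b2)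
  exact ⟨cen, hcen.trans (l6_a4 (Nat.cast_nonneg _) hγj hτ0 hτ1 hτδ hWc a1)⟩

end Pool.Agent.Lib.MP_990519_co.Big
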