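import Pool.Agent.Lib.MP_990519_co.Big.Defs

namespace Pool.Agent.Lib.MP_990519_co.Big

open Finset
open scoped Classical ComplexConjugate

/-- paper 2.1.  Follow the proof of `corners_theorem` in Mathlib
(`Mathlib/Combinatorics/Additive/Corner/Roth.lean`): `SimpleGraph.TripartiteFromTriangles`,
`ExplicitDisjoint` is the Latin property, `NoAccidental` is the negation of the conclusion,
then `farFromTriangleFree`, `FarFromTriangleFree.le_card_cliqueFinset`, `card_triangles`,
`triangleRemovalBound_pos`, and `t.card ≤ M ^ 2`. -/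
theorem rs (δ : ℝ) (hδ : 0 < δ) : ∃ M0 : ℕ, ∀ M : ℕ, M0 ≤ M →
    ∀ t : Finset (Fin M × Fin M × Fin M), Latin t → δ * (M : ℝ) ^ 2 ≤ t.card →
      ∃ a a' b b' c c' : Fin M, a ≠ a' ∧ b ≠ b' ∧ c ≠ c' ∧
        (a', b, c) ∈ t ∧ (a, b', c) ∈ t ∧ (a, b, c') ∈ t := by
  have hb := SimpleGraph.triangleRemovalBound_pos (by positivity : 0 < δ / 9)
  refine ⟨⌈(SimpleGraph.triangleRemovalBound (δ / 9) * 27)⁻¹⌉₊ + 1, fun M hM t hL ht => ?_⟩
  by_contra hh
  haveI : SimpleGraph.TripartiteFromTriangles.ExplicitDisjoint t := by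
    constructor
    · intro a b c a' h1 h2
      exact congrArg Prod.fst (hL _ h1 _ h2 (Or.inr (Or.inr ⟨rfl, rfl⟩)))
    · intro a b c b' h1 h2
      exact congrArg (fun u => u.2.1) (hL _ h1 _ h2 (Or.inr (Or.inl ⟨rfl, rfl⟩)))
    · intro a b c c' h1 h2
      exact congrArg (fun u => u.2.2) (hL _ h1 _ h2 (Or.inl ⟨rfl, rfl⟩))
  haveI : SimpleGraph.TripartiteFromTriangles.NoAccidental t := by
    constructor
    intro a a' b b' c c' h1 h2 h3
    by_contra h4
    simp only [not_or] at h4
    exact hh ⟨a, a', b, b', c, c', h4.1, h4.2.1, h4.2.2, h1, h2, h3⟩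
  have far : (SimpleGraph.TripartiteFromTriangles.graph t).FarFromTriangleFree (δ / 9) := by
    refine SimpleGraph.TripartiteFromTriangles.farFromTriangleFree _ ?_
    simp only [Fintype.card_fin]
    push_cast
    linarith
  have h1 := far.le_card_cliqueFinset
  rw [SimpleGraph.TripartiteFromTriangles.card_triangles] at h1
  simp only [Fintype.card_sum, Fintype.card_fin] at h1
  push_cast at h1
  have h2 : t.card ≤ M * M := by
    have := card_le_card_of_injOn (s := t) (t := (univ : Finset (Fin M × Fin M)))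
      (fun u => (u.1, u.2.1)) (fun _ _ => by simp)
      (fun u hu v hv e => hL u hu v hv (Or.inl (Prod.ext_iff.1 e)))
    simpa using this
  have h3 : (t.card : ℝ) ≤ M * M := by exact_mod_cast h2
  have h4 : (SimpleGraph.triangleRemovalBound (δ / 9) * 27)⁻¹ + 1 ≤ (M : ℝ) := by
    have : ((⌈(SimpleGraph.triangleRemovalBound (δ / 9) * 27)⁻¹⌉₊ + 1 : ℕ) : ℝ) ≤ M := by
      exact_mod_cast hM
    push_cast at this
    linarith [Nat.le_ceil (SimpleGraph.triangleRemovalBound (δ / 9) * 27)⁻¹]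
  generalize SimpleGraph.triangleRemovalBound (δ / 9) = b at *
  have h5 : (b * 27)⁻¹ < M := by linarith
  have M0 : (0 : ℝ) < M := lt_trans (by positivity) h5
  rw [inv_lt_iff_one_lt_mul₀' (by positivity)] at h5
  have h6 := mul_lt_mul_of_pos_right h5 (by positivity : (0 : ℝ) < M * M)
  nlinarith

end Pool.Agent.Lib.MP_990519_co.Big
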