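import Pool.Agent.Lib.MP_990519_co.Big.P1

namespace Pool.Agent.Lib.MP_990519_co.Big

open Finset
open scoped Classical ComplexConjugate

theorem p2_dec {M Q : ℕ} {u v : ℤ} (h1 : u / (M * Q : ℕ) = v / (M * Q : ℕ)) (h2 : u % Q = v % Q) :
    u - v = Q * (u % (M * Q : ℕ) / Q - v % (M * Q : ℕ) / Q) := by
  have d : (Q : ℤ) ∣ (M * Q : ℕ) := by push_cast; exact Dvd.intro_left _ rfl
  have a1 := Int.mul_ediv_add_emod u (M * Q : ℕ)
  have a2 := Int.mul_ediv_add_emod v (M * Q : ℕ)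
  have a3 := Int.mul_ediv_add_emod (u % (M * Q : ℕ)) Q
  have a4 := Int.mul_ediv_add_emod (v % (M * Q : ℕ)) Q
  rw [Int.emod_emod_of_dvd _ d] at a3 a4
  rw [h1] at a1
  linear_combination a2 - a1 + a4 - a3 + h2

theorem p2_pos {M Q : ℕ} (hM : 1 ≤ M) (hQ : 1 ≤ Q) (u : ℤ) :
    0 ≤ u % (M * Q : ℕ) / Q ∧ u % (M * Q : ℕ) / Q < M := by
  have L0 : (0 : ℤ) < (M * Q : ℕ) := by exact_mod_cast Nat.mul_pos hM hQ
  refine ⟨Int.ediv_nonneg (Int.emod_nonneg _ L0.ne') (by positivity),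
    Int.ediv_lt_of_lt_mul (by exact_mod_cast hQ) ?_⟩
  exact_mod_cast Int.emod_lt_of_pos u L0

theorem p2_cmp {T : Finset (Fin 3 → ℤ)} (hA : Anti T) {u v : Fin 3 → ℤ} (hu : u ∈ T) (hv : v ∈ T)
    (c : Fin 3) (h : ∀ c', c' ≠ c → u c' = v c') : u = v := by
  rcases le_total (u c) (v c) with l | l
  · exact hA u hu v hv fun c' => if e : c' = c then e ▸ l else (h c' e).le
  · exact (hA v hv u hu fun c' => if e : c' = c then e ▸ l else (h c' e).ge).symm

theorem p2_cell {M Q : ℕ} (hM : 1 ≤ M) (hQ : 1 ≤ Q) {T : Finset (Fin 3 → ℤ)} (hA : Anti T)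
    (C : (Fin 3 → ℤ) × (Fin 3 → ℤ)) :
    ((T.filter (fun u => ((fun c => u c / (M * Q : ℕ), fun c => u c % Q) :
      (Fin 3 → ℤ) × (Fin 3 → ℤ)) = C)).card : ℝ) ≤ (M : ℝ) ^ 3 ∧
    ∀ x : ℝ, (∀ t : Finset (Fin M × Fin M × Fin M), Latin t → x ≤ t.card →
      ∃ a a' b b' c c' : Fin M, a ≠ a' ∧ b ≠ b' ∧ c ≠ c' ∧
        (a', b, c) ∈ t ∧ (a, b', c) ∈ t ∧ (a, b, c') ∈ t) →
      x ≤ (T.filter (fun u => ((fun c => u c / (M * Q : ℕ), fun c => u c % Q) :
        (Fin 3 → ℤ) × (Fin 3 → ℤ)) = C)).card → ∃ τ d : Fin 3 → ℤ,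
        (∀ c, (Q : ℤ) ≤ |d c| ∧ |d c| ≤ (M * Q : ℕ)) ∧ (∀ c, τ + Pi.single c (d c) ∈ T) ∧
        ((fun c => (τ + Pi.single 0 (d 0) : Fin 3 → ℤ) c / (M * Q : ℕ),
          fun c => (τ + Pi.single 0 (d 0) : Fin 3 → ℤ) c % Q) : (Fin 3 → ℤ) × (Fin 3 → ℤ)) = C := by
  set F := T.filter (fun u => ((fun c => u c / (M * Q : ℕ), fun c => u c % Q) :
      (Fin 3 → ℤ) × (Fin 3 → ℤ)) = C) with hF
  obtain ⟨ps, hps⟩ : ∃ ps : ℤ → Fin M, ∀ u : ℤ, ((ps u : ℕ) : ℤ) = u % (M * Q : ℕ) / Q :=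
    ⟨fun u => ⟨(u % (M * Q : ℕ) / Q).toNat, by have := p2_pos hM hQ u; omega⟩,
      fun u => Int.toNat_of_nonneg (p2_pos hM hQ u).1⟩
  have df : ∀ u ∈ F, ∀ v ∈ F, ∀ c, u c - v c = Q * (((ps (u c) : ℕ) : ℤ) - (ps (v c) : ℕ)) := by
    intro u hu v hv c
    have e := (mem_filter.1 hu).2.trans (mem_filter.1 hv).2.symm
    rw [hps, hps]
    exact p2_dec (congrFun (congrArg Prod.fst e) c) (congrFun (congrArg Prod.snd e) c)
  have eq : ∀ u ∈ F, ∀ v ∈ F, ∀ c, ps (u c) = ps (v c) → u c = v c := by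
    intro u hu v hv c e
    have := df u hu v hv c
    rw [e] at this
    linarith
  have bd : ∀ u ∈ F, ∀ v ∈ F, ∀ c, ps (u c) ≠ ps (v c) →
      (Q : ℤ) ≤ |u c - v c| ∧ |u c - v c| ≤ (M * Q : ℕ) := by
    intro u hu v hv c e
    rw [df u hu v hv c, abs_mul, abs_of_nonneg (by positivity : (0 : ℤ) ≤ Q)]
    have h1 := (ps (u c)).is_lt
    have h2 := (ps (v c)).is_lt
    have h3 : (ps (u c) : ℕ) ≠ ps (v c) := fun e' => e (Fin.ext e')
    have h4 : 1 ≤ |((ps (u c) : ℕ) : ℤ) - (ps (v c) : ℕ)| := by rw [le_abs]; omega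
    have h5 : |((ps (u c) : ℕ) : ℤ) - (ps (v c) : ℕ)| ≤ M := by rw [abs_le]; omega
    have h6 : (0 : ℤ) ≤ Q := by positivity
    push_cast
    constructor <;> nlinarith
  have cd : (F.image (fun u => (ps (u 0), ps (u 1), ps (u 2)))).card = F.card := by
    refine card_image_of_injOn fun u hu v hv e => ?_
    simp only [Prod.mk.injEq] at e
    funext c
    fin_cases c
    · exact eq u hu v hv 0 e.1
    · exact eq u hu v hv 1 e.2.1
    · exact eq u hu v hv 2 e.2.2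
  refine ⟨?_, fun x hx hc => ?_⟩
  · rw [← cd]
    have := card_le_univ (F.image (fun u => (ps (u 0), ps (u 1), ps (u 2))))
    simp only [Fintype.card_prod, Fintype.card_fin] at this
    have h2 : (((F.image (fun u => (ps (u 0), ps (u 1), ps (u 2)))).card : ℕ) : ℝ) ≤
      M * (M * M) := by exact_mod_cast this
    linarith
  obtain ⟨a, a', b, b', c, c', n1, n2, n3, m1, m2, m3⟩ := hx _ (by
    intro p hp q hq h
    obtain ⟨u, hu, rfl⟩ := mem_image.1 hp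
    obtain ⟨v, hv, rfl⟩ := mem_image.1 hq
    have : u = v := by
      rcases h with h | h | h
      · refine p2_cmp hA (mem_filter.1 hu).1 (mem_filter.1 hv).1 2 fun c' e => ?_
        fin_cases c'
        exacts [eq u hu v hv 0 h.1, eq u hu v hv 1 h.2, absurd rfl e]
      · refine p2_cmp hA (mem_filter.1 hu).1 (mem_filter.1 hv).1 1 fun c' e => ?_
        fin_cases c'
        exacts [eq u hu v hv 0 h.1, absurd rfl e, eq u hu v hv 2 h.2]
      · refine p2_cmp hA (mem_filter.1 hu).1 (mem_filter.1 hv).1 0 fun c' e => ?_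
        fin_cases c'
        exacts [absurd rfl e, eq u hu v hv 1 h.1, eq u hu v hv 2 h.2]
    rw [this]) (cd ▸ hc)
  obtain ⟨u1, h1, e1⟩ := mem_image.1 m1
  obtain ⟨u2, h2, e2⟩ := mem_image.1 m2
  obtain ⟨u3, h3, e3⟩ := mem_image.1 m3
  simp only [Prod.mk.injEq] at e1 e2 e3
  have k1 := eq u1 h1 u2 h2 2 (e1.2.2.trans e2.2.2.symm)
  have k2 := eq u2 h2 u3 h3 0 (e2.1.trans e3.1.symm)
  have k3 := eq u1 h1 u3 h3 1 (e1.2.1.trans e3.2.1.symm)
  have s0 : (![u2 0, u1 1, u1 2] + Pi.single 0 (u1 0 - u2 0) : Fin 3 → ℤ) = u1 := by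
    funext i; fin_cases i <;> simp
  have s1 : (![u2 0, u1 1, u1 2] + Pi.single 1 (u2 1 - u1 1) : Fin 3 → ℤ) = u2 := by
    funext i; fin_cases i <;> simp [k1]
  have s2 : (![u2 0, u1 1, u1 2] + Pi.single 2 (u3 2 - u1 2) : Fin 3 → ℤ) = u3 := by
    funext i; fin_cases i <;> simp [k2, k3]
  refine ⟨![u2 0, u1 1, u1 2], ![u1 0 - u2 0, u2 1 - u1 1, u3 2 - u1 2], fun i => ?_, fun i => ?_,
    ?_⟩
  · fin_cases i
    · exact bd u1 h1 u2 h2 0 (by rw [e1.1, e2.1]; exact n1.symm)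
    · exact bd u2 h2 u1 h1 1 (by rw [e1.2.1, e2.2.1]; exact n2.symm)
    · exact bd u3 h3 u1 h1 2 (by rw [e1.2.2, e3.2.2]; exact n3.symm)
  · fin_cases i
    · exact Set.mem_of_eq_of_mem (s := (T : Set _)) s0 (mem_filter.1 h1).1
    · exact Set.mem_of_eq_of_mem (s := (T : Set _)) s1 (mem_filter.1 h2).1
    · exact Set.mem_of_eq_of_mem (s := (T : Set _)) s2 (mem_filter.1 h3).1
  · have := (mem_filter.1 h1).2
    rw [← s0] at this
    exact this

theorem p2_cells {M Q N : ℕ} (hM : 1 ≤ M) (hQ : 1 ≤ Q) (hN : M * Q ≤ N) {T : Finset (Fin 3 → ℤ)}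
    (hA : Anti T) (hC : InCube T N) :
    ((T.image (fun u => ((fun c => u c / (M * Q : ℕ), fun c => u c % Q) :
      (Fin 3 → ℤ) × (Fin 3 → ℤ)))).card : ℝ) * M ^ 2 ≤ 25 * Q * N ^ 2 := by
  obtain ⟨l, hl⟩ := hC
  have L0 : (0 : ℤ) < (M * Q : ℕ) := by exact_mod_cast Nat.mul_pos hM hQ
  have Q0 : (0 : ℤ) < Q := by exact_mod_cast hQ
  set K : ℕ := N / (M * Q) + 1 with hK
  have K1 : N < M * Q * K := by
    rw [hK]; exact Nat.lt_mul_div_succ N (Nat.mul_pos hM hQ)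
  have K2 : M * Q * K ≤ 2 * N := by
    have := Nat.mul_div_le N (M * Q)
    rw [hK, mul_add]; omega
  have lt : ∀ a b : ℤ, ∀ s : ℤ, b / (M * Q : ℕ) + s < a / (M * Q : ℕ) →
      b + (M * Q : ℕ) * s < a := by
    intro a b s h
    have a1 := Int.mul_ediv_add_emod a (M * Q : ℕ)
    have a2 := Int.mul_ediv_add_emod b (M * Q : ℕ)
    have a3 := Int.emod_nonneg a L0.ne'
    have a4 := Int.emod_lt_of_pos b L0
    have a5 := mul_le_mul_of_nonneg_left (Int.add_one_le_of_lt h) L0.le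
    linarith
  have bd : ∀ u ∈ T, ∀ c c', u c / (M * Q : ℕ) - u c' / (M * Q : ℕ) ≤ K := by
    intro u hu c c'
    by_contra hh
    have h1 := lt (u c) (u c') K (by linarith)
    have h2 : (N : ℤ) < (M * Q : ℕ) * K := by exact_mod_cast K1
    linarith [(hl u hu c).2, (hl u hu c').1]
  have := card_le_card_of_injOn (s := T.image (fun u => ((fun c => u c / (M * Q : ℕ),
      fun c => u c % Q) : (Fin 3 → ℤ) × (Fin 3 → ℤ))))
    (t := Icc (-(K : ℤ)) K ×ˢ Icc (-(K : ℤ)) K ×ˢ Fintype.piFinset (fun _ : Fin 3 => Ico (0 : ℤ) Q))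
    (fun C => (C.1 0 - C.1 2, C.1 1 - C.1 2, C.2)) (by
      intro C hC
      obtain ⟨u, hu, rfl⟩ := mem_image.1 hC
      simp only [coe_product, Set.mem_prod, mem_coe, mem_Icc, Fintype.mem_piFinset, mem_Ico]
      exact ⟨⟨by linarith [bd u hu 2 0], bd u hu 0 2⟩, ⟨by linarith [bd u hu 2 1], bd u hu 1 2⟩,
        fun c => ⟨Int.emod_nonneg _ Q0.ne', Int.emod_lt_of_pos _ Q0⟩⟩) (by
      intro C hC C' hC' e
      obtain ⟨u, hu, rfl⟩ := mem_image.1 hC
      obtain ⟨v, hv, rfl⟩ := mem_image.1 hC'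
      simp only [Prod.mk.injEq] at e ⊢
      obtain ⟨e0, e1, e2⟩ := e
      refine ⟨?_, e2⟩
      rcases lt_trichotomy (u 2 / (M * Q : ℕ)) (v 2 / (M * Q : ℕ)) with h | h | h
      · have : u = v := hA u hu v hv fun c => by
          fin_cases c
          · simpa using (lt (v 0) (u 0) 0 (by linarith)).le
          · simpa using (lt (v 1) (u 1) 0 (by linarith)).le
          · simpa using (lt (v 2) (u 2) 0 (by linarith)).le
        rw [this]
      · funext c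
        fin_cases c
        · show u 0 / _ = v 0 / _
          linarith
        · show u 1 / _ = v 1 / _
          linarith
        · exact h
      · have : v = u := hA v hv u hu fun c => by
          fin_cases c
          · simpa using (lt (u 0) (v 0) 0 (by linarith)).le
          · simpa using (lt (u 1) (v 1) 0 (by linarith)).le
          · simpa using (lt (u 2) (v 2) 0 (by linarith)).le
        rw [this])
  rw [card_product, card_product, Fintype.card_piFinset, prod_const, card_univ, Fintype.card_fin,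
    Int.card_Icc, Int.card_Ico] at this
  have e1 : ((K : ℤ) + 1 - -(K : ℤ)).toNat = 2 * K + 1 := by omega
  have e2 : ((Q : ℤ) - 0).toNat = Q := by omega
  rw [e1, e2] at this
  have k3 : (2 * K + 1) * (M * Q) ≤ 5 * N := by nlinarith
  have k4 := Nat.mul_le_mul k3 k3
  have k5 := Nat.mul_le_mul_right (M ^ 2) this
  have k6 := Nat.mul_le_mul_left Q k4
  have k7 : (2 * K + 1) * ((2 * K + 1) * Q ^ 3) * M ^ 2 ≤ 25 * Q * N ^ 2 := by nlinarith
  exact_mod_cast k5.trans k7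

/-- paper 2.2.  `T'` lies in the same cube (each coordinate of `τ` is a coordinate of a point of
`T`) and is an antichain (a translate of a subset of `T`).  A cell is given by
`(⌊u c / (M Q)⌋, u c mod Q)` for `c = 0, 1, 2`; inside a cell the point is determined by
`(u c mod (M Q)) / Q ∈ Fin M`.  See the paper for the counts. -/
theorem step (δ : ℝ) (hδ : 0 < δ) (Q : ℕ) (hQ : 1 ≤ Q) : ∃ δ' : ℝ, 0 < δ' ∧ ∃ D N0 : ℕ,
    ∀ N : ℕ, N0 ≤ N → ∀ T : Finset (Fin 3 → ℤ), Anti T → InCube T N → δ * (N : ℝ) ^ 2 ≤ T.card →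
      ∃ d : Fin 3 → ℤ, (∀ c, (Q : ℤ) ≤ |d c| ∧ |d c| ≤ D) ∧ ∃ T' : Finset (Fin 3 → ℤ),
        Anti T' ∧ InCube T' N ∧ δ' * (N : ℝ) ^ 2 ≤ T'.card ∧
          ∀ τ ∈ T', ∀ c, τ + Pi.single c (d c) ∈ T := by
  have Q0 : (0 : ℝ) < Q := by exact_mod_cast hQ
  obtain ⟨M0, hM0⟩ := rs (δ / (50 * Q)) (by positivity)
  obtain ⟨M, hM, M1⟩ : ∃ M : ℕ, M0 ≤ M ∧ 1 ≤ M := ⟨M0 + 1, by omega, by omega⟩
  have Mr : (0 : ℝ) < M := by exact_mod_cast M1
  refine ⟨δ / (2 * M ^ 3 * (2 * (M * Q) + 1) ^ 3), by positivity, M * Q, M * Q,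
    fun N hN T hA hC hT => ?_⟩
  have Nr : (M : ℝ) * Q ≤ N := by exact_mod_cast hN
  have N0 : (0 : ℝ) < N := lt_of_lt_of_le (by positivity) Nr
  set cell : (Fin 3 → ℤ) → (Fin 3 → ℤ) × (Fin 3 → ℤ) :=
    fun u => (fun c => u c / (M * Q : ℕ), fun c => u c % Q) with hcell
  have c1 : ((T.image cell).card : ℝ) * M ^ 2 ≤ 25 * Q * N ^ 2 := p2_cells M1 hQ hN hA hC
  set F : (Fin 3 → ℤ) × (Fin 3 → ℤ) → Finset (Fin 3 → ℤ) := fun C => T.filter (fun u => cell u = C)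
    with hF
  set De := (T.image cell).filter (fun C => δ / (50 * Q) * (M : ℝ) ^ 2 ≤ (F C).card) with hDe
  have c2 : δ * (N : ℝ) ^ 2 / 2 ≤ De.card * (M : ℝ) ^ 3 := by
    have e1 : (T.card : ℝ) = ∑ C ∈ T.image cell, ((F C).card : ℝ) := by
      exact_mod_cast card_eq_sum_card_image cell T
    rw [← sum_filter_add_sum_filter_not _ (fun C => δ / (50 * Q) * (M : ℝ) ^ 2 ≤ (F C).card),
      ← hDe] at e1
    have e2 : ∑ C ∈ De, ((F C).card : ℝ) ≤ De.card * (M : ℝ) ^ 3 := by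
      rw [← nsmul_eq_mul]
      exact sum_le_card_nsmul _ _ _ fun C _ => (p2_cell M1 hQ hA C).1
    have e3 : ∑ C ∈ (T.image cell).filter
        (fun C => ¬ δ / (50 * Q) * (M : ℝ) ^ 2 ≤ (F C).card), ((F C).card : ℝ) ≤
        (T.image cell).card * (δ / (50 * Q) * (M : ℝ) ^ 2) := by
      refine (sum_le_card_nsmul _ _ _ fun C hC => (not_le.1 (mem_filter.1 hC).2).le).trans ?_
      rw [nsmul_eq_mul]
      exact mul_le_mul_of_nonneg_right (by exact_mod_cast card_filter_le _ _) (by positivity)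
    have e4 := mul_le_mul_of_nonneg_left c1 (by positivity : 0 ≤ δ / (50 * Q))
    have e5 : δ / (50 * Q) * (25 * Q * N ^ 2) = δ * (N : ℝ) ^ 2 / 2 := by field_simp; ring
    linarith
  have c3 : ∀ C, ∃ τ d : Fin 3 → ℤ, C ∈ De →
      (∀ c, (Q : ℤ) ≤ |d c| ∧ |d c| ≤ (M * Q : ℕ)) ∧ (∀ c, τ + Pi.single c (d c) ∈ T) ∧
        cell (τ + Pi.single 0 (d 0)) = C := by
    intro C
    by_cases h : C ∈ De
    · obtain ⟨τ, d, hd⟩ := (p2_cell M1 hQ hA C).2 _ (hM0 M hM) (mem_filter.1 h).2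
      exact ⟨τ, d, fun _ => hd⟩
    · exact ⟨0, 0, fun h' => absurd h' h⟩
  choose τ d hd using c3
  obtain ⟨d0, _, h0⟩ := exists_le_card_fiber_of_nsmul_le_card_of_maps_to (s := De)
    (t := Fintype.piFinset (fun _ : Fin 3 => Icc (-((M * Q : ℕ) : ℤ)) (M * Q : ℕ))) (f := d)
    (b := δ / (2 * M ^ 3 * (2 * (M * Q) + 1) ^ 3) * (N : ℝ) ^ 2)
    (fun C hC => Fintype.mem_piFinset.2 fun c => mem_Icc.2 (abs_le.1 ((hd C hC).1 c).2))
    ⟨0, Fintype.mem_piFinset.2 fun c => mem_Icc.2 ⟨by simp; positivity, by simp; positivity⟩⟩ (by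
      rw [Fintype.card_piFinset, prod_const, card_univ, Fintype.card_fin, Int.card_Icc,
        nsmul_eq_mul]
      have : (((M * Q : ℕ) : ℤ) + 1 - -((M * Q : ℕ) : ℤ)).toNat = 2 * (M * Q) + 1 := by omega
      rw [this]
      push_cast
      refine le_of_mul_le_mul_right (le_trans (le_of_eq ?_) c2) (by positivity : (0 : ℝ) < M ^ 3)
      field_simp)
  have hne : (De.filter (fun C => d C = d0)).Nonempty := by
    rw [← card_pos]
    have : (0 : ℝ) < (De.filter (fun C => d C = d0)).card := lt_of_lt_of_le (by positivity) h0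
    exact_mod_cast this
  have mem : ∀ t ∈ (De.filter (fun C => d C = d0)).image τ, ∀ c, t + Pi.single c (d0 c) ∈ T := by
    intro t ht
    obtain ⟨C, hC', rfl⟩ := mem_image.1 ht
    obtain ⟨a, rfl⟩ := mem_filter.1 hC'
    exact (hd C a).2.1
  refine ⟨d0, ?_, (De.filter (fun C => d C = d0)).image τ, ?_, ?_, ?_, mem⟩
  · obtain ⟨C, hC'⟩ := hne
    obtain ⟨a, rfl⟩ := mem_filter.1 hC'
    exact (hd C a).1
  · intro u hu v hv huv
    exact add_right_cancel (hA _ (mem u hu 0) _ (mem v hv 0) (add_le_add_left huv _))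
  · obtain ⟨l, hl⟩ := hC
    refine ⟨l, fun u hu c => ?_⟩
    have := hl _ (mem u hu (c + 1)) c
    rwa [Pi.add_apply, Pi.single_eq_of_ne (by fin_cases c <;> decide), add_zero] at this
  · rw [card_image_of_injOn]
    · exact h0
    · intro C hC1 C' hC2 e
      obtain ⟨a, a'⟩ := mem_filter.1 hC1
      obtain ⟨b, b'⟩ := mem_filter.1 hC2
      rw [← (hd C a).2.2, ← (hd C' b).2.2, e, a', b']

end Pool.Agent.Lib.MP_990519_co.Big
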