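import Pool.Agent.Lib.MP_990519_co.Big.P2

namespace Pool.Agent.Lib.MP_990519_co.Big

open Finset
open scoped Classical ComplexConjugate

theorem p3a_aux (k : ℕ) (δ : ℝ) (hδ : 0 < δ) : ∃ δ' : ℝ, 0 < δ' ∧ ∃ D N0 : ℕ, ∀ N : ℕ, N0 ≤ N →
    ∀ T : Finset (Fin 3 → ℤ), Anti T → InCube T N → δ * (N : ℝ) ^ 2 ≤ T.card →
      ∃ d : Fin k → Fin 3 → ℤ, (∀ c, ∑ s, |d s c| ≤ D) ∧
        (∀ c, ∀ a b : Fin k → Prop, (∑ s, if a s then d s c else 0) =
          (∑ s, if b s then d s c else 0) → ∀ s, a s ↔ b s) ∧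
        ∃ T' : Finset (Fin 3 → ℤ), Anti T' ∧ InCube T' N ∧ δ' * (N : ℝ) ^ 2 ≤ T'.card ∧
          ∀ τ ∈ T', ∀ χ : Fin k → Fin 3, τ + ∑ s, Pi.single (χ s) (d s (χ s)) ∈ T := by
  induction k with
  | zero =>
    exact ⟨δ, hδ, 0, 0, fun N _ T hA hC hT => ⟨fun s => s.elim0, by simp, fun _ _ _ _ s => s.elim0,
      T, hA, hC, hT, fun τ hτ χ => by simpa using hτ⟩⟩
  | succ k ih =>
    obtain ⟨δ1, h1, D1, N1, ih⟩ := ih
    obtain ⟨δ2, h2, D2, N2, hs⟩ := step δ1 h1 (D1 + 1) (by omega)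
    refine ⟨δ2, h2, D2 + D1, N1 + N2, fun N hN T hA hC hT => ?_⟩
    obtain ⟨d, d1, d2, T1, t1, t2, t3, t4⟩ := ih N (by omega) T hA hC hT
    obtain ⟨e, e1, T2, s1, s2, s3, s4⟩ := hs N (by omega) T1 t1 t2 t3
    refine ⟨Fin.cons e d, fun c => ?_, fun c a b h => ?_, T2, s1, s2, s3, fun τ hτ χ => ?_⟩
    · rw [Fin.sum_univ_succ]
      simp only [Fin.cons_zero, Fin.cons_succ]
      push_cast
      linarith [d1 c, (e1 c).2]
    · rw [Fin.sum_univ_succ, Fin.sum_univ_succ] at h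
      simp only [Fin.cons_zero, Fin.cons_succ] at h
      have b1 : |(∑ s : Fin k, if a s.succ then d s c else 0) -
          ∑ s : Fin k, if b s.succ then d s c else 0| ≤ D1 := by
        rw [← sum_sub_distrib]
        refine (abs_sum_le_sum_abs _ _).trans (le_trans (sum_le_sum fun s _ => ?_) (d1 c))
        split_ifs <;> simp
      have b2 := (e1 c).1
      push_cast at b2
      have b3 : a 0 ↔ b 0 := by
        rw [abs_le] at b1
        rw [le_abs] at b2
        by_cases p : a 0 <;> by_cases q : b 0 <;> simp only [p, q, if_true, if_false] at h ⊢ <;>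
          omega
      have b4 := d2 c (fun s => a s.succ) (fun s => b s.succ) (by
        simp only [b3] at h
        exact add_left_cancel h)
      intro s
      exact Fin.cases b3 b4 s
    · rw [Fin.sum_univ_succ, ← add_assoc]
      simp only [Fin.cons_zero, Fin.cons_succ]
      exact t4 _ (s4 τ hτ (χ 0)) (fun s => χ s.succ)

/-- paper 2.3 on the integer lattice.  Induction on `k` with the stronger statement: there are
`δ' > 0`, `D`, `N0`, and for each `T` vectors `d s` (`s : Fin k`) with `∑ s, |d s c| ≤ D`,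
`I ↦ ∑ s ∈ I, d s c` injective, and an antichain `T'` in the cube, `δ' N² ≤ T'.card`, with
`τ + ∑ s, Pi.single (χ s) (d s (χ s)) ∈ T` for all `τ ∈ T'` and `χ`.  Step: `step δ' (D + 1)`. -/
theorem pat_int (k : ℕ) (δ : ℝ) (hδ : 0 < δ) : ∃ N0 : ℕ, ∀ N : ℕ, N0 ≤ N →
    ∀ T : Finset (Fin 3 → ℤ), Anti T → InCube T N → δ * (N : ℝ) ^ 2 ≤ T.card →
      ∃ y x z : Finset (Fin k) → ℤ, Function.Injective y ∧ Function.Injective x ∧
        Function.Injective z ∧
          ∀ χ : Fin k → Fin 3, ![y (st χ 0), x (st χ 1), z (st χ 2)] ∈ T := by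
  obtain ⟨δ', h0, D, N0, h⟩ := p3a_aux k δ hδ
  refine ⟨N0 + 1, fun N hN T hA hC hT => ?_⟩
  obtain ⟨d, _, d2, T', _, _, t3, t4⟩ := h N (by omega) T hA hC hT
  have N1 : (0 : ℝ) < N := by exact_mod_cast (by omega : 0 < N)
  have : (0 : ℝ) < T'.card := lt_of_lt_of_le (by positivity) t3
  obtain ⟨τ, hτ⟩ := card_pos.1 (by exact_mod_cast this : 0 < T'.card)
  have inj : ∀ c, Function.Injective
      (fun I : Finset (Fin k) => τ c + ∑ s, if s ∈ I then d s c else 0) := by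
    intro c I J e
    have := d2 c (fun s => s ∈ I) (fun s => s ∈ J) (by convert add_left_cancel e)
    ext s
    exact this s
  refine ⟨_, _, _, inj 0, inj 1, inj 2, fun χ => ?_⟩
  convert t4 τ hτ χ using 1
  have e : ∀ c, (τ + ∑ s, Pi.single (χ s) (d s (χ s)) : Fin 3 → ℤ) c =
      τ c + ∑ s, if s ∈ st χ c then d s c else 0 := by
    intro c
    rw [Pi.add_apply, Finset.sum_apply]
    congr 1
    refine sum_congr rfl fun s _ => ?_
    by_cases hs : χ s = c
    · subst hs; simp [st]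
    · rw [Pi.single_eq_of_ne' hs]; simp [st, hs]
  funext c
  rw [e]
  fin_cases c <;> rfl

end Pool.Agent.Lib.MP_990519_co.Big
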