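import Pool.Agent.Lib.MP_990519_co.Big.Defs

namespace Pool.Agent.Lib.MP_990519_co.Big

open Finset
open scoped Classical ComplexConjugate

theorem Nor.mono {nr : ℂ → ℂ} {om om' : ℝ} {x w : ℂ} (h : Nor nr om x w) (hle : om ≤ om') :
    Nor nr om' x w := le_trans h hle

theorem r2a_norm_dir {v : ℂ} (hv : v ≠ 0) : ‖dir v‖ = 1 := by
  unfold dir
  rw [norm_div, Complex.norm_real, norm_norm, div_self (norm_ne_zero_iff.2 hv)]

theorem r2a_eq {v : ℂ} (hv : v ≠ 0) : (‖v‖ : ℂ) * dir v = v := by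
  unfold dir
  exact mul_div_cancel₀ _ (by exact_mod_cast norm_ne_zero_iff.2 hv)

theorem r2a_sq (v : ℂ) : ‖v‖ ^ 2 = v.re ^ 2 + v.im ^ 2 := by
  rw [Complex.sq_norm, Complex.normSq_apply]
  ring

/-- the cross product -/
def r2a_cr (u v : ℂ) : ℝ := u.re * v.im - u.im * v.re

theorem r2a_lag (u v : ℂ) : dot u v ^ 2 + r2a_cr u v ^ 2 = (‖u‖ * ‖v‖) ^ 2 := by
  rw [mul_pow, r2a_sq, r2a_sq]
  unfold dot r2a_cr
  ring

theorem r2a_dot_le (u v : ℂ) : |dot u v| ≤ ‖u‖ * ‖v‖ :=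
  abs_le_of_sq_le_sq' (by nlinarith [r2a_lag u v, sq_nonneg (r2a_cr u v)]) (by positivity)
    |> abs_le.2

theorem r2a_cr_le (u v : ℂ) : |r2a_cr u v| ≤ ‖u‖ * ‖v‖ :=
  abs_le_of_sq_le_sq' (by nlinarith [r2a_lag u v, sq_nonneg (dot u v)]) (by positivity)
    |> abs_le.2

theorem r2a_unit {e f : ℂ} {ρ r : ℝ} (he : ‖e‖ = 1) (hf : ‖f‖ = 1) (hρ : 0 < ρ) (hr : 0 ≤ r)
    (h : ‖(r : ℂ) * f - ρ * e‖ = r) : ‖(ρ : ℂ) * e - 2 * (r * f)‖ ≤ 2 * r * ‖f - e‖ := by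
  have h1 := r2a_sq e
  have h2 := r2a_sq f
  have h3 := r2a_sq ((r : ℂ) * f - ρ * e)
  have h4 := r2a_sq (f - e)
  have h5 := r2a_sq ((ρ : ℂ) * e - 2 * (r * f))
  rw [he] at h1
  rw [hf] at h2
  rw [h] at h3
  simp only [Complex.sub_re, Complex.sub_im, Complex.mul_re, Complex.mul_im, Complex.ofReal_re,
    Complex.ofReal_im, zero_mul, sub_zero, add_zero, Complex.re_ofNat, Complex.im_ofNat] at h3 h4 h5
  have h6 : ρ = 2 * r * (e.re * f.re + e.im * f.im) := by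
    refine mul_left_cancel₀ hρ.ne' ?_
    linear_combination (-1 : ℝ) * h3 + r ^ 2 * h2 + ρ ^ 2 * h1
  refine (abs_le_of_sq_le_sq' ?_ (by positivity)).2
  have h7 : ‖f - e‖ ^ 2 = 2 - 2 * (e.re * f.re + e.im * f.im) := by
    rw [h4]
    linear_combination (-1 : ℝ) * h1 - h2
  have h8 : ‖(ρ : ℂ) * e - 2 * (r * f)‖ ^ 2 =
      4 * r ^ 2 * (1 - (e.re * f.re + e.im * f.im) ^ 2) := by
    rw [h5]
    linear_combination (-(ρ ^ 2)) * h1 - 4 * r ^ 2 * h2 +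
      (ρ - 2 * r * (e.re * f.re + e.im * f.im)) * h6
  rw [mul_pow, h7, h8]
  nlinarith [mul_nonneg (sq_nonneg r) (sq_nonneg (e.re * f.re + e.im * f.im - 1))]

/-- paper 5.4 (f1): with `e = dir (z - x)`, `a = y - x` one has `z - x = 2 (e · a) e` -/
theorem flat1 {nr : ℂ → ℂ} {om : ℝ} {x y z : ℂ} (hxz : x ≠ z) (hd : dist y x = dist y z)
    (h1 : Nor nr om x y) (h2 : Nor nr om x z) : ‖z - (2 * y - x)‖ ≤ 8 * om * dist y x := by
  have hc : z - x ≠ 0 := sub_ne_zero.2 hxz.symm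
  rw [dist_eq_norm, dist_eq_norm] at hd
  have ha : y - x ≠ 0 := fun e => by
    rw [e, norm_zero, eq_comm, norm_eq_zero, sub_eq_zero] at hd
    exact hc (hd ▸ e)
  have h3 := r2a_unit (r2a_norm_dir hc) (r2a_norm_dir ha) (norm_pos_iff.2 hc) (norm_nonneg (y - x))
    (by rw [r2a_eq hc, r2a_eq ha, sub_sub_sub_cancel_right, hd])
  rw [r2a_eq hc, r2a_eq ha] at h3
  have h4 : ‖dir (y - x) - dir (z - x)‖ ≤ 2 * om := by
    have h5 := norm_sub_le_norm_sub_add_norm_sub (dir (y - x)) (nr x) (dir (z - x))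
    rw [norm_sub_rev (nr x)] at h5
    unfold Nor at h1 h2
    linarith
  have h6 : 0 ≤ om := (norm_nonneg _).trans h1
  have h7 : z - (2 * y - x) = z - x - 2 * (y - x) := by ring
  rw [h7, dist_eq_norm]
  nlinarith [mul_le_mul_of_nonneg_left h4 (norm_nonneg (y - x)), mul_nonneg h6 (norm_nonneg (y - x))]

/-- a vector in the cone of two close directions has a close direction -/
theorem dir_cone {a b v : ℂ} {α β t : ℝ} (ha : a ≠ 0) (hb : b ≠ 0) (hv : v ≠ 0) (hα : 0 ≤ α)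
    (hβ : 0 ≤ β) (h : v = α * a + β * b) (ht : ‖dir a - dir b‖ ≤ t) :
    ‖dir v - dir a‖ ≤ 2 * t := by
  have hp : 0 ≤ α * ‖a‖ := by positivity
  have hq : 0 ≤ β * ‖b‖ := by positivity
  have ht0 : 0 ≤ t := (norm_nonneg _).trans ht
  have e1 : v = ((α * ‖a‖ : ℝ) : ℂ) * dir a + ((β * ‖b‖ : ℝ) : ℂ) * dir b := by
    push_cast
    rw [mul_assoc, mul_assoc, r2a_eq ha, r2a_eq hb, h]
  generalize α * ‖a‖ = p at hp e1
  generalize β * ‖b‖ = q at hq e1
  have hm : 0 < p + q := by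
    refine lt_of_le_of_ne (add_nonneg hp hq) fun e => hv ?_
    have h1 : p = 0 := by linarith
    have h2 : q = 0 := by linarith
    rw [e1, h1, h2]
    simp
  have h1 : ‖v - ((p + q : ℝ) : ℂ) * dir a‖ ≤ (p + q) * t := by
    have e2 : v - ((p + q : ℝ) : ℂ) * dir a = -(q : ℂ) * (dir a - dir b) := by
      rw [e1]
      push_cast
      ring
    rw [e2, norm_mul, norm_neg, Complex.norm_real, Real.norm_of_nonneg hq]
    gcongr
    linarith
  have h2 : |p + q - ‖v‖| ≤ (p + q) * t := by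
    have h3 := abs_norm_sub_norm_le (((p + q : ℝ) : ℂ) * dir a) v
    rw [norm_mul, r2a_norm_dir ha, mul_one, Complex.norm_real, Real.norm_of_nonneg hm.le,
      norm_sub_rev] at h3
    exact h3.trans h1
  have e3 : ((p + q : ℝ) : ℂ) * (dir v - dir a) =
      ((p + q - ‖v‖ : ℝ) : ℂ) * dir v + (v - ((p + q : ℝ) : ℂ) * dir a) := by
    push_cast
    linear_combination r2a_eq hv
  have h4 : (p + q) * ‖dir v - dir a‖ ≤ (p + q) * (2 * t) := by
    have h5 := norm_add_le (((p + q - ‖v‖ : ℝ) : ℂ) * dir v) (v - ((p + q : ℝ) : ℂ) * dir a)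
    rw [← e3, norm_mul, norm_mul, r2a_norm_dir hv, mul_one, Complex.norm_real, Complex.norm_real,
      Real.norm_of_nonneg hm.le, Real.norm_eq_abs] at h5
    linarith
  exact le_of_mul_le_mul_left h4 hm

theorem r2a_tie {nr : ℂ → ℂ} {om : ℝ} {x y z : ℂ} (hxz : x ≠ z) (hd : dist y x = dist y z)
    (h1 : Nor nr om x y) (h2 : Nor nr om x z) :
    y - x ≠ 0 ∧ z - y ≠ 0 ∧ ‖dir (y - x) - dir (z - y)‖ ≤ 8 * om := by
  have h3 := flat1 hxz hd h1 h2
  rw [dist_eq_norm] at h3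
  rw [dist_eq_norm, dist_eq_norm, norm_sub_rev y z] at hd
  have ha : y - x ≠ 0 := fun e => by
    rw [e, norm_zero, eq_comm, norm_eq_zero, sub_eq_zero] at hd
    exact hxz ((sub_eq_zero.1 e).symm.trans hd.symm)
  have hp := norm_pos_iff.2 ha
  refine ⟨ha, norm_pos_iff.1 (hd ▸ hp), ?_⟩
  unfold dir
  rw [← hd, ← sub_div, norm_div, Complex.norm_real, norm_norm, div_le_iff₀ hp, norm_sub_rev]
  have e : z - y - (y - x) = z - (2 * y - x) := by ring
  rwa [e]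

theorem r2a_cone {x' y z z' : ℂ} {s t : ℝ} (ha : y - x' ≠ 0) (hb : z - y ≠ 0) (hb' : z' - y ≠ 0)
    (h1 : 0 < s * ori x' y z') (h2 : 0 < s * ori x' y z) (h3 : 0 ≤ s * ori y z z')
    (ht : ‖dir (y - x') - dir (z' - y)‖ ≤ t) : ‖dir (z - y) - dir (y - x')‖ ≤ 2 * t := by
  refine dir_cone ha hb' hb (div_nonneg h3 h1.le) (div_nonneg h2.le h1.le) ?_ ht
  have h4 : ((s * ori x' y z' : ℝ) : ℂ) ≠ 0 := by exact_mod_cast h1.ne'
  rw [Complex.ofReal_div, Complex.ofReal_div, div_mul_eq_mul_div, div_mul_eq_mul_div, ← add_div,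
    eq_div_iff h4]
  apply Complex.ext <;>
    simp only [Complex.add_re, Complex.add_im, Complex.sub_re, Complex.sub_im, Complex.mul_re,
      Complex.mul_im, Complex.ofReal_re, Complex.ofReal_im, ori] <;> ring

theorem r2a_end {a a' n n' : ℂ} {om : ℝ} (ha : a ≠ 0) (ha' : a' ≠ 0) (hom : om ≤ 1 / 100)
    (h1 : ‖dir a - n‖ ≤ om) (h2 : ‖dir a' - n'‖ ≤ om) (h3 : ‖dir a - dir a'‖ ≤ 24 * om)
    (h4 : 0 ≤ dot n (a - a')) (h5 : 0 ≤ dot n' (a' - a)) : ‖a' - a‖ ≤ 48 * om * ‖a‖ := by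
  have h0 : 0 ≤ om := (norm_nonneg _).trans h1
  have hv := norm_nonneg (a' - a)
  have d1 := (abs_le.1 ((r2a_dot_le (dir a - n) (a' - a)).trans
    (mul_le_mul_of_nonneg_right h1 hv))).2
  have d2 := (abs_le.1 ((r2a_dot_le (dir a' - n') (a' - a)).trans
    (mul_le_mul_of_nonneg_right h2 hv))).1
  have d3 := (abs_le.1 ((r2a_dot_le (dir a - dir a') (a' - a)).trans
    (mul_le_mul_of_nonneg_right h3 hv))).1
  have e1 : dot (dir a') (a' - a) = dot (dir a - n) (a' - a) - dot n (a - a') -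
      dot (dir a - dir a') (a' - a) := by
    simp only [dot, Complex.sub_re, Complex.sub_im]
    ring
  have e2 : dot (dir a') (a' - a) = dot (dir a' - n') (a' - a) + dot n' (a' - a) := by
    simp only [dot, Complex.sub_re, Complex.sub_im]
    ring
  have d4 : dot (dir a') (a' - a) ^ 2 ≤ (‖a' - a‖ / 4) ^ 2 :=
    sq_le_sq' (by nlinarith) (by nlinarith)
  have e3 : r2a_cr (dir a') (a' - a) = -(‖a‖ * r2a_cr (dir a') (dir a - dir a')) := by
    have e4 := r2a_eq ha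
    have e5 := r2a_eq ha'
    generalize dir a = e at e4 ⊢
    generalize dir a' = e' at e5 ⊢
    generalize ‖a‖ = r at e4 ⊢
    generalize ‖a'‖ = r' at e5
    rw [← e4, ← e5]
    simp only [r2a_cr, Complex.sub_re, Complex.sub_im, Complex.mul_re, Complex.mul_im,
      Complex.ofReal_re, Complex.ofReal_im]
    ring
  have d5 := r2a_cr_le (dir a') (dir a - dir a')
  rw [r2a_norm_dir ha', one_mul] at d5
  have d6 : r2a_cr (dir a') (a' - a) ^ 2 ≤ (24 * om * ‖a‖) ^ 2 := by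
    rw [e3, neg_sq, mul_comm (24 * om), mul_pow, mul_pow ‖a‖]
    exact mul_le_mul_of_nonneg_left (sq_le_sq' (by linarith [(abs_le.1 d5).1])
      (by linarith [(abs_le.1 d5).2])) (sq_nonneg _)
  have d7 := r2a_lag (dir a') (a' - a)
  rw [r2a_norm_dir ha', one_mul] at d7
  refine (abs_le_of_sq_le_sq' ?_ (by positivity)).2
  nlinarith [sq_nonneg (om * ‖a‖)]

/-- paper 5.4 (f2).  `a = y - x`, `b = z - y`, `a' = y - x'`, `b' = z' - y`.  If
`0 ≤ s * ori y z z'` then `cross a' b' • b = cross b b' • a' + cross a' b • b'` with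
`ori x' y z = cross a' b`, `ori x' y z' = cross a' b'`; in the other case exchange the two ties.
Either way `‖dir a - dir a'‖ ≤ 24 om`.  Then split `v = x - x' = a' - a` along `dir a'`. -/
theorem flat2 {S Y X Z : Finset ℂ} {ky kz : ℂ → ℝ} {nr : ℂ → ℂ} {s om : ℝ} {TT : Finset Tri}
    (h : Sys S Y X Z ky kz TT) (hf : Flat S Y X Z ky nr s om TT) (hom : om ≤ 1 / 100)
    {u v : Tri} (hu : u ∈ TT) (hv : v ∈ TT) (huv : u.1 = v.1) :
    dist u.2.1 v.2.1 ≤ 48 * om * dist u.1 u.2.1 := by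
  obtain ⟨y, x, z⟩ := u
  obtain ⟨y', x', z'⟩ := v
  dsimp only at huv ⊢
  subst huv
  obtain ⟨hy, hx, hz⟩ : y ∈ Y ∧ x ∈ X ∧ z ∈ Z := by simpa using h.sub hu
  obtain ⟨-, hx', hz'⟩ : y ∈ Y ∧ x' ∈ X ∧ z' ∈ Z := by simpa using h.sub hv
  obtain ⟨n1, n2⟩ := hf.nor _ hu
  obtain ⟨n1', n2'⟩ := hf.nor _ hv
  obtain ⟨ha, hb, t⟩ := r2a_tie (h.dj.forall_ne_finset hx hz) (h.tie _ hu) n1 n2
  obtain ⟨ha', hb', t'⟩ := r2a_tie (h.dj.forall_ne_finset hx' hz') (h.tie _ hv) n1' n2'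
  dsimp only at ha hb t ha' hb' t' n1 n1'
  have h3 : ‖dir (y - x) - dir (y - x')‖ ≤ 24 * om := by
    rcases le_total 0 (s * ori y z z') with e | e
    · have h4 := r2a_cone ha' hb hb' (hf.o1 _ hx' _ hy _ hz') (hf.o1 _ hx' _ hy _ hz) e t'
      linarith [norm_sub_le_norm_sub_add_norm_sub (dir (y - x)) (dir (z - y)) (dir (y - x'))]
    · have h4 := r2a_cone ha hb' hb (hf.o1 _ hx _ hy _ hz) (hf.o1 _ hx _ hy _ hz')
        (by rw [ori_swap]; linarith) t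
      rw [norm_sub_rev]
      linarith [norm_sub_le_norm_sub_add_norm_sub (dir (y - x')) (dir (z' - y)) (dir (y - x))]
  have h5 := r2a_end ha ha' hom n1 n1' h3
    (by rw [sub_sub_sub_cancel_left]; exact hf.supp _ hx _ (h.sX hx'))
    (by rw [sub_sub_sub_cancel_left]; exact hf.supp _ hx' _ (h.sX hx))
  rwa [sub_sub_sub_cancel_left, ← dist_eq_norm, ← dist_eq_norm] at h5

end Pool.Agent.Lib.MP_990519_co.Big
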