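import Pool.Agent.Lib.MP_990519_co.Big.Defs

namespace Pool.Agent.Lib.MP_990519_co.Big

open Finset
open scoped Classical ComplexConjugate

theorem TS.latin {κ : ℝ} {Y X Z : Finset ℂ} {S : ℂ → ℝ} {f g : ℂ → ℂ → ℝ} {kz : ℂ → ℝ}
    {TT : Finset Tri} (h : TS κ Y X Z S f g kz TT) (hκ : κ < 1) : Latin TT := by
  rintro ⟨y, x, z⟩ hu ⟨y', x', z'⟩ hv hc
  have a := mem_product.1 (h.sub hu)
  have b := mem_product.1 (h.sub hv)
  have a2 := mem_product.1 a.2
  have b2 := mem_product.1 b.2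
  have t1 := h.tie _ hu
  have t2 := h.tie _ hv
  simp only at a b a2 b2 t1 t2 hc
  rcases hc with ⟨rfl, rfl⟩ | ⟨e1, e2⟩ | ⟨rfl, rfl⟩
  · have : z = z' := by
      rcases lt_trichotomy (kz z) (kz z') with l | l | l
      · linarith [h.mono y a.1 z a2.2 z' b2.2 l]
      · exact h.ikz a2.2 b2.2 l
      · linarith [h.mono y a.1 z' b2.2 z a2.2 l]
    rw [this]
  · exact h.one _ hu _ hv e1 e2
  · have c := h.add y a.1 y' b.1 x a2.1 z a2.2
    rw [t1, t2, sub_self, sub_self, sub_self, zero_sub, abs_neg] at c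
    have : |S y' - S y| = 0 := by nlinarith [abs_nonneg (S y' - S y)]
    have := h.iS b.1 a.1 (sub_eq_zero.1 (abs_eq_zero.1 this))
    rw [this]

theorem GM_nonneg (B : Box) : 0 ≤ GM B := by
  unfold GM; positivity

/-- `GM B ^ 3 = (|I| |J| |L|) ^ 2` -/
theorem GM_cube (B : Box) : GM B ^ 3 = ((B.1.card : ℝ) * B.2.1.card * B.2.2.card) ^ 2 := by
  unfold GM
  rw [← Real.rpow_natCast, ← Real.rpow_mul (by positivity), ← Real.rpow_natCast]
  norm_num

theorem inBox_le {TT : Finset Tri} (h : Latin TT) (B : Box) :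
    (inBox TT B).card ≤ B.1.card * B.2.1.card ∧ (inBox TT B).card ≤ B.1.card * B.2.2.card ∧
      (inBox TT B).card ≤ B.2.1.card * B.2.2.card := by
  have m : ∀ u ∈ inBox TT B, u ∈ TT ∧ u.1 ∈ B.1 ∧ u.2.1 ∈ B.2.1 ∧ u.2.2 ∈ B.2.2 := by
    intro u hu; unfold inBox at hu; rw [mem_filter] at hu; exact hu
  refine ⟨?_, ?_, ?_⟩ <;> rw [← card_product]
  · refine card_le_card_of_injOn (fun u => (u.1, u.2.1)) (fun u hu => ?_) (fun u hu v hv e => ?_)
    · exact mem_coe.2 (mem_product.2 ⟨(m u hu).2.1, (m u hu).2.2.1⟩)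
    · exact h u (m u hu).1 v (m v hv).1 (Or.inl (Prod.ext_iff.1 e))
  · refine card_le_card_of_injOn (fun u => (u.1, u.2.2)) (fun u hu => ?_) (fun u hu v hv e => ?_)
    · exact mem_coe.2 (mem_product.2 ⟨(m u hu).2.1, (m u hu).2.2.2⟩)
    · exact h u (m u hu).1 v (m v hv).1 (Or.inr (Or.inl (Prod.ext_iff.1 e)))
  · refine card_le_card_of_injOn (fun u => (u.2.1, u.2.2)) (fun u hu => ?_)
      (fun u hu v hv e => ?_)
    · exact mem_coe.2 (mem_product.2 ⟨(m u hu).2.2.1, (m u hu).2.2.2⟩)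
    · exact h u (m u hu).1 v (m v hv).1 (Or.inr (Or.inr (Prod.ext_iff.1 e)))

theorem inBox_le_GM {TT : Finset Tri} (h : Latin TT) (B : Box) :
    ((inBox TT B).card : ℝ) ≤ GM B := by
  obtain ⟨h1, h2, h3⟩ := inBox_le h B
  have g1 : ((inBox TT B).card : ℝ) ≤ B.1.card * B.2.1.card := by exact_mod_cast h1
  have g2 : ((inBox TT B).card : ℝ) ≤ B.1.card * B.2.2.card := by exact_mod_cast h2
  have g3 : ((inBox TT B).card : ℝ) ≤ B.2.1.card * B.2.2.card := by exact_mod_cast h3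
  refine le_of_pow_le_pow_left₀ (n := 3) (by norm_num) (GM_nonneg B) ?_
  rw [GM_cube]
  calc _ = ((inBox TT B).card : ℝ) * (inBox TT B).card * (inBox TT B).card := by ring
    _ ≤ (B.1.card * B.2.1.card) * (B.1.card * B.2.2.card) * (B.2.1.card * B.2.2.card) := by
      gcongr
    _ = _ := by ring

theorem t1_cube {e g a b d : ℝ} (he : 0 < e) (g0 : 0 ≤ g) (c : g ^ 3 = (a * b * d) ^ 2)
    (h : e * g < b * d) : e ^ 3 * a ^ 2 < b * d := by
  have p : 0 < b * d := lt_of_le_of_lt (by positivity) h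
  have := pow_lt_pow_left₀ h (by positivity) (by norm_num : 3 ≠ 0)
  rw [mul_pow, c] at this
  refine lt_of_mul_lt_mul_right (a := (b * d) ^ 2) ?_ (by positivity)
  calc _ = e ^ 3 * (a * b * d) ^ 2 := by ring
    _ < _ := this
    _ = _ := by ring

theorem t1_ratio {t a b d : ℝ} (ht : 0 < t) (a0 : 0 ≤ a) (b0 : 0 ≤ b) (d0 : 0 ≤ d)
    (h1 : t * a ^ 2 < b * d) (h2 : t * d ^ 2 < a * b) : t * a < b := by
  by_contra hh
  have h3 : b ≤ t * a := not_lt.1 hh
  have h4 : a < d := by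
    by_contra h5
    have := mul_le_mul h3 (not_lt.1 h5) d0 (by positivity)
    nlinarith
  have h6 : a * b ≤ a * (t * a) := mul_le_mul_of_nonneg_left h3 a0
  have h7 : t * a ^ 2 ≤ t * d ^ 2 :=
    mul_le_mul_of_nonneg_left (pow_le_pow_left₀ a0 h4.le 2) ht.le
  nlinarith

/-- in a live box any two sizes have ratio at most `e⁻³`: cube `e * GM < |J| |L|` to get
`e³ |I|² < |J| |L|` and its two companions, then combine two of them -/
theorem live_ratio {TT : Finset Tri} (h : Latin TT) {B : Box} {e : ℝ} (he : 0 < e)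
    (hl : e * GM B < (inBox TT B).card) :
    (e ^ 3 * B.1.card < B.2.1.card ∧ e ^ 3 * B.1.card < B.2.2.card) ∧
    (e ^ 3 * B.2.1.card < B.1.card ∧ e ^ 3 * B.2.1.card < B.2.2.card) ∧
    (e ^ 3 * B.2.2.card < B.1.card ∧ e ^ 3 * B.2.2.card < B.2.1.card) := by
  obtain ⟨h1, h2, h3⟩ := inBox_le h B
  have g1 : ((inBox TT B).card : ℝ) ≤ B.1.card * B.2.1.card := by exact_mod_cast h1
  have g2 : ((inBox TT B).card : ℝ) ≤ B.1.card * B.2.2.card := by exact_mod_cast h2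
  have g3 : ((inBox TT B).card : ℝ) ≤ B.2.1.card * B.2.2.card := by exact_mod_cast h3
  have g0 := GM_nonneg B
  have c := GM_cube B
  have a0 : (0 : ℝ) ≤ B.1.card := by positivity
  have b0 : (0 : ℝ) ≤ B.2.1.card := by positivity
  have d0 : (0 : ℝ) ≤ B.2.2.card := by positivity
  generalize (B.1.card : ℝ) = a at *
  generalize (B.2.1.card : ℝ) = b at *
  generalize (B.2.2.card : ℝ) = d at *
  have k1 := t1_cube he g0 c (lt_of_lt_of_le hl g3)
  have k2 := t1_cube (a := b) (b := a) (d := d) he g0 (by rw [c]; ring) (lt_of_lt_of_le hl g2)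
  have k3 := t1_cube (a := d) (b := a) (d := b) he g0 (by rw [c]; ring) (lt_of_lt_of_le hl g1)
  have t0 : 0 < e ^ 3 := by positivity
  exact ⟨⟨t1_ratio t0 a0 b0 d0 k1 k3, t1_ratio t0 a0 d0 b0 (by linarith) k2⟩,
    ⟨t1_ratio t0 b0 a0 d0 k2 (by linarith), t1_ratio t0 b0 d0 a0 (by linarith) k1⟩,
    t1_ratio t0 d0 a0 b0 k3 (by linarith), t1_ratio t0 d0 b0 a0 (by linarith) (by linarith)⟩

theorem SubB.trans {A B C : Box} (h : SubB A B) (h' : SubB B C) : SubB A C := by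
  exact ⟨h.1.trans h'.1, h.2.1.trans h'.2.1, h.2.2.trans h'.2.2⟩

theorem Cons.trans {G : ℂ → ℂ → ℂ → ℝ} {S kz : ℂ → ℝ} {A B C : Box} (h : Cons G S kz A B)
    (h' : Cons G S kz B C) : Cons G S kz A C := by
  refine ⟨h.1.trans h'.1, ?_, ?_⟩
  · intro y hy hn y' hy' x hx z hz
    by_cases hb : y ∈ B.1
    · exact h.2.1 y hb hn y' hy' x hx z hz
    · exact h'.2.1 y hy hb y' (h.1.1 hy') x (h.1.2.1 hx) z (h.1.2.2 hz)
  · intro y hy x hx z hz hn z' hz'
    by_cases hb : z ∈ B.2.2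
    · exact h.2.2 y hy x hx z hb hn z' hz'
    · exact h'.2.2 y (h.1.1 hy) x (h.1.2.1 hx) z hz hb z' (h.1.2.2 hz')

theorem DisjP.symm {A B : Box} (h : DisjP A B) : DisjP B A := by
  exact ⟨h.1.imp (fun d => d.symm) (fun d => d.symm),
    h.2.1.imp (fun d => d.symm) (fun d => d.symm), h.2.2.imp (fun d => d.symm) (fun d => d.symm)⟩

theorem DisjP.mono {A A' B B' : Box} (h : DisjP A B) (ha : SubB A' A) (hb : SubB B' B) :
    DisjP A' B' := by
  exact ⟨h.1.imp (Disjoint.mono ha.1 hb.1) (Disjoint.mono ha.2.1 hb.2.1),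
    h.2.1.imp (Disjoint.mono ha.1 hb.1) (Disjoint.mono ha.2.2 hb.2.2),
    h.2.2.imp (Disjoint.mono ha.2.1 hb.2.1) (Disjoint.mono ha.2.2 hb.2.2)⟩

theorem t1_prod (AA : Finset Box) (f g : Box → Finset ℂ) (I J : Finset ℂ)
    (hd : ∀ A ∈ AA, ∀ A' ∈ AA, A ≠ A' → Disjoint (f A) (f A') ∨ Disjoint (g A) (g A'))
    (hQ : ∀ A ∈ AA, f A ⊆ I ∧ g A ⊆ J) :
    ∑ A ∈ AA, (f A).card * (g A).card ≤ I.card * J.card := by
  have h1 : (AA.biUnion (fun A => f A ×ˢ g A)).card = ∑ A ∈ AA, (f A ×ˢ g A).card := by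
    apply card_biUnion
    intro A hA A' hA' hne
    rw [Function.onFun, disjoint_left]
    intro q hq hq'
    rw [mem_product] at hq hq'
    rcases hd A hA A' hA' hne with h | h
    · exact disjoint_left.1 h hq.1 hq'.1
    · exact disjoint_left.1 h hq.2 hq'.2
  have h2 : AA.biUnion (fun A => f A ×ˢ g A) ⊆ I ×ˢ J := by
    intro q hq
    obtain ⟨A, hA, hq⟩ := mem_biUnion.1 hq
    rw [mem_product] at hq ⊢
    exact ⟨(hQ A hA).1 hq.1, (hQ A hA).2 hq.2⟩
  have h3 := card_le_card h2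
  rw [h1] at h3
  simpa only [card_product] using h3

/-- disjoint projections: the three sums of products -/
theorem proj_sum {B : Box} {AA : Finset Box} (hs : ∀ A ∈ AA, SubB A B)
    (hd : ∀ A ∈ AA, ∀ A' ∈ AA, A ≠ A' → DisjP A A') :
    ∑ A ∈ AA, A.1.card * A.2.1.card ≤ B.1.card * B.2.1.card ∧
    ∑ A ∈ AA, A.1.card * A.2.2.card ≤ B.1.card * B.2.2.card ∧
    ∑ A ∈ AA, A.2.1.card * A.2.2.card ≤ B.2.1.card * B.2.2.card := by
  exact ⟨t1_prod AA (fun A => A.1) (fun A => A.2.1) _ _ (fun A hA A' hA' h => (hd A hA A' hA' h).1)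
      (fun A hA => ⟨(hs A hA).1, (hs A hA).2.1⟩),
    t1_prod AA (fun A => A.1) (fun A => A.2.2) _ _ (fun A hA A' hA' h => (hd A hA A' hA' h).2.1)
      (fun A hA => ⟨(hs A hA).1, (hs A hA).2.2⟩),
    t1_prod AA (fun A => A.2.1) (fun A => A.2.2) _ _ (fun A hA A' hA' h => (hd A hA A' hA' h).2.2)
      (fun A hA => ⟨(hs A hA).2.1, (hs A hA).2.2⟩)⟩

theorem t1_root (u : ℝ) (hu : 0 ≤ u) : ∃ x : ℝ, 0 ≤ x ∧ x ^ 3 = u :=
  ⟨u ^ (((3 : ℕ) : ℝ)⁻¹), by positivity, Real.rpow_inv_natCast_pow hu (by norm_num)⟩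

/-- cube roots of the three normalised products -/
theorem GM_roots {B : Box} (A : Box) (I0 : (0 : ℝ) < B.1.card) (J0 : (0 : ℝ) < B.2.1.card)
    (L0 : (0 : ℝ) < B.2.2.card) : ∃ x y z : ℝ, 0 ≤ x ∧ 0 ≤ y ∧ 0 ≤ z ∧
      x ^ 3 = (A.1.card : ℝ) * A.2.1.card / (B.1.card * B.2.1.card) ∧
      y ^ 3 = (A.1.card : ℝ) * A.2.2.card / (B.1.card * B.2.2.card) ∧
      z ^ 3 = (A.2.1.card : ℝ) * A.2.2.card / (B.2.1.card * B.2.2.card) ∧
      GM A = x * y * z * GM B := by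
  obtain ⟨x, x0, hx⟩ := t1_root ((A.1.card : ℝ) * A.2.1.card / (B.1.card * B.2.1.card))
    (by positivity)
  obtain ⟨y, y0, hy⟩ := t1_root ((A.1.card : ℝ) * A.2.2.card / (B.1.card * B.2.2.card))
    (by positivity)
  obtain ⟨z, z0, hz⟩ := t1_root ((A.2.1.card : ℝ) * A.2.2.card / (B.2.1.card * B.2.2.card))
    (by positivity)
  refine ⟨x, y, z, x0, y0, z0, hx, hy, hz, ?_⟩
  have g := GM_nonneg B
  refine (pow_left_inj₀ (GM_nonneg A) (by positivity) (by norm_num : 3 ≠ 0)).1 ?_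
  rw [mul_pow, mul_pow, mul_pow, hx, hy, hz, GM_cube, GM_cube]
  field_simp

/-- paper 4.1: with the normalised products `u, v, w` one has
`GM A / GM B = (u v w) ^ (1/3) ≤ (u + v + w) / 3` -/
theorem holder {B : Box} {AA : Finset Box} (hs : ∀ A ∈ AA, SubB A B)
    (hd : ∀ A ∈ AA, ∀ A' ∈ AA, A ≠ A' → DisjP A A') : ∑ A ∈ AA, GM A ≤ GM B := by
  by_cases h0 : (B.1.card : ℝ) * B.2.1.card * B.2.2.card = 0
  · refine le_trans (le_of_eq (sum_eq_zero fun A hA => ?_)) (GM_nonneg B)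
    have : (A.1.card : ℝ) * A.2.1.card * A.2.2.card ≤ B.1.card * B.2.1.card * B.2.2.card := by
      have := card_le_card (hs A hA).1
      have := card_le_card (hs A hA).2.1
      have := card_le_card (hs A hA).2.2
      gcongr
    have e : (A.1.card : ℝ) * A.2.1.card * A.2.2.card = 0 :=
      le_antisymm (h0 ▸ this) (by positivity)
    have c := GM_cube A
    rw [e] at c
    exact pow_eq_zero_iff (n := 3) (by norm_num) |>.1 (by rw [c]; norm_num)
  have I0 : (0 : ℝ) < B.1.card := lt_of_le_of_ne (by positivity) (fun e => h0 (by rw [← e]; ring))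
  have J0 : (0 : ℝ) < B.2.1.card :=
    lt_of_le_of_ne (by positivity) (fun e => h0 (by rw [← e]; ring))
  have L0 : (0 : ℝ) < B.2.2.card :=
    lt_of_le_of_ne (by positivity) (fun e => h0 (by rw [← e]; ring))
  obtain ⟨h1, h2, h3⟩ := proj_sum hs hd
  have g1 : ∑ A ∈ AA, (A.1.card : ℝ) * A.2.1.card / (B.1.card * B.2.1.card) ≤ 1 := by
    rw [← sum_div, div_le_one (by positivity)]; exact_mod_cast h1
  have g2 : ∑ A ∈ AA, (A.1.card : ℝ) * A.2.2.card / (B.1.card * B.2.2.card) ≤ 1 := by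
    rw [← sum_div, div_le_one (by positivity)]; exact_mod_cast h2
  have g3 : ∑ A ∈ AA, (A.2.1.card : ℝ) * A.2.2.card / (B.2.1.card * B.2.2.card) ≤ 1 := by
    rw [← sum_div, div_le_one (by positivity)]; exact_mod_cast h3
  calc _ ≤ ∑ A ∈ AA, ((A.1.card : ℝ) * A.2.1.card / (B.1.card * B.2.1.card) +
        (A.1.card : ℝ) * A.2.2.card / (B.1.card * B.2.2.card) +
        (A.2.1.card : ℝ) * A.2.2.card / (B.2.1.card * B.2.2.card)) / 3 * GM B := by
        refine sum_le_sum fun A _ => ?_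
        obtain ⟨x, y, z, x0, y0, z0, e1, e2, e3, e4⟩ := GM_roots A I0 J0 L0
        rw [e4, ← e1, ← e2, ← e3]
        refine mul_le_mul_of_nonneg_right ?_ (GM_nonneg B)
        nlinarith [mul_nonneg (add_nonneg (add_nonneg x0 y0) z0)
          (add_nonneg (add_nonneg (sq_nonneg (x - y)) (sq_nonneg (y - z))) (sq_nonneg (x - z)))]
    _ ≤ _ := by
        rw [← sum_mul, ← sum_div, sum_add_distrib, sum_add_distrib]
        exact mul_le_of_le_one_left (GM_nonneg B) (by linarith)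

end Pool.Agent.Lib.MP_990519_co.Big
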