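import Pool.Agent.Lib.MP_990519_co.Big.T2a

namespace Pool.Agent.Lib.MP_990519_co.Big

open Finset
open scoped Classical ComplexConjugate

/-- paper 4.2: `del > 1 / 200`.  If `AA` is nonempty then `50 ≤ |B.1|`; the mean over `y ∈ B.1` of
the sum in `loss_lower` is `∑ mn`; the points of rank fraction at most `1 / 10` are at least
`|B.1| / 20`. -/
theorem loss_min {G : ℂ → ℂ → ℂ → ℝ} {S kz : ℂ → ℝ} {B : Box} (iS : Set.InjOn S B.1)
    (ikz : Set.InjOn kz B.2.2) {AA : Finset Box}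
    (hne : ∀ A ∈ AA, A.1.Nonempty ∧ A.2.1.Nonempty ∧ A.2.2.Nonempty)
    (hc : ∀ A ∈ AA, Cons G S kz A B) (hd : ∀ A ∈ AA, ∀ A' ∈ AA, A ≠ A' → DisjP A A')
    (h1 : ∀ A ∈ AA, 50 * A.1.card ≤ B.1.card) (h3 : ∀ A ∈ AA, 50 * A.2.2.card ≤ B.2.2.card) :
    ∑ A ∈ AA, mn B A ≤ 1 - 1 / 200 := by
  rcases AA.eq_empty_or_nonempty with rfl | ⟨A0, hA0⟩
  · norm_num
  have hB : B.1.Nonempty ∧ B.2.1.Nonempty ∧ B.2.2.Nonempty :=
    ⟨(hne A0 hA0).1.mono (hc A0 hA0).1.1, (hne A0 hA0).2.1.mono (hc A0 hA0).1.2.1,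
      (hne A0 hA0).2.2.mono (hc A0 hA0).1.2.2⟩
  have n50 : 50 ≤ B.1.card := by
    have := (hne A0 hA0).1.card_pos
    have := h1 A0 hA0
    omega
  have I0 : (50 : ℝ) ≤ B.1.card := by exact_mod_cast n50
  set mu : ℂ → ℝ := fun y => ∑ A ∈ AA.filter (fun A => y ∈ A.1), mn B A * B.1.card / A.1.card
    with hmu
  have mean : ∑ y ∈ B.1, mu y = B.1.card * ∑ A ∈ AA, mn B A := by
    simp only [hmu, sum_filter]
    rw [sum_comm, mul_sum]
    refine sum_congr rfl fun A hA => ?_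
    rw [← sum_filter, filter_mem_eq_inter, inter_eq_right.2 (hc A hA).1.1, sum_const, nsmul_eq_mul]
    have : (0 : ℝ) < A.1.card := by exact_mod_cast (hne A hA).1.card_pos
    field_simp
  set rk : ℂ → ℕ := fun y => (B.1.filter (fun a => S a ≤ S y)).card with hrk
  set Lo := B.1.filter (fun y => 10 * rk y ≤ B.1.card) with hLo
  have cLo : B.1.card ≤ 20 * Lo.card := by
    have mono : ∀ a ∈ B.1, ∀ b ∈ B.1, S a < S b → rk a < rk b := by
      intro a _ b hb l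
      refine card_lt_card ⟨fun c hc => mem_filter.2 ⟨(mem_filter.1 hc).1,
        (mem_filter.1 hc).2.trans l.le⟩, fun hs => ?_⟩
      exact absurd (mem_filter.1 (hs (mem_filter.2 ⟨hb, le_rfl⟩))).2 (not_le.2 l)
    have := card_le_card_of_injOn (s := B.1.filter (fun y => ¬ 10 * rk y ≤ B.1.card))
      (t := Ioc (B.1.card / 10) B.1.card) rk (by
        intro a ha
        have h2 := (mem_filter.1 ha).2
        have h4 : rk a ≤ B.1.card := card_filter_le _ _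
        simp only [coe_Ioc, Set.mem_Ioc]
        omega) (by
        intro a ha b hb e
        have a1 := (mem_filter.1 ha).1
        have b1 := (mem_filter.1 hb).1
        rcases lt_trichotomy (S a) (S b) with l | l | l
        · exact absurd e (mono a a1 b b1 l).ne
        · exact iS a1 b1 l
        · exact absurd e (mono b b1 a a1 l).ne')
    rw [Nat.card_Ioc] at this
    have e := card_filter_add_card_filter_not (s := B.1) (fun y => 10 * rk y ≤ B.1.card)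
    rw [← hLo] at e
    omega
  by_contra hh
  have hh' := not_le.1 hh
  have low : ∀ y ∈ Lo, 1 / 10 ≤ 1 - mu y := by
    intro y hy
    obtain ⟨y1, y2⟩ := mem_filter.1 hy
    have u := loss_upper iS hB hne hc hd h1 y1
    obtain ⟨_, l2⟩ := loss_lower ikz hB hne hc hd h3 y1
    have r : (rk y : ℝ) / B.1.card ≤ 1 / 10 := by
      rw [div_le_div_iff₀ (by linarith) (by norm_num)]
      have : (10 : ℝ) * rk y ≤ B.1.card := by exact_mod_cast y2
      linarith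
    by_contra h9
    have h10 : 9 / 10 < mu y := by linarith
    have : (9 / 10 : ℝ) ^ 2 ≤ mu y ^ 2 := pow_le_pow_left₀ (by norm_num) h10.le 2
    change (mu y ^ 2 - 1 / 50) / 2 ≤ _ at l2
    change _ ≤ _ + (rk y : ℝ) / B.1.card + _ at u
    linarith
  have s1 : (Lo.card : ℝ) * (1 / 10) ≤ ∑ y ∈ B.1, (1 - mu y) := by
    calc _ ≤ ∑ y ∈ Lo, (1 - mu y) := by
          rw [← nsmul_eq_mul, ← sum_const]; exact sum_le_sum low
      _ ≤ _ := sum_le_sum_of_subset_of_nonneg (filter_subset _ _) (fun y hy _ =>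
          sub_nonneg.2 (loss_lower ikz hB hne hc hd h3 hy).1)
  rw [sum_sub_distrib, mean, sum_const, nsmul_eq_mul] at s1
  have : (B.1.card : ℝ) ≤ 20 * Lo.card := by exact_mod_cast cLo
  nlinarith

/-- the pointwise inequality of paper 4.2 for cube roots `x, y, z` of `u, v, w`, `e = 1 / 2400`:
`AM - min ≤ 3 e AM + (9 / e) (AM - GM)` -/
theorem amgm_gap (x y z : ℝ) (hx : 0 ≤ x) (hy : 0 ≤ y) (hz : 0 ≤ z) :
    (x ^ 3 + y ^ 3 + z ^ 3) / 3 - min (x ^ 3) (min (y ^ 3) (z ^ 3)) ≤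
      (x ^ 3 + y ^ 3 + z ^ 3) / 3 / 800 + 21600 * ((x ^ 3 + y ^ 3 + z ^ 3) / 3 - x * y * z) := by
  have key : ∀ a b c : ℝ, 0 ≤ a → a ≤ b → b ≤ c → (a ^ 3 + b ^ 3 + c ^ 3) / 3 - a ^ 3 ≤
      (a ^ 3 + b ^ 3 + c ^ 3) / 3 / 800 + 21600 * ((a ^ 3 + b ^ 3 + c ^ 3) / 3 - a * b * c) := by
    intro a b c a0 ab bc
    have b0 : 0 ≤ b := a0.trans ab
    have c0 : 0 ≤ c := b0.trans bc
    have k1 : c * (c - a) ^ 2 / 4 ≤ (a ^ 3 + b ^ 3 + c ^ 3) / 3 - a * b * c := by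
      have e : (a ^ 3 + b ^ 3 + c ^ 3) / 3 - a * b * c =
        (a + b + c) * ((a - b) ^ 2 + (b - c) ^ 2 + (c - a) ^ 2) / 6 := by ring
      have h1 : 3 / 2 * (c - a) ^ 2 ≤ (a - b) ^ 2 + (b - c) ^ 2 + (c - a) ^ 2 := by
        nlinarith [sq_nonneg (a + c - 2 * b)]
      have h2 := mul_le_mul (show c ≤ a + b + c by linarith) h1 (by positivity) (by positivity)
      rw [e]; linarith
    have k2 : b ^ 3 ≤ c ^ 3 := pow_le_pow_left₀ b0 bc 3
    have k3 : c ^ 3 - a ^ 3 ≤ 3 * c ^ 2 * (c - a) := by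
      have h1 : 0 ≤ (c - a) ^ 2 * (2 * c + a) := by positivity
      nlinarith
    have k4 : 0 ≤ c * (c - 3600 * (c - a)) ^ 2 := by positivity
    have k5 : 0 ≤ a ^ 3 := by positivity
    have k6 : 0 ≤ b ^ 3 := by positivity
    have k7 : 0 ≤ c ^ 2 * (c - a) := mul_nonneg (by positivity) (by linarith)
    nlinarith
  have lo : ∀ a : ℝ, 0 ≤ a → a ≤ x → a ≤ y → a ≤ z → a ^ 3 ≤ min (x ^ 3) (min (y ^ 3) (z ^ 3)) :=
    fun a a0 h1 h2 h3 => le_min (pow_le_pow_left₀ a0 h1 3)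
      (le_min (pow_le_pow_left₀ a0 h2 3) (pow_le_pow_left₀ a0 h3 3))
  rcases le_total x y with h1 | h1 <;> rcases le_total y z with h2 | h2 <;>
    rcases le_total x z with h3 | h3
  · linarith [key x y z hx h1 h2, lo x hx le_rfl h1 h3]
  · linarith [key x y z hx h1 h2, lo x hx le_rfl h1 (h1.trans h2)]
  · linarith [key x z y hx h3 h2, lo x hx le_rfl h1 h3]
  · linarith [key z x y hz h3 h1, lo z hz h3 h2 le_rfl]
  · linarith [key y x z hy h1 h3, lo y hy h1 le_rfl h2]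
  · linarith [key y z x hy h2 h3, lo y hy h1 le_rfl h2]
  · linarith [key z y x hz h2 h1, lo z hz (h2.trans h1) h2 le_rfl]
  · linarith [key z y x hz h2 h1, lo z hz h3 h2 le_rfl]

/-- paper 4.2 (Loss) -/
theorem loss {G : ℂ → ℂ → ℂ → ℝ} {S kz : ℂ → ℝ} {B : Box} (iS : Set.InjOn S B.1)
    (ikz : Set.InjOn kz B.2.2) {AA : Finset Box}
    (hne : ∀ A ∈ AA, A.1.Nonempty ∧ A.2.1.Nonempty ∧ A.2.2.Nonempty)
    (hc : ∀ A ∈ AA, Cons G S kz A B) (hd : ∀ A ∈ AA, ∀ A' ∈ AA, A ≠ A' → DisjP A A')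
    (h1 : ∀ A ∈ AA, 50 * A.1.card ≤ B.1.card) (h3 : ∀ A ∈ AA, 50 * A.2.2.card ≤ B.2.2.card) :
    ∑ A ∈ AA, GM A ≤ (1 - 1 / 17280000) * GM B := by
  rcases AA.eq_empty_or_nonempty with rfl | ⟨A0, hA0⟩
  · simp only [sum_empty]; exact mul_nonneg (by norm_num) (GM_nonneg B)
  have I0 : (0 : ℝ) < B.1.card := by
    exact_mod_cast ((hne A0 hA0).1.mono (hc A0 hA0).1.1).card_pos
  have J0 : (0 : ℝ) < B.2.1.card := by
    exact_mod_cast ((hne A0 hA0).2.1.mono (hc A0 hA0).1.2.1).card_pos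
  have L0 : (0 : ℝ) < B.2.2.card := by
    exact_mod_cast ((hne A0 hA0).2.2.mono (hc A0 hA0).1.2.2).card_pos
  have hm := loss_min iS ikz hne hc hd h1 h3
  obtain ⟨p1, p2, p3⟩ := proj_sum (fun A hA => (hc A hA).1) hd
  have g1 : ∑ A ∈ AA, (A.1.card : ℝ) * A.2.1.card / (B.1.card * B.2.1.card) ≤ 1 := by
    rw [← sum_div, div_le_one (by positivity)]; exact_mod_cast p1
  have g2 : ∑ A ∈ AA, (A.1.card : ℝ) * A.2.2.card / (B.1.card * B.2.2.card) ≤ 1 := by
    rw [← sum_div, div_le_one (by positivity)]; exact_mod_cast p2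
  have g3 : ∑ A ∈ AA, (A.2.1.card : ℝ) * A.2.2.card / (B.2.1.card * B.2.2.card) ≤ 1 := by
    rw [← sum_div, div_le_one (by positivity)]; exact_mod_cast p3
  have g0 := GM_nonneg B
  calc _ ≤ ∑ A ∈ AA, ((1 - 799 / 17280000) / 3 *
        ((A.1.card : ℝ) * A.2.1.card / (B.1.card * B.2.1.card) +
        (A.1.card : ℝ) * A.2.2.card / (B.1.card * B.2.2.card) +
        (A.2.1.card : ℝ) * A.2.2.card / (B.2.1.card * B.2.2.card)) + mn B A / 21600) * GM B := by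
        refine sum_le_sum fun A _ => ?_
        obtain ⟨x, y, z, x0, y0, z0, e1, e2, e3, e4⟩ := GM_roots A I0 J0 L0
        unfold mn
        rw [e4, ← e1, ← e2, ← e3]
        exact mul_le_mul_of_nonneg_right (by linarith [amgm_gap x y z x0 y0 z0]) g0
    _ ≤ _ := by
        rw [← sum_mul, sum_add_distrib, ← mul_sum, ← sum_div, sum_add_distrib, sum_add_distrib]
        exact mul_le_mul_of_nonneg_right (by linarith) g0

end Pool.Agent.Lib.MP_990519_co.Big
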