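import Pool.Agent.Lib.MP_990519_co.Big.T1

namespace Pool.Agent.Lib.MP_990519_co.Big

open Finset
open scoped Classical ComplexConjugate

/-- the smallest of the three normalised products -/
noncomputable def mn (B A : Box) : ℝ :=
  min ((A.1.card : ℝ) * A.2.1.card / (B.1.card * B.2.1.card))
    (min ((A.1.card : ℝ) * A.2.2.card / (B.1.card * B.2.2.card))
      ((A.2.1.card : ℝ) * A.2.2.card / (B.2.1.card * B.2.2.card)))

/-- fraction of pairs `(x, z)` of the box with `0 < G y x z` -/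
noncomputable def posF (G : ℂ → ℂ → ℂ → ℝ) (B : Box) (y : ℂ) : ℝ :=
  (((B.2.1 ×ˢ B.2.2).filter (fun q => 0 < G y q.1 q.2)).card : ℝ) / (B.2.1.card * B.2.2.card)

theorem t2a_prod {ι : Type} (AA : Finset ι) (f g : ι → Finset ℂ) (Q : Finset (ℂ × ℂ))
    (hd : ∀ A ∈ AA, ∀ A' ∈ AA, A ≠ A' → Disjoint (f A) (f A') ∨ Disjoint (g A) (g A'))
    (hQ : ∀ A ∈ AA, ∀ a ∈ f A, ∀ b ∈ g A, (a, b) ∈ Q) :
    ∑ A ∈ AA, ((f A).card : ℝ) * (g A).card ≤ Q.card := by
  have h1 : (AA.biUnion (fun A => f A ×ˢ g A)).card = ∑ A ∈ AA, (f A ×ˢ g A).card := by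
    apply card_biUnion
    intro A hA A' hA' hne
    rw [Function.onFun, disjoint_left]
    intro q hq hq'
    rw [mem_product] at hq hq'
    rcases hd A hA A' hA' hne with h | h
    · exact disjoint_left.1 h hq.1 hq'.1
    · exact disjoint_left.1 h hq.2 hq'.2
  have h2 : AA.biUnion (fun A => f A ×ˢ g A) ⊆ Q := by
    intro q hq
    obtain ⟨A, hA, hq⟩ := mem_biUnion.1 hq
    rw [mem_product] at hq
    exact hQ A hA _ hq.1 _ hq.2
  have h3 := card_le_card h2
  rw [h1] at h3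
  simp only [card_product] at h3
  exact_mod_cast h3

theorem t2a_sq {ι : Type} (T : Finset ι) (μ κ : ι → ℝ)
    (hκ : ∀ A ∈ T, ∀ A' ∈ T, κ A = κ A' → A = A') :
    (∑ A ∈ T, μ A) ^ 2 = 2 * ∑ q ∈ (T ×ˢ T).filter (fun q => κ q.2 < κ q.1), μ q.1 * μ q.2 +
      ∑ A ∈ T, μ A * μ A := by
  have e1 : ∑ q ∈ (T ×ˢ T).filter (fun q => κ q.2 < κ q.1), μ q.1 * μ q.2 =
      ∑ A ∈ T, ∑ A' ∈ T, if κ A' < κ A then μ A * μ A' else 0 := by
    rw [sum_filter, sum_product]
  have e2 : ∑ q ∈ (T ×ˢ T).filter (fun q => κ q.2 < κ q.1), μ q.1 * μ q.2 =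
      ∑ A ∈ T, ∑ A' ∈ T, if κ A < κ A' then μ A * μ A' else 0 := by
    rw [e1, sum_comm]
    exact sum_congr rfl fun A _ => sum_congr rfl fun A' _ => by rw [mul_comm]
  have e3 : ∑ A ∈ T, μ A * μ A = ∑ A ∈ T, ∑ A' ∈ T, if A = A' then μ A * μ A' else 0 := by
    refine sum_congr rfl fun A hA => ?_
    rw [sum_ite_eq]; simp [hA]
  rw [two_mul]
  nth_rewrite 1 [e1]
  rw [e2, e3, sq, sum_mul_sum, ← sum_add_distrib, ← sum_add_distrib]
  refine sum_congr rfl fun A hA => ?_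
  rw [← sum_add_distrib, ← sum_add_distrib]
  refine sum_congr rfl fun A' hA' => ?_
  rcases lt_trichotomy (κ A) (κ A') with l | l | l
  · have : A ≠ A' := fun e => by rw [e] at l; exact lt_irrefl _ l
    simp [l, l.le, this, not_lt.2 l.le]
  · have := hκ A hA A' hA' l
    subst this; simp
  · have : A ≠ A' := fun e => by rw [e] at l; exact lt_irrefl _ l
    simp [l, this, not_lt.2 l.le]

/-- paper 4.2, Upper.  Boxes `A` with `A.1` entirely above `y` give disjoint sets of pairs with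
`G < 0`.  For the other boxes `A.1` is an `S`-interval of `B.1` (first sign condition of `Cons`)
that has a point `≤ y`, so it lies in the set of points of rank at most
`rank y + |B.1| / 50`; use `proj_sum` for the box with that set as first coordinate. -/
theorem loss_upper {G : ℂ → ℂ → ℂ → ℝ} {S kz : ℂ → ℝ} {B : Box} (iS : Set.InjOn S B.1)
    {AA : Finset Box} (hB : B.1.Nonempty ∧ B.2.1.Nonempty ∧ B.2.2.Nonempty)
    (hne : ∀ A ∈ AA, A.1.Nonempty ∧ A.2.1.Nonempty ∧ A.2.2.Nonempty)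
    (hc : ∀ A ∈ AA, Cons G S kz A B) (hd : ∀ A ∈ AA, ∀ A' ∈ AA, A ≠ A' → DisjP A A')
    (h1 : ∀ A ∈ AA, 50 * A.1.card ≤ B.1.card) {y : ℂ} (hy : y ∈ B.1) :
    posF G B y ≤ (1 - ∑ A ∈ AA, mn B A) +
      ((B.1.filter (fun a => S a ≤ S y)).card : ℝ) / B.1.card + 1 / 50 := by
  have I0 : (0 : ℝ) < B.1.card := by exact_mod_cast hB.1.card_pos
  have J0 : (0 : ℝ) < B.2.1.card := by exact_mod_cast hB.2.1.card_pos
  have L0 : (0 : ℝ) < B.2.2.card := by exact_mod_cast hB.2.2.card_pos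
  set P : Box → Prop := fun A => ∀ a ∈ A.1, S y < S a with hP
  set Y1 := B.1.filter (fun a => 50 * (B.1.filter (fun b => S y < S b ∧ S b ≤ S a)).card ≤
    B.1.card) with hY1
  have u1 := t2a_prod (AA.filter P) (fun A => A.2.1) (fun A => A.2.2)
    ((B.2.1 ×ˢ B.2.2).filter (fun q => ¬ 0 < G y q.1 q.2))
    (fun A hA A' hA' h => (hd A (mem_filter.1 hA).1 A' (mem_filter.1 hA').1 h).2.2) (by
      intro A hA x hx z hz
      obtain ⟨hA1, hA2⟩ := mem_filter.1 hA
      obtain ⟨y', hy'⟩ := (hne A hA1).1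
      have c := hc A hA1
      refine mem_filter.2 ⟨mem_product.2 ⟨c.1.2.1 hx, c.1.2.2 hz⟩, not_lt.2 (le_of_lt ?_)⟩
      exact (c.2.1 y hy (fun h => lt_irrefl _ (hA2 y h)) y' hy' x hx z hz).2 (hA2 y' hy'))
  have u2 := t2a_prod (AA.filter (fun A => ¬ P A)) (fun A => A.1) (fun A => A.2.1)
    (Y1 ×ˢ B.2.1)
    (fun A hA A' hA' h => (hd A (mem_filter.1 hA).1 A' (mem_filter.1 hA').1 h).1) (by
      intro A hA a ha x hx
      obtain ⟨hA1, hA2⟩ := mem_filter.1 hA
      have c := hc A hA1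
      refine mem_product.2 ⟨mem_filter.2 ⟨c.1.1 ha, le_trans (Nat.mul_le_mul_left _
        (card_le_card ?_)) (h1 A hA1)⟩, c.1.2.1 hx⟩
      intro b hb
      obtain ⟨b1, b2, b3⟩ := mem_filter.1 hb
      by_contra hbA
      simp only [hP, not_forall, not_lt] at hA2
      obtain ⟨a0, ha0, ha1⟩ := hA2
      obtain ⟨z, hz⟩ := (hne A hA1).2.2
      have g1 := (c.2.1 b b1 hbA a0 ha0 x hx z hz).1 (lt_of_le_of_lt ha1 b2)
      have g2 := (c.2.1 b b1 hbA a ha x hx z hz).2 (lt_of_le_of_ne b3 (fun e =>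
        hbA (by rw [iS b1 (c.1.1 ha) e]; exact ha)))
      linarith)
  have u3 : (Y1.card : ℝ) ≤ (B.1.filter (fun a => S a ≤ S y)).card + B.1.card / 50 := by
    have s1 : Y1 ⊆ B.1.filter (fun a => S a ≤ S y) ∪ Y1.filter (fun a => S y < S a) := by
      intro a ha
      rcases le_or_gt (S a) (S y) with l | l
      · exact mem_union_left _ (mem_filter.2 ⟨(mem_filter.1 ha).1, l⟩)
      · exact mem_union_right _ (mem_filter.2 ⟨ha, l⟩)
    have s2 : 50 * (Y1.filter (fun a => S y < S a)).card ≤ B.1.card := by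
      rcases (Y1.filter (fun a => S y < S a)).eq_empty_or_nonempty with h | h
      · rw [h]; simp
      · obtain ⟨a, ha, hm⟩ := exists_max_image _ S h
        refine le_trans (Nat.mul_le_mul_left _ (card_le_card ?_))
          (mem_filter.1 (mem_filter.1 ha).1).2
        intro b hb
        exact mem_filter.2 ⟨(mem_filter.1 (mem_filter.1 hb).1).1, (mem_filter.1 hb).2, hm b hb⟩
    have s3 := (card_le_card s1).trans (card_union_le _ _)
    have s4 : (Y1.card : ℝ) ≤ (B.1.filter (fun a => S a ≤ S y)).card +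
      (Y1.filter (fun a => S y < S a)).card := by exact_mod_cast s3
    have s5 : (50 : ℝ) * (Y1.filter (fun a => S y < S a)).card ≤ B.1.card := by exact_mod_cast s2
    linarith
  have u4 : (((B.2.1 ×ˢ B.2.2).filter (fun q => 0 < G y q.1 q.2)).card : ℝ) +
      ((B.2.1 ×ˢ B.2.2).filter (fun q => ¬ 0 < G y q.1 q.2)).card = B.2.1.card * B.2.2.card := by
    have := card_filter_add_card_filter_not (s := B.2.1 ×ˢ B.2.2) (fun q => 0 < G y q.1 q.2)
    rw [card_product] at this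
    exact_mod_cast this
  have v1 : ∑ A ∈ AA.filter P, mn B A ≤ 1 - posF G B y := by
    calc _ ≤ ∑ A ∈ AA.filter P, (A.2.1.card : ℝ) * A.2.2.card / (B.2.1.card * B.2.2.card) :=
          sum_le_sum fun A _ => le_trans (min_le_right _ _) (min_le_right _ _)
      _ ≤ _ := by
          rw [← sum_div, div_le_iff₀ (by positivity)]
          unfold posF
          rw [sub_mul, div_mul_cancel₀ _ (by positivity)]
          linarith
  have v2 : ∑ A ∈ AA.filter (fun A => ¬ P A), mn B A ≤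
      ((B.1.filter (fun a => S a ≤ S y)).card : ℝ) / B.1.card + 1 / 50 := by
    calc _ ≤ ∑ A ∈ AA.filter (fun A => ¬ P A),
          (A.1.card : ℝ) * A.2.1.card / (B.1.card * B.2.1.card) :=
          sum_le_sum fun A _ => min_le_left _ _
      _ ≤ _ := by
          rw [← sum_div, div_le_iff₀ (by positivity)]
          rw [card_product] at u2
          push_cast at u2
          have := mul_le_mul_of_nonneg_right u3 J0.le
          have e : (((B.1.filter (fun a => S a ≤ S y)).card : ℝ) / B.1.card + 1 / 50) *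
              (B.1.card * B.2.1.card) = (((B.1.filter (fun a => S a ≤ S y)).card : ℝ) +
                B.1.card / 50) * B.2.1.card := by field_simp
          linarith
  have v3 := sum_filter_add_sum_filter_not AA P (mn B)
  linarith

/-- paper 4.2, Lower.  Boxes through `y` have disjoint second and disjoint third coordinates, the
third coordinates are `kz`-intervals.  `μ A = mn B A * |B.1| / |A.1|` is at most
`|A.2.1| / |B.2.1|` and at most `|A.2.2| / |B.2.2| ≤ 1 / 50`. -/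
theorem loss_lower {G : ℂ → ℂ → ℂ → ℝ} {S kz : ℂ → ℝ} {B : Box} (ikz : Set.InjOn kz B.2.2)
    {AA : Finset Box} (hB : B.1.Nonempty ∧ B.2.1.Nonempty ∧ B.2.2.Nonempty)
    (hne : ∀ A ∈ AA, A.1.Nonempty ∧ A.2.1.Nonempty ∧ A.2.2.Nonempty)
    (hc : ∀ A ∈ AA, Cons G S kz A B) (hd : ∀ A ∈ AA, ∀ A' ∈ AA, A ≠ A' → DisjP A A')
    (h3 : ∀ A ∈ AA, 50 * A.2.2.card ≤ B.2.2.card) {y : ℂ} (hy : y ∈ B.1) :
    (∑ A ∈ AA.filter (fun A => y ∈ A.1), mn B A * B.1.card / A.1.card) ≤ 1 ∧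
    ((∑ A ∈ AA.filter (fun A => y ∈ A.1), mn B A * B.1.card / A.1.card) ^ 2 - 1 / 50) / 2 ≤
      posF G B y := by
  have I0 : (0 : ℝ) < B.1.card := by exact_mod_cast hB.1.card_pos
  have J0 : (0 : ℝ) < B.2.1.card := by exact_mod_cast hB.2.1.card_pos
  have L0 : (0 : ℝ) < B.2.2.card := by exact_mod_cast hB.2.2.card_pos
  set T := AA.filter (fun A => y ∈ A.1) with hT
  set μ : Box → ℝ := fun A => mn B A * B.1.card / A.1.card with hμ
  have dT : ∀ A ∈ T, ∀ A' ∈ T, A ≠ A' → Disjoint A.2.1 A'.2.1 ∧ Disjoint A.2.2 A'.2.2 := by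
    intro A hA A' hA' h
    obtain ⟨a1, a2⟩ := mem_filter.1 hA
    obtain ⟨b1, b2⟩ := mem_filter.1 hA'
    have := hd A a1 A' b1 h
    have nd : ¬ Disjoint A.1 A'.1 := fun d => disjoint_left.1 d a2 b2
    exact ⟨this.1.resolve_left nd, this.2.1.resolve_left nd⟩
  have bμ : ∀ A ∈ T, 0 ≤ μ A ∧ μ A ≤ A.2.1.card / B.2.1.card ∧ μ A ≤ A.2.2.card / B.2.2.card := by
    intro A hA
    have A0 : (0 : ℝ) < A.1.card := by exact_mod_cast (hne A (mem_filter.1 hA).1).1.card_pos
    have m0 : 0 ≤ mn B A := le_min (by positivity) (le_min (by positivity) (by positivity))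
    have m1 : mn B A ≤ (A.1.card : ℝ) * A.2.1.card / (B.1.card * B.2.1.card) := min_le_left _ _
    have m2 : mn B A ≤ (A.1.card : ℝ) * A.2.2.card / (B.1.card * B.2.2.card) :=
      le_trans (min_le_right _ _) (min_le_left _ _)
    rw [le_div_iff₀ (by positivity)] at m1 m2
    refine ⟨by simp only [hμ]; positivity, ?_, ?_⟩
    · simp only [hμ]; rw [div_le_div_iff₀ A0 J0]; linarith
    · simp only [hμ]; rw [div_le_div_iff₀ A0 L0]; linarith
  have s1 : ∑ A ∈ T, μ A ≤ 1 := by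
    have h1 : (T.biUnion (fun A => A.2.1)).card = ∑ A ∈ T, A.2.1.card :=
      card_biUnion (fun A hA A' hA' h => (dT A hA A' hA' h).1)
    have h2 : T.biUnion (fun A => A.2.1) ⊆ B.2.1 := by
      intro x hx
      obtain ⟨A, hA, hx⟩ := mem_biUnion.1 hx
      exact (hc A (mem_filter.1 hA).1).1.2.1 hx
    have h4 := card_le_card h2
    rw [h1] at h4
    calc _ ≤ ∑ A ∈ T, (A.2.1.card : ℝ) / B.2.1.card := sum_le_sum fun A hA => (bμ A hA).2.1
      _ ≤ 1 := by rw [← sum_div, div_le_one J0]; exact_mod_cast h4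
  refine ⟨s1, ?_⟩
  have : ∀ A : Box, ∃ z, A ∈ AA → z ∈ A.2.2 := by
    intro A
    by_cases hA : A ∈ AA
    · obtain ⟨z, hz⟩ := (hne A hA).2.2
      exact ⟨z, fun _ => hz⟩
    · exact ⟨0, fun h => absurd h hA⟩
  choose r hr using this
  have hκ : ∀ A ∈ T, ∀ A' ∈ T, kz (r A) = kz (r A') → A = A' := by
    intro A hA A' hA' e
    have a1 := (mem_filter.1 hA).1
    have b1 := (mem_filter.1 hA').1
    have := ikz ((hc A a1).1.2.2 (hr A a1)) ((hc A' b1).1.2.2 (hr A' b1)) e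
    by_contra h
    exact disjoint_left.1 (dT A hA A' hA' h).2 (hr A a1) (this ▸ hr A' b1)
  have e1 := t2a_sq T μ (fun A => kz (r A)) hκ
  have s2 : ∑ A ∈ T, μ A * μ A ≤ 1 / 50 := by
    calc _ ≤ ∑ A ∈ T, μ A * (1 / 50) := by
          refine sum_le_sum fun A hA => mul_le_mul_of_nonneg_left
            (le_trans (bμ A hA).2.2 ?_) (bμ A hA).1
          have : (50 : ℝ) * A.2.2.card ≤ B.2.2.card := by
            exact_mod_cast h3 A (mem_filter.1 hA).1
          rw [div_le_div_iff₀ L0 (by norm_num)]; linarith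
      _ ≤ _ := by rw [← sum_mul]; linarith
  have u1 := t2a_prod ((T ×ˢ T).filter (fun q => kz (r q.2) < kz (r q.1))) (fun q => q.1.2.1)
    (fun q => q.2.2.2) ((B.2.1 ×ˢ B.2.2).filter (fun q => 0 < G y q.1 q.2)) (by
      intro q hq q' hq' h
      obtain ⟨a1, a2⟩ := mem_product.1 (mem_filter.1 hq).1
      obtain ⟨b1, b2⟩ := mem_product.1 (mem_filter.1 hq').1
      by_cases h1 : q.1 = q'.1
      · exact Or.inr (dT _ a2 _ b2 (fun h2 => h (Prod.ext h1 h2))).2
      · exact Or.inl (dT _ a1 _ b1 h1).1) (by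
      intro q hq x hx z hz
      obtain ⟨a1, a2⟩ := mem_product.1 (mem_filter.1 hq).1
      have lt := (mem_filter.1 hq).2
      have hne' : q.1 ≠ q.2 := fun e => by rw [e] at lt; exact lt_irrefl _ lt
      obtain ⟨c1, y1⟩ := mem_filter.1 a1
      obtain ⟨c2, y2⟩ := mem_filter.1 a2
      have k1 := hc _ c1
      have k2 := hc _ c2
      have dz := (dT _ a1 _ a2 hne').2
      refine mem_filter.2 ⟨mem_product.2 ⟨k1.1.2.1 hx, k2.1.2.2 hz⟩, ?_⟩
      refine (k1.2.2 y y1 x hx z (k2.1.2.2 hz) (disjoint_right.1 dz hz) _ (hr _ c1)).1 ?_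
      obtain ⟨x', hx'⟩ := (hne _ c2).2.1
      have n1 := disjoint_left.1 dz (hr _ c1)
      have g1 := (k2.2.2 y y2 x' hx' _ (k1.1.2.2 (hr _ c1)) n1 _ (hr _ c2)).2 lt
      by_contra hh
      have g2 := (k2.2.2 y y2 x' hx' _ (k1.1.2.2 (hr _ c1)) n1 z hz).1
        (lt_of_le_of_ne (not_lt.1 hh) (fun e =>
          n1 (by rw [ikz (k1.1.2.2 (hr _ c1)) (k2.1.2.2 hz) e]; exact hz)))
      linarith)
  have s3 : ∑ q ∈ (T ×ˢ T).filter (fun q => kz (r q.2) < kz (r q.1)), μ q.1 * μ q.2 ≤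
      posF G B y := by
    calc _ ≤ ∑ q ∈ (T ×ˢ T).filter (fun q => kz (r q.2) < kz (r q.1)),
          (q.1.2.1.card : ℝ) * q.2.2.2.card / (B.2.1.card * B.2.2.card) := by
          refine sum_le_sum fun q hq => ?_
          obtain ⟨a1, a2⟩ := mem_product.1 (mem_filter.1 hq).1
          rw [← div_mul_div_comm]
          exact mul_le_mul (bμ _ a1).2.1 (bμ _ a2).2.2 (bμ _ a2).1 (by positivity)
      _ ≤ _ := by
          rw [← sum_div]
          exact div_le_div_of_nonneg_right u1 (by positivity)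
  linarith

end Pool.Agent.Lib.MP_990519_co.Big
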