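import Pool.Agent.Lib.MP_990519_co.Big.T1
import Pool.Agent.Lib.MP_990519_co.Big.P3

namespace Pool.Agent.Lib.MP_990519_co.Big

open Finset
open scoped Classical ComplexConjugate

/-- labels that are injective on every class of size at most `m` -/
theorem exists_label {I : Finset ℂ} {cl : ℂ → Finset ℂ} (h : Clus I cl) (m : ℕ) :
    ∃ lab : ℂ → ℕ, (∀ a ∈ I, (cl a).card ≤ m → lab a < m) ∧
      ∀ a ∈ I, ∀ b ∈ I, cl a = cl b → lab a = lab b → a = b := by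
  have : ∀ C : Finset ℂ, ∃ f : ℂ → ℕ, (∀ a ∈ C, f a < C.card) ∧
      ∀ a ∈ C, ∀ b ∈ C, f a = f b → a = b := by
    intro C
    refine ⟨fun a => if h : a ∈ C then (C.equivFin ⟨a, h⟩ : ℕ) else 0, fun a ha => ?_,
      fun a ha b hb e => ?_⟩
    · simp only [ha, dif_pos]; exact Fin.is_lt _
    · simp only [ha, hb, dif_pos] at e
      exact congrArg Subtype.val (C.equivFin.injective (Fin.ext e))
  choose f h1 h2 using this
  refine ⟨fun a => f (cl a) a, fun a ha hm => lt_of_lt_of_le (h1 _ a (h a ha).1) hm,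
    fun a ha b hb e e2 => h2 (cl a) a (h a ha).1 b (e ▸ (h b hb).1) ?_⟩
  simpa [e] using e2

/-- paper 4.4, ties among small clusters.  If `e * GM Bs < N`, let `N'` be the largest size of
`Bs`; `live_ratio` gives `e ^ 4 * N' ^ 2 ≤ GM Bs` (for `e ≤ 1`).  Some label triple carries at least
`e ^ 5 N' ^ 2 / m ^ 3` ties; they form an antichain for the keys `S, T, -U` on the label classes
(`Spl.anti`, `kT`, `kU`), so `pattern_of_anti` gives `N' < N0`, and `N ≤ |Bs.1| |Bs.2.1|`. -/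
theorem small (k m : ℕ) (e : ℝ) (he : 0 < e) (he1 : e ≤ 1) : ∃ N0 : ℕ,
    ∀ (G : ℂ → ℂ → ℂ → ℝ) (S kz : ℂ → ℝ) (TT : Finset Tri) (B : Box) (cy cx cz : ℂ → Finset ℂ)
      (T U : ℂ → ℝ), Latin TT → ¬ Pattern k TT → Set.InjOn S B.1 →
      Spl G S kz TT B cy cx cz T U → ∀ Bs : Box, SubB Bs B → (∀ a ∈ Bs.1, (cy a).card ≤ m) →
      (∀ a ∈ Bs.2.1, (cx a).card ≤ m) → (∀ a ∈ Bs.2.2, (cz a).card ≤ m) →
        ((inBox TT Bs).card : ℝ) ≤ e * GM Bs + N0 * Bs.1.card := by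
  rcases Nat.eq_zero_or_pos m with rfl | m0
  · refine ⟨0, fun G S kz TT B cy cx cz T U _ _ _ sp Bs sB h1 _ _ => ?_⟩
    have : inBox TT Bs = ∅ := by
      rw [eq_empty_iff_forall_notMem]
      intro u hu
      unfold inBox at hu
      have a := (mem_filter.1 hu).2.1
      have := card_pos.2 ⟨_, (sp.hy _ (sB.1 a)).1⟩
      have := h1 _ a
      omega
    rw [this]
    simpa using mul_nonneg he.le (GM_nonneg Bs)
  have m1 : (0 : ℝ) < m := by exact_mod_cast m0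
  obtain ⟨N0, hN0⟩ := pattern_of_anti k (e ^ 5 / m ^ 3) (by positivity)
  refine ⟨N0, fun G S kz TT B cy cx cz T U hL hP iS sp Bs sB h1 h2 h3 => ?_⟩
  have g0 := mul_nonneg he.le (GM_nonneg Bs)
  rcases le_or_gt ((inBox TT Bs).card : ℝ) (e * GM Bs) with l | l
  · exact le_add_of_le_of_nonneg l (by positivity)
  obtain ⟨N, n1, n2, n3, n4⟩ : ∃ N : ℕ, Bs.1.card ≤ N ∧ Bs.2.1.card ≤ N ∧ Bs.2.2.card ≤ N ∧
      e ^ 6 * (N : ℝ) ^ 3 ≤ Bs.1.card * Bs.2.1.card * Bs.2.2.card := by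
    obtain ⟨⟨r1, r2⟩, ⟨r3, r4⟩, r5, r6⟩ := live_ratio hL he l
    have key : ∀ a b c : ℝ, 0 ≤ a → e ^ 3 * a < b → e ^ 3 * a < c → e ^ 6 * a ^ 3 ≤ a * b * c := by
      intro a b c a0 s1 s2
      have p : 0 ≤ e ^ 3 * a := by positivity
      calc _ = a * (e ^ 3 * a) * (e ^ 3 * a) := by ring
        _ ≤ _ := mul_le_mul (mul_le_mul_of_nonneg_left s1.le a0) s2.le p
            (mul_nonneg a0 (p.trans s1.le))
    rcases le_total Bs.1.card Bs.2.1.card with a1 | a1 <;>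
      rcases le_total Bs.2.1.card Bs.2.2.card with a2 | a2 <;>
      rcases le_total Bs.1.card Bs.2.2.card with a3 | a3
    any_goals first
      | exact ⟨Bs.1.card, by omega, by omega, by omega, key _ _ _ (by positivity) r1 r2⟩
      | exact ⟨Bs.2.1.card, by omega, by omega, by omega,
          le_of_le_of_eq (key _ _ _ (by positivity) r3 r4) (by ring)⟩
      | exact ⟨Bs.2.2.card, by omega, by omega, by omega,
          le_of_le_of_eq (key _ _ _ (by positivity) r5 r6) (by ring)⟩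
  have n5 : e ^ 4 * (N : ℝ) ^ 2 ≤ GM Bs := by
    refine le_of_pow_le_pow_left₀ (n := 3) (by norm_num) (GM_nonneg Bs) ?_
    rw [GM_cube]
    calc _ = (e ^ 6 * (N : ℝ) ^ 3) ^ 2 := by ring
      _ ≤ _ := pow_le_pow_left₀ (by positivity) n4 2
  have nN : N ≤ N0 := by
    by_contra hh
    obtain ⟨l1, a1, b1⟩ := exists_label sp.hy m
    obtain ⟨l2, a2, b2⟩ := exists_label sp.hx m
    obtain ⟨l3, a3, b3⟩ := exists_label sp.hz m
    have mB : ∀ u ∈ inBox TT Bs, u ∈ TT ∧ u.1 ∈ Bs.1 ∧ u.2.1 ∈ Bs.2.1 ∧ u.2.2 ∈ Bs.2.2 := by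
      intro u hu; unfold inBox at hu; rw [mem_filter] at hu; exact hu
    obtain ⟨q, _, hq⟩ := exists_le_card_fiber_of_nsmul_le_card_of_maps_to
      (s := inBox TT Bs) (t := range m ×ˢ range m ×ˢ range m)
      (f := fun u => (l1 u.1, l2 u.2.1, l3 u.2.2)) (b := e ^ 5 / m ^ 3 * (N : ℝ) ^ 2) (by
        intro u hu
        obtain ⟨_, u1, u2, u3⟩ := mB u hu
        simp only [mem_product, mem_range]
        exact ⟨a1 _ (sB.1 u1) (h1 _ u1), a2 _ (sB.2.1 u2) (h2 _ u2), a3 _ (sB.2.2 u3) (h3 _ u3)⟩)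
      ⟨(0, 0, 0), by simp [m0]⟩ (by
        simp only [card_product, card_range, nsmul_eq_mul]
        push_cast
        have := mul_le_mul_of_nonneg_left n5 he.le
        have e1 : (m : ℝ) * (m * m) * (e ^ 5 / m ^ 3 * (N : ℝ) ^ 2) =
          e * (e ^ 4 * (N : ℝ) ^ 2) := by field_simp
        linarith)
    apply hP
    refine (hN0 N (by omega) (Bs.1.filter (fun a => l1 a = q.1))
      (Bs.2.1.filter (fun a => l2 a = q.2.1)) (Bs.2.2.filter (fun a => l3 a = q.2.2)) S T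
      (fun z => -U z) _ ((card_filter_le _ _).trans n1) ((card_filter_le _ _).trans n2)
      ((card_filter_le _ _).trans n3) ?_ ?_ ?_ ?_ ?_ hq).mono ?_
    · intro u hu
      obtain ⟨hu1, hu2⟩ := mem_filter.1 hu
      obtain ⟨_, u1, u2, u3⟩ := mB u hu1
      subst hu2
      simp only [mem_product, mem_filter]
      exact ⟨⟨u1, trivial⟩, ⟨u2, trivial⟩, u3, trivial⟩
    · intro a ha b hb e'
      exact iS (sB.1 (mem_filter.1 ha).1) (sB.1 (mem_filter.1 hb).1) e'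
    · intro a ha b hb e'
      obtain ⟨c1, c2⟩ := mem_filter.1 ha
      obtain ⟨d1, d2⟩ := mem_filter.1 hb
      exact b2 a (sB.2.1 c1) b (sB.2.1 d1) (sp.kT a (sB.2.1 c1) b (sB.2.1 d1) e') (c2.trans d2.symm)
    · intro a ha b hb e'
      obtain ⟨c1, c2⟩ := mem_filter.1 ha
      obtain ⟨d1, d2⟩ := mem_filter.1 hb
      exact b3 a (sB.2.2 c1) b (sB.2.2 d1) (sp.kU a (sB.2.2 c1) b (sB.2.2 d1) (neg_inj.1 e'))
        (c2.trans d2.symm)
    · intro u hu v hv o1 o2 o3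
      obtain ⟨hu1, hu2⟩ := mem_filter.1 hu
      obtain ⟨hv1, hv2⟩ := mem_filter.1 hv
      obtain ⟨u0, u1, u2, u3⟩ := mB u hu1
      obtain ⟨v0, v1, v2, v3⟩ := mB v hv1
      have e' := hu2.trans hv2.symm
      simp only [Prod.mk.injEq] at e'
      obtain ⟨k1, k2, k3⟩ := sp.anti u (mem_filter.2 ⟨u0, sB.1 u1, sB.2.1 u2, sB.2.2 u3⟩) v
        (mem_filter.2 ⟨v0, sB.1 v1, sB.2.1 v2, sB.2.2 v3⟩)
        (o1.eq_or_lt.imp (fun e => by rw [iS (sB.1 u1) (sB.1 v1) e]) id)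
        (o2.eq_or_lt.imp (sp.kT _ (sB.2.1 u2) _ (sB.2.1 v2)) id)
        ((neg_le_neg_iff.1 o3).eq_or_lt.imp
          (fun e => sp.kU _ (sB.2.2 u3) _ (sB.2.2 v3) e.symm) id)
      exact Prod.ext (b1 _ (sB.1 u1) _ (sB.1 v1) k1 e'.1) (Prod.ext
        (b2 _ (sB.2.1 u2) _ (sB.2.1 v2) k2 e'.2.1) (b3 _ (sB.2.2 u3) _ (sB.2.2 v3) k3 e'.2.2))
    · intro u hu
      exact (mB u (mem_filter.1 hu).1).1
  have := (inBox_le hL Bs).1.trans (Nat.mul_le_mul_left _ (n2.trans nN))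
  have : ((inBox TT Bs).card : ℝ) ≤ Bs.1.card * N0 := by exact_mod_cast this
  linarith

end Pool.Agent.Lib.MP_990519_co.Big
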