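import Pool.Agent.Lib.MP_990519_co.Big.P3

namespace Pool.Agent.Lib.MP_990519_co.Big

open Finset
open scoped Classical ComplexConjugate

theorem Sys.restrict {S Y X Z : Finset ℂ} {ky kz : ℂ → ℝ} {TT : Finset Tri}
    (h : Sys S Y X Z ky kz TT) {I J L : Finset ℂ} (hI : I ⊆ Y) (hJ : J ⊆ X) (hL : L ⊆ Z) :
    Sys S I J L ky kz (inBox TT (I, J, L)) := by
  have hs : inBox TT (I, J, L) ⊆ TT := filter_subset _ _
  exact ⟨hI.trans h.sY, hJ.trans h.sX, hL.trans h.sZ, h.dj.mono hJ hL, h.iy.mono hI, h.iz.mono hL,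
    fun y hy y' hy' x hx z hz => h.K1 y (hI hy) y' (hI hy') x (hJ hx) z (hL hz),
    fun y hy z hz z' hz' => h.K2 y (hI hy) z (hL hz) z' (hL hz'),
    fun u hu => mem_product.2 ⟨(mem_filter.1 hu).2.1, mem_product.2 (mem_filter.1 hu).2.2⟩,
    fun u hu => h.tie u (hs hu), fun u hu v hv => h.one u (hs hu) v (hs hv)⟩

theorem Flat.restrict {S Y X Z : Finset ℂ} {ky : ℂ → ℝ} {nr : ℂ → ℂ} {s om : ℝ} {TT : Finset Tri}
    (h : Flat S Y X Z ky nr s om TT) {I J L : Finset ℂ} (hI : I ⊆ Y) (hJ : J ⊆ X) (hL : L ⊆ Z) :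
    Flat S I J L ky nr s om (inBox TT (I, J, L)) := by
  exact ⟨h.hs, fun x hx => h.unit x (hJ hx), fun x hx => h.supp x (hJ hx),
    fun x hx y hy z hz => h.o1 x (hJ hx) y (hI hy) z (hL hz),
    fun x hx y hy y' hy' z hz => h.o2 x (hJ hx) y (hI hy) y' (hI hy') z (hL hz),
    fun u hu => h.nor u (mem_filter.1 hu).1⟩

theorem w1_mem {S Y X Z : Finset ℂ} {ky kz : ℂ → ℝ} {TT : Finset Tri}
    (h : Sys S Y X Z ky kz TT) {u : Tri} (hu : u ∈ TT) : u.1 ∈ Y ∧ u.2.1 ∈ X ∧ u.2.2 ∈ Z :=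
  ⟨(mem_product.1 (h.sub hu)).1, mem_product.1 (mem_product.1 (h.sub hu)).2⟩

theorem Sys.chain {S Y X Z : Finset ℂ} {ky kz : ℂ → ℝ} {TT : Finset Tri}
    (h : Sys S Y X Z ky kz TT) {u v : Tri} (hu : u ∈ TT) (hv : v ∈ TT) (hx : u.2.1 = v.2.1) :
    (ky u.1 < ky v.1 → kz u.2.2 < kz v.2.2) ∧ (u.1 = v.1 → u = v) ∧ (u.2.2 = v.2.2 → u = v) := by
  have key : ∀ {u v : Tri}, u ∈ TT → v ∈ TT → u.2.1 = v.2.1 → ky u.1 < ky v.1 →
      kz u.2.2 < kz v.2.2 := fun {u v} hu hv hx hy => by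
    obtain ⟨a1, a2, a3⟩ := w1_mem h hu
    obtain ⟨b1, -, b3⟩ := w1_mem h hv
    have h1 := h.K1 _ a1 _ b1 _ a2 _ a3 hy
    rw [h.tie u hu, sub_self, hx, h.tie v hv, sub_pos] at h1
    rcases lt_trichotomy (kz u.2.2) (kz v.2.2) with h2 | h2 | h2
    · exact h2
    · rw [h.iz a3 b3 h2] at h1
      exact absurd h1 (lt_irrefl _)
    · exact absurd h1 (h.K2 _ b1 _ b3 _ a3 h2).not_gt
  obtain ⟨a1, a2, a3⟩ := w1_mem h hu
  obtain ⟨b1, -, b3⟩ := w1_mem h hv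
  refine ⟨key hu hv hx, fun e => h.one u hu v hv e ?_, fun e => h.one u hu v hv ?_ e⟩
  · have h1 : dist u.1 u.2.2 = dist u.1 v.2.2 := by rw [← h.tie u hu, hx, e, h.tie v hv]
    rcases lt_trichotomy (kz u.2.2) (kz v.2.2) with h2 | h2 | h2
    · exact absurd h1 (h.K2 _ a1 _ a3 _ b3 h2).ne
    · exact h.iz a3 b3 h2
    · exact absurd h1 (h.K2 _ a1 _ b3 _ a3 h2).ne'
  · rcases lt_trichotomy (ky u.1) (ky v.1) with h2 | h2 | h2
    · exact absurd (congrArg kz e) (key hu hv hx h2).ne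
    · exact h.iy a1 b1 h2
    · exact absurd (congrArg kz e) (key hv hu hx.symm h2).ne'

theorem w1_poor {α β : Type} [DecidableEq β] (s : Finset α) (f : α → β) {t : Finset β} (h : ∀ u ∈ s, f u ∈ t)
    {θ : ℝ} (hθ : 0 ≤ θ) : (s.card : ℝ) ≤ t.card * θ +
      (s.filter fun u => θ ≤ (s.filter fun v => f v = f u).card).card := by
  rw [← card_filter_add_card_filter_not (s := s) fun u => θ ≤ (s.filter fun v => f v = f u).card,
    Nat.cast_add, add_comm, add_le_add_iff_right, ← nsmul_eq_mul,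
    card_eq_sum_card_fiberwise (f := f) (t := t) fun u hu => h u (mem_filter.1 hu).1, Nat.cast_sum]
  refine sum_le_card_nsmul _ _ _ fun b _ => ?_
  rcases (filter (fun u => f u = b) (s.filter fun u =>
    ¬ θ ≤ (s.filter fun v => f v = f u).card)).eq_empty_or_nonempty with e | ⟨u, hu⟩
  · rwa [e, card_empty, Nat.cast_zero]
  · obtain ⟨h1, rfl⟩ := mem_filter.1 hu
    exact (Nat.cast_le.2 (card_le_card (filter_subset_filter _ (filter_subset _ _)))).trans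
      (not_le.1 (mem_filter.1 h1).2).le

theorem w1_win {Y : Finset ℂ} {ky : ℂ → ℝ} (h : Set.InjOn ky Y) {n m : ℕ} (hn : Y.card ≤ n)
    (hm : 1 ≤ m) : ∃ a : ℂ → ℕ, (∀ y ∈ Y, a y < n / m + 1) ∧
      (∀ y ∈ Y, ∀ y' ∈ Y, ky y ≤ ky y' → a y ≤ a y') ∧ ∀ i, (Y.filter (a · = i)).card ≤ m := by
  obtain ⟨r, h1, h2⟩ := exists_rank Y ky h
  refine ⟨fun y => r y / m, fun y hy => Nat.lt_succ_of_le (Nat.div_le_div_right
    ((h1 y hy).le.trans hn)), fun y hy y' hy' e => Nat.div_le_div_right ((h2 y hy y' hy').2 e),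
    fun i => ?_⟩
  refine (card_le_card_of_injOn (t := range m) (fun y => r y % m)
    (fun y _ => mem_range.2 (Nat.mod_lt _ hm)) fun y hy y' hy' e => ?_).trans_eq (card_range m)
  obtain ⟨g1, g2⟩ := mem_filter.1 hy
  obtain ⟨g3, g4⟩ := mem_filter.1 hy'
  have e1 : r y = r y' := by
    rw [← Nat.div_add_mod (r y) m, ← Nat.div_add_mod (r y') m]
    exact congrArg₂ (m * · + ·) (g2.trans g4.symm) e
  exact h g1 g3 (le_antisymm ((h2 _ g1 _ g3).1 e1.le) ((h2 _ g3 _ g1).1 e1.ge))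

theorem win (ε : ℝ) (hε : 0 < ε) (m : ℕ) (hm : 1 ≤ m) {S Y X Z : Finset ℂ} {ky kz : ℂ → ℝ}
    {TT : Finset Tri} (hn : m ≤ S.card) (h : Sys S Y X Z ky kz TT)
    (hT : ε * (S.card : ℝ) ^ 2 ≤ TT.card) :
    ∃ (L : Finset ℂ) (AA : Finset Box), L ⊆ Z ∧ L.card ≤ m ∧ ε * S.card / (4 * m) ≤ AA.card ∧
      (∀ B ∈ AA, B.1 ⊆ Y ∧ B.2.1 ⊆ X ∧ B.2.2 = L ∧ B.1.card ≤ m ∧
        (B.2.1.card : ℝ) ≤ 16 * m / ε ∧ ε * (m : ℝ) ^ 2 / 16 ≤ (inBox TT B).card) ∧
      ∀ B ∈ AA, ∀ B' ∈ AA, B ≠ B' → Disjoint B.1 B'.1 := by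
  obtain ⟨a, a1, a2, a3⟩ := w1_win h.iy (card_le_card h.sY) hm
  obtain ⟨b, b1, b2, b3⟩ := w1_win h.iz (card_le_card h.sZ) hm
  generalize hK : S.card / m + 1 = K at a1 b1
  have hm' : (0 : ℝ) < m := Nat.cast_pos.2 hm
  have hn' : (m : ℝ) ≤ S.card := Nat.cast_le.2 hn
  have hK' : (K : ℝ) * m ≤ 2 * S.card := by
    have h1 : ((S.card / m * m : ℕ) : ℝ) ≤ S.card := Nat.cast_le.2 (Nat.div_mul_le_self _ _)
    rw [← hK]
    push_cast at h1 ⊢
    linarith
  have hK0 : 0 < K := hK ▸ Nat.succ_pos _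
  let lab : Tri → ℂ × ℕ × ℕ := fun u => (u.2.1, a u.1, b u.2.2)
  let c : ℂ × ℕ × ℕ → ℝ := fun p => (TT.filter fun v => lab v = p).card
  have hW : ∀ i j, (TT.filter fun u => a u.1 = i ∧ b u.2.2 = j).card ≤ m * m := fun i j => by
    refine (card_le_card_of_injOn (t := Y.filter (a · = i) ×ˢ Z.filter (b · = j))
      (fun u => (u.1, u.2.2)) (fun u hu => ?_) fun u hu v hv e => ?_).trans ?_
    · obtain ⟨h1, h2⟩ := mem_filter.1 hu
      exact mem_product.2 ⟨mem_filter.2 ⟨(w1_mem h h1).1, h2.1⟩,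
        mem_filter.2 ⟨(w1_mem h h1).2.2, h2.2⟩⟩
    · exact h.one u (mem_filter.1 hu).1 v (mem_filter.1 hv).1 (Prod.mk.inj e).1
        (Prod.mk.inj e).2
    · rw [card_product]
      exact Nat.mul_le_mul (a3 i) (b3 j)
  have hΛ : (TT.image lab).card ≤ S.card * (2 * K) := by
    rw [← card_range (2 * K), ← card_product]
    refine card_le_card_of_injOn (fun p => (p.1, p.2.1 + p.2.2)) (fun p hp => ?_)
      fun p hp q hq e => ?_
    · obtain ⟨u, hu, rfl⟩ := mem_image.1 hp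
      obtain ⟨h1, h2, h3⟩ := w1_mem h hu
      exact mem_product.2 ⟨h.sX h2, mem_range.2
        ((add_lt_add (a1 _ h1) (b1 _ h3)).trans_eq (two_mul K).symm)⟩
    · obtain ⟨u, hu, rfl⟩ := mem_image.1 hp
      obtain ⟨v, hv, rfl⟩ := mem_image.1 hq
      obtain ⟨h1, -, h3⟩ := w1_mem h hu
      obtain ⟨g1, -, g3⟩ := w1_mem h hv
      have e1 : u.2.1 = v.2.1 := (Prod.mk.inj e).1
      have e2 : a u.1 + b u.2.2 = a v.1 + b v.2.2 := (Prod.mk.inj e).2
      have e3 : a u.1 = a v.1 := by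
        rcases lt_trichotomy (ky u.1) (ky v.1) with h2 | h2 | h2
        · have := a2 _ h1 _ g1 h2.le
          have := b2 _ h3 _ g3 ((h.chain hu hv e1).1 h2).le
          omega
        · rw [h.iy h1 g1 h2]
        · have := a2 _ g1 _ h1 h2.le
          have := b2 _ g3 _ h3 ((h.chain hv hu e1.symm).1 h2).le
          omega
      exact Prod.ext e1 (Prod.ext e3 (by simp only [lab]; omega))
  let R := TT.filter fun u => ε * m / 16 ≤ c (lab u)
  have hR : K • (3 * ε * S.card * m / 8) ≤ (R.card : ℝ) := by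
    have h1 : _ ≤ _ + (R.card : ℝ) :=
      w1_poor TT lab (fun u hu => mem_image_of_mem _ hu) (θ := ε * m / 16) (by positivity)
    have h2 : ((TT.image lab).card : ℝ) ≤ S.card * (2 * K) := by exact_mod_cast hΛ
    have h3 := mul_le_mul_of_nonneg_right h2 (show 0 ≤ ε * m / 16 by positivity)
    have h4 := mul_le_mul_of_nonneg_left hK' (show 0 ≤ ε * S.card by positivity)
    rw [nsmul_eq_mul]
    linarith
  obtain ⟨j, -, hj⟩ := exists_le_card_fiber_of_nsmul_le_card_of_maps_to (s := R) (t := range K)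
    (f := fun u => b u.2.2) (fun u hu => mem_range.2 (b1 _ (w1_mem h (mem_filter.1 hu).1).2.2))
    (nonempty_range_iff.2 hK0.ne') (by rwa [card_range])
  generalize hR' : R.filter (fun u => b u.2.2 = j) = R' at hj
  have hR1 : ∀ u ∈ R', u ∈ TT ∧ ε * m / 16 ≤ c (lab u) ∧ b u.2.2 = j := fun u hu => by
    rw [← hR', mem_filter, mem_filter] at hu
    exact ⟨hu.1.1, hu.1.2, hu.2⟩
  let I := (range K).filter fun i => ε * (m : ℝ) ^ 2 / 16 ≤ (R'.filter fun u => a u.1 = i).card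
  let B : ℕ → Box := fun i =>
    (Y.filter (a · = i), X.filter fun x => ε * m / 16 ≤ c (x, i, j), Z.filter (b · = j))
  have hf : ∀ u ∈ R', a u.1 ∈ range K := fun u hu => mem_range.2 (a1 _ (w1_mem h (hR1 u hu).1).1)
  have hI : ε * S.card / (4 * m) ≤ I.card := by
    have h1 := w1_poor R' (fun u => a u.1) hf (θ := ε * (m : ℝ) ^ 2 / 16) (by positivity)
    have h2 := card_le_mul_card_image_of_maps_to (t := I) (f := fun u : Tri => a u.1)
      (s := R'.filter fun u => ε * (m : ℝ) ^ 2 / 16 ≤ (R'.filter fun v => a v.1 = a u.1).card)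
      (fun u hu => mem_filter.2 ⟨hf u (mem_filter.1 hu).1, (mem_filter.1 hu).2⟩) (m * m)
      fun i _ => (card_le_card fun u hu => mem_filter.2 ⟨(hR1 u (mem_filter.1 (mem_filter.1 hu).1).1).1,
        (mem_filter.1 hu).2, (hR1 u (mem_filter.1 (mem_filter.1 hu).1).1).2.2⟩).trans (hW i j)
    have h3 := Nat.cast_le (α := ℝ).2 h2
    have h4 := mul_le_mul_of_nonneg_left hK' (show 0 ≤ ε * m by positivity)
    rw [card_range] at h1
    push_cast at h3
    rw [div_le_iff₀ (by positivity)]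
    refine le_of_mul_le_mul_right ?_ hm'
    linarith
  refine ⟨Z.filter (b · = j), I.image B, filter_subset _ _, b3 j, ?_, fun B' hB => ?_,
    fun B₁ h1 B₂ h2 hne => ?_⟩
  · rwa [card_image_of_injOn fun i hi i' _ e => ?_]
    have h1 : (0 : ℝ) < (R'.filter fun u => a u.1 = i).card :=
      lt_of_lt_of_le (by positivity) (mem_filter.1 hi).2
    obtain ⟨u, hu⟩ := card_pos.1 (Nat.cast_pos.1 h1)
    obtain ⟨h2, h3⟩ := mem_filter.1 hu
    have h4 : u.1 ∈ (B i).1 := mem_filter.2 ⟨(w1_mem h (hR1 u h2).1).1, h3⟩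
    rw [e] at h4
    exact h3.symm.trans (mem_filter.1 h4).2
  · obtain ⟨i, hi, rfl⟩ := mem_image.1 hB
    refine ⟨filter_subset _ _, filter_subset _ _, rfl, a3 i, ?_,
      (mem_filter.1 hi).2.trans (Nat.cast_le.2 (card_le_card fun u hu => ?_))⟩
    · have h1 := card_nsmul_le_sum (B i).2.1 (fun x => c (x, i, j)) _ fun x hx => (mem_filter.1 hx).2
      have h2 := (sum_card_fiberwise_eq_card_filter (TT.filter fun u => a u.1 = i ∧ b u.2.2 = j)
        (B i).2.1 fun u => u.2.1).le.trans ((card_filter_le _ _).trans (hW i j))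
      have h3 := Nat.cast_le (α := ℝ).2 h2
      simp only [c, lab, Prod.mk.injEq, nsmul_eq_mul] at h1
      simp only [filter_filter, and_comm (b := _ = _) (a := _ ∧ _), Nat.cast_sum, Nat.cast_mul] at h3
      rw [le_div_iff₀ hε]
      refine le_of_mul_le_mul_right ?_ hm'
      linarith
    · obtain ⟨h1, rfl⟩ := mem_filter.1 hu
      obtain ⟨h2, h3, h4⟩ := hR1 u h1
      obtain ⟨g1, g2, g3⟩ := w1_mem h h2
      exact mem_filter.2 ⟨h2, mem_filter.2 ⟨g1, rfl⟩, mem_filter.2 ⟨g2, h4 ▸ h3⟩,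
        mem_filter.2 ⟨g3, h4⟩⟩
  · obtain ⟨i, -, rfl⟩ := mem_image.1 h1
    obtain ⟨i', -, rfl⟩ := mem_image.1 h2
    exact disjoint_filter.2 fun y _ e e' => hne (by rw [← e, ← e'])

end Pool.Agent.Lib.MP_990519_co.Big
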