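import Pool.Agent.Lib.MP_990519_co.Big.W1
import Pool.Agent.Lib.MP_990519_co.Big.C2

namespace Pool.Agent.Lib.MP_990519_co.Big

open Finset
open scoped Classical ComplexConjugate

/-- a pattern of ties gives a good tie and nine points of the third family on its curve
(`exists_st` for membership, `Sys.dj` for `PatD.ne`) -/
theorem pat_good {k : ℕ} (hk : Rigid k) {S Y X Z : Finset ℂ} (hS : Cvx S) {ky kz : ℂ → ℝ}
    {TT : Finset Tri} (h : Sys S Y X Z ky kz TT) (hp : Pattern k TT) :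
    ∃ w : Cv, Valid w ∧ (∃ u ∈ TT, Good w u.1 u.2.1 u.2.2) ∧
      ∃ F : Finset ℂ, F ⊆ Z ∧ 9 ≤ F.card ∧ ∀ z ∈ F, On w z := by
  obtain ⟨y, x, z, iy, ix, iz, hp⟩ := hp
  have h1 := fun χ => mem_product.1 (h.sub (hp χ))
  have hy : ∀ I, y I ∈ Y := fun I => by
    obtain ⟨χ, rfl⟩ := exists_st I 0
    exact (h1 χ).1
  have hx : ∀ I, x I ∈ X := fun I => by
    obtain ⟨χ, rfl⟩ := exists_st I 1
    exact (mem_product.1 (h1 χ).2).1
  have hz : ∀ I, z I ∈ Z := fun I => by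
    obtain ⟨χ, rfl⟩ := exists_st I 2
    exact (mem_product.1 (h1 χ).2).2
  obtain ⟨w, hw, ⟨χ, h2⟩, F, h3, h4⟩ := hk S hS y x z ⟨fun I => h.sY (hy I), fun I => h.sX (hx I),
    fun I => h.sZ (hz I), iy, ix, iz, fun I J e => disjoint_left.1 h.dj (hx I) (e ▸ hz J),
    fun χ => h.tie _ (hp χ)⟩
  refine ⟨w, hw, ⟨_, hp χ, h2⟩, F, fun a ha => ?_, h3, fun a ha => (h4 a ha).1⟩
  obtain ⟨J, rfl⟩ := (h4 a ha).2
  exact hz J

/-- paper 5.2.  `ε ≤ 1` or the hypotheses are contradictory (`TT.card ≤ n²` by `Sys.one`).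
`m = max M1 1`, `M = ⌈16 m / ε⌉₊`, `c = ε³ / (16 * 17²)`, `γ = ε / (4 m² 2 ^ m)`.  Apply `win`;
each box gives `w, u, F ⊆ L` by `pat_good`; pigeonhole on `(F, u.2.2) ∈ L.powerset ×ˢ L`; equal `F`
means equal `w` (`int8`); different boxes have different `u.1`, hence different `u.2.1`
(`Sys.chain`), and all these `u.2.1` are on `w`. -/
theorem winpop {k : ℕ} (hk : Rigid k) (ε : ℝ) (hε : 0 < ε) : ∃ c : ℝ, 0 < c ∧ ∀ M1 : ℕ,
    ∃ M : ℕ, M1 ≤ M ∧ ∃ γ : ℝ, 0 < γ ∧ ∃ n0 : ℕ, ∀ S : Finset ℂ, Cvx S → n0 ≤ S.card →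
      ∀ (Y X Z : Finset ℂ) (ky kz : ℂ → ℝ) (TT : Finset Tri), Sys S Y X Z ky kz TT →
        ε * (S.card : ℝ) ^ 2 ≤ TT.card →
        (∀ I J L : Finset ℂ, I ⊆ Y → J ⊆ X → L ⊆ Z → I.card ≤ M → J.card ≤ M → L.card ≤ M →
          c * (M : ℝ) ^ 2 ≤ (inBox TT (I, J, L)).card → Pattern k (inBox TT (I, J, L))) →
        ∃ u ∈ TT, GGood S γ u.1 u.2.1 u.2.2 := by
  refine ⟨ε / 16 / (16 / ε + 2) ^ 2, by positivity, fun M1 => ?_⟩
  obtain ⟨m, hm, hm1⟩ : ∃ m, M1 ≤ m ∧ 1 ≤ m := ⟨_, le_max_left _ _, le_max_right _ _⟩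
  have hm0 : (1 : ℝ) ≤ m := by exact_mod_cast hm1
  refine ⟨⌈16 * m / ε⌉₊ + m, le_add_left hm, ε / (4 * m) / (2 ^ m * m), by positivity, m,
    fun S hS hn Y X Z ky kz TT h hT hP => ?_⟩
  have hn0 : (0 : ℝ) < S.card := by exact_mod_cast hm1.trans hn
  obtain ⟨L, AA, hL, h1, h2, h3, h4⟩ := win ε hε m hm1 hn h hT
  have hM : ((⌈16 * m / ε⌉₊ + m : ℕ) : ℝ) ≤ (16 / ε + 2) * m := by
    have := Nat.ceil_lt_add_one (show 0 ≤ 16 * m / ε by positivity)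
    rw [Nat.cast_add, add_mul, div_mul_eq_mul_div]
    linarith
  choose! w hw hu F hF using fun B (hB : B ∈ AA) => by
    obtain ⟨a1, a2, a3, a4, a5, a6⟩ := h3 B hB
    refine pat_good hk hS (h.restrict a1 a2 (a3 ▸ hL)) (hP _ _ _ a1 a2 (a3 ▸ hL) (le_add_left a4)
      (le_add_right (Nat.cast_le.1 (a5.trans (Nat.le_ceil _)))) (le_add_left (a3 ▸ h1))
      (le_trans ?_ a6))
    refine (mul_le_mul_of_nonneg_left (pow_le_pow_left₀ (Nat.cast_nonneg _) hM 2)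
      (by positivity)).trans_eq ?_
    field_simp
  choose! u hu hu' using hu
  simp only [inBox, mem_filter] at hu
  have h5 : ∀ B ∈ AA, (F B, (u B).2.2) ∈ L.powerset ×ˢ L := fun B hB => by
    rw [← (h3 B hB).2.2.1]
    exact mk_mem_product (mem_powerset.2 (hF B hB).1) (hu B hB).2.2.2
  obtain ⟨B₁, hB₁⟩ : AA.Nonempty := card_pos.1 (Nat.cast_pos.1 (lt_of_lt_of_le (by positivity) h2))
  obtain ⟨p, -, h6⟩ := exists_le_card_fiber_of_nsmul_le_card_of_maps_to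
    (b := ε / (4 * m) / (2 ^ m * m) * S.card) h5 ⟨_, h5 B₁ hB₁⟩ (by
      refine le_trans (nsmul_le_nsmul_left (m := 2 ^ m * m) ?_ ?_) (le_of_eq_of_le ?_ h2)
      · positivity
      · rw [card_product, card_powerset]
        exact Nat.mul_le_mul (Nat.pow_le_pow_right two_pos h1) h1
      · rw [nsmul_eq_mul]
        push_cast
        field_simp)
  obtain ⟨B₀, hB₀⟩ := card_pos.1 (Nat.cast_pos.1 (lt_of_lt_of_le (by positivity) h6))
  obtain ⟨b1, rfl⟩ := mem_filter.1 hB₀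
  refine ⟨u B₀, (hu B₀ b1).1, w B₀, ⟨hw B₀ b1, h6.trans (Nat.cast_le.2 (card_le_card_of_injOn
    (fun B => (u B).2.1) (fun B hB => ?_) fun B hB B' hB' e => ?_))⟩, hu' B₀ b1⟩
  · obtain ⟨c1, c2⟩ := mem_filter.1 hB
    have c3 : w B = w B₀ := by_contra fun e => by
      have := int8 (hw B c1) (hw B₀ b1) e (F B) fun z hz =>
        ⟨(hF B c1).2.2 z hz, (hF B₀ b1).2.2 z ((Prod.mk.inj c2).1 ▸ hz)⟩
      have := (hF B c1).2.1
      omega
    exact mem_coe.2 (mem_filter.2 ⟨h.sX ((h3 B c1).2.1 (hu B c1).2.2.1), c3 ▸ (hu' B c1).on.1⟩)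
  · obtain ⟨c1, c2⟩ := mem_filter.1 hB
    obtain ⟨c3, c4⟩ := mem_filter.1 hB'
    have c5 := (h.chain (hu B c1).1 (hu B' c3).1 e).2.2 (Prod.mk.inj (c2.trans c4.symm)).2
    exact by_contra fun e' => disjoint_left.1 (h4 B c1 B' c3 e') (hu B c1).2.1 (c5 ▸ (hu B' c3).2.1)

end Pool.Agent.Lib.MP_990519_co.Big
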